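import Mathlib

set_option autoImplicit false

namespace Pool.Agent.H7.Adam

open Finset

section Generic
variable {V : Type} [DecidableEq V]

/-- balanced arc sets, arcs read through `g` -/
def Bal (g : V × V → V × V) (S : Finset (V × V)) : Prop :=
  ∀ x : V, (S.filter (fun a => (g a).1 = x)).card = (S.filter (fun a => (g a).2 = x)).card

/-- minimal nonempty balanced subsets -/
def Cyc (g : V × V → V × V) (E : Finset (V × V)) : Set (Finset (V × V)) :=
  {S | S ⊆ E ∧ S.Nonempty ∧ Bal g S ∧ ∀ T ⊆ S, T.Nonempty → Bal g T → T = S}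

def rev (e : V × V) (a : V × V) : V × V := if a = e then a.swap else a

theorem bal_image {ι : Type} [DecidableEq ι] (g : V × V → V × V) (O : Finset ι) (s : ι → ι)
    (hs : O.image s = O) (a : ι → V × V) (ha : Set.InjOn a O) (w : ι → V)
    (hw : ∀ i ∈ O, g (a i) = (w i, w (s i))) : Bal g (O.image a) := by
  intro x
  have hinj : Set.InjOn s O := card_image_iff.mp (by rw [hs])
  rw [filter_image, filter_image, card_image_of_injOn (ha.mono (coe_subset.mpr (filter_subset _ _))),
    card_image_of_injOn (ha.mono (coe_subset.mpr (filter_subset _ _)))]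
  symm
  apply card_nbij s
  · intro i hi
    simp only [coe_filter, Set.mem_ofPred_eq] at hi ⊢
    have h1 : s i ∈ O := by rw [← hs]; exact mem_image_of_mem _ hi.1
    refine ⟨h1, ?_⟩
    rw [hw _ h1]
    have := hi.2
    rw [hw _ hi.1] at this
    exact this
  · exact hinj.mono (coe_subset.mpr (filter_subset _ _))
  · intro j hj
    simp only [coe_filter, Set.mem_ofPred_eq] at hj
    have h1 : j ∈ O.image s := by rw [hs]; exact hj.1
    obtain ⟨i, hi, rfl⟩ := mem_image.mp h1
    refine ⟨i, ?_, rfl⟩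
    simp only [coe_filter, Set.mem_ofPred_eq]
    refine ⟨hi, ?_⟩
    rw [hw _ hi]
    have := hj.2
    rw [hw _ hj.1] at this
    exact this

theorem bal_out {g : V × V → V × V} {S : Finset (V × V)} (h : Bal g S) {a : V × V} (ha : a ∈ S) :
    ∃ b ∈ S, (g b).1 = (g a).2 := by
  have h1 : 0 < (S.filter (fun b => (g b).2 = (g a).2)).card :=
    card_pos.mpr ⟨a, mem_filter.mpr ⟨ha, rfl⟩⟩
  rw [← h] at h1
  obtain ⟨b, hb⟩ := card_pos.mp h1
  exact ⟨b, (mem_filter.mp hb).1, (mem_filter.mp hb).2⟩

/-- structure of a minimal balanced set -/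
theorem cyc_struct {E S : Finset (V × V)} (h : S ∈ Cyc id E) :
    ∃ (O : Finset V) (f : V → V), S = O.image (fun v => (v, f v)) ∧ O.image f = O ∧
      ∀ O' ⊆ O, O'.Nonempty → (∀ v ∈ O', f v ∈ O') → O' = O := by
  classical
  obtain ⟨-, hne, hb, hmin⟩ := h
  have hf : ∀ v : V, ∃ u : V, v ∈ S.image Prod.fst → (v, u) ∈ S := by
    intro v
    by_cases hv : v ∈ S.image Prod.fst
    · obtain ⟨a, ha, rfl⟩ := mem_image.mp hv
      exact ⟨a.2, fun _ => ha⟩
    · exact ⟨v, fun h => absurd h hv⟩
  choose f hf using hf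
  have hcl : ∀ v ∈ S.image Prod.fst, f v ∈ S.image Prod.fst := by
    intro v hv
    obtain ⟨b, hb1, hb2⟩ := bal_out hb (hf v hv)
    exact mem_image.mpr ⟨b, hb1, hb2⟩
  obtain ⟨O, hO, hOmin⟩ := exists_min_image
    ((S.image Prod.fst).powerset.filter (fun O => O.Nonempty ∧ ∀ v ∈ O, f v ∈ O)) card
    ⟨S.image Prod.fst, mem_filter.mpr ⟨mem_powerset.mpr le_rfl, hne.image _, hcl⟩⟩
  obtain ⟨hO1, hO2, hO3⟩ := mem_filter.mp hO
  have hO1' := mem_powerset.mp hO1
  have key : ∀ O' ⊆ O, O'.Nonempty → (∀ v ∈ O', f v ∈ O') → O' = O := by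
    intro O' h1 h2 h3
    exact eq_of_subset_of_card_le h1
      (hOmin O' (mem_filter.mpr ⟨mem_powerset.mpr (h1.trans hO1'), h2, h3⟩))
  have himg : O.image f = O := by
    apply key
    · intro v hv
      obtain ⟨u, hu, rfl⟩ := mem_image.mp hv
      exact hO3 u hu
    · exact hO2.image _
    · intro v hv
      obtain ⟨u, hu, rfl⟩ := mem_image.mp hv
      exact mem_image_of_mem _ (hO3 u hu)
  refine ⟨O, f, ?_, himg, key⟩
  symm
  apply hmin
  · intro a ha
    obtain ⟨v, hv, rfl⟩ := mem_image.mp ha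
    exact hf v (hO1' hv)
  · exact hO2.image _
  · exact bal_image id O f himg _ (fun u _ v _ h => congrArg Prod.fst h) id (fun _ _ => rfl)

/-- a cycle through the reversed arc -/
theorem new_cyc {ι : Type} [DecidableEq ι] [Fintype ι] (E : Finset (V × V)) (s : ι → ι)
    (hs : Function.Bijective s) (hcyc : ∀ i j, ∃ k : ℕ, s^[k] i = j) (hss : ∀ i, s (s i) ≠ i)
    (w : ι → V) (hw : Function.Injective w) (r : ι) (e : V × V) (he : e = (w (s r), w r))
    (heE : e ∈ E) (hE : ∀ i, i ≠ r → (w i, w (s i)) ∈ E) :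
    (univ.image (fun i => if i = r then e else (w i, w (s i)))) ∈ Cyc (rev e) E := by
  set a : ι → V × V := fun i => if i = r then e else (w i, w (s i)) with ha
  have hg : ∀ i, rev e (a i) = (w i, w (s i)) := by
    intro i
    by_cases hi : i = r
    · subst hi
      simp [ha, rev, he]
    · have h1 : (w i, w (s i)) ≠ e := by
        rw [he]
        intro h
        have h2 := hw (congrArg Prod.fst h)
        have h3 := hw (congrArg Prod.snd h)
        apply hss r
        rw [← h2, h3]
      simp [ha, rev, hi, h1]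
  have hinj : Function.Injective a := by
    intro i j hij
    have h1 := hg i
    rw [hij, hg j] at h1
    exact (hw (congrArg Prod.fst h1)).symm
  refine ⟨?_, ⟨a r, mem_image_of_mem _ (mem_univ _)⟩, ?_, ?_⟩
  · intro b hb
    obtain ⟨i, -, rfl⟩ := mem_image.mp hb
    by_cases hi : i = r
    · simp [ha, hi, heE]
    · simp [ha, hi, hE i hi]
  · exact bal_image _ univ s (image_univ_of_surjective hs.2) a hinj.injOn w (fun i _ => hg i)
  · intro T hT hne hb
    have step : ∀ i, a i ∈ T → a (s i) ∈ T := by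
      intro i hi
      obtain ⟨b, hb1, hb2⟩ := bal_out hb hi
      obtain ⟨j, -, rfl⟩ := mem_image.mp (hT hb1)
      rw [hg, hg] at hb2
      have := hw hb2
      rw [← this]; exact hb1
    have steps : ∀ (k : ℕ) i, a i ∈ T → a (s^[k] i) ∈ T := by
      intro k
      induction k with
      | zero => intro i hi; exact hi
      | succ k ih => intro i hi; rw [Function.iterate_succ_apply']; exact step _ (ih i hi)
    obtain ⟨b, hb1⟩ := hne
    obtain ⟨i, -, rfl⟩ := mem_image.mp (hT hb1)
    apply Subset.antisymm hT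
    intro c hc
    obtain ⟨j, -, rfl⟩ := mem_image.mp hc
    obtain ⟨k, rfl⟩ := hcyc i j
    exact steps k i hb1

theorem bal_rev_iff {e : V × V} {S : Finset (V × V)} (h : e ∉ S) : Bal (rev e) S ↔ Bal id S := by
  have h1 : ∀ a ∈ S, rev e a = a := by
    intro a ha
    have : a ≠ e := fun h2 => h (h2 ▸ ha)
    simp [rev, this]
  unfold Bal
  refine forall_congr' fun x => ?_
  rw [filter_congr (fun a ha => by rw [h1 a ha]), filter_congr (p := fun a => (rev e a).2 = x)
    (fun a ha => by rw [h1 a ha])]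
  rfl

theorem old_cyc {e : V × V} {E S : Finset (V × V)} (h : S ∈ Cyc id E) (he : e ∉ S) :
    S ∈ Cyc (rev e) E := by
  obtain ⟨h1, h2, h3, h4⟩ := h
  exact ⟨h1, h2, (bal_rev_iff he).mpr h3, fun T hT hne hb =>
    h4 T hT hne ((bal_rev_iff (fun h => he (hT h))).mp hb)⟩

theorem cyc_finite (g : V × V → V × V) (E : Finset (V × V)) : (Cyc g E).Finite :=
  (E.powerset.finite_toSet).subset (fun _ hS => mem_coe.mpr (mem_powerset.mpr hS.1))

theorem count_le {e : V × V} {E : Finset (V × V)}
    (h : {S | S ∈ Cyc id E ∧ e ∈ S}.ncard ≤ {S | S ∈ Cyc (rev e) E ∧ e ∈ S}.ncard) :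
    (Cyc id E).ncard ≤ (Cyc (rev e) E).ncard := by
  have split : ∀ g : V × V → V × V, (Cyc g E).ncard =
      {S | S ∈ Cyc g E ∧ e ∈ S}.ncard + {S | S ∈ Cyc g E ∧ e ∉ S}.ncard := by
    intro g
    rw [← Set.ncard_union_eq (Set.disjoint_left.mpr (fun S h1 h2 => h2.2 h1.2))
      ((cyc_finite g E).subset (fun S h => h.1)) ((cyc_finite g E).subset (fun S h => h.1))]
    congr 1
    ext S
    simp only [Set.mem_union, Set.mem_ofPred_eq]
    by_cases h : e ∈ S <;> simp [h]
  rw [split id, split (rev e)]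
  apply Nat.add_le_add h
  apply Set.ncard_le_ncard
  · intro S hS
    exact ⟨old_cyc hS.1 hS.2, hS.2⟩
  · exact (cyc_finite _ E).subset (fun S h => h.1)

end Generic

section Transfer
variable {V W : Type} [DecidableEq V] [DecidableEq W]

theorem bal_map (φ : V ≃ W) (g : V × V → V × V) (g' : W × W → W × W)
    (hg : ∀ a, g' (φ.prodCongr φ a) = φ.prodCongr φ (g a)) (S : Finset (V × V)) :
    Bal g' (S.map (φ.prodCongr φ).toEmbedding) ↔ Bal g S := by
  unfold Bal
  rw [← φ.forall_congr_right]
  refine forall_congr' fun x => ?_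
  rw [filter_map, filter_map, card_map, card_map]
  have h1 : S.filter ((fun a => (g' a).1 = φ x) ∘ (φ.prodCongr φ).toEmbedding) =
      S.filter (fun a => (g a).1 = x) := by
    apply filter_congr
    intro a _
    simp only [Function.comp, Equiv.coe_toEmbedding, hg]
    simp
  have h2 : S.filter ((fun a => (g' a).2 = φ x) ∘ (φ.prodCongr φ).toEmbedding) =
      S.filter (fun a => (g a).2 = x) := by
    apply filter_congr
    intro a _
    simp only [Function.comp, Equiv.coe_toEmbedding, hg]
    simp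
  rw [h1, h2]

theorem cyc_map (φ : V ≃ W) (g : V × V → V × V) (g' : W × W → W × W)
    (hg : ∀ a, g' (φ.prodCongr φ a) = φ.prodCongr φ (g a)) (E : Finset (V × V)) :
    (Cyc g' (E.map (φ.prodCongr φ).toEmbedding)).ncard = (Cyc g E).ncard := by
  have hsurj : ∀ T : Finset (W × W), ∃ S : Finset (V × V),
      T = S.map (φ.prodCongr φ).toEmbedding := by
    intro T
    refine ⟨T.map (φ.prodCongr φ).symm.toEmbedding, ?_⟩
    ext ⟨a, b⟩
    simp
  have hiff : ∀ S : Finset (V × V), S.map (φ.prodCongr φ).toEmbedding ∈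
      Cyc g' (E.map (φ.prodCongr φ).toEmbedding) ↔ S ∈ Cyc g E := by
    intro S
    constructor
    · rintro ⟨h1, h2, h3, h4⟩
      refine ⟨map_subset_map.mp h1, map_nonempty.mp h2, (bal_map φ g g' hg S).mp h3, ?_⟩
      intro T hT hne hb
      exact map_injective _ (h4 _ (map_subset_map.mpr hT) (map_nonempty.mpr hne)
        ((bal_map φ g g' hg T).mpr hb))
    · rintro ⟨h1, h2, h3, h4⟩
      refine ⟨map_subset_map.mpr h1, map_nonempty.mpr h2, (bal_map φ g g' hg S).mpr h3, ?_⟩
      intro T hT hne hb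
      obtain ⟨T', rfl⟩ := hsurj T
      rw [h4 T' (map_subset_map.mp hT) (map_nonempty.mp hne) ((bal_map φ g g' hg T').mp hb)]
  rw [← Set.ncard_image_of_injective (Cyc g E) (map_injective (φ.prodCongr φ).toEmbedding)]
  congr 1
  ext T
  obtain ⟨S, rfl⟩ := hsurj T
  rw [hiff]
  exact ((map_injective (φ.prodCongr φ).toEmbedding).mem_set_image).symm

end Transfer

end Pool.Agent.H7.Adam
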