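import Mathlib
import Pool.Agent.H7.Adam1

set_option autoImplicit false

namespace Pool.Agent.H7.Adam

open Finset

def tys : List (ℕ × ℕ × ℕ × ℕ) :=
  [(0,5,1,7),(1,4,3,5),(1,8,0,2),(2,3,1,6),(2,4,5,6),(2,4,5,8),(2,7,5,6),(5,6,2,7),(5,8,2,4)]

def inI (t b : Fin 9) : Bool :=
  (tys.getD t.val (0,0,0,0)).1 == b.val || (tys.getD t.val (0,0,0,0)).2.1 == b.val

def inO (t x : Fin 9) : Bool :=
  (tys.getD t.val (0,0,0,0)).2.2.1 == x.val || (tys.getD t.val (0,0,0,0)).2.2.2 == x.val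

def outs : List (List ℕ) :=
  [[1,7],[0,2,3,5],[1,5,6,8],[1,6],[3,5,6,8],[1,2,4,7],[2,7],[5,6],[0,2,4]]

theorem arc_out : ∀ t b x : Fin 9, inI t b = true → inO t x = true →
    (x.val ∈ outs.getD b.val [] ∧ b ≠ x) := by decide +kernel

def pI : List ℕ := [252112428, 0, 0, 0, 0, 6667988, 0, 0, 0, 0, 199876276, 0, 0, 70736116, 0, 0, 0, 0, 0, 357335956, 0, 0, 0, 0, 0, 0, 56008916, 0, 0, 134426036, 118567164, 0, 0, 0, 0, 0, 0, 0, 200196596, 0, 114103156, 0, 0, 0, 0, 0, 0, 200196596, 0, 114103156, 0, 0, 0, 0, 0, 0, 331684436, 0, 0, 0, 0, 116450836, 0, 0, 0, 0, 0, 0, 291843428, 248796708, 0, 0, 0, 0, 0, 0, 0, 357542708, 0, 0, 228402548]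
def tI : List ℕ := [293470776, 0, 0, 0, 0, 101484576, 0, 0, 0, 0, 373227841, 0, 0, 28854073, 0, 0, 0, 0, 0, 250424642, 0, 0, 0, 0, 0, 0, 164331200, 0, 0, 44462307, 330181707, 0, 0, 0, 0, 0, 0, 0, 376975588, 0, 333928867, 0, 0, 0, 0, 0, 0, 376975589, 0, 333928868, 0, 0, 0, 0, 0, 0, 316224852, 0, 0, 0, 0, 316224870, 0, 0, 0, 0, 0, 0, 259533223, 259533223, 0, 0, 0, 0, 0, 0, 0, 251918504, 0, 0, 208871783]
def pO : List ℕ := [0, 47458276, 0, 0, 0, 0, 0, 305849548, 0, 0, 0, 0, 152686148, 0, 238779588, 0, 0, 0, 40735316, 0, 126828756, 0, 0, 0, 0, 0, 0, 0, 59863236, 0, 0, 0, 0, 275244724, 0, 0, 0, 0, 0, 0, 0, 248796708, 291843428, 0, 0, 0, 0, 0, 0, 0, 228402548, 0, 0, 357542708, 0, 0, 0, 0, 0, 248796708, 291843428, 0, 0, 0, 0, 116450836, 0, 0, 0, 0, 331684436, 0, 0, 0, 114103156, 0, 200196596, 0, 0, 0, 0]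
def tO : List ℕ := [0, 12657600, 0, 0, 0, 0, 0, 12727134, 0, 0, 0, 0, 84420550, 0, 84420577, 0, 0, 0, 114662333, 0, 114662306, 0, 0, 0, 0, 0, 0, 0, 138530883, 0, 0, 0, 0, 138520227, 0, 0, 0, 0, 0, 0, 0, 259533220, 259533220, 0, 0, 0, 0, 0, 0, 0, 208871780, 0, 0, 251918501, 0, 0, 0, 0, 0, 259533222, 259533222, 0, 0, 0, 0, 316224871, 0, 0, 0, 0, 316224853, 0, 0, 0, 333928871, 0, 376975592, 0, 0, 0, 0]

def dg (L : List ℕ) (t b j : Fin 9) : Fin 9 := Fin.ofNat 9 (L.getD (t.val * 9 + b.val) 0 / 9 ^ j.val)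

theorem datI : ∀ t b : Fin 9, inI t b = true →
    (∀ i j, dg pI t b i = dg pI t b j → i = j) ∧ dg tI t b 0 = t ∧ dg pI t b 0 = b ∧
    (∀ j, j ≠ 0 → inO (dg tI t b j) (dg pI t b j) = true) ∧
    ∀ j, inI (dg tI t b (j + 1)) (dg pI t b j) = true := by decide +kernel

theorem datO : ∀ t x : Fin 9, inO t x = true →
    (∀ i j, dg pO t x i = dg pO t x j → i = j) ∧ dg tO t x 0 = t ∧ dg pO t x 8 = x ∧
    (∀ j, inO (dg tO t x j) (dg pO t x j) = true) ∧
    ∀ j, j ≠ 8 → inI (dg tO t x (j + 1)) (dg pO t x j) = true := by decide +kernel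

def nxt (L : List ℕ) (i : ℕ) : ℕ := L.getD i 0

def orb (L : List ℕ) : List ℕ := List.iterate (nxt L) ((nxt L)^[9] 0) 9

def good2 (L o : List ℕ) : Bool :=
  (List.range 9).any (fun v => o.contains v) && (List.range 9).any (fun v => !o.contains v) &&
    (List.range 9).all (fun v => !o.contains v || o.contains (nxt L v))

def good (L : List ℕ) : Bool := good2 L (orb L)

def allGood : Bool :=
  (outs.getD 0 []).all fun x0 =>
  (outs.getD 1 []).all fun x1 => [x0].contains x1 ||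
  (outs.getD 2 []).all fun x2 => [x0, x1].contains x2 ||
  (outs.getD 3 []).all fun x3 => [x0, x1, x2].contains x3 ||
  (outs.getD 4 []).all fun x4 => [x0, x1, x2, x3].contains x4 ||
  (outs.getD 5 []).all fun x5 => [x0, x1, x2, x3, x4].contains x5 ||
  (outs.getD 6 []).all fun x6 => [x0, x1, x2, x3, x4, x5].contains x6 ||
  (outs.getD 7 []).all fun x7 => [x0, x1, x2, x3, x4, x5, x6].contains x7 ||
  (outs.getD 8 []).all fun x8 => [x0, x1, x2, x3, x4, x5, x6, x7].contains x8 ||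
    good [x0, x1, x2, x3, x4, x5, x6, x7, x8]

theorem allGood_true : allGood = true := by decide +kernel

theorem or_el {a b : Bool} (h : (a || b) = true) (ha : a = false) : b = true := by
  rw [ha] at h; simpa using h

theorem nonham (σ : Fin 9 → Fin 9) (hσ : Function.Injective σ) (h : ∀ b, (σ b).val ∈ outs.getD b.val []) :
    ∃ A : Finset (Fin 9), A.Nonempty ∧ A ≠ univ ∧ ∀ v ∈ A, σ v ∈ A := by
  have H := allGood_true
  unfold allGood at H
  have H0 := List.all_eq_true.mp H _ (h 0)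
  have H1 := or_el (List.all_eq_true.mp H0 _ (h 1)) (by simp [Fin.val_inj, hσ.eq_iff])
  have H2 := or_el (List.all_eq_true.mp H1 _ (h 2)) (by simp [Fin.val_inj, hσ.eq_iff])
  have H3 := or_el (List.all_eq_true.mp H2 _ (h 3)) (by simp [Fin.val_inj, hσ.eq_iff])
  have H4 := or_el (List.all_eq_true.mp H3 _ (h 4)) (by simp [Fin.val_inj, hσ.eq_iff])
  have H5 := or_el (List.all_eq_true.mp H4 _ (h 5)) (by simp [Fin.val_inj, hσ.eq_iff])
  have H6 := or_el (List.all_eq_true.mp H5 _ (h 6)) (by simp [Fin.val_inj, hσ.eq_iff])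
  have H7 := or_el (List.all_eq_true.mp H6 _ (h 7)) (by simp [Fin.val_inj, hσ.eq_iff])
  have H8 := or_el (List.all_eq_true.mp H7 _ (h 8)) (by simp [Fin.val_inj, hσ.eq_iff])
  set L : List ℕ := [(σ 0).val, (σ 1).val, (σ 2).val, (σ 3).val, (σ 4).val, (σ 5).val, (σ 6).val,
    (σ 7).val, (σ 8).val] with hL
  have hn : ∀ b : Fin 9, nxt L b.val = (σ b).val := by
    intro b
    fin_cases b <;> rfl
  have H9 : good2 L (orb L) = true := H8
  generalize orb L = o at H9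
  unfold good2 at H9
  rw [Bool.and_eq_true, Bool.and_eq_true, List.any_eq_true, List.any_eq_true,
    List.all_eq_true] at H9
  obtain ⟨⟨⟨v, hv, hv2⟩, ⟨u, hu, hu2⟩⟩, h3⟩ := H9
  refine ⟨univ.filter (fun v : Fin 9 => o.contains v.val = true), ?_, ?_, ?_⟩
  · exact ⟨⟨v, List.mem_range.mp hv⟩, mem_filter.mpr ⟨mem_univ _, hv2⟩⟩
  · intro hA
    have : (⟨u, List.mem_range.mp hu⟩ : Fin 9) ∈
        univ.filter (fun v : Fin 9 => o.contains v.val = true) := by rw [hA]; exact mem_univ _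
    have h5 : o.contains u = true := (mem_filter.mp this).2
    rw [h5] at hu2
    exact absurd hu2 (by decide)
  · intro b hb
    have h5 : o.contains b.val = true := (mem_filter.mp hb).2
    have h6 := h3 b.val (List.mem_range.mpr b.isLt)
    rw [h5, hn] at h6
    exact mem_filter.mpr ⟨mem_univ _, by simpa using h6⟩

end Pool.Agent.H7.Adam
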