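import Mathlib
import Pool.Agent.H7.Adam2

set_option autoImplicit false

namespace Pool.Agent.H7.Adam

open Finset

abbrev Mid (ν : ℕ) := Fin 9 × Fin 9 × Fin ν
abbrev VV (ν : ℕ) := Fin 9 ⊕ Mid ν

def arc {ν : ℕ} : VV ν × VV ν → Bool
  | (Sum.inl b, Sum.inr m) => inI m.1 b
  | (Sum.inr m, Sum.inl x) => inO m.1 x
  | (Sum.inl _, Sum.inl _) => false
  | (Sum.inr _, Sum.inr _) => false

def EE (ν : ℕ) : Finset (VV ν × VV ν) := univ.filter (fun a => arc a = true)

theorem mem_EE {ν : ℕ} {a : VV ν × VV ν} : a ∈ EE ν ↔ arc a = true := by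
  unfold EE; rw [mem_filter]; exact ⟨fun h => h.2, fun h => ⟨mem_univ _, h⟩⟩

theorem arc_inl {ν : ℕ} {b : Fin 9} {v : VV ν} (h : arc (Sum.inl b, v) = true) :
    ∃ m, v = Sum.inr m ∧ inI m.1 b = true := by
  cases v with
  | inl x => exact absurd h (by simp [arc])
  | inr m => exact ⟨m, rfl, h⟩

theorem arc_inr {ν : ℕ} {m : Mid ν} {v : VV ν} (h : arc (Sum.inr m, v) = true) :
    ∃ x, v = Sum.inl x ∧ inO m.1 x = true := by
  cases v with
  | inl x => exact ⟨x, rfl, h⟩
  | inr m => exact absurd h (by simp [arc])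

/-- the middle vertices met by a cycle -/
theorem mids_le {ν : ℕ} {S : Finset (VV ν × VV ν)} (hS : S ∈ Cyc id (EE ν)) :
    ∃ M : Finset (Mid ν), M.card ≤ 8 ∧
      ∀ a ∈ S, ∀ m, (a.1 = Sum.inr m ∨ a.2 = Sum.inr m) → m ∈ M := by
  classical
  obtain ⟨O, f, hSO, himg, hmin⟩ := cyc_struct hS
  have hinj : Set.InjOn f O := card_image_iff.mp (by rw [himg])
  have hcl : ∀ v ∈ O, f v ∈ O := fun v hv => by rw [← himg]; exact mem_image_of_mem _ hv
  have harc : ∀ v ∈ O, arc (v, f v) = true := fun v hv =>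
    mem_EE.mp (hS.1 (by rw [hSO]; exact mem_image_of_mem _ hv))
  refine ⟨univ.filter (fun m => Sum.inr m ∈ O), ?_, ?_⟩
  · by_contra hcard
    push Not at hcard
    -- the map from middle vertices to base vertices
    have hx : ∀ m : Mid ν, ∃ x : Fin 9, Sum.inr m ∈ O → f (Sum.inr m) = Sum.inl x := by
      intro m
      by_cases hm : Sum.inr m ∈ O
      · obtain ⟨x, hx, -⟩ := arc_inr (harc _ hm)
        exact ⟨x, fun _ => hx⟩
      · exact ⟨0, fun h => absurd h hm⟩
    choose ξ hξ using hx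
    have hξinj : Set.InjOn ξ (univ.filter (fun m => Sum.inr m ∈ O) : Finset (Mid ν)) := by
      intro m hm m' hm' h
      have h1 : Sum.inr m ∈ O := (mem_filter.mp (mem_coe.mp hm)).2
      have h2 : Sum.inr m' ∈ O := (mem_filter.mp (mem_coe.mp hm')).2
      have := hinj h1 h2 (by rw [hξ m h1, hξ m' h2, h])
      exact Sum.inr_injective this
    have hall : ∀ b : Fin 9, Sum.inl b ∈ O := by
      have h1 : (univ.filter (fun m => Sum.inr m ∈ O) : Finset (Mid ν)).image ξ = univ := by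
        apply eq_univ_of_card
        apply le_antisymm (card_le_univ _)
        rw [card_image_of_injOn hξinj, Fintype.card_fin]
        omega
      intro b
      have h2 : b ∈ (univ.filter (fun m => Sum.inr m ∈ O) : Finset (Mid ν)).image ξ := by
        rw [h1]; exact mem_univ _
      obtain ⟨m, hm, rfl⟩ := mem_image.mp h2
      have h3 : Sum.inr m ∈ O := (mem_filter.mp hm).2
      rw [← hξ m h3]
      exact hcl _ h3
    have hσ : ∀ b : Fin 9, ∃ x : Fin 9, f (f (Sum.inl b)) = Sum.inl x ∧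
        x.val ∈ outs.getD b.val [] ∧ ∃ m, f (Sum.inl b) = Sum.inr m := by
      intro b
      obtain ⟨m, hm, hm2⟩ := arc_inl (harc _ (hall b))
      have h1 : Sum.inr m ∈ O := by rw [← hm]; exact hcl _ (hall b)
      obtain ⟨x, hx, hx2⟩ := arc_inr (harc _ h1)
      exact ⟨x, by rw [hm, hx], (arc_out _ _ _ hm2 hx2).1, m, hm⟩
    choose σ hσ1 hσ2 hσ3 using hσ
    have hσinj : Function.Injective σ := by
      intro b b' h
      have h1 : f (f (Sum.inl b)) = f (f (Sum.inl b')) := by rw [hσ1, hσ1, h]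
      have h2 := hinj (hcl _ (hall b)) (hcl _ (hall b')) h1
      exact Sum.inl_injective (hinj (hall b) (hall b') h2)
    obtain ⟨A, hA1, hA2, hA3⟩ := nonham σ hσinj hσ2
    have hO' := hmin (A.image Sum.inl ∪ A.image (fun b => f (Sum.inl b))) (by
      intro v hv
      rcases mem_union.mp hv with hv | hv
      · obtain ⟨b, -, rfl⟩ := mem_image.mp hv
        exact hall b
      · obtain ⟨b, -, rfl⟩ := mem_image.mp hv
        exact hcl _ (hall b)) ((hA1.image _).mono subset_union_left) (by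
      intro v hv
      rcases mem_union.mp hv with hv | hv
      · obtain ⟨b, hb, rfl⟩ := mem_image.mp hv
        exact mem_union_right _ (mem_image_of_mem _ hb)
      · obtain ⟨b, hb, rfl⟩ := mem_image.mp hv
        rw [hσ1]
        exact mem_union_left _ (mem_image_of_mem _ (hA3 b hb)))
    apply hA2
    apply eq_univ_of_forall
    intro b
    have h1 := hall b
    rw [← hO'] at h1
    rcases mem_union.mp h1 with hv | hv
    · obtain ⟨c, hc, h⟩ := mem_image.mp hv
      rw [← Sum.inl_injective h]; exact hc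
    · obtain ⟨c, hc, h⟩ := mem_image.mp hv
      obtain ⟨m, hm⟩ := hσ3 c
      rw [hm] at h
      exact absurd h Sum.inr_ne_inl
  · intro a ha m hm
    rw [hSO] at ha
    obtain ⟨v, hv, rfl⟩ := mem_image.mp ha
    refine mem_filter.mpr ⟨mem_univ _, ?_⟩
    rcases hm with hm | hm
    · rw [← hm]; exact hv
    · rw [← hm]; exact hcl _ hv

def inc {ν : ℕ} (m : Mid ν) : Finset (VV ν × VV ν) :=
  univ.image (fun b : Fin 9 => ((Sum.inl b : VV ν), (Sum.inr m : VV ν))) ∪
    univ.image (fun b : Fin 9 => ((Sum.inr m : VV ν), (Sum.inl b : VV ν)))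

theorem inc_card {ν : ℕ} (m : Mid ν) : (inc m).card ≤ 18 := by
  unfold inc
  refine (card_union_le _ _).trans ?_
  have h1 := card_image_le (s := (univ : Finset (Fin 9)))
    (f := fun b : Fin 9 => ((Sum.inl b : VV ν), (Sum.inr m : VV ν)))
  have h2 := card_image_le (s := (univ : Finset (Fin 9)))
    (f := fun b : Fin 9 => ((Sum.inr m : VV ν), (Sum.inl b : VV ν)))
  rw [card_univ, Fintype.card_fin] at h1 h2
  omega

theorem cover_fun {α : Type} [DecidableEq α] (s : Finset α) (d : α) (k : ℕ) (h : s.card ≤ k) :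
    ∃ F : Fin k → α, ∀ x ∈ s, ∃ i, F i = x := by
  refine ⟨fun i => s.toList.getD i.val d, fun x hx => ?_⟩
  obtain ⟨i, hi, rfl⟩ := List.mem_iff_getElem.mp (mem_toList.mpr hx)
  have : i < k := by rw [length_toList] at hi; omega
  exact ⟨⟨i, this⟩, List.getD_eq_getElem _ _ hi⟩

theorem arc_mid {ν : ℕ} {a : VV ν × VV ν} (h : arc a = true) :
    ∃ m, (a.1 = Sum.inr m ∨ a.2 = Sum.inr m) ∧ a ∈ inc m := by
  obtain ⟨u, v⟩ := a
  cases u with
  | inl b =>
    obtain ⟨m, rfl, -⟩ := arc_inl h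
    exact ⟨m, Or.inr rfl, mem_union_left _ (mem_image_of_mem _ (mem_univ b))⟩
  | inr m =>
    obtain ⟨x, rfl, -⟩ := arc_inr h
    exact ⟨m, Or.inl rfl, mem_union_right _ (mem_image_of_mem _ (mem_univ x))⟩

theorem upper {ν : ℕ} (e : VV ν × VV ν) (he : e ∈ EE ν) :
    {S | S ∈ Cyc id (EE ν) ∧ e ∈ S}.ncard ≤ (81 * ν) ^ 7 * 2 ^ 144 := by
  classical
  obtain ⟨m0, hm0, -⟩ := arc_mid (mem_EE.mp he)
  have hsub : {S | S ∈ Cyc id (EE ν) ∧ e ∈ S} ⊆
      ((univ : Finset (Fin 7 → Mid ν)).biUnion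
        (fun F => ((insert m0 (univ.image F)).biUnion inc).powerset) : Finset _) := by
    rintro S ⟨hS, heS⟩
    obtain ⟨M, hM, hMS⟩ := mids_le hS
    have h0 : m0 ∈ M := hMS e heS m0 hm0
    obtain ⟨F, hF⟩ := cover_fun (M.erase m0) m0 7 (by rw [card_erase_of_mem h0]; omega)
    refine mem_coe.mpr (mem_biUnion.mpr ⟨F, mem_univ _, mem_powerset.mpr ?_⟩)
    intro a ha
    obtain ⟨m, hm, hm2⟩ := arc_mid (mem_EE.mp (hS.1 ha))
    refine mem_biUnion.mpr ⟨m, ?_, hm2⟩
    by_cases h : m = m0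
    · rw [h]; exact mem_insert_self _ _
    · obtain ⟨i, rfl⟩ := hF m (mem_erase.mpr ⟨h, hMS a ha m hm⟩)
      exact mem_insert_of_mem (mem_image_of_mem _ (mem_univ _))
  refine (Set.ncard_le_ncard hsub (finite_toSet _)).trans ?_
  rw [Set.ncard_coe_finset]
  refine (card_biUnion_le_card_mul _ _ (2 ^ 144) ?_).trans ?_
  · intro F _
    rw [card_powerset]
    apply Nat.pow_le_pow_right (by norm_num)
    refine (card_biUnion_le_card_mul _ _ 18 (fun m _ => inc_card m)).trans ?_
    have h1 := card_insert_le m0 (univ.image F)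
    have h2 := card_image_le (s := (univ : Finset (Fin 7))) (f := F)
    rw [card_univ, Fintype.card_fin] at h2
    omega
  · rw [card_univ, Fintype.card_fun, Fintype.card_prod, Fintype.card_prod, Fintype.card_fin,
      Fintype.card_fin, Fintype.card_fin, ← mul_assoc]
    exact le_rfl

end Pool.Agent.H7.Adam
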