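import Mathlib
import Pool.Agent.H7.Adam3

set_option autoImplicit false

namespace Pool.Agent.H7.Adam

open Finset

def sc : Fin 9 × Bool → Fin 9 × Bool
  | (j, false) => (j, true)
  | (j, true) => (j + 1, false)

theorem sc_bij : Function.Bijective sc := by
  rw [← Finite.injective_iff_bijective]
  intro i j
  revert i j
  decide +kernel

theorem sc_cyc : ∀ i j, ∃ k : ℕ, sc^[k] i = j := by
  have : ∀ i j, ∃ k : Fin 18, sc^[k.val] i = j := by decide +kernel
  intro i j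
  obtain ⟨k, hk⟩ := this i j
  exact ⟨k, hk⟩

theorem sc_ne : ∀ i, sc (sc i) ≠ i := by decide +kernel

def ww {ν : ℕ} (p τ : Fin 9 → Fin 9) (β : Fin 9) (q : Fin 9 → Fin ν) : Fin 9 × Bool → VV ν
  | (j, false) => Sum.inr (τ j, β + j, q j)
  | (j, true) => Sum.inl (p j)

theorem ww_inj {ν : ℕ} (p τ : Fin 9 → Fin 9) (hp : ∀ i j, p i = p j → i = j) (β : Fin 9)
    (q : Fin 9 → Fin ν) : Function.Injective (ww p τ β q) := by
  rintro ⟨i, b⟩ ⟨j, c⟩ h
  cases b <;> cases c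
  · have h1 := congrArg (fun m : Mid ν => m.2.1) (Sum.inr_injective h)
    have h2 : i = j := add_left_cancel h1
    rw [h2]
  · exact absurd h Sum.inr_ne_inl
  · exact absurd h Sum.inl_ne_inr
  · rw [hp i j (Sum.inl_injective h)]

theorem lower_aux {ν : ℕ} (p τ : Fin 9 → Fin 9) (hp : ∀ i j, p i = p j → i = j) (β : Fin 9)
    (q0 : Fin ν) (r : Fin 9 × Bool) (hr : ∀ j : Fin 8, (j.succ, false) ≠ r)
    (e : VV ν × VV ν) (heE : e ∈ EE ν)
    (he : ∀ q : Fin 8 → Fin ν, e = (ww p τ β (Fin.cons q0 q) (sc r), ww p τ β (Fin.cons q0 q) r))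
    (hE : ∀ q : Fin 9 → Fin ν, ∀ i, i ≠ r → arc (ww p τ β q i, ww p τ β q (sc i)) = true) :
    ν ^ 8 ≤ {S | S ∈ Cyc (rev e) (EE ν) ∧ e ∈ S}.ncard := by
  classical
  let Φ : (Fin 8 → Fin ν) → Finset (VV ν × VV ν) := fun q =>
    univ.image (fun i => if i = r then e else
      (ww p τ β (Fin.cons q0 q) i, ww p τ β (Fin.cons q0 q) (sc i)))
  have hΦ : Function.Injective Φ := by
    intro q q' h
    funext j
    have h1 : (ww p τ β (Fin.cons q0 q) (j.succ, false),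
        ww p τ β (Fin.cons q0 q) (sc (j.succ, false))) ∈ Φ q :=
      mem_image.mpr ⟨(j.succ, false), mem_univ _, if_neg (hr j)⟩
    rw [h] at h1
    obtain ⟨i, -, hi⟩ := mem_image.mp h1
    have h2 : ∃ i', ww p τ β (Fin.cons q0 q') i' = ww p τ β (Fin.cons q0 q) (j.succ, false) := by
      by_cases hir : i = r
      · rw [if_pos hir, he q'] at hi
        exact ⟨_, congrArg Prod.fst hi⟩
      · rw [if_neg hir] at hi
        exact ⟨_, congrArg Prod.fst hi⟩
    obtain ⟨⟨k, b⟩, hk⟩ := h2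
    cases b
    · have h3 := Sum.inr_injective hk
      have h4 : k = j.succ := add_left_cancel (congrArg (fun m : Mid ν => m.2.1) h3)
      have h5 := congrArg (fun m : Mid ν => m.2.2) h3
      rw [h4] at h5
      simpa using h5.symm
    · exact absurd hk Sum.inl_ne_inr
  have hsub : Set.range Φ ⊆ {S | S ∈ Cyc (rev e) (EE ν) ∧ e ∈ S} := by
    rintro S ⟨q, rfl⟩
    refine ⟨new_cyc (EE ν) sc sc_bij sc_cyc sc_ne _ (ww_inj p τ hp β _) r e (he q) heE
      (fun i hi => mem_EE.mpr (hE _ i hi)), ?_⟩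
    exact mem_image.mpr ⟨r, mem_univ _, if_pos rfl⟩
  refine le_trans ?_ (Set.ncard_le_ncard hsub ((cyc_finite _ _).subset (fun S h => h.1)))
  rw [Set.ncard_range_of_injective hΦ, Nat.card_eq_fintype_card, Fintype.card_fun,
    Fintype.card_fin, Fintype.card_fin]

theorem lower {ν : ℕ} (e : VV ν × VV ν) (he : e ∈ EE ν) :
    ν ^ 8 ≤ {S | S ∈ Cyc (rev e) (EE ν) ∧ e ∈ S}.ncard := by
  have ha := mem_EE.mp he
  obtain ⟨u, v⟩ := e
  cases u with
  | inl b =>
    obtain ⟨⟨t, β, q0⟩, rfl, hI⟩ := arc_inl ha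
    obtain ⟨h1, h2, h3, h4, h5⟩ := datI t b hI
    refine lower_aux (dg pI t b) (dg tI t b) h1 β q0 (0, false) ?_ _ he ?_ ?_
    · intro j h
      exact Fin.succ_ne_zero j (congrArg Prod.fst h)
    · intro q
      show _ = (Sum.inl (dg pI t b 0), Sum.inr (dg tI t b 0, β + 0, _))
      rw [h2, h3, add_zero, Fin.cons_zero]
    · rintro q ⟨j, c⟩ hj
      cases c
      · exact h4 j (fun h => hj (by rw [h]))
      · exact h5 j
  | inr m =>
    obtain ⟨t, β, q0⟩ := m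
    obtain ⟨x, rfl, hO⟩ := arc_inr ha
    obtain ⟨h1, h2, h3, h4, h5⟩ := datO t x hO
    refine lower_aux (dg pO t x) (dg tO t x) h1 β q0 (8, true) ?_ _ he ?_ ?_
    · intro j h
      exact absurd (congrArg Prod.snd h) (by simp)
    · intro q
      have h8 : sc (8, true) = (0, false) := by decide
      rw [h8]
      show _ = (Sum.inr (dg tO t x 0, β + 0, _), Sum.inl (dg pO t x 8))
      rw [h2, h3, add_zero, Fin.cons_zero]
    · rintro q ⟨j, c⟩ hj
      cases c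
      · exact h4 j
      · exact h5 j (fun h => hj (by rw [h]))

theorem main_le {ν : ℕ} (hν : 81 ^ 7 * 2 ^ 144 ≤ ν) (e : VV ν × VV ν) (he : e ∈ EE ν) :
    (Cyc id (EE ν)).ncard ≤ (Cyc (rev e) (EE ν)).ncard := by
  apply count_le
  refine (upper e he).trans (le_trans ?_ (lower e he))
  calc (81 * ν) ^ 7 * 2 ^ 144 = ν ^ 7 * (81 ^ 7 * 2 ^ 144) := by rw [mul_pow]; ring
    _ ≤ ν ^ 7 * ν := Nat.mul_le_mul_left _ hν
    _ = ν ^ 8 := by ring

theorem loopless {ν : ℕ} (a : VV ν × VV ν) (ha : a ∈ EE ν) : a.1 ≠ a.2 := by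
  have h := mem_EE.mp ha
  obtain ⟨u, v⟩ := a
  cases u with
  | inl b =>
    obtain ⟨m, rfl, -⟩ := arc_inl h
    exact Sum.inl_ne_inr
  | inr m =>
    obtain ⟨x, rfl, -⟩ := arc_inr h
    exact Sum.inr_ne_inl

theorem has_cyc {ν : ℕ} (hν : 0 < ν) : ∃ S ⊆ EE ν, S.Nonempty ∧ Bal id S := by
  let w : Fin 4 → VV ν := ![Sum.inl 0, Sum.inr (0, 0, ⟨0, hν⟩), Sum.inl 1, Sum.inr (2, 0, ⟨0, hν⟩)]
  have hw : Function.Injective w := by
    intro i j
    fin_cases i <;> fin_cases j <;> simp [w]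
  refine ⟨univ.image (fun i => (w i, w (i + 1))), ?_, ⟨_, mem_image_of_mem _ (mem_univ 0)⟩, ?_⟩
  · intro a ha
    obtain ⟨i, -, rfl⟩ := mem_image.mp ha
    apply mem_EE.mpr
    fin_cases i
    · show inI 0 0 = true
      decide
    · show inO 0 1 = true
      decide
    · show inI 2 1 = true
      decide
    · show inO 2 0 = true
      decide
  · exact bal_image id univ (fun i => i + 1) (by decide) _
      (fun i _ j _ h => hw (congrArg Prod.fst h)) w (fun _ _ => rfl)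

theorem final : ∃ (n : ℕ) (E : Finset (Fin n × Fin n)), (∀ a ∈ E, a.1 ≠ a.2) ∧
    (∃ S ⊆ E, S.Nonempty ∧ Bal id S) ∧
    ∀ e ∈ E, (Cyc id E).ncard ≤ (Cyc (rev e) E).ncard := by
  obtain ⟨ν, hν⟩ : ∃ ν : ℕ, 81 ^ 7 * 2 ^ 144 ≤ ν := ⟨_, le_rfl⟩
  have hpos : 0 < ν := lt_of_lt_of_le (by positivity) hν
  let φ := Fintype.equivFin (VV ν)
  refine ⟨Fintype.card (VV ν), (EE ν).map (φ.prodCongr φ).toEmbedding, ?_, ?_, ?_⟩
  · intro a ha
    obtain ⟨b, hb, rfl⟩ := mem_map.mp ha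
    intro h
    exact loopless b hb (φ.injective h)
  · obtain ⟨S, h1, h2, h3⟩ := has_cyc hpos
    exact ⟨S.map (φ.prodCongr φ).toEmbedding, map_subset_map.mpr h1, map_nonempty.mpr h2,
      (bal_map φ id id (fun _ => rfl) S).mpr h3⟩
  · intro e he
    obtain ⟨b, hb, rfl⟩ := mem_map.mp he
    rw [cyc_map φ id id (fun _ => rfl), cyc_map φ (rev b) _ ?_]
    · exact main_le hν b hb
    · intro a
      unfold rev
      by_cases h : a = b
      · rw [if_pos h, if_pos (by rw [h]; rfl)]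
        rfl
      · rw [if_neg h]
        exact if_neg (fun h2 => h ((φ.prodCongr φ).injective h2))

end Pool.Agent.H7.Adam
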