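import Mathlib

namespace Pool.Agent.H7.Alpha

open scoped InnerProductSpace ComplexConjugate
open Finset

/-- phase vectors: fourth roots of unity -/
noncomputable def ph {n : ℕ} (g : Fin n → Fin 4) (i : Fin n) : ℂ := Complex.I ^ (g i : ℕ)

lemma ph_norm {n : ℕ} (g : Fin n → Fin 4) (i : Fin n) : ‖ph g i‖ = 1 := by
  simp [ph]

lemma conj_ph_mul {n : ℕ} (g : Fin n → Fin 4) (i : Fin n) : conj (ph g i) * ph g i = 1 := by
  rw [Complex.conj_mul', ph_norm]; simp

lemma sum4 (a b : ℕ) (ha : a ≤ 2) (hb : b ≤ 2) :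
    ∑ c : Fin 4, (conj (Complex.I ^ (c : ℕ))) ^ a * (Complex.I ^ (c : ℕ)) ^ b
      = if a = b then 4 else 0 := by
  have h2 : Complex.I ^ 2 = -1 := Complex.I_sq
  have h3 : Complex.I ^ 3 = -Complex.I := by rw [pow_succ, h2]; ring
  simp only [Fin.sum_univ_four]
  have e0 : ((0 : Fin 4) : ℕ) = 0 := rfl
  have e1 : ((1 : Fin 4) : ℕ) = 1 := rfl
  have e2 : ((2 : Fin 4) : ℕ) = 2 := rfl
  have e3 : ((3 : Fin 4) : ℕ) = 3 := rfl
  rw [e0, e1, e2, e3, h2, h3]
  interval_cases a <;> interval_cases b <;> simp [h2] <;> ring_nf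

lemma moment4 {n : ℕ} (i j k l : Fin n) :
    ∑ g : Fin n → Fin 4, conj (ph g i) * conj (ph g j) * ph g k * ph g l
      = if (i = k ∧ j = l) ∨ (i = l ∧ j = k) then (4 : ℂ) ^ n else 0 := by
  have key : ∀ g : Fin n → Fin 4, conj (ph g i) * conj (ph g j) * ph g k * ph g l
      = ∏ t, ((conj (Complex.I ^ (g t : ℕ))) ^ ((if t = i then 1 else 0) + (if t = j then 1 else 0))
        * (Complex.I ^ (g t : ℕ)) ^ ((if t = k then 1 else 0) + (if t = l then 1 else 0))) := by
    intro g
    simp only [pow_add, prod_mul_distrib, pow_ite, pow_one, pow_zero, prod_ite_eq', mem_univ,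
      if_true, ph]
    ring
  simp only [key]
  rw [← Fintype.piFinset_univ, ← Finset.prod_univ_sum (fun _ => (univ : Finset (Fin 4)))
    (fun t (c : Fin 4) => (conj (Complex.I ^ (c : ℕ))) ^ ((if t = i then 1 else 0) + (if t = j then 1 else 0))
        * (Complex.I ^ (c : ℕ)) ^ ((if t = k then 1 else 0) + (if t = l then 1 else 0)))]
  have h2 : ∀ t, ∑ c : Fin 4, (conj (Complex.I ^ (c : ℕ))) ^ ((if t = i then 1 else 0) + (if t = j then 1 else 0))
        * (Complex.I ^ (c : ℕ)) ^ ((if t = k then 1 else 0) + (if t = l then 1 else 0))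
      = if ((if t = i then 1 else 0) + (if t = j then 1 else 0) : ℕ) = (if t = k then 1 else 0) + (if t = l then 1 else 0) then 4 else 0 := by
    intro t
    apply sum4 <;> split_ifs <;> norm_num
  simp only [h2]
  split_ifs with h
  · rw [Finset.prod_congr rfl (g := fun _ => (4 : ℂ))]
    · simp
    · intro t _
      rw [if_pos]
      rcases h with ⟨rfl, rfl⟩ | ⟨rfl, rfl⟩
      · rfl
      · exact add_comm _ _
  · by_contra hne
    rw [← Ne, Finset.prod_ne_zero_iff] at hne
    have h1 := hne i (mem_univ _)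
    have h2 := hne j (mem_univ _)
    have h3 := hne k (mem_univ _)
    have h4 := hne l (mem_univ _)
    simp only [ne_eq, ite_eq_right_iff, OfNat.ofNat_ne_zero, imp_false, not_not, if_true] at h1 h2 h3 h4
    apply h
    by_cases a : i = k <;> by_cases b : j = l <;> by_cases c : i = l <;> by_cases d : j = k <;>
      by_cases e : i = j <;> by_cases f : k = l <;> simp_all [eq_comm]

lemma moment2 {n : ℕ} (i k : Fin n) :
    ∑ g : Fin n → Fin 4, conj (ph g i) * ph g k = if i = k then (4 : ℂ) ^ n else 0 := by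
  have := moment4 i i k i
  have h : ∀ g : Fin n → Fin 4, conj (ph g i) * conj (ph g i) * ph g k * ph g i
      = conj (ph g i) * ph g k := by
    intro g
    calc _ = conj (ph g i) * ph g k * (conj (ph g i) * ph g i) := by ring
      _ = _ := by rw [conj_ph_mul, mul_one]
  simp only [h] at this
  rw [this]
  by_cases a : i = k <;> simp [a]

end Pool.Agent.H7.Alpha
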