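import Pool.Agent.H7.Alpha1

namespace Pool.Agent.H7.Alpha

open scoped InnerProductSpace ComplexConjugate
open Finset

variable {H : Type*} [NormedAddCommGroup H] [InnerProductSpace ℂ H]

lemma normsq_c (x : H) : ((‖x‖ ^ 2 : ℝ) : ℂ) = ⟪x, x⟫_ℂ := by
  rw [inner_self_eq_norm_sq_to_K]; simp

lemma avg2 {n : ℕ} (u : Fin n → H) :
    ∑ g : Fin n → Fin 4, ‖∑ i, ph g i • u i‖ ^ 2 = 4 ^ n * ∑ i, ‖u i‖ ^ 2 := by
  apply Complex.ofReal_injective
  rw [Complex.ofReal_sum, Complex.ofReal_mul, Complex.ofReal_sum]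
  simp only [normsq_c, sum_inner, inner_sum, inner_smul_left, inner_smul_right, mul_sum]
  rw [Finset.sum_comm]
  refine Finset.sum_congr rfl fun k _ => ?_
  rw [Finset.sum_comm]
  have : ∀ i, ∑ g : Fin n → Fin 4, ph g k * (conj (ph g i) * ⟪u i, u k⟫_ℂ)
      = if i = k then (4 : ℂ) ^ n * ⟪u i, u k⟫_ℂ else 0 := by
    intro i
    have := moment2 i k
    calc _ = (∑ g : Fin n → Fin 4, conj (ph g i) * ph g k) * ⟪u i, u k⟫_ℂ := by
          rw [Finset.sum_mul]; exact Finset.sum_congr rfl fun g _ => by ring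
      _ = _ := by rw [this]; split_ifs <;> simp
  simp only [this]
  simp

lemma avg4 {n : ℕ} (u : Fin n → Fin n → H) :
    ∑ g : Fin n → Fin 4, ‖∑ i, ∑ j, (conj (ph g i) * ph g j) • u i j‖ ^ 2
      = 4 ^ n * (‖∑ i, u i i‖ ^ 2 + ∑ i, ∑ j, if i = j then 0 else ‖u i j‖ ^ 2) := by
  apply Complex.ofReal_injective
  have e1 : ∀ g : Fin n → Fin 4, ((‖∑ i, ∑ j, (conj (ph g i) * ph g j) • u i j‖ ^ 2 : ℝ) : ℂ)
      = ∑ k, ∑ l, ∑ i, ∑ j, (conj (ph g j) * conj (ph g k) * ph g i * ph g l) * ⟪u i j, u k l⟫_ℂ := by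
    intro g
    simp only [normsq_c, sum_inner, inner_sum, inner_smul_left, inner_smul_right, mul_sum, map_mul,
      Complex.conj_conj]
    refine Finset.sum_congr rfl fun k _ => Finset.sum_congr rfl fun l _ =>
      Finset.sum_congr rfl fun i _ => Finset.sum_congr rfl fun j _ => by ring
  rw [Complex.ofReal_sum]
  simp only [e1]
  have e2 : ∑ g : Fin n → Fin 4, ∑ k, ∑ l, ∑ i, ∑ j,
      (conj (ph g j) * conj (ph g k) * ph g i * ph g l) * ⟪u i j, u k l⟫_ℂ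
      = ∑ k, ∑ l, ∑ i, ∑ j, (∑ g : Fin n → Fin 4,
        conj (ph g j) * conj (ph g k) * ph g i * ph g l) * ⟪u i j, u k l⟫_ℂ := by
    simp only [Finset.sum_mul]
    rw [Finset.sum_comm]
    refine Finset.sum_congr rfl fun k _ => ?_
    rw [Finset.sum_comm]
    refine Finset.sum_congr rfl fun l _ => ?_
    rw [Finset.sum_comm]
    refine Finset.sum_congr rfl fun i _ => ?_
    rw [Finset.sum_comm]
  rw [e2]
  simp only [moment4]
  have e3 : ∀ k l i j : Fin n, (if (j = i ∧ k = l) ∨ (j = l ∧ k = i) then (4 : ℂ) ^ n else 0) * ⟪u i j, u k l⟫_ℂ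
      = (if j = i then (if l = k then (4 : ℂ) ^ n * ⟪u i i, u k k⟫_ℂ else 0) else 0)
        + (if j = l then (if i = k then (if k = l then 0 else (4 : ℂ) ^ n * ⟪u k l, u k l⟫_ℂ) else 0) else 0) := by
    intro k l i j
    by_cases a : j = i
    · subst a
      by_cases b : l = k
      · subst b
        simp
      · have b' : ¬ k = l := fun h => b h.symm
        by_cases c : j = l
        · subst c
          simp [b, b']
        · simp [b, b', c]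
    · by_cases c : j = l
      · subst c
        by_cases d : i = k
        · subst d
          have a' : ¬ i = j := fun h => a h.symm
          simp [a, a']
        · have d' : ¬ k = i := fun h => d h.symm
          simp [a, d, d']
      · simp [a, c]
  simp only [e3, sum_add_distrib, sum_ite_eq', mem_univ, if_true]
  push_cast
  rw [mul_add]
  congr 1
  · have := normsq_c (∑ i, u i i)
    push_cast at this
    rw [this]
    simp only [sum_inner, inner_sum, mul_sum]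
    refine Finset.sum_congr rfl fun k _ => ?_
    rw [Finset.sum_comm]
    simp
  · simp only [mul_sum]
    refine Finset.sum_congr rfl fun k _ => Finset.sum_congr rfl fun l _ => ?_
    have := normsq_c (u k l)
    split_ifs
    · simp
    · rw [← this]

variable {K : Type*} [NormedAddCommGroup K] [InnerProductSpace ℂ K] [CompleteSpace H] [CompleteSpace K]

open ContinuousLinearMap in
lemma vec_ineq {n : ℕ} (A : Fin n → H →L[ℂ] K) (c : ℝ)
    (hA : ∀ g : Fin n → Fin 4, ‖∑ i, ph g i • A i‖ ^ 2 ≤ c) (ξ : H) :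
    ‖∑ i, adjoint (A i) (A i ξ)‖ ^ 2 + (∑ i, ∑ j, if i = j then 0 else ‖adjoint (A i) (A j ξ)‖ ^ 2)
      ≤ c * ∑ i, ‖A i ξ‖ ^ 2 := by
  have h4 : (0 : ℝ) < 4 ^ n := by positivity
  have h1 := avg4 (fun i j => adjoint (A i) (A j ξ))
  have h2 := avg2 (fun i => A i ξ)
  have h3 : ∀ g : Fin n → Fin 4,
      ‖∑ i, ∑ j, (conj (ph g i) * ph g j) • adjoint (A i) (A j ξ)‖ ^ 2
        ≤ c * ‖∑ i, ph g i • A i ξ‖ ^ 2 := by
    intro g
    have e : ∑ i, ∑ j, (conj (ph g i) * ph g j) • adjoint (A i) (A j ξ)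
        = adjoint (∑ i, ph g i • A i) (∑ i, ph g i • A i ξ) := by
      simp only [map_sum, LinearIsometryEquiv.map_smulₛₗ, _root_.sum_apply,
        _root_.smul_apply, map_smul, smul_sum, smul_smul]
      rw [Finset.sum_comm]
      refine Finset.sum_congr rfl fun k _ => Finset.sum_congr rfl fun l _ => ?_
      rw [mul_comm]
    rw [e]
    have := (adjoint (∑ i, ph g i • A i)).le_opNorm (∑ i, ph g i • A i ξ)
    rw [LinearIsometryEquiv.norm_map] at this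
    calc _ ≤ (‖∑ i, ph g i • A i‖ * ‖∑ i, ph g i • A i ξ‖) ^ 2 := by gcongr
      _ = ‖∑ i, ph g i • A i‖ ^ 2 * ‖∑ i, ph g i • A i ξ‖ ^ 2 := by ring
      _ ≤ _ := by gcongr; exact hA g
  have h5 := Finset.sum_le_sum (s := univ) fun g _ => h3 g
  rw [← Finset.mul_sum, h1, h2] at h5
  have : (4 : ℝ) ^ n * (‖∑ i, adjoint (A i) (A i ξ)‖ ^ 2 + (∑ i, ∑ j, if i = j then 0 else ‖adjoint (A i) (A j ξ)‖ ^ 2))
      ≤ 4 ^ n * (c * ∑ i, ‖A i ξ‖ ^ 2) := by linarith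
  exact le_of_mul_le_mul_left this h4

open ContinuousLinearMap in
lemma R_lower {n : ℕ} (A : Fin n → H →L[ℂ] K) (ξ : H) (h : ‖ξ‖ ≤ 1) :
    (∑ i, ‖A i ξ‖ ^ 2) ≤ ‖∑ i, adjoint (A i) (A i ξ)‖ := by
  have e : ((∑ i, ‖A i ξ‖ ^ 2 : ℝ) : ℂ) = ⟪ξ, ∑ i, adjoint (A i) (A i ξ)⟫_ℂ := by
    rw [Complex.ofReal_sum]
    simp only [normsq_c, inner_sum, adjoint_inner_right]
  have h1 : (∑ i, ‖A i ξ‖ ^ 2) = ‖⟪ξ, ∑ i, adjoint (A i) (A i ξ)⟫_ℂ‖ := by
    rw [← e, Complex.norm_real, Real.norm_of_nonneg (by positivity)]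
  rw [h1]
  calc _ ≤ ‖ξ‖ * ‖∑ i, adjoint (A i) (A i ξ)‖ := norm_inner_le_norm _ _
    _ ≤ 1 * ‖∑ i, adjoint (A i) (A i ξ)‖ := by gcongr
    _ = _ := one_mul _

open ContinuousLinearMap in
/-- off-diagonal bound -/
lemma off_le {n : ℕ} (A : Fin n → H →L[ℂ] K) (c : ℝ)
    (hA : ∀ g : Fin n → Fin 4, ‖∑ i, ph g i • A i‖ ^ 2 ≤ c) (ξ : H) (h : ‖ξ‖ ≤ 1) :
    (∑ i, ∑ j, if i = j then 0 else ‖adjoint (A i) (A j ξ)‖ ^ 2)
      ≤ c * (∑ i, ‖A i ξ‖ ^ 2) - (∑ i, ‖A i ξ‖ ^ 2) ^ 2 := by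
  have h1 := vec_ineq A c hA ξ
  have h2 := R_lower A ξ h
  have h3 : (∑ i, ‖A i ξ‖ ^ 2) ^ 2 ≤ ‖∑ i, adjoint (A i) (A i ξ)‖ ^ 2 := by gcongr
  linarith

open ContinuousLinearMap in
lemma l2_vec {n : ℕ} (A : Fin n → H →L[ℂ] K)
    (hA : ∀ g : Fin n → Fin 4, ‖∑ i, ph g i • A i‖ ^ 2 ≤ n) (h1 : ∀ i, ‖A i‖ ≤ 1)
    (ξ : H) (h : ‖ξ‖ ≤ 1) :
    (∑ i, ∑ j, ‖adjoint (A i) (A j ξ)‖ ^ 2) ≤ ((n + 1) / 2) ^ 2 := by
  have h2 := off_le A n hA ξ h
  have h3 : (∑ i, ∑ j, ‖adjoint (A i) (A j ξ)‖ ^ 2)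
      = (∑ i, ∑ j, if i = j then 0 else ‖adjoint (A i) (A j ξ)‖ ^ 2)
        + ∑ i, ‖adjoint (A i) (A i ξ)‖ ^ 2 := by
    rw [← Finset.sum_add_distrib]
    refine Finset.sum_congr rfl fun i _ => ?_
    have : ‖adjoint (A i) (A i ξ)‖ ^ 2 = ∑ j, if i = j then ‖adjoint (A i) (A j ξ)‖ ^ 2 else 0 := by
      simp
    rw [this, ← Finset.sum_add_distrib]
    refine Finset.sum_congr rfl fun j _ => ?_
    split_ifs <;> simp
  have h4 : ∑ i, ‖adjoint (A i) (A i ξ)‖ ^ 2 ≤ ∑ i, ‖A i ξ‖ ^ 2 := by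
    refine Finset.sum_le_sum fun i _ => ?_
    have := (adjoint (A i)).le_opNorm (A i ξ)
    rw [LinearIsometryEquiv.norm_map] at this
    have h5 : ‖A i‖ * ‖A i ξ‖ ≤ 1 * ‖A i ξ‖ := by gcongr; exact h1 i
    gcongr
    linarith
  nlinarith [sq_nonneg ((∑ i, ‖A i ξ‖ ^ 2) - (n + 1) / 2)]

end Pool.Agent.H7.Alpha
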