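import Pool.Agent.H7.Alpha2

namespace Pool.Agent.H7.Alpha

open scoped InnerProductSpace ComplexConjugate Matrix
open Finset

variable {H : Type*} [NormedAddCommGroup H] [InnerProductSpace ℂ H]
variable {ι : Type*} [Fintype ι] [DecidableEq ι]

/-- pairwise orthogonal vectors of norm at most one -/
def Orth (ξ : ι → H) : Prop := (∀ i j, i ≠ j → ⟪ξ i, ξ j⟫_ℂ = 0) ∧ ∀ j, ‖ξ j‖ ≤ 1

lemma Orth.norm_sq_eq {ξ : ι → H} (h : ∀ i j, i ≠ j → ⟪ξ i, ξ j⟫_ℂ = 0) (c : ι → ℂ) :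
    ‖∑ j, c j • ξ j‖ ^ 2 = ∑ j, ‖c j‖ ^ 2 * ‖ξ j‖ ^ 2 := by
  apply Complex.ofReal_injective
  rw [normsq_c, Complex.ofReal_sum]
  simp only [sum_inner, inner_sum, inner_smul_left, inner_smul_right]
  refine Finset.sum_congr rfl fun j _ => ?_
  rw [Finset.sum_eq_single j]
  · rw [Complex.ofReal_mul, normsq_c (ξ j), ← mul_assoc, Complex.mul_conj']
    simp
  · intro i _ hi
    simp [h i j hi]
  · simp

lemma Orth.norm_sq_le {ξ : ι → H} (h : Orth ξ) (c : ι → ℂ) :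
    ‖∑ j, c j • ξ j‖ ^ 2 ≤ ∑ j, ‖c j‖ ^ 2 := by
  rw [Orth.norm_sq_eq h.1]
  refine Finset.sum_le_sum fun j _ => ?_
  have := h.2 j
  have h2 : ‖ξ j‖ ^ 2 ≤ 1 := by nlinarith [norm_nonneg (ξ j)]
  nlinarith [sq_nonneg ‖c j‖]

lemma Orth.bessel {ξ : ι → H} (h : Orth ξ) (y : H) :
    ∑ j, ‖⟪ξ j, y⟫_ℂ‖ ^ 2 ≤ ‖y‖ ^ 2 := by
  set S := ∑ j, ‖⟪ξ j, y⟫_ℂ‖ ^ 2 with hS
  have h1 := h.norm_sq_le (fun j => ⟪ξ j, y⟫_ℂ)
  rw [← hS] at h1
  set p := ∑ j, ⟪ξ j, y⟫_ℂ • ξ j with hp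
  have h2 : (S : ℂ) = ⟪p, y⟫_ℂ := by
    rw [hS, hp, Complex.ofReal_sum]
    simp only [sum_inner, inner_smul_left]
    refine Finset.sum_congr rfl fun j _ => ?_
    rw [Complex.conj_mul']; simp
  have h0 : 0 ≤ S := by positivity
  have h3 : S ≤ ‖p‖ * ‖y‖ := by
    have := norm_inner_le_norm (𝕜 := ℂ) p y
    rwa [← h2, Complex.norm_real, Real.norm_of_nonneg h0] at this
  nlinarith [sq_nonneg (‖p‖ - ‖y‖)]

lemma svd (v : ι → H) : ∃ (W : Matrix ι ι ℂ) (s : ι → ℝ) (ξ : ι → H),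
    Wᴴ * W = 1 ∧ (∀ j, 0 ≤ s j) ∧ (∀ l, v l = ∑ j, (W l j * s j) • ξ j) ∧
      ∑ j, s j ^ 2 = ∑ l, ‖v l‖ ^ 2 ∧ Orth ξ := by
  have hG := Matrix.isHermitian_gram ℂ v
  set U : Matrix ι ι ℂ := (hG.eigenvectorUnitary : Matrix ι ι ℂ) with hU
  have hd : star U * Matrix.gram ℂ v * U = Matrix.diagonal (RCLike.ofReal ∘ hG.eigenvalues) := by
    have := hG.conjStarAlgAut_star_eigenvectorUnitary
    rw [Unitary.conjStarAlgAut_apply] at this
    simpa using this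
  have h1 : star U * U = 1 := Unitary.coe_star_mul_self _
  have h2 : U * star U = 1 := Unitary.coe_mul_star_self _
  set v' : ι → H := fun j => ∑ l, U l j • v l with hv'
  have hin : ∀ i j, ⟪v' i, v' j⟫_ℂ = (star U * Matrix.gram ℂ v * U) i j := by
    intro i j
    simp only [hv', sum_inner, inner_sum, inner_smul_left, inner_smul_right, Matrix.mul_apply,
      Matrix.star_apply, Matrix.gram_apply, Finset.sum_mul, Finset.mul_sum]
    refine Finset.sum_congr rfl fun k _ => Finset.sum_congr rfl fun l _ => ?_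
    simp only [RCLike.star_def]; ring
  have horth : ∀ i j, i ≠ j → ⟪v' i, v' j⟫_ℂ = 0 := by
    intro i j hij
    rw [hin, hd, Matrix.diagonal_apply_ne _ hij]
  have hback : ∀ l, v l = ∑ j, conj (U l j) • v' j := by
    intro l
    simp only [hv', smul_sum, smul_smul]
    rw [Finset.sum_comm]
    have : ∀ l', ∑ j, (conj (U l j) * U l' j) • v l' = (if l' = l then (1 : ℂ) else 0) • v l' := by
      intro l'
      rw [← Finset.sum_smul, ← Matrix.one_apply, ← h2, Matrix.mul_apply]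
      congr 1
      refine Finset.sum_congr rfl fun j _ => ?_
      simp [Matrix.star_apply, mul_comm]
    simp only [this]
    simp
  refine ⟨fun l j => conj (U l j), fun j => ‖v' j‖, fun j => ((‖v' j‖ : ℂ))⁻¹ • v' j, ?_,
    fun j => norm_nonneg _, ?_, ?_, ?_, ?_⟩
  · ext i j
    have := congrFun (congrFun h1 j) i
    rw [Matrix.mul_apply] at this ⊢
    rw [Matrix.one_apply] at this ⊢
    simp only [Matrix.star_apply, RCLike.star_def] at this
    simp only [Matrix.conjTranspose_apply, RCLike.star_def, Complex.conj_conj]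
    rw [show (if i = j then (1 : ℂ) else 0) = if j = i then 1 else 0 by simp [eq_comm], ← this]
    exact Finset.sum_congr rfl fun l _ => mul_comm _ _
  · intro l
    rw [hback l]
    refine Finset.sum_congr rfl fun j _ => ?_
    rw [smul_smul]
    by_cases h : v' j = 0
    · simp [h]
    · have : (‖v' j‖ : ℂ) ≠ 0 := by simpa using h
      congr 1
      field_simp
  · apply Complex.ofReal_injective
    rw [Complex.ofReal_sum, Complex.ofReal_sum]
    simp only [normsq_c, hin]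
    have : Matrix.trace (star U * Matrix.gram ℂ v * U) = Matrix.trace (Matrix.gram ℂ v) := by
      rw [Matrix.trace_mul_comm, ← mul_assoc, h2, one_mul]
    simpa [Matrix.trace] using this
  · intro i j hij
    simp [inner_smul_left, inner_smul_right, horth i j hij]
  · intro j
    by_cases h : v' j = 0
    · simp [h]
    · have : ‖v' j‖ ≠ 0 := by simpa using h
      simp [norm_smul, this]

lemma tensor_sq {P : Type*} [Fintype P] (c : P → EuclideanSpace ℂ ι) (u : P → H) :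
    ((∑ i, ‖∑ p, c p i • u p‖ ^ 2 : ℝ) : ℂ) = ∑ p, ∑ q, ⟪c p, c q⟫_ℂ * ⟪u p, u q⟫_ℂ := by
  rw [Complex.ofReal_sum]
  simp only [normsq_c, sum_inner, inner_sum, inner_smul_left, inner_smul_right, PiLp.inner_apply,
    Finset.sum_mul, Finset.mul_sum]
  rw [Finset.sum_comm]
  conv_rhs => rw [Finset.sum_comm]
  refine Finset.sum_congr rfl fun q _ => ?_
  rw [Finset.sum_comm]
  refine Finset.sum_congr rfl fun p _ => Finset.sum_congr rfl fun i _ => ?_
  simp only [RCLike.inner_apply]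
  ring

/-- columns of a matrix as Euclidean vectors -/
noncomputable def col (W : Matrix ι ι ℂ) (j : ι) : EuclideanSpace ℂ ι := WithLp.toLp 2 fun l => W l j

lemma inner_col {W : Matrix ι ι ℂ} (h : Wᴴ * W = 1) (i j : ι) :
    ⟪col W i, col W j⟫_ℂ = if i = j then 1 else 0 := by
  rw [← Matrix.one_apply, ← h, Matrix.mul_apply, PiLp.inner_apply]
  refine Finset.sum_congr rfl fun l _ => ?_
  simp [col, mul_comm]

lemma orth_col {W : Matrix ι ι ℂ} (h : Wᴴ * W = 1) : Orth (col W) := by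
  refine ⟨fun i j hij => by rw [inner_col h, if_neg hij], fun j => ?_⟩
  have := normsq_c (col W j)
  rw [inner_col h, if_pos rfl] at this
  have h2 : ‖col W j‖ ^ 2 = 1 := by exact_mod_cast this
  nlinarith [norm_nonneg (col W j)]

lemma contr_tensor (B : Matrix ι ι ℂ) (hB : ‖Matrix.toEuclideanCLM (n := ι) (𝕜 := ℂ) B‖ ≤ 1)
    (u : ι → H) : ∑ i, ‖∑ l, B i l • u l‖ ^ 2 ≤ ∑ l, ‖u l‖ ^ 2 := by
  obtain ⟨W, s, ξ, hW, hs, hv, hsum, hξ⟩ := svd u
  rw [← hsum]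
  have e : ∀ i, ∑ l, B i l • u l
      = ∑ j, (Matrix.toEuclideanCLM (n := ι) (𝕜 := ℂ) B (col W j) i * s j) • ξ j := by
    intro i
    simp only [hv, smul_sum, smul_smul]
    rw [Finset.sum_comm]
    refine Finset.sum_congr rfl fun j _ => ?_
    rw [← Finset.sum_smul]
    congr 1
    simp [col, Matrix.mulVec, dotProduct, Finset.sum_mul, mul_assoc]
  simp only [e]
  calc _ ≤ ∑ i, ∑ j, ‖Matrix.toEuclideanCLM (n := ι) (𝕜 := ℂ) B (col W j) i * s j‖ ^ 2 :=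
        Finset.sum_le_sum fun i _ => hξ.norm_sq_le _
    _ = ∑ j, ‖Matrix.toEuclideanCLM (n := ι) (𝕜 := ℂ) B (col W j)‖ ^ 2 * s j ^ 2 := by
        rw [Finset.sum_comm]
        refine Finset.sum_congr rfl fun j _ => ?_
        rw [EuclideanSpace.norm_sq_eq, Finset.sum_mul]
        refine Finset.sum_congr rfl fun i _ => ?_
        rw [norm_mul, mul_pow]; simp
    _ ≤ _ := by
        refine Finset.sum_le_sum fun j _ => ?_
        have h1 := (Matrix.toEuclideanCLM (n := ι) (𝕜 := ℂ) B).le_opNorm (col W j)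
        have h2 := (orth_col hW).2 j
        have h3 : ‖Matrix.toEuclideanCLM (n := ι) (𝕜 := ℂ) B (col W j)‖ ≤ 1 :=
          h1.trans (mul_le_one₀ hB (norm_nonneg _) h2)
        have h4 : ‖Matrix.toEuclideanCLM (n := ι) (𝕜 := ℂ) B (col W j)‖ ^ 2 ≤ 1 := by
          nlinarith [norm_nonneg (Matrix.toEuclideanCLM (n := ι) (𝕜 := ℂ) B (col W j))]
        nlinarith [sq_nonneg (s j)]

variable {K : Type*} [NormedAddCommGroup K] [InnerProductSpace ℂ K] [CompleteSpace H] [CompleteSpace K]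

open ContinuousLinearMap in
lemma pair_le (A A' : H →L[ℂ] K) (ξ : ι → H) (hξ : Orth ξ) (s : ι → ℝ) :
    ∑ j, ∑ j', s j * s j' * ‖⟪A (ξ j), A' (ξ j')⟫_ℂ‖ ^ 2
      ≤ (∑ j, s j ^ 2 * ‖adjoint A (A' (ξ j))‖ ^ 2 + ∑ j, s j ^ 2 * ‖adjoint A' (A (ξ j))‖ ^ 2) / 2 := by
  have h1 : ∑ j, ∑ j', s j' ^ 2 * ‖⟪A (ξ j), A' (ξ j')⟫_ℂ‖ ^ 2
      ≤ ∑ j, s j ^ 2 * ‖adjoint A (A' (ξ j))‖ ^ 2 := by
    rw [Finset.sum_comm]
    refine Finset.sum_le_sum fun j' _ => ?_
    rw [← Finset.mul_sum]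
    gcongr
    simpa only [adjoint_inner_right] using hξ.bessel (adjoint A (A' (ξ j')))
  have h2 : ∑ j, ∑ j', s j ^ 2 * ‖⟪A (ξ j), A' (ξ j')⟫_ℂ‖ ^ 2
      ≤ ∑ j, s j ^ 2 * ‖adjoint A' (A (ξ j))‖ ^ 2 := by
    refine Finset.sum_le_sum fun j _ => ?_
    rw [← Finset.mul_sum]
    gcongr
    have := hξ.bessel (adjoint A' (A (ξ j)))
    simp only [adjoint_inner_right] at this
    refine le_of_eq_of_le (Finset.sum_congr rfl fun j' _ => ?_) this
    rw [norm_inner_symm]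
  have h3 : ∑ j, ∑ j', s j * s j' * ‖⟪A (ξ j), A' (ξ j')⟫_ℂ‖ ^ 2
      ≤ (∑ j, ∑ j', s j' ^ 2 * ‖⟪A (ξ j), A' (ξ j')⟫_ℂ‖ ^ 2
        + ∑ j, ∑ j', s j ^ 2 * ‖⟪A (ξ j), A' (ξ j')⟫_ℂ‖ ^ 2) / 2 := by
    rw [← Finset.sum_add_distrib, Finset.sum_div]
    refine Finset.sum_le_sum fun j _ => ?_
    rw [← Finset.sum_add_distrib, Finset.sum_div]
    refine Finset.sum_le_sum fun j' _ => ?_
    nlinarith [mul_nonneg (sq_nonneg (s j - s j')) (sq_nonneg ‖⟪A (ξ j), A' (ξ j')⟫_ℂ‖)]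
  linarith

end Pool.Agent.H7.Alpha
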