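import Pool.Agent.H7.Alpha3

namespace Pool.Agent.H7.Alpha

open scoped InnerProductSpace ComplexConjugate Matrix
open Finset ContinuousLinearMap

variable {H : Type*} [NormedAddCommGroup H] [InnerProductSpace ℂ H]
variable {ι : Type*} [Fintype ι] [DecidableEq ι]
variable {K : Type*} [NormedAddCommGroup K] [InnerProductSpace ℂ K] [CompleteSpace H] [CompleteSpace K]

/-- matrix as operator -/
noncomputable abbrev op (B : Matrix ι ι ℂ) : EuclideanSpace ℂ ι →L[ℂ] EuclideanSpace ℂ ι :=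
  Matrix.toEuclideanCLM (n := ι) (𝕜 := ℂ) B

/-- symmetrised weighted sum -/
noncomputable def Q {E F : Type*} [NormedAddCommGroup E] [InnerProductSpace ℂ E] [CompleteSpace E]
    [NormedAddCommGroup F] [InnerProductSpace ℂ F] [CompleteSpace F]
    (A A' : E →L[ℂ] F) (ξ : ι → E) (s : ι → ℝ) : ℝ :=
  ∑ j, s j ^ 2 * ‖adjoint A (A' (ξ j))‖ ^ 2

lemma cross_le (A A' : H →L[ℂ] K) (B B' : Matrix ι ι ℂ) (v : ι → H) (W : Matrix ι ι ℂ)
    (s : ι → ℝ) (ξ : ι → H) (hW : Wᴴ * W = 1) (hs : ∀ j, 0 ≤ s j)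
    (hv : ∀ l, v l = ∑ j, (W l j * s j) • ξ j) (hξ : Orth ξ) (t : ℝ) (ht : 0 < t) :
    (∑ i, ⟪∑ l, B i l • A (v l), ∑ l, B' i l • A' (v l)⟫_ℂ).re
      ≤ t / 4 * (Q (op B) (op B') (col W) s + Q (op B') (op B) (col W) s)
        + 1 / (4 * t) * (Q A A' ξ s + Q A' A ξ s) := by
  have e : ∀ (B : Matrix ι ι ℂ) (A : H →L[ℂ] K) i, ∑ l, B i l • A (v l)
      = ∑ j, (op B (col W j) i * s j) • A (ξ j) := by
    intro B A i
    simp only [hv, map_sum, map_smul, smul_sum, smul_smul]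
    rw [Finset.sum_comm]
    refine Finset.sum_congr rfl fun j _ => ?_
    rw [← Finset.sum_smul]
    congr 1
    simp [col, Matrix.mulVec, dotProduct, Finset.sum_mul, mul_assoc]
  have e2 : ∑ i, ⟪∑ l, B i l • A (v l), ∑ l, B' i l • A' (v l)⟫_ℂ
      = ∑ j, ∑ j', ((s j * s j' : ℝ) : ℂ) * (⟪op B (col W j), op B' (col W j')⟫_ℂ
          * ⟪A (ξ j), A' (ξ j')⟫_ℂ) := by
    simp only [e, sum_inner, inner_sum, inner_smul_left, inner_smul_right, PiLp.inner_apply,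
      Finset.sum_mul, Finset.mul_sum]
    rw [Finset.sum_comm]
    conv_rhs => rw [Finset.sum_comm]
    refine Finset.sum_congr rfl fun q _ => ?_
    rw [Finset.sum_comm]
    refine Finset.sum_congr rfl fun p _ => Finset.sum_congr rfl fun i _ => ?_
    simp only [RCLike.inner_apply, map_mul, Complex.conj_ofReal]
    push_cast
    ring
  have h1 := pair_le (op B) (op B') (col W) (orth_col hW) s
  have h2 := pair_le A A' ξ hξ s
  have h3 : (∑ i, ⟪∑ l, B i l • A (v l), ∑ l, B' i l • A' (v l)⟫_ℂ).re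
      ≤ t / 2 * (∑ j, ∑ j', s j * s j' * ‖⟪op B (col W j), op B' (col W j')⟫_ℂ‖ ^ 2)
        + 1 / (2 * t) * ∑ j, ∑ j', s j * s j' * ‖⟪A (ξ j), A' (ξ j')⟫_ℂ‖ ^ 2 := by
    rw [e2, Complex.re_sum, Finset.mul_sum, Finset.mul_sum, ← Finset.sum_add_distrib]
    refine Finset.sum_le_sum fun j _ => ?_
    rw [Complex.re_sum, Finset.mul_sum, Finset.mul_sum, ← Finset.sum_add_distrib]
    refine Finset.sum_le_sum fun j' _ => ?_
    rw [Complex.re_ofReal_mul]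
    set a := ⟪op B (col W j), op B' (col W j')⟫_ℂ
    set b := ⟪A (ξ j), A' (ξ j')⟫_ℂ
    have h4 : (a * b).re ≤ ‖a‖ * ‖b‖ := by rw [← norm_mul]; exact Complex.re_le_norm _
    have h5 : ‖a‖ * ‖b‖ ≤ t / 2 * ‖a‖ ^ 2 + 1 / (2 * t) * ‖b‖ ^ 2 := by
      have : t / 2 * ‖a‖ ^ 2 + 1 / (2 * t) * ‖b‖ ^ 2 - ‖a‖ * ‖b‖
          = (t * ‖a‖ - ‖b‖) ^ 2 / (2 * t) := by field_simp; ring
      have h6 : 0 ≤ (t * ‖a‖ - ‖b‖) ^ 2 / (2 * t) := by positivity
      linarith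
    have h7 := mul_nonneg (hs j) (hs j')
    nlinarith [mul_le_mul_of_nonneg_left (h4.trans h5) h7]
  have h8 : 0 < 1 / (2 * t) := by positivity
  have h9 := mul_le_mul_of_nonneg_left h1 (show 0 ≤ t / 2 by positivity)
  have h10 := mul_le_mul_of_nonneg_left h2 h8.le
  have e3 : 1 / (4 * t) = 1 / (2 * t) / 2 := by field_simp; ring
  unfold Q
  rw [e3]
  linarith

omit [DecidableEq ι] [CompleteSpace K] in
lemma expand {n : ℕ} (y : Fin n → ι → K) :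
    ∑ i, ‖∑ k, y k i‖ ^ 2 = ∑ k, ∑ k', (∑ i, ⟪y k i, y k' i⟫_ℂ).re := by
  simp only [← Complex.re_sum]
  have : ((∑ i, ‖∑ k, y k i‖ ^ 2 : ℝ) : ℂ) = ∑ k, ∑ k', ∑ i, ⟪y k i, y k' i⟫_ℂ := by
    rw [Complex.ofReal_sum]
    simp only [normsq_c, sum_inner, inner_sum]
    rw [Finset.sum_comm]
    conv_rhs => rw [Finset.sum_comm]
    refine Finset.sum_congr rfl fun q _ => ?_
    rw [Finset.sum_comm]
  rw [← this, Complex.ofReal_re]

lemma Q_sum_le {E F : Type*} [NormedAddCommGroup E] [InnerProductSpace ℂ E] [CompleteSpace E]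
    [NormedAddCommGroup F] [InnerProductSpace ℂ F] [CompleteSpace F] {n : ℕ}
    (A : Fin n → E →L[ℂ] F)
    (hA : ∀ g : Fin n → Fin 4, ‖∑ i, ph g i • A i‖ ^ 2 ≤ n) (h1 : ∀ i, ‖A i‖ ≤ 1)
    (ξ : ι → E) (hξ : Orth ξ) (s : ι → ℝ) :
    ∑ k, ∑ k', Q (A k) (A k') ξ s ≤ ((n + 1) / 2) ^ 2 * ∑ j, s j ^ 2 := by
  unfold Q
  have : ∑ k, ∑ k', ∑ j, s j ^ 2 * ‖adjoint (A k) (A k' (ξ j))‖ ^ 2
      = ∑ j, s j ^ 2 * ∑ k, ∑ k', ‖adjoint (A k) (A k' (ξ j))‖ ^ 2 := by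
    simp only [Finset.mul_sum]
    conv_rhs => rw [Finset.sum_comm]
    refine Finset.sum_congr rfl fun q _ => ?_
    rw [Finset.sum_comm]
  rw [this, Finset.mul_sum]
  refine Finset.sum_le_sum fun j _ => ?_
  rw [mul_comm]
  gcongr
  exact l2_vec A hA h1 _ (hξ.2 j)

theorem main_l2 {n : ℕ} (A : Fin n → H →L[ℂ] K) (B : Fin n → Matrix ι ι ℂ)
    (hA : ∀ g : Fin n → Fin 4, ‖∑ i, ph g i • A i‖ ^ 2 ≤ n) (h1 : ∀ i, ‖A i‖ ≤ 1)
    (hB : ∀ g : Fin n → Fin 4, ‖∑ i, ph g i • op (B i)‖ ^ 2 ≤ n) (h2 : ∀ i, ‖op (B i)‖ ≤ 1)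
    (v : ι → H) :
    ∑ i, ‖∑ k, ∑ l, B k i l • A k (v l)‖ ^ 2 ≤ ((n + 1) / 2) ^ 2 * ∑ l, ‖v l‖ ^ 2 := by
  obtain ⟨W, s, ξ, hW, hs, hv, hsum, hξ⟩ := svd v
  rw [expand (fun k i => ∑ l, B k i l • A k (v l)), ← hsum]
  have h3 := Q_sum_le A hA h1 ξ hξ s
  have h4 := Q_sum_le (fun k => op (B k)) hB h2 (col W) (orth_col hW) s
  have h3' := h3
  have h4' := h4
  rw [Finset.sum_comm] at h3' h4'
  have h5 : ∑ k, ∑ k', (∑ i, ⟪∑ l, B k i l • A k (v l), ∑ l, B k' i l • A k' (v l)⟫_ℂ).re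
      ≤ ∑ k, ∑ k', ((1 : ℝ) / 4 * (Q (op (B k)) (op (B k')) (col W) s + Q (op (B k')) (op (B k)) (col W) s)
        + 1 / (4 * 1) * (Q (A k) (A k') ξ s + Q (A k') (A k) ξ s)) :=
    Finset.sum_le_sum fun k _ => Finset.sum_le_sum fun k' _ =>
      cross_le (A k) (A k') (B k) (B k') v W s ξ hW hs hv hξ 1 one_pos
  simp only [Finset.sum_add_distrib, ← Finset.mul_sum] at h5
  linarith

theorem main_linf {n : ℕ} (A : Fin n → H →L[ℂ] K) (B : Fin n → Matrix ι ι ℂ)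
    (hA : ∀ g : Fin n → Fin 4, ‖∑ i, ph g i • A i‖ ^ 2 ≤ 1) (h2 : ∀ i, ‖op (B i)‖ ≤ 1)
    (v : ι → H) (t : ℝ) (ht : 0 < t) :
    ∑ i, ‖∑ k, ∑ l, B k i l • A k (v l)‖ ^ 2
      ≤ (1 / 2 + t * ((n : ℝ) ^ 2 - n + 1) / 2 + 1 / (8 * t)) * ∑ l, ‖v l‖ ^ 2 := by
  obtain ⟨W, s, ξ, hW, hs, hv, hsum, hξ⟩ := svd v
  rw [expand (fun k i => ∑ l, B k i l • A k (v l)), ← hsum]
  set S := ∑ j, s j ^ 2 with hS
  have hQB : ∀ k k', Q (op (B k)) (op (B k')) (col W) s ≤ S := by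
    intro k k'
    refine Finset.sum_le_sum fun j _ => ?_
    have a1 := (adjoint (op (B k))).le_opNorm (op (B k') (col W j))
    rw [LinearIsometryEquiv.norm_map] at a1
    have a2 := (op (B k')).le_opNorm (col W j)
    have a3 : ‖op (B k') (col W j)‖ ≤ 1 :=
      a2.trans (mul_le_one₀ (h2 k') (norm_nonneg _) ((orth_col hW).2 j))
    have a4 : ‖adjoint (op (B k)) (op (B k') (col W j))‖ ≤ 1 :=
      a1.trans (mul_le_one₀ (h2 k) (norm_nonneg _) a3)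
    have a5 : ‖adjoint (op (B k)) (op (B k') (col W j))‖ ^ 2 ≤ 1 := by
      nlinarith [norm_nonneg (adjoint (op (B k)) (op (B k') (col W j)))]
    nlinarith [sq_nonneg (s j)]
  have hdiag : ∀ k, (∑ i, ⟪∑ l, B k i l • A k (v l), ∑ l, B k i l • A k (v l)⟫_ℂ).re
      ≤ ∑ j, s j ^ 2 * ‖A k (ξ j)‖ ^ 2 := by
    intro k
    simp only [← normsq_c]
    rw [← Complex.ofReal_sum, Complex.ofReal_re]
    refine (contr_tensor (B k) (h2 k) (fun l => A k (v l))).trans (le_of_eq ?_)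
    apply Complex.ofReal_injective
    have := tensor_sq (col W) (fun j => (s j : ℂ) • A k (ξ j))
    have e : ∀ l, A k (v l) = ∑ p, col W p l • (s p : ℂ) • A k (ξ p) := by
      intro l
      simp only [hv, map_sum, map_smul, smul_smul, col]
    simp only [← e] at this
    rw [this, Complex.ofReal_sum]
    refine Finset.sum_congr rfl fun j _ => ?_
    simp only [inner_col hW, ite_mul, one_mul, zero_mul, sum_ite_eq, mem_univ, if_true]
    rw [← normsq_c, norm_smul, mul_pow]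
    simp
  have h5 : ∑ k, ∑ k', (∑ i, ⟪∑ l, B k i l • A k (v l), ∑ l, B k' i l • A k' (v l)⟫_ℂ).re
      ≤ ∑ k, ∑ k', ((if k = k' then ∑ j, s j ^ 2 * ‖A k (ξ j)‖ ^ 2 else 0)
        + (t / 2 * S - if k = k' then t / 2 * S else 0)
        + 1 / (4 * t) * ((if k = k' then 0 else Q (A k) (A k') ξ s)
          + (if k' = k then 0 else Q (A k') (A k) ξ s))) := by
    refine Finset.sum_le_sum fun k _ => Finset.sum_le_sum fun k' _ => ?_
    by_cases h : k = k'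
    · subst h
      simpa using hdiag k
    · have h' : ¬ k' = k := fun e => h e.symm
      simp only [h, h', if_false]
      have := cross_le (A k) (A k') (B k) (B k') v W s ξ hW hs hv hξ t ht
      nlinarith [hQB k k', hQB k' k]
  simp only [Finset.sum_add_distrib, Finset.sum_sub_distrib, ← Finset.mul_sum, sum_ite_eq, mem_univ,
    if_true, sum_const, card_univ, Fintype.card_fin, nsmul_eq_mul] at h5
  have h6 : ∑ k, ∑ k', (if k = k' then 0 else Q (A k) (A k') ξ s)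
      ≤ ∑ j, s j ^ 2 * ((∑ i, ‖A i (ξ j)‖ ^ 2) - (∑ i, ‖A i (ξ j)‖ ^ 2) ^ 2) := by
    have : ∑ k, ∑ k', (if k = k' then 0 else Q (A k) (A k') ξ s)
        = ∑ j, s j ^ 2 * ∑ k, ∑ k', if k = k' then 0 else ‖adjoint (A k) (A k' (ξ j))‖ ^ 2 := by
      simp only [Finset.mul_sum]
      conv_rhs => rw [Finset.sum_comm]
      refine Finset.sum_congr rfl fun q _ => ?_
      rw [Finset.sum_comm]
      refine Finset.sum_congr rfl fun q' _ => ?_
      split_ifs <;> simp [Q]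
    rw [this]
    refine Finset.sum_le_sum fun j _ => ?_
    gcongr
    simpa using off_le A 1 hA _ (hξ.2 j)
  have h6' := h6
  rw [Finset.sum_comm] at h6'
  have h7 : ∑ k, ∑ j, s j ^ 2 * ‖A k (ξ j)‖ ^ 2 = ∑ j, s j ^ 2 * ∑ i, ‖A i (ξ j)‖ ^ 2 := by
    simp only [Finset.mul_sum]
    rw [Finset.sum_comm]
  have h8 : ∑ j, s j ^ 2 * ∑ i, ‖A i (ξ j)‖ ^ 2
      + 1 / (2 * t) * ∑ j, s j ^ 2 * ((∑ i, ‖A i (ξ j)‖ ^ 2) - (∑ i, ‖A i (ξ j)‖ ^ 2) ^ 2)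
      ≤ (1 / 2 + t / 2 + 1 / (8 * t)) * S := by
    rw [hS, Finset.mul_sum, Finset.mul_sum, ← Finset.sum_add_distrib]
    refine Finset.sum_le_sum fun j _ => ?_
    set a := ∑ i, ‖A i (ξ j)‖ ^ 2
    have : (1 / 2 + t / 2 + 1 / (8 * t)) * s j ^ 2 - (s j ^ 2 * a + 1 / (2 * t) * (s j ^ 2 * (a - a ^ 2)))
        = s j ^ 2 * (a - t - 1 / 2) ^ 2 / (2 * t) := by field_simp; ring
    have h9 : 0 ≤ s j ^ 2 * (a - t - 1 / 2) ^ 2 / (2 * t) := by positivity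
    linarith
  have e3 : 1 / (4 * t) = 1 / (2 * t) / 2 := by field_simp; ring
  have h10 : 0 < 1 / (2 * t) := by positivity
  rw [e3, h7] at h5
  nlinarith [mul_le_mul_of_nonneg_left (add_le_add h6 h6') h10.le]

end Pool.Agent.H7.Alpha
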