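import Mathlib

namespace Pool.Agent.H7.Alpha

open scoped ENNReal

universe v

/-- The linear maps `E → F` of norm at most one. -/
def contr (E F : Type*) [NormedAddCommGroup E] [NormedSpace ℂ E] [NormedAddCommGroup F]
    [NormedSpace ℂ F] : Set (E → F) :=
  {g | ∃ u : E →L[ℂ] F, ‖u‖ ≤ 1 ∧ g = u}

/-- The operator norm of a complex `m × m` matrix. -/
noncomputable def matNorm {m : ℕ} (M : Matrix (Fin m) (Fin m) ℂ) : ℝ≥0∞ :=
  ⨆ (y : Fin m → ℂ) (_ : ∑ j, ‖y j‖ ^ 2 ≤ 1), ENNReal.ofReal √(∑ i, ‖∑ j, M i j * y j‖ ^ 2)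

/-- The norm in `B(H^m)` of an `m × m` matrix of operators on `H`. -/
noncomputable def blockNorm {m : ℕ} {H : Type*} [NormedAddCommGroup H] [InnerProductSpace ℂ H]
    (T : Matrix (Fin m) (Fin m) (H →L[ℂ] H)) : ℝ≥0∞ :=
  ⨆ (y : Fin m → H) (_ : ∑ j, ‖y j‖ ^ 2 ≤ 1), ENNReal.ofReal √(∑ i, ‖∑ j, T i j (y j)‖ ^ 2)

/-- The norm of `M_m(min E)`. -/
noncomputable def minNorm {E : Type*} [NormedAddCommGroup E] [NormedSpace ℂ E] {m : ℕ}
    (x : Matrix (Fin m) (Fin m) E) : ℝ≥0∞ :=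
  ⨆ f ∈ contr E ℂ, matNorm (x.map f)

/-- The supremum of `‖(u x_ij)‖` over the contractions `u : E → B(H)`, for one space `H`. -/
noncomputable def imgNorm {E : Type*} [NormedAddCommGroup E] [NormedSpace ℂ E] {m : ℕ}
    (x : Matrix (Fin m) (Fin m) E) (H : Type*) [NormedAddCommGroup H] [InnerProductSpace ℂ H] :
    ℝ≥0∞ :=
  ⨆ u ∈ contr E (H →L[ℂ] H), blockNorm (x.map u)

/-- The norm of `M_m(max E)`. -/
noncomputable def maxNorm {E : Type*} [NormedAddCommGroup E] [NormedSpace ℂ E] {m : ℕ}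
    (x : Matrix (Fin m) (Fin m) E) : ℝ≥0∞ :=
  ⨆ (H : Type v) (_ : NormedAddCommGroup H) (_ : InnerProductSpace ℂ H) (_ : CompleteSpace H),
    imgNorm x H

/-- The completely bounded norm of the identity map `min E → max E`. -/
noncomputable def alpha (E : Type*) [NormedAddCommGroup E] [NormedSpace ℂ E] : ℝ≥0∞ :=
  ⨆ (m : ℕ) (x : Matrix (Fin m) (Fin m) E) (_ : minNorm x ≤ 1), maxNorm.{v} x

end Pool.Agent.H7.Alpha
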