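import Pool.Agent.H7.Alpha4
import Pool.Agent.H7.AlphaDefs

namespace Pool.Agent.H7.Alpha

open scoped InnerProductSpace ComplexConjugate Matrix ENNReal
open Finset

universe v

/-- block operator -/
noncomputable def blockOp {m : ℕ} {H : Type*} [NormedAddCommGroup H] [InnerProductSpace ℂ H]
    (T : Matrix (Fin m) (Fin m) (H →L[ℂ] H)) :
    PiLp 2 (fun _ : Fin m => H) →L[ℂ] PiLp 2 (fun _ : Fin m => H) :=
  (PiLp.continuousLinearEquiv 2 ℂ (fun _ : Fin m => H)).symm.toContinuousLinearMap ∘L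
    ContinuousLinearMap.pi fun i => ∑ j, T i j ∘L PiLp.proj 2 (fun _ : Fin m => H) j

lemma sup_eq {m : ℕ} {H : Type*} [NormedAddCommGroup H] [InnerProductSpace ℂ H]
    (T : PiLp 2 (fun _ : Fin m => H) →L[ℂ] PiLp 2 (fun _ : Fin m => H)) :
    ⨆ (y : Fin m → H) (_ : ∑ j, ‖y j‖ ^ 2 ≤ 1),
      ENNReal.ofReal √(∑ i, ‖T (WithLp.toLp 2 y) i‖ ^ 2) = ENNReal.ofReal ‖T‖ := by
  have e : ∀ y : Fin m → H, √(∑ i, ‖T (WithLp.toLp 2 y) i‖ ^ 2) = ‖T (WithLp.toLp 2 y)‖ := by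
    intro y
    rw [← PiLp.norm_sq_eq_of_L2, Real.sqrt_sq (norm_nonneg _)]
  have e2 : ∀ y : Fin m → H, ∑ j, ‖y j‖ ^ 2 ≤ 1 ↔
      ‖(WithLp.toLp 2 y : PiLp 2 (fun _ : Fin m => H))‖ ≤ 1 := by
    intro y
    rw [← sq_le_one_iff₀ (norm_nonneg _), PiLp.norm_sq_eq_of_L2]
  simp only [e, e2]
  apply le_antisymm
  · refine iSup_le fun y => iSup_le fun hy => ENNReal.ofReal_le_ofReal ?_
    exact (T.le_opNorm _).trans (mul_le_of_le_one_right (norm_nonneg _) hy)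
  · refine le_of_forall_lt fun c hc => ?_
    have hc' : c ≠ ⊤ := ne_top_of_lt hc
    have h1 : c.toReal < ‖T‖ := by
      rwa [← ENNReal.lt_ofReal_iff_toReal_lt hc']
    obtain ⟨y, hy, hy2⟩ := T.exists_lt_apply_of_lt_opNorm h1
    refine lt_of_lt_of_le ?_ (le_iSup₂_of_le (f := fun (y : Fin m → H)
      (_ : ‖(WithLp.toLp 2 y : PiLp 2 (fun _ : Fin m => H))‖ ≤ 1) =>
        ENNReal.ofReal ‖T (WithLp.toLp 2 y)‖) (WithLp.ofLp y) hy.le le_rfl)
    rwa [ENNReal.lt_ofReal_iff_toReal_lt hc']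

lemma blockOp_apply {m : ℕ} {H : Type*} [NormedAddCommGroup H] [InnerProductSpace ℂ H]
    (T : Matrix (Fin m) (Fin m) (H →L[ℂ] H)) (y : PiLp 2 (fun _ : Fin m => H)) (i : Fin m) :
    blockOp T y i = ∑ j, T i j (y j) := by
  simp [blockOp]

lemma blockNorm_eq {m : ℕ} {H : Type*} [NormedAddCommGroup H] [InnerProductSpace ℂ H]
    (T : Matrix (Fin m) (Fin m) (H →L[ℂ] H)) : blockNorm T = ENNReal.ofReal ‖blockOp T‖ := by
  rw [← sup_eq]
  simp only [blockNorm, blockOp_apply]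

lemma matNorm_eq {m : ℕ} (M : Matrix (Fin m) (Fin m) ℂ) : matNorm M = ENNReal.ofReal ‖op M‖ := by
  rw [← sup_eq]
  rfl

lemma blockOp_le {m : ℕ} {H : Type*} [NormedAddCommGroup H] [InnerProductSpace ℂ H]
    (T : Matrix (Fin m) (Fin m) (H →L[ℂ] H)) (c : ℝ) (hc : 0 ≤ c)
    (h : ∀ y : Fin m → H, ∑ i, ‖∑ j, T i j (y j)‖ ^ 2 ≤ c ^ 2 * ∑ j, ‖y j‖ ^ 2) :
    ‖blockOp T‖ ≤ c := by
  refine ContinuousLinearMap.opNorm_le_bound _ hc fun y => ?_
  have h1 := h (fun j => y j)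
  have h2 : ‖blockOp T y‖ ^ 2 ≤ (c * ‖y‖) ^ 2 := by
    rw [mul_pow, PiLp.norm_sq_eq_of_L2, PiLp.norm_sq_eq_of_L2]
    simpa only [blockOp_apply] using h1
  exact le_of_sq_le_sq h2 (by positivity) 

lemma min_le {E : Type*} [NormedAddCommGroup E] [NormedSpace ℂ E] {m : ℕ}
    {x : Matrix (Fin m) (Fin m) E} (hx : minNorm x ≤ 1) (f : E →L[ℂ] ℂ) (hf : ‖f‖ ≤ 1) :
    ‖op (x.map f)‖ ≤ 1 := by
  have : matNorm (x.map f) ≤ 1 := le_trans (le_iSup₂_of_le (f := fun (f : E → ℂ)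
    (_ : f ∈ contr E ℂ) => matNorm (x.map f)) f ⟨f, hf, rfl⟩ le_rfl) hx
  rw [matNorm_eq] at this
  exact ENNReal.ofReal_le_one.mp this

lemma min_le' {E : Type*} [NormedAddCommGroup E] [NormedSpace ℂ E] {m : ℕ}
    {x : Matrix (Fin m) (Fin m) E} (hx : minNorm x ≤ 1) (f : E →L[ℂ] ℂ) :
    ‖op (x.map f)‖ ≤ ‖f‖ := by
  by_cases h : f = 0
  · subst h
    have : x.map (0 : E →L[ℂ] ℂ) = 0 := by ext; simp
    rw [this]; simp
  · have h0 : 0 < ‖f‖ := norm_pos_iff.mpr h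
    have h1 := min_le hx (((‖f‖⁻¹ : ℝ) : ℂ) • f) (by
      rw [norm_smul, Complex.norm_real, norm_inv, norm_norm, inv_mul_cancel₀ h0.ne'])
    have : x.map ((((‖f‖⁻¹ : ℝ) : ℂ) • f : E →L[ℂ] ℂ)) = ((‖f‖⁻¹ : ℝ) : ℂ) • x.map f := by
      ext; simp
    rw [this, op, map_smul, norm_smul, Complex.norm_real, norm_inv, norm_norm] at h1
    rwa [inv_mul_le_iff₀ h0, mul_one] at h1

lemma alpha_le (E : Type*) [NormedAddCommGroup E] [NormedSpace ℂ E] (c : ℝ)
    (h : ∀ (m : ℕ) (x : Matrix (Fin m) (Fin m) E), minNorm x ≤ 1 →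
      ∀ (H : Type v) [NormedAddCommGroup H] [InnerProductSpace ℂ H] [CompleteSpace H]
        (u : E →L[ℂ] (H →L[ℂ] H)), ‖u‖ ≤ 1 → ‖blockOp (x.map u)‖ ≤ c) :
    alpha.{v} E ≤ ENNReal.ofReal c := by
  refine iSup_le fun m => iSup_le fun x => iSup_le fun hx => iSup_le fun H => iSup_le fun _ =>
    iSup_le fun _ => iSup_le fun _ => iSup_le fun g => iSup_le fun hg => ?_
  obtain ⟨u, hu, rfl⟩ := hg
  rw [blockNorm_eq]
  exact ENNReal.ofReal_le_ofReal (h m x hx H u hu)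

lemma le_alpha (E : Type*) [NormedAddCommGroup E] [NormedSpace ℂ E] (m : ℕ)
    (x : Matrix (Fin m) (Fin m) E) (hx : ∀ f : E →L[ℂ] ℂ, ‖f‖ ≤ 1 → ‖op (x.map f)‖ ≤ 1)
    (H : Type v) [NormedAddCommGroup H] [InnerProductSpace ℂ H] [CompleteSpace H]
    (u : E →L[ℂ] (H →L[ℂ] H)) (hu : ‖u‖ ≤ 1) :
    ENNReal.ofReal ‖blockOp (x.map u)‖ ≤ alpha.{v} E := by
  have h1 : minNorm x ≤ 1 := by
    refine iSup_le fun g => iSup_le fun hg => ?_
    obtain ⟨f, hf, rfl⟩ := hg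
    rw [matNorm_eq]
    exact ENNReal.ofReal_le_one.mpr (hx f hf)
  rw [← blockNorm_eq]
  refine le_iSup_of_le m (le_iSup₂_of_le x h1 ?_)
  exact le_iSup_of_le H (le_iSup_of_le inferInstance (le_iSup_of_le inferInstance
    (le_iSup_of_le inferInstance (le_iSup₂_of_le (⇑u) ⟨u, hu, rfl⟩ le_rfl))))

theorem alpha_l2_le (n : ℕ) :
    alpha.{v} (EuclideanSpace ℂ (Fin n)) ≤ ENNReal.ofReal ((n + 1) / 2) := by
  refine alpha_le _ _ fun m x hx H _ _ _ u hu => blockOp_le _ _ (by positivity) fun y => ?_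
  have hu' : ∀ z : EuclideanSpace ℂ (Fin n), u z = ∑ k, z k • u (EuclideanSpace.single k 1) := by
    intro z
    conv_lhs => rw [← (EuclideanSpace.basisFun (Fin n) ℂ).sum_repr z]
    simp
  have hph : ∀ (w : Fin n → ℂ), (∀ k, ‖w k‖ = 1) →
      ‖(WithLp.toLp 2 w : EuclideanSpace ℂ (Fin n))‖ ^ 2 = n := by
    intro w hw
    rw [EuclideanSpace.norm_sq_eq]
    simp [hw]
  have := main_l2 (fun k => u (EuclideanSpace.single k 1)) (fun k => x.map fun z => z k) ?_ ?_ ?_ ?_ y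
  · refine le_of_eq_of_le (Finset.sum_congr rfl fun i _ => ?_) this
    rw [Finset.sum_comm]
    congr 2
    refine Finset.sum_congr rfl fun j _ => ?_
    rw [Matrix.map_apply, hu']
    simp
  · intro g
    rw [← hph (ph g) (ph_norm g)]
    have h1 := hu' (WithLp.toLp 2 (ph g))
    simp only at h1
    rw [← h1]
    have h2 := u.le_opNorm (WithLp.toLp 2 (ph g))
    have h3 := mul_le_mul_of_nonneg_right hu (norm_nonneg (WithLp.toLp 2 (ph g) : EuclideanSpace ℂ (Fin n)))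
    gcongr
    linarith
  · intro k
    have h2 := u.le_opNorm (EuclideanSpace.single k 1)
    simp only [PiLp.norm_single, norm_one, mul_one] at h2
    exact h2.trans hu
  · intro g
    rw [← hph (fun k => conj (ph g k)) (fun k => by simp [ph_norm])]
    have h1 := min_le' hx (innerSL ℂ (WithLp.toLp 2 (fun k => conj (ph g k)) : EuclideanSpace ℂ (Fin n)))
    rw [innerSL_apply_norm] at h1
    have h2 : ∑ i, ph g i • op (x.map fun z => z i)
        = op (x.map (innerSL ℂ (WithLp.toLp 2 (fun k => conj (ph g k)) : EuclideanSpace ℂ (Fin n)))) := by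
      simp only [op, ← map_smul, ← map_sum]
      congr 1
      ext a b
      simp [Matrix.sum_apply, PiLp.inner_apply, mul_comm]
    rw [h2]
    gcongr
  · intro k
    have h1 := min_le' hx (innerSL ℂ (EuclideanSpace.single k (1 : ℂ)))
    rw [innerSL_apply_norm] at h1
    simp only [PiLp.norm_single, norm_one] at h1
    have h2 : (x.map fun z => z k) = x.map (innerSL ℂ (EuclideanSpace.single k (1 : ℂ))) := by
      ext a b
      simp [EuclideanSpace.inner_single_left]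
    rw [h2]
    exact h1

theorem alpha_linf_le (n : ℕ) :
    alpha.{v} (Fin n → ℂ) ≤ ENNReal.ofReal √((1 + √((n : ℝ) ^ 2 - n + 1)) / 2) := by
  refine alpha_le _ _ fun m x hx H _ _ _ u hu => blockOp_le _ _ (by positivity) fun y => ?_
  have hu' : ∀ z : Fin n → ℂ, u z = ∑ k, z k • u (Pi.single k 1) := by
    intro z
    conv_lhs => rw [pi_eq_sum_univ' z]
    simp
  have hD : (0 : ℝ) < (n : ℝ) ^ 2 - n + 1 := by nlinarith [sq_nonneg ((n : ℝ) - 1 / 2)]
  set D := √((n : ℝ) ^ 2 - n + 1) with hDd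
  have hD0 : 0 < D := Real.sqrt_pos.mpr hD
  have hD2 : D ^ 2 = (n : ℝ) ^ 2 - n + 1 := Real.sq_sqrt hD.le
  have := main_linf (fun k => u (Pi.single k 1)) (fun k => x.map fun z => z k) ?_ ?_ y
    (1 / (2 * D)) (by positivity)
  · rw [Real.sq_sqrt (by positivity)]
    rw [← hD2] at this
    have e : 1 / 2 + 1 / (2 * D) * D ^ 2 / 2 + 1 / (8 * (1 / (2 * D))) = (1 + D) / 2 := by
      field_simp; ring
    rw [e] at this
    refine le_of_eq_of_le (Finset.sum_congr rfl fun i _ => ?_) this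
    rw [Finset.sum_comm]
    congr 2
    refine Finset.sum_congr rfl fun j _ => ?_
    rw [Matrix.map_apply, hu']
    simp
  · intro g
    rw [← hu' (ph g)]
    have h2 := u.le_opNorm (ph g)
    have h3 : ‖ph g‖ ≤ 1 := (pi_norm_le_iff_of_nonneg zero_le_one).mpr fun i => (ph_norm g i).le
    have h4 := h2.trans (mul_le_one₀ hu (norm_nonneg _) h3)
    nlinarith [norm_nonneg (u (ph g))]
  · intro k
    refine min_le hx (ContinuousLinearMap.proj k) ?_
    refine ContinuousLinearMap.opNorm_le_bound _ zero_le_one fun z => ?_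
    simpa using norm_le_pi_norm z k

end Pool.Agent.H7.Alpha
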