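import Pool.Agent.H7.Alpha5

namespace Pool.Agent.H7.Alpha

open scoped InnerProductSpace ComplexConjugate Matrix ENNReal
open Finset

universe v

/-- creation operators -/
structure CAR {n : ℕ} {ι : Type*} [Fintype ι] [DecidableEq ι] (C : Fin n → Matrix ι ι ℂ)
    (deg : ι → ℕ) : Prop where
  car : ∀ i j, (C i)ᴴ * C j + C j * (C i)ᴴ = if i = j then 1 else 0
  grade : ∀ i a b, C i a b ≠ 0 → deg a = deg b + 1
  num : ∑ i, C i * (C i)ᴴ = Matrix.diagonal fun a => (deg a : ℂ)
  surj : ∀ j ≤ n, ∃ a, deg a = j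
  real : ∀ i a b, conj (C i a b) = C i a b

lemma CAR.reindex {n : ℕ} {ι κ : Type*} [Fintype ι] [DecidableEq ι] [Fintype κ] [DecidableEq κ]
    {C : Fin n → Matrix ι ι ℂ} {deg : ι → ℕ} (h : CAR C deg) (e : κ ≃ ι) :
    CAR (fun i => (C i).submatrix e e) (deg ∘ e) where
  car i j := by
    rw [Matrix.conjTranspose_submatrix, Matrix.submatrix_mul_equiv, Matrix.submatrix_mul_equiv]
    have : ((C i)ᴴ * C j).submatrix e e + (C j * (C i)ᴴ).submatrix e e
        = ((C i)ᴴ * C j + C j * (C i)ᴴ).submatrix e e := rfl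
    rw [this, h.car]
    split_ifs <;> simp
  grade i a b hab := h.grade i _ _ hab
  num := by
    simp only [Matrix.conjTranspose_submatrix, Matrix.submatrix_mul_equiv]
    ext a b
    have := congrFun (congrFun h.num (e a)) (e b)
    simp only [Matrix.sum_apply, Matrix.submatrix_apply] at this ⊢
    rw [this]
    simp [Matrix.diagonal_apply]
  surj j hj := by
    obtain ⟨a, ha⟩ := h.surj j hj
    exact ⟨e.symm a, by simpa using ha⟩
  real i a b := h.real i _ _

lemma exists_CAR (n : ℕ) : ∃ (m : ℕ) (C : Fin n → Matrix (Fin m) (Fin m) ℂ) (deg : Fin m → ℕ),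
    CAR C deg := by
  induction n with
  | zero =>
    refine ⟨1, fun _ => 0, fun _ => 0, fun i => i.elim0, fun i => i.elim0, by simp, ?_,
      fun i => i.elim0⟩
    intro j hj
    exact ⟨0, by omega⟩
  | succ n ih =>
    obtain ⟨m, C, deg, h⟩ := ih
    have key : CAR (n := n + 1) (ι := Fin m ⊕ Fin m)
        (Fin.cons (Matrix.fromBlocks 0 0 1 0) fun i => Matrix.fromBlocks (C i) 0 0 (-C i))
        (Sum.elim deg fun a => deg a + 1) := by
      constructor
      · intro i j
        refine Fin.cases ?_ (fun i => ?_) i <;> refine Fin.cases ?_ (fun j => ?_) j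
        · simp [Matrix.fromBlocks_conjTranspose, Matrix.fromBlocks_multiply, Matrix.fromBlocks_add]
        · simp [Matrix.fromBlocks_conjTranspose, Matrix.fromBlocks_multiply, Matrix.fromBlocks_add,
            (Fin.succ_ne_zero j).symm]
        · simp [Matrix.fromBlocks_conjTranspose, Matrix.fromBlocks_multiply, Matrix.fromBlocks_add]
        · simp only [Fin.cons_succ, Matrix.fromBlocks_conjTranspose, Matrix.fromBlocks_multiply,
            Matrix.fromBlocks_add, Fin.succ_inj]
          simp only [Matrix.conjTranspose_zero, Matrix.mul_zero, Matrix.zero_mul, add_zero, zero_add,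
            Matrix.conjTranspose_neg, neg_mul_neg, h.car]
          split_ifs <;> simp
      · intro i a b
        refine Fin.cases ?_ (fun i => ?_) i <;> rcases a with a | a <;> rcases b with b | b
        · simp
        · simp
        · simp only [Fin.cons_zero, Matrix.fromBlocks_apply₂₁, Matrix.one_apply, Sum.elim_inr,
            Sum.elim_inl]
          split_ifs with hab <;> simp [hab]
        · simp
        · simpa using h.grade i a b
        · simp
        · simp
        · simpa using h.grade i a b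
      · rw [Fin.sum_univ_succ]
        simp only [Fin.cons_zero, Fin.cons_succ, Matrix.fromBlocks_conjTranspose,
          Matrix.fromBlocks_multiply]
        simp only [Matrix.conjTranspose_zero, Matrix.mul_zero, Matrix.zero_mul, add_zero, zero_add,
            Matrix.conjTranspose_neg, neg_mul_neg, Matrix.conjTranspose_one, Matrix.mul_one]
        ext a b
        have hn := fun a b => congrFun (congrFun h.num a) b
        simp only [Matrix.sum_apply] at hn
        rcases a with a | a <;> rcases b with b | b <;>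
          simp [Matrix.sum_apply, hn, Matrix.diagonal_apply, Matrix.one_apply]
        split_ifs <;> simp [add_comm]
      · intro j hj
        rcases j with _ | j
        · obtain ⟨a, ha⟩ := h.surj 0 (Nat.zero_le _)
          exact ⟨Sum.inl a, ha⟩
        · obtain ⟨a, ha⟩ := h.surj j (by omega)
          exact ⟨Sum.inr a, by simpa using ha⟩
      · intro i a b
        refine Fin.cases ?_ (fun i => ?_) i <;> rcases a with a | a <;> rcases b with b | b <;>
          simp [h.real, Matrix.one_apply]
    exact ⟨m + m, _, _, key.reindex finSumFinEquiv.symm⟩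

lemma CAR.norm_le {n : ℕ} {ι : Type*} [Fintype ι] [DecidableEq ι]
    {C : Fin n → Matrix ι ι ℂ} {deg : ι → ℕ} (h : CAR C deg) (z : EuclideanSpace ℂ (Fin n)) :
    ‖op (∑ k, z k • C k)‖ ≤ ‖z‖ := by
  set M := ∑ k, z k • C k with hM
  have h1 : Mᴴ * M + M * Mᴴ = ((‖z‖ ^ 2 : ℝ) : ℂ) • (1 : Matrix ι ι ℂ) := by
    simp only [hM, Matrix.conjTranspose_sum, Matrix.conjTranspose_smul, Finset.sum_mul,
      Finset.mul_sum, Matrix.smul_mul, Matrix.mul_smul, smul_smul]
    rw [Finset.sum_comm (f := fun i j => (star (z i) * z j) • (C j * (C i)ᴴ)), ← Finset.sum_add_distrib,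
      EuclideanSpace.norm_sq_eq, Complex.ofReal_sum, Finset.sum_smul]
    refine Finset.sum_congr rfl fun j _ => ?_
    rw [← Finset.sum_add_distrib]
    have : ∀ i, (z j * star (z i)) • ((C i)ᴴ * C j) + (star (z i) * z j) • (C j * (C i)ᴴ)
        = if i = j then (star (z i) * z j) • (1 : Matrix ι ι ℂ) else 0 := by
      intro i
      rw [mul_comm (z j), ← smul_add, h.car]
      split_ifs <;> simp
    simp only [this, sum_ite_eq', mem_univ, if_true]
    congr 1
    rw [RCLike.star_def, Complex.conj_mul']; simp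
  refine ContinuousLinearMap.opNorm_le_bound _ (norm_nonneg _) fun y => ?_
  have h2 : ContinuousLinearMap.adjoint (op M) = op Mᴴ := by
    rw [← ContinuousLinearMap.star_eq_adjoint, op, op, ← map_star]; rfl
  have h3 : ((‖op M y‖ ^ 2 + ‖op Mᴴ y‖ ^ 2 : ℝ) : ℂ) = ((‖z‖ ^ 2 * ‖y‖ ^ 2 : ℝ) : ℂ) := by
    rw [Complex.ofReal_add, normsq_c, normsq_c, Complex.ofReal_mul, normsq_c y]
    have a1 : ⟪op M y, op M y⟫_ℂ = ⟪y, op (Mᴴ * M) y⟫_ℂ := by
      rw [op, op, map_mul, mul_apply_eq_comp]
      rw [← ContinuousLinearMap.adjoint_inner_right, h2]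
    have a2 : ⟪op Mᴴ y, op Mᴴ y⟫_ℂ = ⟪y, op (M * Mᴴ) y⟫_ℂ := by
      rw [op, op, map_mul, mul_apply_eq_comp]
      conv_lhs => rw [← ContinuousLinearMap.adjoint_inner_right]
      rw [show Matrix.toEuclideanCLM (n := ι) (𝕜 := ℂ) Mᴴ = op Mᴴ from rfl, ← h2,
        ContinuousLinearMap.adjoint_adjoint]
    rw [a1, a2, ← inner_add_right, ← _root_.add_apply, op, op, ← map_add, h1]
    simp [inner_smul_right]
  have h4 : ‖op M y‖ ^ 2 + ‖op Mᴴ y‖ ^ 2 = ‖z‖ ^ 2 * ‖y‖ ^ 2 := by exact_mod_cast h3
  refine le_of_sq_le_sq ?_ (by positivity)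
  nlinarith [sq_nonneg ‖op Mᴴ y‖]

end Pool.Agent.H7.Alpha
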