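import Pool.Agent.H7.Alpha6

namespace Pool.Agent.H7.Alpha

open scoped InnerProductSpace ComplexConjugate Matrix ENNReal
open Finset

universe v

lemma CAR.graded {n : ℕ} {ι : Type*} [Fintype ι] [DecidableEq ι]
    {C : Fin n → Matrix ι ι ℂ} {deg : ι → ℕ} (h : CAR C deg) (k : ℕ) (a c : ι) :
    ∑ b, (if deg b = k then ∑ i, C i a b * C i c b else 0)
      = if deg a = k + 1 then (if c = a then (k + 1 : ℂ) else 0) else 0 := by
  have h1 : ∀ b, (if deg b = k then ∑ i, C i a b * C i c b else 0)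
      = if deg a = k + 1 then ∑ i, C i c b * (C i)ᴴ b a else 0 := by
    intro b
    simp only [Matrix.conjTranspose_apply, RCLike.star_def, h.real]
    split_ifs with h1 h2 h2
    · exact Finset.sum_congr rfl fun i _ => mul_comm _ _
    · refine Finset.sum_eq_zero fun i _ => ?_
      by_cases h3 : C i a b = 0
      · simp [h3]
      · have := h.grade i a b h3; omega
    · symm
      refine Finset.sum_eq_zero fun i _ => ?_
      by_cases h3 : C i a b = 0
      · simp [h3]
      · have := h.grade i a b h3; omega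
    · rfl
  simp only [h1]
  split_ifs with h2 h3
  · subst h3
    rw [Finset.sum_comm]
    have := congrFun (congrFun h.num c) c
    simp only [Matrix.sum_apply, Matrix.mul_apply, Matrix.diagonal_apply_eq] at this
    rw [this, h2]; simp
  · rw [Finset.sum_comm]
    have := congrFun (congrFun h.num c) a
    simp only [Matrix.sum_apply, Matrix.mul_apply, Matrix.diagonal_apply_ne _ h3] at this
    exact this
  · simp

lemma CAR.count {n : ℕ} {ι : Type*} [Fintype ι] [DecidableEq ι]
    {C : Fin n → Matrix ι ι ℂ} {deg : ι → ℕ} (h : CAR C deg) (k : ℕ) :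
    (k + 1 : ℝ) * ∑ a, (if deg a = k + 1 then (1 : ℝ) else 0)
      = (n - k : ℝ) * ∑ a, (if deg a = k then (1 : ℝ) else 0) := by
  apply Complex.ofReal_injective
  have h1 : ∑ a, ∑ b, (if deg b = k then ∑ i, C i a b * C i a b else 0)
      = ∑ a, if deg a = k + 1 then (k + 1 : ℂ) else 0 := by
    refine Finset.sum_congr rfl fun a _ => ?_
    rw [h.graded]; simp
  have h2 : ∀ b, ∑ a, ∑ i, C i a b * C i a b = (n : ℂ) - deg b := by
    intro b
    have h3 : ∑ i, ((C i)ᴴ * C i + C i * (C i)ᴴ) = ∑ _i : Fin n, (1 : Matrix ι ι ℂ) :=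
      Finset.sum_congr rfl fun i _ => by rw [h.car]; simp
    rw [Finset.sum_add_distrib, h.num] at h3
    have := congrFun (congrFun h3 b) b
    simp only [Matrix.add_apply, Matrix.sum_apply, Matrix.mul_apply, Matrix.diagonal_apply_eq,
      Matrix.conjTranspose_apply, RCLike.star_def, h.real, Matrix.one_apply_eq, sum_const,
      card_univ, Fintype.card_fin, nsmul_eq_mul, mul_one] at this
    rw [Finset.sum_comm, ← this]; ring
  rw [Finset.sum_comm] at h1
  have h4 : ∀ b, ∑ a, (if deg b = k then ∑ i, C i a b * C i a b else 0)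
      = if deg b = k then (n - k : ℂ) else 0 := by
    intro b
    split_ifs with hb
    · rw [h2, hb]
    · simp
  simp only [h4] at h1
  push_cast
  simp only [Finset.mul_sum]
  have e1 : ∀ (P : Prop) [Decidable P] (c : ℂ), c * ((if P then (1 : ℝ) else 0 : ℝ) : ℂ) = if P then c else 0 := by
    intro P _ c; split_ifs <;> simp
  simp only [e1]
  exact h1.symm

theorem le_alpha_l2 (n k : ℕ) (hk : k ≤ n) :
    ENNReal.ofReal √((k + 1) * (n - k)) ≤ alpha.{v} (EuclideanSpace ℂ (Fin n)) := by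
  obtain ⟨m, C, deg, h⟩ := exists_CAR n
  have h' := h.reindex (Equiv.ulift.{v} (α := Fin m))
  set C' : Fin n → Matrix (ULift.{v} (Fin m)) (ULift.{v} (Fin m)) ℂ :=
    fun i => (C i).submatrix Equiv.ulift Equiv.ulift with hC'
  set u : EuclideanSpace ℂ (Fin n) →L[ℂ] (EuclideanSpace ℂ (ULift.{v} (Fin m)) →L[ℂ]
      EuclideanSpace ℂ (ULift.{v} (Fin m))) :=
    ∑ i, (EuclideanSpace.proj i : EuclideanSpace ℂ (Fin n) →L[ℂ] ℂ).smulRight (op (C' i)) with hu
  have hu1 : ∀ z, u z = op (∑ i, z i • C' i) := by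
    intro z
    simp [hu, op]
  have hu2 : ‖u‖ ≤ 1 := by
    refine ContinuousLinearMap.opNorm_le_bound _ zero_le_one fun z => ?_
    rw [hu1, one_mul]
    exact h'.norm_le z
  set x : Matrix (Fin m) (Fin m) (EuclideanSpace ℂ (Fin n)) :=
    fun a b => WithLp.toLp 2 fun i => C i a b with hx
  have hx1 : ∀ f : EuclideanSpace ℂ (Fin n) →L[ℂ] ℂ, ‖f‖ ≤ 1 → ‖op (x.map f)‖ ≤ 1 := by
    intro f hf
    set r := (InnerProductSpace.toDual ℂ (EuclideanSpace ℂ (Fin n))).symm f with hr
    have hr1 : ‖r‖ = ‖f‖ := LinearIsometryEquiv.norm_map _ _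
    have e : x.map f = ∑ i, (WithLp.toLp 2 (fun i => conj (r i)) : EuclideanSpace ℂ (Fin n)) i • C i := by
      ext a b
      rw [Matrix.map_apply, ← InnerProductSpace.toDual_symm_apply, ← hr]
      simp [hx, Matrix.sum_apply, PiLp.inner_apply, mul_comm]
    rw [e]
    refine (h.norm_le _).trans (le_trans (le_of_eq ?_) (hr1.le.trans hf))
    rw [EuclideanSpace.norm_eq, EuclideanSpace.norm_eq]
    simp
  refine le_trans (ENNReal.ofReal_le_ofReal ?_) (le_alpha _ m x hx1 _ u hu2)
  set y : PiLp 2 (fun _ : Fin m => EuclideanSpace ℂ (ULift.{v} (Fin m))) :=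
    WithLp.toLp 2 fun b => if deg b = k then EuclideanSpace.single (ULift.up b) (1 : ℂ) else 0 with hy
  have hZ : ∀ a, blockOp (x.map u) y a
      = if deg a = k + 1 then EuclideanSpace.single (ULift.up a) (k + 1 : ℂ) else 0 := by
    intro a
    rw [blockOp_apply]
    ext c
    have := h.graded k a c.down
    have e : ∀ b, ((x.map u) a b (y b)) c = if deg b = k then ∑ i, C i a b * C i c.down b else 0 := by
      intro b
      rw [Matrix.map_apply, hu1]
      simp only [hy, hx]
      split_ifs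
      · simp [op, hC']
      · simp
    rw [WithLp.ofLp_sum, Finset.sum_apply]
    simp only [e]
    rw [this]
    split_ifs with h1 h2
    · rw [← h2]; simp
    · rw [PiLp.single_apply, if_neg]
      intro h3
      exact h2 (by rw [h3])
    · simp
  have n1 : ‖blockOp (x.map u) y‖ ^ 2 = (k + 1) ^ 2 * ∑ a, (if deg a = k + 1 then (1 : ℝ) else 0) := by
    rw [PiLp.norm_sq_eq_of_L2, Finset.mul_sum]
    refine Finset.sum_congr rfl fun a _ => ?_
    rw [hZ]
    split_ifs
    · rw [PiLp.norm_single]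
      have : ((k : ℂ) + 1) = ((k + 1 : ℝ) : ℂ) := by push_cast; rfl
      rw [this, Complex.norm_real, Real.norm_eq_abs, sq_abs, mul_one]
    · simp
  have n2 : ‖y‖ ^ 2 = ∑ a, (if deg a = k then (1 : ℝ) else 0) := by
    rw [PiLp.norm_sq_eq_of_L2]
    refine Finset.sum_congr rfl fun a _ => ?_
    simp only [hy]
    split_ifs <;> simp
  have n3 : 0 < ∑ a, (if deg a = k then (1 : ℝ) else 0) := by
    obtain ⟨a, ha⟩ := h.surj k hk
    refine Finset.sum_pos' (fun a _ => by split_ifs <;> norm_num) ⟨a, mem_univ _, by simp [ha]⟩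
  have n4 := (blockOp (x.map u)).le_opNorm y
  have n5 : ‖blockOp (x.map u) y‖ ^ 2 ≤ (‖blockOp (x.map u)‖ * ‖y‖) ^ 2 := by gcongr
  rw [mul_pow, n1, n2, sq (k + 1 : ℝ), mul_assoc, h.count, ← mul_assoc] at n5
  have n6 := le_of_mul_le_mul_right n5 n3
  exact Real.sqrt_le_iff.mpr ⟨norm_nonneg _, n6⟩

end Pool.Agent.H7.Alpha
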