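import Pool.Agent.H7.Alpha7

namespace Pool.Agent.H7.Alpha

open scoped InnerProductSpace ComplexConjugate Matrix ENNReal
open Finset

universe v

/-- Clifford generators -/
def Cliff {n : ℕ} {ι : Type*} [Fintype ι] [DecidableEq ι] (U : Fin n → Matrix ι ι ℂ) : Prop :=
  (∀ i, (U i)ᴴ = U i) ∧ (∀ i, (U i)ᵀ = U i) ∧
    ∀ i j, U i * U j + U j * U i = if i = j then 2 else 0

lemma Cliff.reindex {n : ℕ} {ι κ : Type*} [Fintype ι] [DecidableEq ι] [Fintype κ] [DecidableEq κ]
    {U : Fin n → Matrix ι ι ℂ} (h : Cliff U) (e : κ ≃ ι) : Cliff fun i => (U i).submatrix e e := by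
  refine ⟨fun i => by rw [Matrix.conjTranspose_submatrix, h.1],
    fun i => by rw [Matrix.transpose_submatrix, h.2.1], fun i j => ?_⟩
  rw [Matrix.submatrix_mul_equiv, Matrix.submatrix_mul_equiv]
  have : (U i * U j).submatrix e e + (U j * U i).submatrix e e
      = (U i * U j + U j * U i).submatrix e e := rfl
  rw [this, h.2.2]
  split_ifs
  · ext a b; simp [Matrix.ofNat_apply]
  · simp

lemma exists_Cliff (n : ℕ) : ∃ (m : ℕ) (U : Fin n → Matrix (Fin (m + 1)) (Fin (m + 1)) ℂ), Cliff U := by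
  induction n with
  | zero => exact ⟨0, fun _ => 0, fun i => i.elim0, fun i => i.elim0, fun i => i.elim0⟩
  | succ n ih =>
    obtain ⟨m, U, h⟩ := ih
    have key : Cliff (n := n + 1) (Fin.cons (Matrix.fromBlocks 0 1 1 0)
        fun i => Matrix.fromBlocks (U i) 0 0 (-U i)) := by
      refine ⟨fun i => ?_, fun i => ?_, fun i j => ?_⟩
      · refine Fin.cases ?_ (fun i => ?_) i <;> simp [Matrix.fromBlocks_conjTranspose, h.1]
      · refine Fin.cases ?_ (fun i => ?_) i <;> simp [Matrix.fromBlocks_transpose, h.2.1]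
      · have e2 : Matrix.fromBlocks (2 : Matrix (Fin (m + 1)) (Fin (m + 1)) ℂ) 0 0
            (2 : Matrix (Fin (m + 1)) (Fin (m + 1)) ℂ) = 2 := by
          rw [← one_add_one_eq_two (R := Matrix (_ ⊕ _) _ ℂ), ← Matrix.fromBlocks_one,
            Matrix.fromBlocks_add, one_add_one_eq_two, add_zero]
        refine Fin.cases ?_ (fun i => ?_) i <;> refine Fin.cases ?_ (fun j => ?_) j
        · simp [Matrix.fromBlocks_multiply, Matrix.fromBlocks_one, one_add_one_eq_two]
        · simp [Matrix.fromBlocks_multiply, Matrix.fromBlocks_add, (Fin.succ_ne_zero j).symm]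
        · simp [Matrix.fromBlocks_multiply, Matrix.fromBlocks_add]
        · simp only [Fin.cons_succ, Matrix.fromBlocks_multiply, Matrix.fromBlocks_add, mul_zero,
            zero_mul, add_zero, zero_add, neg_mul_neg, h.2.2, Fin.succ_inj]
          split_ifs
          · exact e2
          · exact Matrix.fromBlocks_zero
    exact ⟨m + 1 + m, _, key.reindex finSumFinEquiv.symm⟩

lemma norm_of_anti {ι : Type*} [Fintype ι] [DecidableEq ι] (M : Matrix ι ι ℂ) (c : ℝ) (hc : 0 ≤ c)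
    (h1 : Mᴴ * M + M * Mᴴ = ((c ^ 2 : ℝ) : ℂ) • (1 : Matrix ι ι ℂ)) : ‖op M‖ ≤ c := by
  refine ContinuousLinearMap.opNorm_le_bound _ hc fun y => ?_
  have h2 : ContinuousLinearMap.adjoint (op M) = op Mᴴ := by
    rw [← ContinuousLinearMap.star_eq_adjoint, op, op, ← map_star]; rfl
  have h3 : ((‖op M y‖ ^ 2 + ‖op Mᴴ y‖ ^ 2 : ℝ) : ℂ) = ((c ^ 2 * ‖y‖ ^ 2 : ℝ) : ℂ) := by
    rw [Complex.ofReal_add, normsq_c, normsq_c, Complex.ofReal_mul, normsq_c y]
    have a1 : ⟪op M y, op M y⟫_ℂ = ⟪y, op (Mᴴ * M) y⟫_ℂ := by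
      rw [op, op, map_mul, mul_apply_eq_comp]
      rw [← ContinuousLinearMap.adjoint_inner_right, h2]
    have a2 : ⟪op Mᴴ y, op Mᴴ y⟫_ℂ = ⟪y, op (M * Mᴴ) y⟫_ℂ := by
      rw [op, op, map_mul, mul_apply_eq_comp]
      conv_lhs => rw [← ContinuousLinearMap.adjoint_inner_right]
      rw [show Matrix.toEuclideanCLM (n := ι) (𝕜 := ℂ) Mᴴ = op Mᴴ from rfl, ← h2,
        ContinuousLinearMap.adjoint_adjoint]
    rw [a1, a2, ← inner_add_right, ← _root_.add_apply, op, op, ← map_add, h1]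
    simp [inner_smul_right]
  have h4 : ‖op M y‖ ^ 2 + ‖op Mᴴ y‖ ^ 2 = c ^ 2 * ‖y‖ ^ 2 := by exact_mod_cast h3
  refine le_of_sq_le_sq ?_ (by positivity)
  nlinarith [sq_nonneg ‖op Mᴴ y‖]

lemma Cliff.norm_le {n : ℕ} {ι : Type*} [Fintype ι] [DecidableEq ι]
    {U : Fin n → Matrix ι ι ℂ} (h : Cliff U) (z : Fin n → ℂ) :
    ‖op (∑ k, z k • U k)‖ ≤ √(2 * ∑ k, ‖z k‖ ^ 2) := by
  refine norm_of_anti _ _ (Real.sqrt_nonneg _) ?_
  rw [Real.sq_sqrt (by positivity)]
  simp only [Matrix.conjTranspose_sum, Matrix.conjTranspose_smul, Finset.sum_mul,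
    Finset.mul_sum, Matrix.smul_mul, Matrix.mul_smul, smul_smul, h.1]
  rw [Finset.sum_comm (f := fun i j => (star (z i) * z j) • (U j * U i)), ← Finset.sum_add_distrib,
    Complex.ofReal_sum, Finset.sum_smul]
  refine Finset.sum_congr rfl fun j _ => ?_
  rw [← Finset.sum_add_distrib]
  have : ∀ i, (z j * star (z i)) • (U i * U j) + (star (z i) * z j) • (U j * U i)
      = if i = j then (star (z i) * z j * 2) • (1 : Matrix ι ι ℂ) else 0 := by
    intro i
    rw [mul_comm (z j), ← smul_add, h.2.2]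
    split_ifs
    · rw [← smul_smul _ (2 : ℂ), two_smul, one_add_one_eq_two]
    · simp
  simp only [this, sum_ite_eq', mem_univ, if_true]
  congr 1
  rw [RCLike.star_def, Complex.conj_mul']; push_cast; ring

lemma Cliff.sq {n : ℕ} {ι : Type*} [Fintype ι] [DecidableEq ι]
    {U : Fin n → Matrix ι ι ℂ} (h : Cliff U) (i : Fin n) : U i * U i = 1 := by
  have := h.2.2 i i
  rw [if_pos rfl, ← two_smul ℂ, ← one_add_one_eq_two (R := Matrix ι ι ℂ), ← two_smul ℂ] at this
  exact smul_right_injective _ two_ne_zero this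

lemma Cliff.norm_one {n : ℕ} {ι : Type*} [Fintype ι] [DecidableEq ι]
    {U : Fin n → Matrix ι ι ℂ} (h : Cliff U) (i : Fin n) : ‖op (U i)‖ ≤ 1 := by
  have h1 := CStarRing.norm_star_mul_self (x := op (U i))
  rw [op, ← map_star, ← map_mul, Matrix.star_eq_conjTranspose, h.1, h.sq, map_one] at h1
  have h2 : ‖(1 : EuclideanSpace ℂ ι →L[ℂ] EuclideanSpace ℂ ι)‖ ≤ 1 := ContinuousLinearMap.norm_id_le
  rw [h1] at h2
  nlinarith [norm_nonneg (op (U i))]

theorem le_alpha_linf (n : ℕ) : ENNReal.ofReal √(n / 2) ≤ alpha.{v} (Fin n → ℂ) := by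
  rcases n.eq_zero_or_pos with rfl | hn
  · simp
  have hn' : (0 : ℝ) < n := by exact_mod_cast hn
  obtain ⟨m, C, h⟩ := exists_Cliff n
  have h' := h.reindex (Equiv.ulift.{v} (α := Fin (m + 1)))
  set C' : Fin n → Matrix (ULift.{v} (Fin (m + 1))) (ULift.{v} (Fin (m + 1))) ℂ :=
    fun i => (C i).submatrix Equiv.ulift Equiv.ulift with hC'
  set κ : ℝ := (√(2 * n))⁻¹ with hκ
  have hκ0 : 0 < √(2 * n) := by positivity
  set u : (Fin n → ℂ) →L[ℂ] (EuclideanSpace ℂ (ULift.{v} (Fin (m + 1))) →L[ℂ]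
      EuclideanSpace ℂ (ULift.{v} (Fin (m + 1)))) :=
    (κ : ℂ) • ∑ i, (ContinuousLinearMap.proj i : (Fin n → ℂ) →L[ℂ] ℂ).smulRight (op (C' i)) with hu
  have hu1 : ∀ z, u z = (κ : ℂ) • op (∑ i, z i • C' i) := by
    intro z
    simp [hu, op]
  have hu2 : ‖u‖ ≤ 1 := by
    refine ContinuousLinearMap.opNorm_le_bound _ zero_le_one fun z => ?_
    rw [hu1, one_mul, norm_smul, Complex.norm_real, Real.norm_of_nonneg (by positivity), hκ,
      inv_mul_le_iff₀ hκ0]
    refine (h'.norm_le z).trans (Real.sqrt_le_iff.mpr ⟨by positivity, ?_⟩)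
    rw [mul_pow, Real.sq_sqrt (by positivity), mul_assoc]
    have : ∑ k, ‖z k‖ ^ 2 ≤ ∑ _k : Fin n, ‖z‖ ^ 2 := Finset.sum_le_sum fun k _ => by
      gcongr; exact norm_le_pi_norm z k
    simp only [sum_const, card_univ, Fintype.card_fin, nsmul_eq_mul] at this
    linarith
  set x : Matrix (Fin (m + 1)) (Fin (m + 1)) (Fin n → ℂ) := fun a b i => C i a b with hx
  have hx1 : ∀ f : (Fin n → ℂ) →L[ℂ] ℂ, ‖f‖ ≤ 1 → ‖op (x.map f)‖ ≤ 1 := by
    intro f hf
    have e0 : ∀ z : Fin n → ℂ, f z = ∑ i, z i * f (Pi.single i 1) := fun z => by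
      conv_lhs => rw [pi_eq_sum_univ' z]
      simp [map_sum]
    have e : x.map f = ∑ i, f (Pi.single i 1) • C i := by
      ext a b
      rw [Matrix.map_apply, e0]
      simp [hx, Matrix.sum_apply, mul_comm]
    rw [e, op, map_sum]
    refine (norm_sum_le _ _).trans ?_
    choose w hw hw' using fun i => Complex.exists_norm_eq_mul_self (f (Pi.single i 1))
    have h1 : ‖f w‖ ≤ 1 := (f.le_opNorm w).trans (mul_le_one₀ hf (norm_nonneg _)
      ((pi_norm_le_iff_of_nonneg zero_le_one).mpr fun i => (hw i).le))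
    rw [e0] at h1
    simp only [← hw'] at h1
    rw [← Complex.ofReal_sum, Complex.norm_real, Real.norm_of_nonneg (by positivity)] at h1
    refine le_trans (Finset.sum_le_sum fun i _ => ?_) h1
    rw [map_smul, norm_smul]
    exact mul_le_of_le_one_right (norm_nonneg _) (h.norm_one i)
  refine le_trans (ENNReal.ofReal_le_ofReal ?_) (le_alpha _ _ x hx1 _ u hu2)
  set y : PiLp 2 (fun _ : Fin (m + 1) => EuclideanSpace ℂ (ULift.{v} (Fin (m + 1)))) :=
    WithLp.toLp 2 fun b => EuclideanSpace.single (ULift.up b) (1 : ℂ) with hy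
  have hZ : blockOp (x.map u) y = ((κ * n : ℝ) : ℂ) • y := by
    ext a c
    rw [blockOp_apply]
    have e : ∀ b, ((x.map u) a b (y b)) c = κ * ∑ i, C i a b * (C i)ᵀ b c.down := by
      intro b
      rw [Matrix.map_apply, hu1]
      simp [hy, hx, op, hC']
    rw [WithLp.ofLp_sum, Finset.sum_apply]
    simp only [e]
    rw [← Finset.mul_sum, Finset.sum_comm]
    simp only [h.2.1, ← Matrix.mul_apply, h.sq]
    obtain ⟨c⟩ := c
    by_cases hc : a = c
    · subst hc; simp [hy]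
    · simp [hy, hc, Ne.symm hc]
  have n2 : 0 < ‖y‖ := norm_pos_iff.mpr fun h0 => by
    simpa [hy] using congrArg (fun w => w 0 (ULift.up 0)) h0
  have n4 := (blockOp (x.map u)).le_opNorm y
  rw [hZ, norm_smul, Complex.norm_real, Real.norm_of_nonneg (by positivity)] at n4
  refine le_trans (le_of_eq ?_) (le_of_mul_le_mul_right n4 n2)
  rw [Real.sqrt_eq_iff_mul_self_eq (by positivity) (by positivity), hκ]
  have := Real.mul_self_sqrt (show (0 : ℝ) ≤ 2 * n by positivity)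
  field_simp
  rw [Real.sq_sqrt (by positivity)]

end Pool.Agent.H7.Alpha
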