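import Mathlib

set_option autoImplicit false

namespace Pool.Agent.H7.ChromH
open PowerSeries Finset

noncomputable def P (d : ℕ) (f : ℕ → ℕ) : PowerSeries ℤ :=
  (1 - X) ^ (d + 1) * PowerSeries.mk fun n => (f n : ℤ)

def Good (d : ℕ) (f : ℕ → ℕ) : Prop :=
  ∀ j, 0 ≤ coeff j (P d f) ∧ (d < j → coeff j (P d f) = 0)

theorem good_zero (d : ℕ) : Good d fun _ => 0 := by
  intro j
  have : P d (fun _ => 0) = 0 := by
    unfold P
    have : (PowerSeries.mk fun _ : ℕ => ((0 : ℕ) : ℤ)) = 0 := by ext; simp
    rw [this, mul_zero]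
  simp [this]

theorem good_one : Good 0 fun _ => 1 := by
  have : P 0 (fun _ => 1) = 1 := by
    unfold P
    ext j
    cases j with
    | zero => simp [sub_mul]
    | succ j => simp [sub_mul, coeff_succ_X_mul, coeff_one]
  intro j
  rw [this, coeff_one]
  split_ifs with h <;> simp [h]

theorem P_sum {ι : Type} (s : Finset ι) (d : ℕ) (f : ι → ℕ → ℕ) :
    P d (fun n => ∑ i ∈ s, f i n) = ∑ i ∈ s, P d (f i) := by
  unfold P
  rw [← Finset.mul_sum]
  congr 1
  ext j
  simp

theorem good_sum {ι : Type} (s : Finset ι) (d : ℕ) (f : ι → ℕ → ℕ) (h : ∀ i ∈ s, Good d (f i)) :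
    Good d fun n => ∑ i ∈ s, f i n := by
  intro j
  rw [P_sum, map_sum]
  exact ⟨Finset.sum_nonneg fun i hi => (h i hi j).1,
    fun hj => Finset.sum_eq_zero fun i hi => (h i hi j).2 hj⟩

theorem good_step (d : ℕ) (g a b : ℕ → ℕ) (ha : Good d a) (hb : Good d b) (h0 : g 0 = b 0)
    (hs : ∀ n, g (n + 1) = g n + a n + b (n + 1)) : Good (d + 1) g := by
  have key : (1 - X) * (PowerSeries.mk fun n => (g n : ℤ)) =
      X * (PowerSeries.mk fun n => (a n : ℤ)) + PowerSeries.mk fun n => (b n : ℤ) := by
    ext j
    cases j with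
    | zero => simp [sub_mul, h0]
    | succ j => simp [sub_mul, coeff_succ_X_mul, hs]; ring
  have : P (d + 1) g = X * P d a + P d b := by
    unfold P
    rw [pow_succ (1 - X : PowerSeries ℤ) (d + 1), mul_assoc, key]; ring
  intro j
  rw [this, map_add]
  cases j with
  | zero => simpa using (hb 0).1
  | succ j =>
    rw [coeff_succ_X_mul]
    refine ⟨add_nonneg (ha j).1 (hb _).1, fun hj => ?_⟩
    rw [(ha j).2 (by omega), (hb _).2 (by omega), add_zero]

section Key
variable {V : Type} [Fintype V] [DecidableEq V] (R : V → V → Prop) (w : V → ℕ) (M : ℕ)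

def Ok (S : Finset V) (T : ℕ) (φ : V → ℕ) : Prop :=
  (∀ v, v ∉ S → φ v = 0) ∧ (∀ v ∈ S, M * φ v + w v < T) ∧
    ∀ u ∈ S, ∀ v ∈ S, R u v → φ u < φ v

open Classical in
noncomputable def A (S : Finset V) (T : ℕ) : Finset (V → ℕ) :=
  (Fintype.piFinset fun _ => range (T + 1)).filter (Ok R w M S T)

variable {R w M}

theorem mem_A (hM : 0 < M) {S : Finset V} {T : ℕ} {φ : V → ℕ} :
    φ ∈ A R w M S T ↔ Ok R w M S T φ := by
  classical
  unfold A
  rw [Finset.mem_filter, Fintype.mem_piFinset]
  refine ⟨fun h => h.2, fun h => ⟨fun v => ?_, h⟩⟩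
  rw [mem_range]
  by_cases hv : v ∈ S
  · have := h.2.1 v hv
    have h2 : φ v ≤ M * φ v := Nat.le_mul_of_pos_left _ hM
    omega
  · rw [h.1 v hv]; omega

theorem step (hw : Function.Injective w) (hM : ∀ v, w v < M) (hM0 : 0 < M)
    (hR : ∀ u v, R u v → w v < w u) (S : Finset V) (t : ℕ) (ht : t < M) :
    (∃ v ∈ S, ∀ n, (A R w M S (n * M + t + 1)).card =
      (A R w M S (n * M + t)).card + (A R w M (S.erase v) (n * M + t)).card) ∨
    (∀ n, (A R w M S (n * M + t + 1)).card = (A R w M S (n * M + t)).card) := by
  classical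
  have hkey : ∀ (n x : ℕ) (v : V), M * x + w v = n * M + t → x = n ∧ w v = t := by
    intro n x v h
    have h1 : (M * x + w v) / M = (n * M + t) / M := by rw [h]
    have h2 : (M * x + w v) % M = (n * M + t) % M := by rw [h]
    rw [Nat.mul_add_div hM0, mul_comm n M, Nat.mul_add_div hM0, Nat.div_eq_of_lt (hM v),
      Nat.div_eq_of_lt ht] at h1
    rw [Nat.mul_add_mod, mul_comm n M, Nat.mul_add_mod, Nat.mod_eq_of_lt (hM v),
      Nat.mod_eq_of_lt ht] at h2
    omega
  by_cases hex : ∃ v ∈ S, w v = t ∧ ∀ x ∈ S, ¬ R v x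
  · obtain ⟨v, hv, hvt, hmax⟩ := hex
    refine Or.inl ⟨v, hv, fun n => ?_⟩
    have hinj : Set.InjOn (fun ψ : V → ℕ => Function.update ψ v n)
        (A R w M (S.erase v) (n * M + t) : Set (V → ℕ)) := by
      intro ψ h1 ψ' h2 h
      have h1' := (mem_A hM0).1 (Finset.mem_coe.1 h1)
      have h2' := (mem_A hM0).1 (Finset.mem_coe.1 h2)
      funext x
      by_cases hx : x = v
      · subst hx; rw [h1'.1 x (by simp), h2'.1 x (by simp)]
      · have := congrFun h x
        simpa [Function.update_of_ne hx] using this
    rw [← Finset.card_image_of_injOn hinj, ← Finset.card_union_of_disjoint]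
    · congr 1
      ext φ
      rw [Finset.mem_union, Finset.mem_image, mem_A hM0, mem_A hM0]
      constructor
      · intro h
        by_cases hφ : M * φ v + w v = n * M + t
        · right
          have hn := (hkey _ _ _ hφ).1
          refine ⟨Function.update φ v 0, (mem_A hM0).2 ⟨?_, ?_, ?_⟩, ?_⟩
          · intro x hx
            by_cases hxv : x = v
            · subst hxv; simp
            · rw [Function.update_of_ne hxv]
              exact h.1 x (fun hxS => hx (Finset.mem_erase.2 ⟨hxv, hxS⟩))
          · intro x hx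
            obtain ⟨hxv, hxS⟩ := Finset.mem_erase.1 hx
            rw [Function.update_of_ne hxv]
            have h1 := h.2.1 x hxS
            have h2 : M * φ x + w x ≠ n * M + t := fun h3 =>
              hxv (hw ((hkey _ _ _ h3).2.trans hvt.symm))
            omega
          · intro x hx y hy hxy
            obtain ⟨hxv, hxS⟩ := Finset.mem_erase.1 hx
            obtain ⟨hyv, hyS⟩ := Finset.mem_erase.1 hy
            rw [Function.update_of_ne hxv, Function.update_of_ne hyv]
            exact h.2.2 x hxS y hyS hxy
          · funext x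
            by_cases hxv : x = v
            · subst hxv; simp [hn]
            · simp [Function.update_of_ne hxv]
        · left
          refine ⟨h.1, fun x hx => ?_, h.2.2⟩
          have h1 := h.2.1 x hx
          have h2 : M * φ x + w x ≠ n * M + t := fun h3 => by
            have : x = v := hw ((hkey _ _ _ h3).2.trans hvt.symm)
            subst this; exact hφ h3
          omega
      · rintro (h | ⟨ψ, hψ, rfl⟩)
        · exact ⟨h.1, fun x hx => Nat.lt_succ_of_lt (h.2.1 x hx), h.2.2⟩
        · have h := (mem_A hM0).1 hψ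
          refine ⟨fun x hx => ?_, fun x hx => ?_, fun x hx y hy hxy => ?_⟩
          · have hxv : x ≠ v := fun e => hx (e ▸ hv)
            rw [Function.update_of_ne hxv]
            exact h.1 x (fun h' => hx (Finset.mem_of_mem_erase h'))
          · by_cases hxv : x = v
            · subst hxv; rw [Function.update_self, hvt, mul_comm]; omega
            · rw [Function.update_of_ne hxv]
              exact Nat.lt_succ_of_lt (h.2.1 x (Finset.mem_erase.2 ⟨hxv, hx⟩))
          · have hxv : x ≠ v := fun e => hmax y hy (e ▸ hxy)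
            rw [Function.update_of_ne hxv]
            by_cases hyv : y = v
            · subst hyv
              rw [Function.update_self]
              have h1 := h.2.1 x (Finset.mem_erase.2 ⟨hxv, hx⟩)
              have h2 := hR _ _ hxy
              have h3 : M * ψ x < M * n := by rw [mul_comm M n]; omega
              exact Nat.lt_of_mul_lt_mul_left h3
            · rw [Function.update_of_ne hyv]
              exact h.2.2 x (Finset.mem_erase.2 ⟨hxv, hx⟩) y (Finset.mem_erase.2 ⟨hyv, hy⟩) hxy
    · rw [Finset.disjoint_left]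
      intro φ h1 h2
      obtain ⟨ψ, -, rfl⟩ := Finset.mem_image.1 h2
      have := ((mem_A hM0).1 h1).2.1 v hv
      simp only [Function.update_self] at this
      rw [hvt, mul_comm] at this
      omega
  · refine Or.inr fun n => ?_
    congr 1
    ext φ
    rw [mem_A hM0, mem_A hM0]
    refine ⟨fun h => ⟨h.1, fun x hx => ?_, h.2.2⟩,
      fun h => ⟨h.1, fun x hx => Nat.lt_succ_of_lt (h.2.1 x hx), h.2.2⟩⟩
    have h1 := h.2.1 x hx
    have h2 : M * φ x + w x ≠ n * M + t := fun h3 => by
      apply hex
      refine ⟨x, hx, (hkey _ _ _ h3).2, fun y hy hxy => ?_⟩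
      have h4 := h.2.2 x hx y hy hxy
      have h5 := h.2.1 y hy
      have h6 : M * (φ x + 1) ≤ M * φ y := Nat.mul_le_mul_left _ h4
      have h7 := hM x
      rw [mul_add, mul_one] at h6
      omega
    omega

theorem good_A (hw : Function.Injective w) (hM : ∀ v, w v < M) (hM0 : 0 < M)
    (hR : ∀ u v, R u v → w v < w u) (d : ℕ) :
    ∀ S : Finset V, S.card = d → ∀ t ≤ M, Good d fun n => (A R w M S (n * M + t)).card := by
  induction d with
  | zero =>
    intro S hS t _
    rw [Finset.card_eq_zero] at hS
    subst hS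
    have : (fun n => (A R w M (∅ : Finset V) (n * M + t)).card) = fun _ => 1 := by
      funext n
      rw [Finset.card_eq_one]
      refine ⟨fun _ => 0, ?_⟩
      ext φ
      rw [mem_A hM0, Finset.mem_singleton]
      exact ⟨fun h => funext fun v => h.1 v (by simp), fun h => by subst h; simp [Ok]⟩
    rw [this]; exact good_one
  | succ d ih =>
    intro S hS t ht
    have hE : ∀ s, ∃ e : ℕ → ℕ, s < M → Good d e ∧ ∀ n, (A R w M S (n * M + s + 1)).card =
        (A R w M S (n * M + s)).card + e n := by
      intro s
      by_cases hs : s < M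
      · rcases step hw hM hM0 hR S s hs with ⟨v, hv, h⟩ | h
        · exact ⟨_, fun _ => ⟨ih (S.erase v) (by rw [Finset.card_erase_of_mem hv]; omega) s hs.le,
            h⟩⟩
        · exact ⟨fun _ => 0, fun _ => ⟨good_zero d, h⟩⟩
      · exact ⟨fun _ => 0, fun h => absurd h hs⟩
    choose E hE using hE
    have hg : ∀ n s, s ≤ M → (A R w M S (n * M + s)).card =
        (A R w M S (n * M)).card + ∑ x ∈ range s, E x n := by
      intro n s hs
      induction s with
      | zero => simp
      | succ s ihs =>
        rw [← add_assoc, (hE s (by omega)).2 n, ihs (by omega), Finset.sum_range_succ, add_assoc]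
    have h00 : (A R w M S 0).card = 0 := by
      rw [Finset.card_eq_zero]
      obtain ⟨v, hv⟩ : S.Nonempty := Finset.card_pos.1 (by omega)
      ext φ
      rw [mem_A hM0]
      simp only [Finset.notMem_empty, iff_false]
      intro h
      have := h.2.1 v hv
      omega
    refine good_step d _ (fun n => ∑ x ∈ Ico t M, E x n) (fun n => ∑ x ∈ range t, E x n)
      (good_sum _ _ _ fun x hx => (hE x (Finset.mem_Ico.1 hx).2).1)
      (good_sum _ _ _ fun x hx => (hE x (by have := Finset.mem_range.1 hx; omega)).1) ?_ ?_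
    · have := hg 0 t ht
      simp only [zero_mul, zero_add] at this ⊢
      rw [this, h00, zero_add]
    · intro n
      have h1 := hg (n + 1) t ht
      have h2 := hg n M le_rfl
      have h3 := hg n t ht
      have h4 : (n + 1) * M = n * M + M := by ring
      have h5 := Finset.sum_range_add_sum_Ico (fun x => E x n) ht
      simp only [h4] at h1 ⊢
      omega

end Key

end Pool.Agent.H7.ChromH
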