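import Mathlib
import Pool.Agent.H7.ChromH1

set_option autoImplicit false

namespace Pool.Agent.H7.ChromH
open PowerSeries Finset

section Cnt
variable {V : Type} [Fintype V] [DecidableEq V]

def Pr (E : V → V → Prop) {n : ℕ} (φ : V → Fin n) : Prop := ∀ a b, E a b → φ a ≠ φ b

open Classical in
noncomputable def cnt (E : V → V → Prop) (n : ℕ) : ℕ :=
  (univ.filter fun φ : V → Fin n => Pr E φ).card

open Classical in
noncomputable def ori (E : V → V → Prop) {n : ℕ} (φ : V → Fin n) : Finset (V × V) :=
  univ.filter fun p => (E p.1 p.2 ∨ E p.2 p.1) ∧ φ p.1 < φ p.2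

omit [DecidableEq V] in
theorem mem_ori (E : V → V → Prop) {n : ℕ} (φ : V → Fin n) (u v : V) :
    (u, v) ∈ ori E φ ↔ (E u v ∨ E v u) ∧ φ u < φ v := by
  simp [ori]

theorem good_cnt (E : V → V → Prop) : Good (Fintype.card V) (cnt E) := by
  classical
  have h1 : cnt E = fun n => ∑ R : Finset (V × V),
      ((univ.filter fun φ : V → Fin n => Pr E φ).filter fun φ => ori E φ = R).card := by
    funext n
    unfold cnt
    convert Finset.card_eq_sum_card_fiberwise (f := fun φ : V → Fin n => ori E φ)
      (s := univ.filter fun φ : V → Fin n => Pr E φ) (t := univ) (fun _ _ => by simp)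
  rw [h1]
  refine good_sum _ _ (fun R n =>
    ((univ.filter fun φ : V → Fin n => Pr E φ).filter fun φ => ori E φ = R).card) fun R _ => ?_
  by_cases hex : ∃ (n0 : ℕ) (φ0 : V → Fin n0), Pr E φ0 ∧ ori E φ0 = R
  · obtain ⟨n0, φ0, hp, hR⟩ := hex
    set d := Fintype.card V with hd
    let e : V ≃ Fin d := Fintype.equivFin V
    let w : V → ℕ := fun v => d * (n0 - φ0 v) + e v
    have hw : Function.Injective w := by
      intro u v h
      have h2 : w u % d = w v % d := by rw [h]
      simp only [w, Nat.mul_add_mod, Nat.mod_eq_of_lt (e u).2, Nat.mod_eq_of_lt (e v).2] at h2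
      exact e.injective (Fin.ext h2)
    have hM : ∀ v, w v < d * n0 + d + 1 := by
      intro v
      have h2 : d * (n0 - φ0 v) ≤ d * n0 := Nat.mul_le_mul_left _ (Nat.sub_le _ _)
      have h3 := (e v).2
      simp only [w]; omega
    have hRw : ∀ u v, (u, v) ∈ R → w v < w u := by
      intro u v h
      rw [← hR, mem_ori] at h
      have h2 : (φ0 u : ℕ) < φ0 v := h.2
      have h3 := (φ0 v).2
      have h4 : d * (n0 - φ0 v + 1) ≤ d * (n0 - φ0 u) := Nat.mul_le_mul_left _ (by omega)
      have h5 := (e v).2
      rw [mul_add, mul_one] at h4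
      simp only [w]; omega
    have hM0 : 0 < d * n0 + d + 1 := by omega
    have hg := good_A (R := fun u v => (u, v) ∈ R) hw hM hM0 hRw d univ (by simp [hd]) 0
      (Nat.zero_le _)
    convert hg using 2 with n
    generalize d * n0 + d + 1 = M at *
    refine Finset.card_bij (fun φ _ => fun v => (φ v : ℕ)) ?_ ?_ ?_
    · intro φ hφ
      simp only [Finset.mem_filter, Finset.mem_univ, true_and] at hφ
      rw [mem_A hM0]
      refine ⟨fun v hv => absurd (Finset.mem_univ v) hv, fun v _ => ?_, fun u _ v _ h => ?_⟩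
      · have h2 : M * (φ v + 1) ≤ M * n := Nat.mul_le_mul_left _ (φ v).2
        have h3 := hM v
        rw [mul_add, mul_one, mul_comm M n] at h2
        show M * (φ v : ℕ) + w v < n * M + 0
        omega
      · rw [← hφ.2, mem_ori] at h
        exact h.2
    · intro φ _ ψ _ h
      funext v
      exact Fin.ext (congrFun h v)
    · intro ψ hψ
      rw [mem_A hM0] at hψ
      have hlt : ∀ v, ψ v < n := by
        intro v
        have h2 := hψ.2.1 v (Finset.mem_univ v)
        have h3 : M * ψ v < M * n := by rw [mul_comm M n]; omega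
        exact Nat.lt_of_mul_lt_mul_left h3
      have hor : ∀ u v, (E u v ∨ E v u) → φ0 u < φ0 v → ψ u < ψ v := fun u v h h' =>
        hψ.2.2 u (Finset.mem_univ _) v (Finset.mem_univ _) (by show (u, v) ∈ R; rw [← hR, mem_ori]; exact ⟨h, h'⟩)
      refine ⟨fun v => ⟨ψ v, hlt v⟩, ?_, rfl⟩
      simp only [Finset.mem_filter, Finset.mem_univ, true_and]
      constructor
      · intro a b hab h
        have h' : ψ a = ψ b := congrArg Fin.val h
        rcases lt_or_gt_of_ne (hp a b hab) with h2 | h2
        · have := hor a b (Or.inl hab) h2; omega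
        · have := hor b a (Or.inr hab) h2; omega
      · rw [← hR]
        ext ⟨u, v⟩
        rw [mem_ori, mem_ori]
        refine and_congr_right fun h => ⟨fun h2 => ?_, fun h2 => hor u v h h2⟩
        have h2' : ψ u < ψ v := h2
        have hne : φ0 u ≠ φ0 v := by
          rcases h with h | h
          · exact hp u v h
          · exact (hp v u h).symm
        rcases lt_or_gt_of_ne hne with h3 | h3
        · exact h3
        · have := hor v u h.symm h3; omega
  · have : (fun n => ((univ.filter fun φ : V → Fin n => Pr E φ).filter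
        fun φ => ori E φ = R).card) = fun _ => 0 := by
      funext n
      rw [Finset.card_eq_zero, Finset.filter_eq_empty_iff]
      intro φ hφ h
      exact hex ⟨n, φ, (Finset.mem_filter.1 hφ).2, h⟩
    rw [this]; exact good_zero _

theorem delcon (E : Finset (V × V)) (u v : V) (huv : u ≠ v) :
    ∃ k : ℕ → ℕ, Good (Fintype.card V - 1) k ∧ ∀ n,
      cnt (fun a b => (a, b) ∈ E) n = cnt (fun a b => (a, b) ∈ insert (u, v) E) n + k n := by
  classical
  let π : V → {x // x ≠ v} := fun x => if h : x = v then ⟨u, huv⟩ else ⟨x, h⟩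
  have hπ : ∀ x : {x // x ≠ v}, π x.1 = x := fun x => by simp [π, x.2]
  have hπv : π v = π u := by simp [π, huv]
  let E' : {x // x ≠ v} → {x // x ≠ v} → Prop := fun a b =>
    ∃ a' b', (a', b') ∈ E ∧ π a' = a ∧ π b' = b
  refine ⟨cnt E', ?_, fun n => ?_⟩
  · have := good_cnt E'
    rwa [show Fintype.card {x // x ≠ v} = Fintype.card V - 1 by simp] at this
  · unfold cnt
    rw [← Finset.card_filter_add_card_filter_not
      (s := univ.filter fun φ : V → Fin n => Pr (fun a b => (a, b) ∈ E) φ)
      (fun φ => φ u ≠ φ v)]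
    congr 1
    · congr 1
      ext φ
      simp only [Finset.mem_filter, Finset.mem_univ, true_and, Pr, Finset.mem_insert,
        Prod.mk.injEq]
      constructor
      · rintro ⟨h1, h2⟩ a b (⟨rfl, rfl⟩ | h)
        · exact h2
        · exact h1 a b h
      · intro h
        exact ⟨fun a b hab => h a b (Or.inr hab), h u v (Or.inl ⟨rfl, rfl⟩)⟩
    · symm
      refine Finset.card_bij (fun ψ _ => ψ ∘ π) ?_ ?_ ?_
      · intro ψ hψ
        simp only [Finset.mem_filter, Finset.mem_univ, true_and] at hψ ⊢
        refine ⟨fun a b hab => hψ _ _ ⟨a, b, hab, rfl, rfl⟩, ?_⟩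
        simp [hπv]
      · intro ψ _ ψ' _ h
        funext x
        have := congrFun h x.1
        simpa [hπ] using this
      · intro φ hφ
        simp only [Finset.mem_filter, Finset.mem_univ, true_and, not_not] at hφ
        have hc : ∀ x, φ (π x).1 = φ x := by
          intro x
          by_cases hx : x = v
          · subst hx; simp [π, hφ.2]
          · simp [π, hx]
        refine ⟨fun x => φ x.1, ?_, funext hc⟩
        simp only [Finset.mem_filter, Finset.mem_univ, true_and]
        rintro a b ⟨a', b', hab, rfl, rfl⟩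
        show φ (π a').1 ≠ φ (π b').1
        rw [hc, hc]
        exact hφ.1 a' b' hab

end Cnt

/-! Eulerian symmetry -/

theorem eul_rec (d : ℕ) : P (d + 1) (fun n => n ^ (d + 1)) =
    X * ((1 - X) * (d⁄dX ℤ) (P d fun n => n ^ d) + C ((d : ℤ) + 1) * P d fun n => n ^ d) := by
  unfold P
  have h1 : (PowerSeries.mk fun n : ℕ => ((n ^ (d + 1) : ℕ) : ℤ)) =
      X * (d⁄dX ℤ) (PowerSeries.mk fun n : ℕ => ((n ^ d : ℕ) : ℤ)) := by
    ext j
    cases j with
    | zero => simp
    | succ j => simp [coeff_succ_X_mul, coeff_derivative, pow_succ]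
  rw [h1, Derivation.leibniz, Derivation.leibniz_pow]
  simp only [map_sub, Derivation.map_one_eq_zero, derivative_X, smul_eq_mul, nsmul_eq_mul,
    map_add, map_natCast, map_one, Nat.add_sub_cancel]
  push_cast
  ring

theorem eul_coeff (d j : ℕ) : coeff (j + 1) (P (d + 1) fun n => n ^ (d + 1)) =
    ((j : ℤ) + 1) * coeff (j + 1) (P d fun n => n ^ d) +
      ((d : ℤ) + 1 - j) * coeff j (P d fun n => n ^ d) := by
  rw [eul_rec, coeff_succ_X_mul, map_add, coeff_C_mul, sub_mul, one_mul, map_sub,
    coeff_derivative]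
  cases j with
  | zero => simp
  | succ j => rw [coeff_succ_X_mul, coeff_derivative]; push_cast; ring

theorem eul_zero (d : ℕ) : coeff 0 (P (d + 1) fun n => n ^ (d + 1)) = 0 := by
  rw [eul_rec]; simp

theorem eul_top (d : ℕ) : ∀ j, d < j → coeff j (P d fun n => n ^ d) = 0 := by
  induction d with
  | zero => intro j hj; simpa using (good_one j).2 hj
  | succ d ih =>
    intro j hj
    obtain ⟨j, rfl⟩ : ∃ k, j = k + 1 := ⟨j - 1, by omega⟩
    rw [eul_coeff, ih _ (by omega), ih _ (by omega)]; ring

theorem eul_symm (d : ℕ) : ∀ a b, a + b = d + 2 →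
    coeff a (P (d + 1) fun n => n ^ (d + 1)) = coeff b (P (d + 1) fun n => n ^ (d + 1)) := by
  induction d with
  | zero =>
    intro a b h
    have h0 := eul_zero 0
    have h2 := eul_top 1 2 (by omega)
    have : (a = 0 ∧ b = 2) ∨ (a = 1 ∧ b = 1) ∨ (a = 2 ∧ b = 0) := by omega
    rcases this with ⟨rfl, rfl⟩ | ⟨rfl, rfl⟩ | ⟨rfl, rfl⟩
    · rw [h0]; exact h2.symm
    · rfl
    · rw [h0]; exact h2
  | succ d ih =>
    intro a b h
    rcases a with _ | a
    · rw [eul_zero, eul_top _ _ (by omega)]
    rcases b with _ | b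
    · rw [eul_zero, eul_top _ _ (by omega)]
    rw [eul_coeff (d + 1) a, eul_coeff (d + 1) b, ih (a + 1) b (by omega), ih a (b + 1) (by omega)]
    have : (d : ℤ) = a + b - 1 := by omega
    rw [Nat.cast_add, this]; push_cast; ring

noncomputable def S (d i : ℕ) (f : PowerSeries ℤ) : ℤ :=
  ∑ j ∈ range i, coeff (d - j) f - ∑ j ∈ range (i + 1), coeff j f

theorem S_mul (d i : ℕ) (hi : i ≤ d) (k : PowerSeries ℤ) :
    S d i ((1 - X) * k) = coeff d k - coeff (d - i) k - coeff i k := by
  unfold S
  induction i with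
  | zero => simp [sub_mul]
  | succ i ih =>
    have ih := ih (by omega)
    rw [Finset.sum_range_succ _ i, Finset.sum_range_succ _ (i + 1)]
    have e1 : d - i = (d - (i + 1)) + 1 := by omega
    have h1 : coeff (d - i) ((1 - X) * k) = coeff (d - i) k - coeff (d - (i + 1)) k := by
      rw [sub_mul, one_mul, map_sub]
      conv_lhs => rw [e1, coeff_succ_X_mul, ← e1]
    have h2 : coeff (i + 1) ((1 - X) * k) = coeff (i + 1) k - coeff i k := by
      rw [sub_mul, one_mul, map_sub, coeff_succ_X_mul]
    rw [h1, h2]; linarith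

theorem main {V : Type} [Fintype V] [DecidableEq V] (i : ℕ) (h1 : 1 ≤ i)
    (hi : i ≤ Fintype.card V) (E : Finset (V × V)) :
    0 ≤ S (Fintype.card V) i (P (Fintype.card V) (cnt fun a b => (a, b) ∈ E)) := by
  classical
  obtain ⟨d, hd⟩ : ∃ d, Fintype.card V = d + 1 := ⟨Fintype.card V - 1, by omega⟩
  induction E using Finset.induction_on with
  | empty =>
    have : (cnt fun a b : V => (a, b) ∈ (∅ : Finset (V × V))) = fun n => n ^ (d + 1) := by
      funext n
      simp [cnt, Pr, hd]
    rw [this, hd]
    unfold S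
    rw [Finset.sum_range_succ' _ i, eul_zero, add_zero, sub_nonneg]
    refine le_of_eq (Finset.sum_congr rfl fun j hj => eul_symm d _ _ ?_)
    have := Finset.mem_range.1 hj
    omega
  | insert p E _ ih =>
    obtain ⟨u, v⟩ := p
    by_cases huv : u = v
    · subst huv
      have : (cnt fun a b : V => (a, b) ∈ insert (u, u) E) = fun _ => 0 := by
        funext n
        unfold cnt
        rw [Finset.card_eq_zero, Finset.filter_eq_empty_iff]
        intro φ _ h
        exact h u u (Finset.mem_insert_self _ _) rfl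
      rw [this]
      have h0 : P (Fintype.card V) (fun _ => 0) = 0 := by
        unfold P
        have : (PowerSeries.mk fun _ : ℕ => ((0 : ℕ) : ℤ)) = 0 := by ext; simp
        rw [this, mul_zero]
      simp [h0, S]
    · obtain ⟨k, hk, hE⟩ := delcon E u v huv
      rw [hd] at hk ih hi ⊢
      simp only [Nat.add_sub_cancel] at hk
      have hP : P (d + 1) (cnt fun a b => (a, b) ∈ E) =
          P (d + 1) (cnt fun a b => (a, b) ∈ insert (u, v) E) + (1 - X) * P d k := by
        unfold P
        have : (PowerSeries.mk fun n => ((cnt (fun a b => (a, b) ∈ E) n : ℕ) : ℤ)) =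
            (PowerSeries.mk fun n => ((cnt (fun a b => (a, b) ∈ insert (u, v) E) n : ℕ) : ℤ)) +
              PowerSeries.mk fun n => (k n : ℤ) := by
          ext n; simp only [coeff_mk, map_add]; rw [hE n]; push_cast; rfl
        rw [this]; ring
      have hS : S (d + 1) i (P (d + 1) (cnt fun a b => (a, b) ∈ E)) =
          S (d + 1) i (P (d + 1) (cnt fun a b => (a, b) ∈ insert (u, v) E)) +
            S (d + 1) i ((1 - X) * P d k) := by
        rw [hP]; unfold S; simp only [map_add, Finset.sum_add_distrib]; ring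
      rw [S_mul _ _ hi, (hk (d + 1)).2 (by omega)] at hS
      have a1 := (hk (d + 1 - i)).1
      have a2 := (hk i).1
      linarith

end Pool.Agent.H7.ChromH
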