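import Mathlib

set_option autoImplicit false

namespace Pool.Agent.H7.Cone

def K (h a b : Bool) : ℤ := if h then -2 else if a && b then 4 else if a || b then 1 else 0

def aB (f : Bool → Bool) : Bool := f true && f false

theorem aB_el {f : Bool → Bool} (h : aB f = true) (b : Bool) : f b = true := by
  unfold aB at h
  rw [Bool.and_eq_true] at h
  cases b
  · exact h.2
  · exact h.1

theorem imp_el {c r : Bool} (h : (!c || r) = true) (hc : c = true) : r = true := by
  rw [hc] at h; simpa using h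

theorem imp_el2 {c r : Bool} (h : (c || r) = true) (hc : c = false) : r = true := by
  rw [hc] at h; simpa using h

def chk : Bool :=
  aB fun a0 => aB fun a1 => aB fun a2 => aB fun a3 => aB fun a4 => aB fun a5 =>
  aB fun h01 => !(!h01 || (a0 && a1)) || (
  aB fun h02 => !(!h02 || (a0 && a2)) || (
  aB fun h12 => !(!h12 || (a1 && a2)) || ((h01 && h02 && h12) || (
  aB fun h03 => !(!h03 || (a0 && a3)) || (
  aB fun h13 => !(!h13 || (a1 && a3)) || ((h01 && h03 && h13) || (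
  aB fun h23 => !(!h23 || (a2 && a3)) || ((h02 && h03 && h23) || ((h12 && h13 && h23) || (
  aB fun h04 => !(!h04 || (a0 && a4)) || (
  aB fun h14 => !(!h14 || (a1 && a4)) || ((h01 && h04 && h14) || (
  aB fun h24 => !(!h24 || (a2 && a4)) || ((h02 && h04 && h24) || ((h12 && h14 && h24) || (
  aB fun h34 => !(!h34 || (a3 && a4)) || ((h03 && h04 && h34) || ((h13 && h14 && h34) || ((h23 && h24 && h34) || (
  aB fun h05 => !(!h05 || (a0 && a5)) || (
  aB fun h15 => !(!h15 || (a1 && a5)) || ((h01 && h05 && h15) || (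
  aB fun h25 => !(!h25 || (a2 && a5)) || ((h02 && h05 && h25) || ((h12 && h15 && h25) || (
  aB fun h35 => !(!h35 || (a3 && a5)) || ((h03 && h05 && h35) || ((h13 && h15 && h35) || ((h23 && h25 && h35) || (
  aB fun h45 => !(!h45 || (a4 && a5)) || ((h04 && h05 && h45) || ((h14 && h15 && h45) || ((h24 && h25 && h45) || ((h34 && h35 && h45) || (
  decide (0 ≤ K h01 a0 a1 * 2 + K h02 a0 a2 * 2 + K h12 a1 a2 * 1 + K h03 a0 a3 * 2 + K h13 a1 a3 * 1 + K h23 a2 a3 * 1 + K h04 a0 a4 * 2 + K h14 a1 a4 * 1 + K h24 a2 a4 * 1 + K h34 a3 a4 * 1 + K h05 a0 a5 * 5 + K h15 a1 a5 * 1 + K h25 a2 a5 * 1 + K h35 a3 a5 * 1 + K h45 a4 a5 * 1))))))))))))))))))))))))))))))))))))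

theorem chk_true : chk = true := by decide +kernel

theorem key (a0 a1 a2 a3 a4 a5 : Bool)
    (h01 : Bool) (p01 : (!h01 || (a0 && a1)) = true)
    (h02 : Bool) (p02 : (!h02 || (a0 && a2)) = true)
    (h12 : Bool) (p12 : (!h12 || (a1 && a2)) = true) (t012 : (h01 && h02 && h12) = false)
    (h03 : Bool) (p03 : (!h03 || (a0 && a3)) = true)
    (h13 : Bool) (p13 : (!h13 || (a1 && a3)) = true) (t013 : (h01 && h03 && h13) = false)
    (h23 : Bool) (p23 : (!h23 || (a2 && a3)) = true) (t023 : (h02 && h03 && h23) = false) (t123 : (h12 && h13 && h23) = false)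
    (h04 : Bool) (p04 : (!h04 || (a0 && a4)) = true)
    (h14 : Bool) (p14 : (!h14 || (a1 && a4)) = true) (t014 : (h01 && h04 && h14) = false)
    (h24 : Bool) (p24 : (!h24 || (a2 && a4)) = true) (t024 : (h02 && h04 && h24) = false) (t124 : (h12 && h14 && h24) = false)
    (h34 : Bool) (p34 : (!h34 || (a3 && a4)) = true) (t034 : (h03 && h04 && h34) = false) (t134 : (h13 && h14 && h34) = false) (t234 : (h23 && h24 && h34) = false)
    (h05 : Bool) (p05 : (!h05 || (a0 && a5)) = true)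
    (h15 : Bool) (p15 : (!h15 || (a1 && a5)) = true) (t015 : (h01 && h05 && h15) = false)
    (h25 : Bool) (p25 : (!h25 || (a2 && a5)) = true) (t025 : (h02 && h05 && h25) = false) (t125 : (h12 && h15 && h25) = false)
    (h35 : Bool) (p35 : (!h35 || (a3 && a5)) = true) (t035 : (h03 && h05 && h35) = false) (t135 : (h13 && h15 && h35) = false) (t235 : (h23 && h25 && h35) = false)
    (h45 : Bool) (p45 : (!h45 || (a4 && a5)) = true) (t045 : (h04 && h05 && h45) = false) (t145 : (h14 && h15 && h45) = false) (t245 : (h24 && h25 && h45) = false) (t345 : (h34 && h35 && h45) = false)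
    : 0 ≤ K h01 a0 a1 * 2 + K h02 a0 a2 * 2 + K h12 a1 a2 * 1 + K h03 a0 a3 * 2 + K h13 a1 a3 * 1 + K h23 a2 a3 * 1 + K h04 a0 a4 * 2 + K h14 a1 a4 * 1 + K h24 a2 a4 * 1 + K h34 a3 a4 * 1 + K h05 a0 a5 * 5 + K h15 a1 a5 * 1 + K h25 a2 a5 * 1 + K h35 a3 a5 * 1 + K h45 a4 a5 * 1 := by
  have H := chk_true
  unfold chk at H
  have H := aB_el H a0
  have H := aB_el H a1
  have H := aB_el H a2
  have H := aB_el H a3
  have H := aB_el H a4
  have H := aB_el H a5
  have H := imp_el (aB_el H h01) p01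
  have H := imp_el (aB_el H h02) p02
  have H := imp_el2 (imp_el (aB_el H h12) p12) t012
  have H := imp_el (aB_el H h03) p03
  have H := imp_el2 (imp_el (aB_el H h13) p13) t013
  have H := imp_el2 (imp_el2 (imp_el (aB_el H h23) p23) t023) t123
  have H := imp_el (aB_el H h04) p04
  have H := imp_el2 (imp_el (aB_el H h14) p14) t014
  have H := imp_el2 (imp_el2 (imp_el (aB_el H h24) p24) t024) t124
  have H := imp_el2 (imp_el2 (imp_el2 (imp_el (aB_el H h34) p34) t034) t134) t234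
  have H := imp_el (aB_el H h05) p05
  have H := imp_el2 (imp_el (aB_el H h15) p15) t015
  have H := imp_el2 (imp_el2 (imp_el (aB_el H h25) p25) t025) t125
  have H := imp_el2 (imp_el2 (imp_el2 (imp_el (aB_el H h35) p35) t035) t135) t235
  have H := imp_el2 (imp_el2 (imp_el2 (imp_el2 (imp_el (aB_el H h45) p45) t045) t145) t245) t345
  exact of_decide_eq_true H

def wt (i j : Fin 6) : ℤ :=
  if i = 0 ∧ j = 5 ∨ i = 5 ∧ j = 0 then 5 else if i = 5 ∨ j = 5 then 1
  else if i = 0 ∨ j = 0 then 2 else 1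

theorem wt_symm : ∀ i j, wt i j = wt j i := by decide

noncomputable def xx : Sym2 (Fin 6) → ℝ :=
  Sym2.lift ⟨fun i j => (wt i j : ℝ), fun i j => congrArg _ (wt_symm i j)⟩

theorem xx_mk (i j : Fin 6) : xx s(i, j) = (wt i j : ℝ) := rfl

def EL : List (Sym2 (Fin 6)) := [s(0, 1), s(0, 2), s(1, 2), s(0, 3), s(1, 3), s(2, 3), s(0, 4), s(1, 4), s(2, 4), s(3, 4), s(0, 5), s(1, 5), s(2, 5), s(3, 5), s(4, 5)]

theorem EL_mem : ∀ i j : Fin 6, s(i, j) ∈ EL ↔ i ≠ j := by decide +kernel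

theorem EL_nodup : EL.Nodup := by decide +kernel

theorem sum_edges (s : Finset (Sym2 (Fin 6))) (hs : ∀ i j, s(i, j) ∈ s ↔ i ≠ j)
    (f : Sym2 (Fin 6) → ℝ) : ∑ e ∈ s, f e =
    f s(0, 1) + f s(0, 2) + f s(1, 2) + f s(0, 3) + f s(1, 3) + f s(2, 3) + f s(0, 4) + f s(1, 4) + f s(2, 4) + f s(3, 4) + f s(0, 5) + f s(1, 5) + f s(2, 5) + f s(3, 5) + f s(4, 5) := by
  have h : s = EL.toFinset := by
    ext e
    induction e using Sym2.ind with
    | _ i j => rw [hs, List.mem_toFinset, EL_mem]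
  rw [h, List.sum_toFinset _ EL_nodup]
  simp only [EL, List.map_cons, List.map_nil, List.sum_cons, List.sum_nil]
  ring

open Classical in
theorem coef (V' : Finset (Fin 6)) (H : SimpleGraph (Fin 6)) (i j : Fin 6)
    (d1 : Decidable (s(i, j) ∈ H.edgeSet)) (d2 : Decidable (∀ v ∈ s(i, j), v ∈ V'))
    (d3 : Decidable (∃ v ∈ s(i, j), v ∈ V')) :
    (@ite ℝ _ d1 (-1) (@ite ℝ _ d2 2 (@ite ℝ _ d3 (1 / 2) 0))) =
      (K (decide (H.Adj i j)) (decide (i ∈ V')) (decide (j ∈ V')) : ℝ) / 2 := by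
  by_cases h1 : H.Adj i j <;> by_cases h2 : i ∈ V' <;> by_cases h3 : j ∈ V' <;>
    simp [K, h1, h2, h3] <;> norm_num

theorem tri_mem : ∀ t : Finset (Fin 6), t.card = 3 → 1 ∈ t ∨ 2 ∈ t ∨ 3 ∈ t ∨ 4 ∈ t := by
  decide +kernel

theorem w01 : wt 0 1 = 2 := by decide
theorem w02 : wt 0 2 = 2 := by decide
theorem w12 : wt 1 2 = 1 := by decide
theorem w03 : wt 0 3 = 2 := by decide
theorem w13 : wt 1 3 = 1 := by decide
theorem w23 : wt 2 3 = 1 := by decide
theorem w04 : wt 0 4 = 2 := by decide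
theorem w14 : wt 1 4 = 1 := by decide
theorem w24 : wt 2 4 = 1 := by decide
theorem w34 : wt 3 4 = 1 := by decide
theorem w05 : wt 0 5 = 5 := by decide
theorem w15 : wt 1 5 = 1 := by decide
theorem w25 : wt 2 5 = 1 := by decide
theorem w35 : wt 3 5 = 1 := by decide
theorem w45 : wt 4 5 = 1 := by decide

end Pool.Agent.H7.Cone
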