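import Mathlib

open MeasureTheory Set Filter Topology
open scoped symmDiff

namespace Pool.Agent.H7.Erg

noncomputable abbrev mu : Measure ℝ := volume.restrict (Icc (0 : ℝ) 1)

instance : IsProbabilityMeasure mu := ⟨by simp⟩

abbrev MP (f : ℝ → ℝ) : Prop := MeasurePreserving f mu mu

abbrev G := {e : ℝ ≃ᵐ ℝ // MeasurePreserving (⇑e) (volume.restrict (Set.Icc (0:ℝ) 1))
  (volume.restrict (Set.Icc (0:ℝ) 1))}

lemma ae_mem : ∀ᵐ x ∂mu, x ∈ Icc (0 : ℝ) 1 := ae_restrict_mem measurableSet_Icc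

lemma int_id : Integrable (fun x : ℝ => x) mu := continuous_id.integrableOn_Icc

lemma int_comp {h S : ℝ → ℝ} (hh : Integrable h mu) (hS : MP S) :
    Integrable (fun x => h (S x)) mu := hS.integrable_comp_of_integrable hh

lemma MP.int {S : ℝ → ℝ} (hS : MP S) : Integrable S mu := int_comp (h := fun x => x) int_id hS

lemma integral_comp {h S : ℝ → ℝ} (hh : AEStronglyMeasurable h mu) (hS : MP S) :
    ∫ x, h (S x) ∂mu = ∫ x, h x ∂mu := by
  rw [← integral_map hS.measurable.aemeasurable (by rwa [hS.map_eq]), hS.map_eq]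

lemma iabs {f g : ℝ → ℝ} (hf : Integrable f mu) (hg : Integrable g mu) :
    Integrable (fun x => |f x - g x|) mu := (hf.sub hg).abs

noncomputable def D (f g : ℝ → ℝ) : ℝ := ∫ x, |f x - g x| ∂mu

lemma D_nonneg (f g : ℝ → ℝ) : 0 ≤ D f g := integral_nonneg fun _ => abs_nonneg _

lemma D_comm (f g : ℝ → ℝ) : D f g = D g f := by simp only [D, abs_sub_comm]

lemma D_tri {f g h : ℝ → ℝ} (hf : Integrable f mu) (hg : Integrable g mu) (hh : Integrable h mu) :
    D f h ≤ D f g + D g h := by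
  unfold D
  rw [← integral_add (iabs hf hg) (iabs hg hh)]
  exact integral_mono (hf.sub hh).abs ((hf.sub hg).abs.add (hg.sub hh).abs)
    fun x => abs_sub_le _ _ _

lemma D_comp {f g S : ℝ → ℝ} (hf : Integrable f mu) (hg : Integrable g mu) (hS : MP S) :
    D (fun x => f (S x)) (fun x => g (S x)) = D f g :=
  integral_comp (h := fun x => |f x - g x|) (hf.sub hg).abs.aestronglyMeasurable hS

lemma unif {g : ℝ → ℝ} (h1 : Continuous g) (h2 : HasCompactSupport g) {ε : ℝ} (hε : 0 < ε) :
    ∃ C, 0 ≤ C ∧ ∀ S T : ℝ → ℝ, Measurable S → Measurable T → Integrable S mu → Integrable T mu →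
      D (fun x => g (S x)) (fun x => g (T x)) ≤ ε + C * D S T := by
  obtain ⟨δ, hδ, hd⟩ := Metric.uniformContinuous_iff.1 (h2.uniformContinuous_of_continuous h1) ε hε
  obtain ⟨B, hB⟩ := h1.bounded_above_of_compact_support h2
  have hB0 : 0 ≤ B := (norm_nonneg _).trans (hB 0)
  refine ⟨2 * B / δ, by positivity, fun S T mS mT iS iT => ?_⟩
  have ig : ∀ S : ℝ → ℝ, Measurable S → Integrable (fun x => g (S x)) mu := fun S mS =>
    Integrable.of_bound (h1.measurable.comp mS).aestronglyMeasurable B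
      (Eventually.of_forall fun x => hB _)
  have e : ε + 2 * B / δ * D S T = ∫ x, (ε + 2 * B / δ * |S x - T x|) ∂mu := by
    rw [integral_add (integrable_const _) ((iabs iS iT).const_mul _), integral_const_mul]
    simp [D]
  rw [e]
  refine integral_mono ((ig S mS).sub (ig T mT)).abs
    ((integrable_const _).add ((iS.sub iT).abs.const_mul _)) fun x => ?_
  by_cases hx : |S x - T x| < δ
  · have := hd (a := S x) (b := T x) hx
    rw [Real.dist_eq] at this
    have : 0 ≤ 2 * B / δ * |S x - T x| := by positivity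
    simp only; linarith
  · push Not at hx
    have a := mul_le_mul_of_nonneg_left hx (show 0 ≤ 2 * B / δ by positivity)
    rw [div_mul_cancel₀ _ hδ.ne'] at a
    have b := abs_sub (g (S x)) (g (T x))
    have c := hB (S x)
    have d := hB (T x)
    rw [Real.norm_eq_abs] at c d
    simp only; linarith

lemma key {h : ℝ → ℝ} (hh : Integrable h mu) {ε : ℝ} (hε : 0 < ε) :
    ∃ C, 0 ≤ C ∧ ∀ S T : ℝ → ℝ, MP S → MP T →
      D (fun x => h (S x)) (fun x => h (T x)) ≤ ε + C * D S T := by
  obtain ⟨g, g1, g2, g3, g4⟩ :=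
    hh.exists_hasCompactSupport_integral_sub_le (show 0 < ε / 3 by positivity)
  obtain ⟨C, hC, H⟩ := unif g3 g1 (show 0 < ε / 3 by positivity)
  refine ⟨C, hC, fun S T hS hT => ?_⟩
  have a := D_tri (int_comp hh hS) (int_comp g4 hS) (int_comp hh hT)
  have b := D_tri (int_comp g4 hS) (int_comp g4 hT) (int_comp hh hT)
  rw [D_comp hh g4 hS] at a
  rw [D_comp g4 hh hT, D_comm g h] at b
  have c := H S T hS.measurable hT.measurable hS.int hT.int
  have d : D h g ≤ ε / 3 := g2
  linarith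

lemma le_of_lim {a C : ℝ} {u : ℕ → ℝ} (hu : Tendsto u atTop (𝓝 0)) {ε : ℝ}
    (h : ∀ k, a ≤ ε + C * u k) : a ≤ ε := by
  have := (hu.const_mul C).const_add ε
  rw [mul_zero, add_zero] at this
  exact ge_of_tendsto' this h

lemma lim_mp {S : ℝ → ℝ} (mS : Measurable S) (iS : Integrable S mu) {T : ℕ → ℝ → ℝ}
    (hT : ∀ k, MP (T k)) (h : Tendsto (fun k => D S (T k)) atTop (𝓝 0)) : MP S := by
  refine ⟨mS, ?_⟩
  have := Measure.isProbabilityMeasure_map (μ := mu) mS.aemeasurable
  refine Measure.ext_of_integral_eq_on_compactlySupported fun g => ?_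
  have gc : Continuous g := g.continuous
  rw [integral_map mS.aemeasurable gc.aestronglyMeasurable, ← sub_eq_zero, ← abs_nonpos_iff]
  refine le_of_forall_pos_le_add fun ε hε => ?_
  obtain ⟨C, hC, H⟩ := unif gc g.hasCompactSupport hε
  obtain ⟨B, hB⟩ := gc.bounded_above_of_compact_support g.hasCompactSupport
  have ig : ∀ S : ℝ → ℝ, Measurable S → Integrable (fun x => g (S x)) mu := fun S mS =>
    Integrable.of_bound (gc.measurable.comp mS).aestronglyMeasurable B
      (Eventually.of_forall fun x => hB _)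
  rw [zero_add]
  refine le_of_lim (C := C) h fun k => le_trans ?_ (H S (T k) mS (hT k).measurable iS (hT k).int)
  rw [← integral_comp gc.aestronglyMeasurable (hT k),
    ← integral_sub (ig S mS) (ig _ (hT k).measurable)]
  exact abs_integral_le_integral_abs

lemma lim_inv {S R : ℝ → ℝ} (hS : MP S) (hR : MP R) {T U : ℕ → ℝ → ℝ} (hT : ∀ k, MP (T k))
    (hU : ∀ k, MP (U k)) (hTU : ∀ k x, U k (T k x) = x)
    (h1 : Tendsto (fun k => D S (T k)) atTop (𝓝 0))
    (h2 : Tendsto (fun k => D R (U k)) atTop (𝓝 0)) : ∀ᵐ x ∂mu, R (S x) = x := by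
  have z : D (fun x => R (S x)) (fun x => x) ≤ 0 := by
    refine le_of_forall_pos_le_add fun ε hε => ?_
    obtain ⟨C, hC, H⟩ := key hR.int hε
    rw [zero_add]
    have t := (h1.const_mul C).add h2
    rw [mul_zero, add_zero] at t
    refine le_of_lim (C := 1) t fun k => ?_
    have a := D_tri (int_comp hR.int hS) (int_comp hR.int (hT k)) int_id
    have b := D_comp hR.int (hU k).int (hT k)
    simp only [hTU] at b
    have c := H S (T k) hS (hT k)
    linarith
  have := (integral_eq_zero_iff_of_nonneg (fun x => abs_nonneg _)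
    ((int_comp hR.int hS).sub int_id).abs).1 (le_antisymm z (D_nonneg _ _))
  filter_upwards [this] with x hx
  simpa [sub_eq_zero] using hx

def act (s : Bool → ℝ → ℝ) : List Bool → ℝ → ℝ
  | [], x => x
  | b :: w, x => act s w (s b x)

lemma act_mp {s : Bool → ℝ → ℝ} (hs : ∀ b, MP (s b)) (w : List Bool) : MP (act s w) := by
  induction w with
  | nil => exact MeasurePreserving.id mu
  | cons b w ih => exact ih.comp (hs b)

lemma realize {S R : ℝ → ℝ} (hS : MP S) (hR : MP R) (h1 : ∀ᵐ x ∂mu, R (S x) = x)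
    (h2 : ∀ᵐ x ∂mu, S (R x) = x) : ∃ T : G, T.1 =ᵐ[mu] S ∧ T.1.symm =ᵐ[mu] R := by
  classical
  let s : Bool → ℝ → ℝ := fun b => if b then S else R
  have hs : ∀ b, MP (s b) := fun b => by cases b <;> simpa [s]
  let Y := {x | R (S x) = x ∧ S (R x) = x}
  have mY : MeasurableSet Y :=
    (measurableSet_eq_fun (hR.measurable.comp hS.measurable) measurable_id).inter
      (measurableSet_eq_fun (hS.measurable.comp hR.measurable) measurable_id)
  let X := ⋂ w, act s w ⁻¹' Y
  have mX : MeasurableSet X := MeasurableSet.iInter fun w => (act_mp hs w).measurable mY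
  have aX : ∀ᵐ x ∂mu, x ∈ X := by
    simp only [X, mem_iInter]
    exact ae_all_iff.2 fun w => (act_mp hs w).quasiMeasurePreserving.ae (h1.and h2)
  have iX : ∀ b, ∀ x ∈ X, s b x ∈ X := fun b x hx =>
    mem_iInter.2 fun w => mem_iInter.1 hx (b :: w)
  have i1 : ∀ x ∈ X, S x ∈ X := iX true
  have i2 : ∀ x ∈ X, R x ∈ X := iX false
  have yX : ∀ x ∈ X, x ∈ Y := fun x hx => mem_iInter.1 hx []
  let e : ℝ ≃ᵐ ℝ :=
    { toFun := X.piecewise S id
      invFun := X.piecewise R id
      left_inv := fun x => by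
        by_cases hx : x ∈ X
        · simp [hx, i1 x hx, (yX x hx).1]
        · simp [hx]
      right_inv := fun x => by
        by_cases hx : x ∈ X
        · simp [hx, i2 x hx, (yX x hx).2]
        · simp [hx]
      measurable_toFun := hS.measurable.piecewise mX measurable_id
      measurable_invFun := hR.measurable.piecewise mX measurable_id }
  have e1 : e =ᵐ[mu] S := aX.mono fun x hx => piecewise_eq_of_mem _ _ _ hx
  have e2 : e.symm =ᵐ[mu] R := aX.mono fun x hx => piecewise_eq_of_mem _ _ _ hx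
  exact ⟨⟨e, hS.congr e.measurable e1.symm⟩, e1, e2⟩

lemma G.mp (T : G) : MP T.1 := T.2
lemma G.mps (T : G) : MP T.1.symm := T.2.symm

noncomputable def emb (T : G) : Lp ℝ 1 mu × Lp ℝ 1 mu :=
  (T.mp.int.toL1 _, T.mps.int.toL1 _)

lemma dist_eq (f g : Lp ℝ 1 mu) {S T : ℝ → ℝ} (h1 : f =ᵐ[mu] S) (h2 : g =ᵐ[mu] T) :
    dist f g = D S T := by
  rw [L1.dist_eq_integral_dist]
  refine integral_congr_ae ?_
  filter_upwards [h1, h2] with x a b
  rw [a, b, Real.dist_eq]

lemma emb1 (T : G) : (emb T).1 =ᵐ[mu] T.1 := Integrable.coeFn_toL1 T.mp.int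
lemma emb2 (T : G) : (emb T).2 =ᵐ[mu] T.1.symm := Integrable.coeFn_toL1 T.mps.int

lemma closed_range : IsClosed (range emb) := by
  refine isClosed_of_closure_subset fun p hp => ?_
  obtain ⟨u, hu, hl⟩ := mem_closure_iff_seq_limit.1 hp
  choose T hT using hu
  have t1 : Tendsto (fun k => D p.1 (T k).1) atTop (𝓝 0) := by
    have := tendsto_iff_dist_tendsto_zero.1 (continuous_fst.tendsto p |>.comp hl)
    refine this.congr fun k => ?_
    rw [D_comm]
    exact dist_eq _ _ (by simpa [hT k] using emb1 (T k)) EventuallyEq.rfl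
  have t2 : Tendsto (fun k => D p.2 (T k).1.symm) atTop (𝓝 0) := by
    have := tendsto_iff_dist_tendsto_zero.1 (continuous_snd.tendsto p |>.comp hl)
    refine this.congr fun k => ?_
    rw [D_comm]
    exact dist_eq _ _ (by simpa [hT k] using emb2 (T k)) EventuallyEq.rfl
  have m1 := lim_mp (Lp.stronglyMeasurable p.1).measurable (L1.integrable_coeFn _)
    (fun k => (T k).mp) t1
  have m2 := lim_mp (Lp.stronglyMeasurable p.2).measurable (L1.integrable_coeFn _)
    (fun k => (T k).mps) t2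
  obtain ⟨S, s1, s2⟩ := realize m1 m2
    (lim_inv m1 m2 (fun k => (T k).mp) (fun k => (T k).mps) (by simp) t1 t2)
    (lim_inv m2 m1 (fun k => (T k).mps) (fun k => (T k).mp) (by simp) t2 t1)
  exact ⟨S, Prod.ext (Lp.ext ((emb1 S).trans s1)) (Lp.ext ((emb2 S).trans s2))⟩

lemma D_ind {A B : Set ℝ} (hA : MeasurableSet A) (hB : MeasurableSet B) :
    D (A.indicator 1) (B.indicator 1) = mu.real (A ∆ B) := by
  rw [← integral_indicator_one (hA.symmDiff hB)]
  refine integral_congr_ae (Eventually.of_forall fun x => ?_)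
  by_cases a : x ∈ A <;> by_cases b : x ∈ B <;> simp [a, b, mem_symmDiff, indicator]

lemma weak_of_D {A B : Set ℝ} (hA : MeasurableSet A) (hB : MeasurableSet B) {ε : ℝ} (hε : 0 < ε) :
    ∃ C, 0 ≤ C ∧ ∀ S T : ℝ → ℝ, MP S → MP T →
      |mu.real (S ⁻¹' A ∩ B) - mu.real (T ⁻¹' A ∩ B)| ≤ ε + C * D S T := by
  obtain ⟨C, hC, H⟩ := key (h := A.indicator 1) ((integrable_const _).indicator hA) hε
  refine ⟨C, hC, fun S T hS hT => le_trans ?_ (H S T hS hT)⟩
  change _ ≤ D ((S ⁻¹' A).indicator 1) ((T ⁻¹' A).indicator 1)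
  rw [D_ind (hS.measurable hA) (hT.measurable hA)]
  refine (abs_measureReal_sub_le_measureReal_symmDiff
    ((hS.measurable hA).inter hB).nullMeasurableSet
    ((hT.measurable hA).inter hB).nullMeasurableSet).trans (measureReal_mono ?_)
  intro x
  simp only [mem_symmDiff, mem_inter_iff]
  tauto

lemma D_of_weak {ι : Type*} {l : Filter ι} {T : ι → ℝ → ℝ} {S : ℝ → ℝ} (hT : ∀ i, MP (T i))
    (hS : MP S) (H : ∀ A, MeasurableSet A →
      Tendsto (fun i => mu.real (T i ⁻¹' A ∩ S ⁻¹' A)) l (𝓝 (mu.real (S ⁻¹' A ∩ S ⁻¹' A)))) :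
    Tendsto (fun i => D (T i) S) l (𝓝 0) := by
  have h1 : ∀ A, MeasurableSet A →
      Tendsto (fun i => mu.real ((T i ⁻¹' A) ∆ (S ⁻¹' A))) l (𝓝 0) := by
    intro A hA
    have t := ((H A hA).const_mul 2).const_sub (2 * mu.real (S ⁻¹' A))
    rw [inter_self, sub_self] at t
    refine t.congr fun i => ?_
    have a := measureReal_inter_add_sdiff (μ := mu) (s := T i ⁻¹' A) (hS.measurable hA)
    have b := measureReal_inter_add_sdiff (μ := mu) (s := S ⁻¹' A) ((hT i).measurable hA)
    rw [inter_comm] at b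
    rw [(hT i).measureReal_preimage hA.nullMeasurableSet,
      ← hS.measureReal_preimage hA.nullMeasurableSet] at a
    rw [Set.symmDiff_def, measureReal_union disjoint_sdiff_sdiff
      ((hS.measurable hA).diff ((hT i).measurable hA))]
    linarith
  rw [Metric.tendsto_nhds]
  intro ε hε
  obtain ⟨n, hn⟩ := exists_nat_one_div_lt (half_pos hε)
  set N : ℝ := n + 1 with hN
  have N0 : 0 < N := by positivity
  have t := tendsto_finsetSum (Finset.range (n + 2)) fun (k : ℕ) _ =>
    h1 (Iic (k / N)) measurableSet_Iic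
  rw [Finset.sum_const_zero] at t
  filter_upwards [t.eventually (gt_mem_nhds (half_pos hε))] with i hi
  rw [Real.dist_eq, sub_zero, abs_of_nonneg (D_nonneg _ _)]
  have m : ∀ k : ℕ, MeasurableSet ((T i ⁻¹' Iic (k / N)) ∆ (S ⁻¹' Iic (k / N))) := fun k =>
    ((hT i).measurable measurableSet_Iic).symmDiff (hS.measurable measurableSet_Iic)
  have ii : ∀ k : ℕ, Integrable
      (((T i ⁻¹' Iic (k / N)) ∆ (S ⁻¹' Iic (k / N))).indicator (1 : ℝ → ℝ)) mu := fun k =>
    (integrable_const _).indicator (m k)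
  have le : D (T i) S ≤ ∫ x, (1 / N + ∑ k ∈ Finset.range (n + 2),
      ((T i ⁻¹' Iic (k / N)) ∆ (S ⁻¹' Iic (k / N))).indicator (1 : ℝ → ℝ) x) ∂mu := by
    refine integral_mono_ae ((hT i).int.sub hS.int).abs
      ((integrable_const _).add (integrable_finsetSum _ fun k _ => ii k)) ?_
    filter_upwards [(hT i).quasiMeasurePreserving.ae ae_mem, hS.quasiMeasurePreserving.ae ae_mem]
      with x a b
    have nn : ∀ k ∈ Finset.range (n + 2), 0 ≤
        ((T i ⁻¹' Iic (k / N)) ∆ (S ⁻¹' Iic (k / N))).indicator (1 : ℝ → ℝ) x := fun k _ =>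
      indicator_nonneg (fun _ _ => zero_le_one) _
    by_cases hx : |T i x - S x| ≤ 1 / N
    · linarith [Finset.sum_nonneg nn]
    have ex : ∀ u v : ℝ, u ∈ Icc (0 : ℝ) 1 → 1 / N < v - u →
        ∃ k ∈ Finset.range (n + 2), u ≤ k / N ∧ ¬ v ≤ k / N := by
      intro u v hu h
      refine ⟨⌈u * N⌉₊, ?_, ?_, ?_⟩
      · rw [Finset.mem_range, Nat.lt_succ_iff, Nat.ceil_le]
        push_cast
        nlinarith [hu.2]
      · rw [le_div_iff₀ N0]; exact Nat.le_ceil _
      · have := Nat.ceil_lt_add_one (mul_nonneg hu.1 N0.le)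
        rw [div_lt_iff₀ N0] at h
        rw [not_le, div_lt_iff₀ N0]; linarith
    have : ∃ k ∈ Finset.range (n + 2), x ∈ (T i ⁻¹' Iic (k / N)) ∆ (S ⁻¹' Iic (k / N)) := by
      rw [not_le, lt_abs] at hx
      rcases hx with h | h
      · obtain ⟨k, hk, c, d⟩ := ex _ _ b h
        exact ⟨k, hk, Or.inr ⟨c, d⟩⟩
      · obtain ⟨k, hk, c, d⟩ := ex (T i x) (S x) a (by linarith)
        exact ⟨k, hk, Or.inl ⟨c, d⟩⟩
    obtain ⟨k, hk, hx⟩ := this
    have c := Finset.single_le_sum nn hk
    rw [indicator_of_mem hx, Pi.one_apply] at c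
    have d : |T i x - S x| ≤ 1 := abs_le.2 ⟨by linarith [a.1, b.2], by linarith [a.2, b.1]⟩
    have : 0 < 1 / N := by positivity
    linarith
  rw [integral_add (integrable_const _) (integrable_finsetSum _ fun k _ => ii k),
    integral_finsetSum _ fun k _ => ii k] at le
  simp only [integral_indicator_one (m _)] at le
  simp only [integral_const, probReal_univ, smul_eq_mul, one_mul] at le
  linarith

end Pool.Agent.H7.Erg
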