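import Mathlib
import Pool.Agent.H7.Erg1

open MeasureTheory Set Filter Topology ProbabilityTheory Cardinal
open scoped symmDiff

namespace Pool.Agent.H7.Erg

lemma mu_Iic {a : ℝ} (ha : a ∈ Icc (0 : ℝ) 1) : mu (Iic a) = ENNReal.ofReal a := by
  rw [Measure.restrict_apply measurableSet_Iic]
  have : Iic a ∩ Icc 0 1 = Icc 0 a := by
    ext x; simp only [mem_inter_iff, mem_Iic, mem_Icc]
    exact ⟨fun h => ⟨h.2.1, h.1⟩, fun h => ⟨h.2, h.1, h.2.trans ha.2⟩⟩
  simp [this]

noncomputable def Fc (φ : ℝ → ℝ) (x : ℝ) : ℝ := mu.real {y | φ y ≤ φ x}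

lemma Fc_mem (φ : ℝ → ℝ) (x : ℝ) : Fc φ x ∈ Icc (0 : ℝ) 1 :=
  ⟨measureReal_nonneg, measureReal_le_one⟩

lemma transform {φ : ℝ → ℝ} (mφ : Measurable φ) (iφ : Function.Injective φ) :
    MP (Fc φ) ∧ ∃ R : G, R.1 =ᵐ[mu] Fc φ := by
  classical
  let ν := mu.map φ
  have : IsProbabilityMeasure ν := Measure.isProbabilityMeasure_map mφ.aemeasurable
  have eF : Fc φ = fun x => cdf ν (φ x) := by
    ext x
    rw [cdf_eq_real, map_measureReal_apply mφ measurableSet_Iic]; rfl
  have hc : Continuous (cdf ν) := by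
    rw [continuous_iff_continuousAt]
    intro x
    rw [(monotone_cdf ν).continuousAt_iff_leftLim_eq_rightLim, StieltjesFunction.rightLim_eq]
    have a := (cdf ν).measure_singleton x
    rw [measure_cdf, Measure.map_apply mφ (measurableSet_singleton x),
      ((subsingleton_singleton).preimage iφ).measure_zero, eq_comm,
      ENNReal.ofReal_eq_zero] at a
    exact le_antisymm ((monotone_cdf ν).leftLim_le le_rfl) (by linarith)
  have mF : Measurable (Fc φ) := by rw [eF]; exact hc.measurable.comp mφ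
  have lev : ∀ s ∈ Ioo (0 : ℝ) 1, mu (Fc φ ⁻¹' Iic s) = ENNReal.ofReal s := by
    intro s hs
    obtain ⟨t0, -, ht0⟩ := isPreconnected_univ.intermediate_value_Ioo (by simp) (by simp)
      hc.continuousOn (tendsto_cdf_atBot ν) (tendsto_cdf_atTop ν) hs
    obtain ⟨B, hB⟩ := eventually_atTop.1 ((tendsto_cdf_atTop ν).eventually (lt_mem_nhds hs.2))
    have bdd : BddAbove {t | cdf ν t = s} := ⟨B, fun t ht => by
      by_contra h
      exact (hB t (le_of_not_ge h)).ne' ht⟩
    have m := (isClosed_eq hc continuous_const).csSup_mem ⟨t0, ht0⟩ bdd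
    set t := sSup {t | cdf ν t = s}
    have e : Fc φ ⁻¹' Iic s = φ ⁻¹' Iic t := by
      ext x
      simp only [eF, mem_preimage, mem_Iic]
      refine ⟨fun h => ?_, fun h => (monotone_cdf ν h).trans m.le⟩
      by_contra k
      exact k (le_csSup bdd (le_antisymm h (m.ge.trans (monotone_cdf ν (le_of_not_ge k)))))
    rw [e, ← Measure.map_apply mφ measurableSet_Iic, ← ofReal_cdf, m]
  have mp : MP (Fc φ) := by
    refine ⟨mF, Measure.ext_of_Iic _ _ fun a => ?_⟩
    rw [Measure.map_apply mF measurableSet_Iic]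
    rcases le_or_gt a 0 with h | h
    · have z : mu (Iic a) = 0 :=
        measure_mono_null (Iic_subset_Iic.2 h) (by rw [mu_Iic ⟨le_rfl, zero_le_one⟩]; simp)
      rw [z, ← nonpos_iff_eq_zero]
      refine ENNReal.le_of_forall_pos_le_add fun ε hε _ => ?_
      have k : min (ε : ℝ) (1 / 2) ∈ Ioo (0 : ℝ) 1 :=
        ⟨by positivity, (min_le_right _ _).trans_lt (by norm_num)⟩
      refine (measure_mono (preimage_mono (Iic_subset_Iic.2 (h.trans k.1.le)))).trans ?_
      rw [lev _ k, zero_add, ← ENNReal.ofReal_coe_nnreal]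
      exact ENNReal.ofReal_le_ofReal (min_le_left _ _)
    rcases lt_or_ge a 1 with h1 | h1
    · rw [lev a ⟨h, h1⟩, mu_Iic ⟨h.le, h1.le⟩]
    · have e : Fc φ ⁻¹' Iic a = Set.univ := eq_univ_of_forall fun x => (Fc_mem φ x).2.trans h1
      rw [e, measure_univ]
      refine le_antisymm ?_ prob_le_one
      rw [← ENNReal.ofReal_one, ← mu_Iic ⟨zero_le_one, le_rfl⟩]
      exact measure_mono (Iic_subset_Iic.2 h1)
  refine ⟨mp, ?_⟩
  let X := ⋂ q : ℚ, Fc φ ⁻¹' {cdf ν q}ᶜ
  have mX : MeasurableSet X := MeasurableSet.iInter fun q => mF (measurableSet_singleton _).compl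
  have aX : ∀ᵐ x ∂mu, x ∈ X := by
    simp only [X, mem_iInter]
    exact ae_all_iff.2 fun q => mp.quasiMeasurePreserving.ae (compl_mem_ae_iff.2 (by simp))
  let F := X.piecewise (Fc φ) fun x => 2 + Real.exp (φ x)
  have mF' : Measurable F := mF.piecewise mX (by fun_prop)
  have lt : ∀ x ∈ X, ∀ y, φ x < φ y → Fc φ x ≠ Fc φ y := by
    intro x hx y h e
    obtain ⟨q, q1, q2⟩ := exists_rat_btwn h
    refine mem_iInter.1 hx q ?_
    rw [eF] at e ⊢
    exact le_antisymm (monotone_cdf ν q1.le) ((monotone_cdf ν q2.le).trans e.ge)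
  have iF : Function.Injective F := by
    intro x y h
    by_cases hx : x ∈ X <;> by_cases hy : y ∈ X <;>
      simp only [F, piecewise, hx, hy, if_true, if_false] at h
    · refine iφ (le_antisymm (not_lt.1 fun k => lt y hy x k h.symm) (not_lt.1 fun k => lt x hx y k h))
    · linarith [(Fc_mem φ x).2, Real.exp_pos (φ y)]
    · linarith [(Fc_mem φ y).2, Real.exp_pos (φ x)]
    · exact iφ (Real.exp_injective (add_left_cancel h))
  have e1 : F =ᵐ[mu] Fc φ := aX.mono fun x hx => piecewise_eq_of_mem _ _ _ hx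
  have mp' : MP F := mp.congr mF' e1.symm
  have em := mF'.measurableEmbedding iF
  have mq : MP em.invFun := ⟨em.measurable_invFun, by
    conv_lhs => rw [← mp'.map_eq]
    rw [Measure.map_map em.measurable_invFun mF', em.leftInverse_invFun.comp_eq_id, Measure.map_id]⟩
  obtain ⟨R, r, -⟩ := realize mp' mq (Eventually.of_forall em.leftInverse_invFun) (by
    rw [← mp'.map_eq, em.ae_map_iff]
    exact Eventually.of_forall fun x => by rw [em.leftInverse_invFun])
  exact ⟨R, r.trans e1⟩

lemma lower {φ : ℝ → ℝ} (mφ : Measurable φ) (mp : MP (Fc φ)) {L : Set ℝ} (hL : IsLowerSet L) :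
    ∃ a ∈ Icc (0 : ℝ) 1, ∀ᵐ x ∂mu, φ x ∈ L ↔ Fc φ x ≤ a := by
  have ha : mu.real (φ ⁻¹' L) ∈ Icc (0 : ℝ) 1 := ⟨measureReal_nonneg, measureReal_le_one⟩
  refine ⟨_, ha, ?_⟩
  have : φ ⁻¹' L =ᵐ[mu] Fc φ ⁻¹' Iic (mu.real (φ ⁻¹' L)) := by
    refine ae_eq_of_subset_of_measure_ge (fun x hx => measureReal_mono fun y hy => hL hy hx) ?_
      (mφ hL.ordConnected.measurableSet).nullMeasurableSet (measure_ne_top _ _)
    rw [mp.measure_preimage measurableSet_Iic.nullMeasurableSet, mu_Iic ha, ofReal_measureReal]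
  filter_upwards [this] with x hx
  exact Iff.of_eq hx

lemma conv {a b c : ℕ → Bool} {m : ℕ} (hab : ∀ j < m, b j = a j)
    (h1 : cantorFunction (1 / 3) a ≤ cantorFunction (1 / 3) c)
    (h2 : cantorFunction (1 / 3) c ≤ cantorFunction (1 / 3) b) : ∀ j < m, c j = a j := by
  intro j
  induction j using Nat.strong_induction_on with
  | _ j ih =>
    intro hj
    by_contra h
    cases ha : a j
    · have hc : c j = true := by simpa [ha] using h
      exact h2.not_gt (increasing_cantorFunction (by norm_num) (by norm_num) (n := j)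
        (fun k hk => (hab k (hk.trans hj)).trans (ih k hk (hk.trans hj)).symm)
        ((hab j hj).trans ha) hc)
    · have hc : c j = false := by simpa [ha] using h
      exact h1.not_gt (increasing_cantorFunction (by norm_num) (by norm_num) (n := j)
        (fun k hk => ih k hk (hk.trans hj)) hc ha)

lemma cont_cantor : Continuous (cantorFunction (1 / 3)) := by
  refine continuous_tsum (u := fun n => (1 / 3 : ℝ) ^ n) (fun n => ?_)
    (summable_geometric_of_lt_one (by norm_num) (by norm_num)) fun n f => ?_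
  · exact (continuous_of_discreteTopology (f := fun b : Bool => cond b ((1 / 3 : ℝ) ^ n) 0)).comp
      (continuous_apply n)
  · cases h : f n <;> simp [cantorFunctionAux, h]

noncomputable def en : ℕ ≃ ℚ × List Bool := Classical.choice nonempty_equiv_of_countable

noncomputable def code (s : Bool → ℝ → ℝ) (x : ℝ) (i : ℕ) : Bool :=
  decide (act s (en i).2 x < (en i).1)

noncomputable def ph (s : Bool → ℝ → ℝ) (x : ℝ) : ℝ := cantorFunction (1 / 3) (code s x)

lemma ph_meas {s : Bool → ℝ → ℝ} (hs : ∀ b, MP (s b)) : Measurable (ph s) := by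
  refine cont_cantor.measurable.comp (measurable_pi_lambda _ fun i => ?_)
  refine measurable_to_bool ?_
  have : (fun x => code s x i) ⁻¹' {true} = {x | act s (en i).2 x < (en i).1} := by
    ext x; simp [code]
  rw [this]
  exact measurableSet_lt (act_mp hs _).measurable measurable_const

lemma code_nil (s : Bool → ℝ → ℝ) (x : ℝ) (q : ℚ) : code s x (en.symm (q, [])) = decide (x < q) := by
  simp [code, act]

lemma ph_inj (s : Bool → ℝ → ℝ) : Function.Injective (ph s) := by
  have key : ∀ x y, code s x = code s y → ¬ x < y := fun x y h k => by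
    obtain ⟨q, q1, q2⟩ := exists_rat_btwn k
    have := congrFun h (en.symm (q, []))
    simp [code_nil, q1] at this
    linarith
  intro x y h
  have := cantorFunction_injective (by norm_num) (by norm_num) h
  exact le_antisymm (not_lt.1 (key y x this.symm)) (not_lt.1 (key x y this))

lemma depth (n : ℕ) : ∃ m : ℕ, ∀ s : Bool → ℝ → ℝ, ∀ x y, (∀ j < m, code s x j = code s y j) →
    ∀ b, |Fc (ph s) (s b x) - Fc (ph s) (s b y)| ≤ 2 / (n + 1) := by
  let i := (Finset.range (n + 2)).sup (fun k => en.symm ((k : ℚ) / (n + 1), [])) + 1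
  let m := ((Finset.range i) ×ˢ (Finset.univ : Finset Bool)).sup
    (fun p => en.symm ((en p.1).1, p.2 :: (en p.1).2)) + 1
  set N : ℝ := n + 1 with hN
  have N0 : 0 < N := by positivity
  have cl : ∀ s x y, (∀ j < i, code s x j = code s y j) → x ∈ Icc (0 : ℝ) 1 → y ∈ Icc (0 : ℝ) 1 →
      y - x ≤ 1 / N := by
    intro s x y h hx hy
    by_contra k
    rw [not_le, div_lt_iff₀ N0] at k
    have a := Nat.lt_floor_add_one (x * N)
    have b := Nat.floor_le (mul_nonneg hx.1 N0.le)
    have c : ⌊x * N⌋₊ + 1 ∈ Finset.range (n + 2) := by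
      rw [Finset.mem_range]
      have : ((⌊x * N⌋₊ + 1 : ℕ) : ℝ) < (n + 2 : ℕ) := by push_cast; nlinarith [hy.2]
      exact_mod_cast this
    have d := h _ (Nat.lt_succ_of_le
      (Finset.le_sup (f := fun k : ℕ => en.symm ((k : ℚ) / (n + 1), [])) c))
    rw [code_nil, code_nil, decide_eq_decide] at d
    push_cast at d
    rw [← hN, lt_div_iff₀ N0, lt_div_iff₀ N0] at d
    have := d.1 a
    linarith
  have small : ∀ s x, mu.real {z | ∀ j < i, code s z j = code s x j} ≤ 2 / N := by
    intro s x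
    rw [measureReal_restrict_apply' measurableSet_Icc]
    rcases eq_empty_or_nonempty ({z | ∀ j < i, code s z j = code s x j} ∩ Icc 0 1) with h | ⟨u, hu⟩
    · rw [h, measureReal_empty]; positivity
    · refine (measureReal_mono (s₂ := Icc (u - 1 / N) (u + 1 / N)) (fun z hz => ?_)
        (by simp)).trans (le_of_eq ?_)
      · have a := cl s u z (fun j hj => (hu.1 j hj).trans (hz.1 j hj).symm) hu.2 hz.2
        have b := cl s z u (fun j hj => (hz.1 j hj).trans (hu.1 j hj).symm) hz.2 hu.2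
        exact ⟨by linarith, by linarith⟩
      · have : 0 < 1 / N := by positivity
        rw [Real.volume_real_Icc_of_le (by linarith)]; ring
  have osc : ∀ s x y, (∀ j < i, code s y j = code s x j) → ph s x ≤ ph s y →
      |Fc (ph s) x - Fc (ph s) y| ≤ 2 / N := by
    intro s x y h k
    have a : Fc (ph s) x ≤ Fc (ph s) y := measureReal_mono fun z hz => le_trans hz k
    have b : Fc (ph s) y ≤ Fc (ph s) x + mu.real {z | ∀ j < i, code s z j = code s x j} := by
      refine le_trans (measureReal_mono fun z hz => ?_) (measureReal_union_le _ _)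
      rcases le_total (ph s z) (ph s x) with l | l
      · exact Or.inl l
      · exact Or.inr (conv h l hz)
    rw [abs_sub_comm, abs_of_nonneg (by linarith)]
    linarith [small s x]
  refine ⟨m, fun s x y h b => ?_⟩
  have ag : ∀ j < i, code s (s b x) j = code s (s b y) j := by
    intro j hj
    have := h _ (Nat.lt_succ_of_le (Finset.le_sup
      (f := fun p : ℕ × Bool => en.symm ((en p.1).1, p.2 :: (en p.1).2)) (b := (j, b))
      (by simp [hj])))
    simpa [code, act] using this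
  rcases le_total (ph s (s b x)) (ph s (s b y)) with k | k
  · exact osc s _ _ (fun j hj => (ag j hj).symm) k
  · rw [abs_sub_comm]; exact osc s _ _ ag k

noncomputable def Ind (a : ℝ) : Lp ℝ 1 mu :=
  indicatorConstLp 1 (measurableSet_Iic (a := a)) (measure_ne_top _ _) (1 : ℝ)

lemma Ind_ae (a : ℝ) : Ind a =ᵐ[mu] (Iic a).indicator 1 := indicatorConstLp_coeFn

lemma cont_Ind : Continuous Ind := by
  refine (LipschitzWith.of_dist_le_mul (K := 1) fun a b => ?_).continuous
  rw [dist_eq _ _ (Ind_ae a) (Ind_ae b), D_ind measurableSet_Iic measurableSet_Iic,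
    measureReal_restrict_apply' measurableSet_Icc]
  refine (measureReal_mono (s₂ := uIcc a b) (fun x hx => ?_) (by simp [uIcc])).trans ?_
  · rcases hx.1 with h | h
    · exact mem_uIcc.2 (Or.inr ⟨le_of_not_ge h.2, h.1⟩)
    · exact mem_uIcc.2 (Or.inl ⟨le_of_not_ge h.2, h.1⟩)
  · rw [Real.volume_real_interval, Real.dist_eq, abs_sub_comm]; simp

def Stp (m : ℕ) : Set (Lp ℝ 1 mu) :=
  (fun p : (Fin m → Bool) → ℝ × ℝ × ℝ => ∑ u, (p u).1 • (Ind (p u).2.1 - Ind (p u).2.2)) ''
    Set.univ.pi fun _ => Icc 0 1 ×ˢ Icc 0 1 ×ˢ Icc 0 1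

lemma cpt_Stp (m : ℕ) : IsCompact (Stp m) := by
  have := cont_Ind
  exact (isCompact_univ_pi fun _ => isCompact_Icc.prod (isCompact_Icc.prod isCompact_Icc)).image
    (by fun_prop)

noncomputable def SS : Set (Lp ℝ 1 mu) :=
  ⋂ n : ℕ, Metric.cthickening (2 / (n + 1)) (Stp (depth n).choose)

lemma cpt_SS : IsCompact SS := by
  refine TotallyBounded.isCompact_of_isClosed ?_
    (isClosed_iInter fun n => Metric.isClosed_cthickening)
  rw [Metric.totallyBounded_iff]
  intro ε hε
  obtain ⟨n, hn⟩ := exists_nat_one_div_lt (show 0 < ε / 4 by positivity)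
  obtain ⟨t, ht, hs⟩ := Metric.totallyBounded_iff.1 (cpt_Stp (depth n).choose).totallyBounded
    (ε / 2) (by positivity)
  refine ⟨t, ht, fun f hf => ?_⟩
  have a := Metric.cthickening_subset_thickening' (δ₁ := 2 / (n + 1)) (half_pos hε)
    (by rw [div_eq_mul_one_div]; linarith) _ (mem_iInter.1 hf n)
  obtain ⟨z, hz, hd⟩ := Metric.mem_thickening_iff.1 a
  obtain ⟨y, hy, hzy⟩ := mem_iUnion₂.1 (hs hz)
  exact mem_iUnion₂.2 ⟨y, hy, (dist_triangle f z y).trans_lt (by
    linarith [Metric.mem_ball.1 hzy])⟩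

lemma mem_SS {s : Bool → ℝ → ℝ} (hs : ∀ b, MP (s b)) (mp : MP (Fc (ph s))) (R : G)
    (hR : R.1 =ᵐ[mu] Fc (ph s)) (b : Bool) (f : Lp ℝ 1 mu)
    (hf : f =ᵐ[mu] fun y => R.1 (s b (R.1.symm y))) : f ∈ SS := by
  classical
  refine mem_iInter.2 fun n => ?_
  have hm := (depth n).choose_spec s
  set m := (depth n).choose
  let cell : (Fin m → Bool) → Set ℝ := fun u => {x | ∀ j : Fin m, code s x j = u j}
  let A1 : (Fin m → Bool) → Set ℝ := fun u => {t | ∃ y ∈ cell u, t ≤ ph s y}
  let A2 : (Fin m → Bool) → Set ℝ := fun u => A1 u ∩ {t | ∀ y ∈ cell u, t < ph s y}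
  have l1 : ∀ u, IsLowerSet (A1 u) := fun u a c h ⟨y, hy, k⟩ => ⟨y, hy, h.trans k⟩
  have l2 : ∀ u, IsLowerSet (A2 u) := fun u => (l1 u).inter fun a c h k y hy => h.trans_lt (k y hy)
  choose a1 b1 c1 using fun u => lower (ph_meas hs) mp (l1 u)
  choose a2 b2 c2 using fun u => lower (ph_meas hs) mp (l2 u)
  let v : (Fin m → Bool) → ℝ := fun u => Fc (ph s) (s b (Classical.epsilon (· ∈ cell u)))
  let σ : ℝ → ℝ := fun y => ∑ u, v u * ((Iic (a1 u)).indicator 1 y - (Iic (a2 u)).indicator 1 y)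
  have e : (∑ u, v u • (Ind (a1 u) - Ind (a2 u)) : Lp ℝ 1 mu) =ᵐ[mu] σ := by
    refine (Lp.coeFn_finsetSum _ _).trans ?_
    filter_upwards [ae_all_iff.2 fun u => Lp.coeFn_smul (v u) (Ind (a1 u) - Ind (a2 u)),
      ae_all_iff.2 fun u => Lp.coeFn_sub (Ind (a1 u)) (Ind (a2 u)),
      ae_all_iff.2 fun u => Ind_ae (a1 u), ae_all_iff.2 fun u => Ind_ae (a2 u)] with y h1 h2 h3 h4
    simp only [Finset.sum_apply, σ, h1, h2, h3, h4, Pi.smul_apply, Pi.sub_apply, smul_eq_mul]
  refine Metric.mem_cthickening_of_dist_le _ _ _ _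
    ⟨fun u => (v u, a1 u, a2 u), fun u _ => ⟨Fc_mem _ _, b1 u, b2 u⟩, rfl⟩ ?_
  rw [dist_eq _ _ hf e, ← D_comp ((L1.integrable_coeFn f).congr hf)
    ((L1.integrable_coeFn _).congr e) R.mp]
  refine le_trans (integral_mono_of_nonneg (g := fun _ => (2 : ℝ) / (n + 1))
    (Eventually.of_forall fun _ => abs_nonneg _) (integrable_const _) ?_) (by simp)
  filter_upwards [hR, (hs b).quasiMeasurePreserving.ae hR, ae_all_iff.2 c1, ae_all_iff.2 c2]
    with x r1 r2 d1 d2
  have hx : x ∈ cell fun j => code s x j := fun _ => rfl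
  have val : σ (R.1 x) = v fun j => code s x j := by
    simp only [σ, r1]
    rw [Finset.sum_eq_single fun j : Fin m => code s x j]
    · rw [indicator_of_mem (mem_Iic.2 ((d1 _).1 ⟨x, hx, le_rfl⟩)),
        indicator_of_notMem (s := Iic _) fun h => lt_irrefl _ (((d2 _).2 h).2 x hx)]
      simp
    · intro u _ hu
      have : Fc (ph s) x ∈ Iic (a1 u) ↔ Fc (ph s) x ∈ Iic (a2 u) := by
        rw [mem_Iic, mem_Iic, ← d1, ← d2]
        refine ⟨fun h => ⟨h, fun y hy => ?_⟩, fun h => h.1⟩
        obtain ⟨z, hz, k⟩ := h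
        by_contra k'
        have := conv (m := m) (fun j hj => (hz ⟨j, hj⟩).trans (hy ⟨j, hj⟩).symm) (not_lt.1 k') k
        exact hu (funext fun j => ((this j j.2).trans (hy j)).symm)
      by_cases h : Fc (ph s) x ∈ Iic (a1 u)
      · rw [indicator_of_mem h, indicator_of_mem (this.1 h)]; simp
      · rw [indicator_of_notMem h, indicator_of_notMem fun k => h (this.2 k)]; simp
    · simp
  simp only [MeasurableEquiv.symm_apply_apply, val, r2]
  have := Classical.epsilon_spec (p := (· ∈ cell fun j => code s x j)) ⟨x, hx⟩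
  exact hm _ _ (fun j hj => (this ⟨j, hj⟩).symm) b

lemma conj (T : G) : ∃ R S : G, emb S ∈ SS ×ˢ SS ∧ ∀ x, T.1 x = R.1.symm (S.1 (R.1 x)) := by
  let s : Bool → ℝ → ℝ := fun b => if b then T.1 else T.1.symm
  have hs : ∀ b, MP (s b) := fun b => by
    cases b
    exacts [T.mps, T.mp]
  obtain ⟨mp, R, hR⟩ := transform (ph_meas hs) (ph_inj s)
  let S : G := ⟨(R.1.symm.trans T.1).trans R.1, R.mp.comp (T.mp.comp R.mps)⟩
  exact ⟨R, S, ⟨mem_SS hs mp R hR true _ (emb1 S), mem_SS hs mp R hR false _ (emb2 S)⟩,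
    fun x => by simp [S]⟩

end Pool.Agent.H7.Erg
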