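import Mathlib

set_option autoImplicit false

namespace Pool.Agent.H7.Euler

noncomputable def force {α : Type} (n : Nat) (f : Nat → α) : α :=
  Nat.rec (f 0) (fun m _ => f (Nat.succ m)) n

noncomputable def allNe (n q st v : Nat) : Bool :=
  Nat.rec (motive := fun _ => Bool) true (fun i ih =>
    Bool.rec (motive := fun _ => Bool) ih false
      (Nat.beq (Nat.mod (Nat.shiftRight q (Nat.mul st i)) 8) v)) n

noncomputable def allNe2 (n a b p w : Nat) : Bool :=
  Nat.rec (motive := fun _ => Bool) true (fun i ih =>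
    Bool.rec (motive := fun _ => Bool) ih false
      (Nat.beq (Nat.mod (Nat.shiftRight a (Nat.mul 3 (Nat.sub (Nat.add b (Nat.mul 6 i))
        (Nat.mod (Nat.shiftRight p (Nat.mul 3 i)) 8)))) 8) w)) n

noncomputable def band (a b : Bool) : Bool := Bool.rec (motive := fun _ => Bool) false b a
noncomputable def imp (a b : Bool) : Bool := Bool.rec (motive := fun _ => Bool) true b a

noncomputable def all6 (f : Nat → Bool) : Bool :=
  band (f 0) (band (f 1) (band (f 2) (band (f 3) (band (f 4) (f 5)))))

noncomputable def nodeA (p r c : Nat) (nx : Nat → Bool) : Bool :=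
  force (Nat.shiftRight p 15) fun q2 =>
  all6 fun v => imp (band (allNe c p 3 v) (band (allNe r q2 18 v)
    (band (imp (Nat.beq r 0) (Nat.beq v c)) (band (imp (Nat.beq c 0) (Nat.beq v r))
      (imp (Nat.beq r 1) (Nat.ble v (Nat.succ c))))))) (nx v)

noncomputable def nodeT (p s r : Nat) (nx : Nat → Bool) : Bool :=
  force (Nat.shiftRight p 15) fun q2 =>
  force (Nat.shiftRight p (Nat.mul 3 (Nat.add (Nat.mul 6 s) r))) fun a =>
  force (Nat.sub 41 (Nat.mul 6 r)) fun b =>
  all6 fun v => imp (band (allNe r p 3 v) (band (allNe s q2 18 v)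
    (band (imp (Nat.beq r 0) (Nat.beq v s))
      (force (Nat.mod (Nat.shiftRight a (Nat.mul 3 (Nat.sub b (Nat.add 6 v)))) 8) fun w =>
        allNe2 r a b p w)))) (nx v)

noncomputable def node (k p : Nat) (nx : Nat → Bool) : Bool :=
  Bool.rec (motive := fun _ => Bool)
    (force (Nat.div (Nat.sub k 36) 6) (fun s => force (Nat.mod k 6) (fun r => nodeT p s r nx)))
    (force (Nat.div k 6) (fun r => force (Nat.mod k 6) (fun c => nodeA p r c nx)))
    (Nat.ble k 35)

noncomputable def go (base : Nat → Bool) (fuel : Nat) : Nat → Nat → Bool :=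
  Nat.rec (motive := fun _ => Nat → Nat → Bool) (fun _ p => base p)
    (fun _ ih k p => force (Nat.succ k) fun k' => node k p (fun v =>
      force (Nat.add (Nat.mul p 8) v) (fun p' => ih k' p'))) fuel

theorem force_eq {α : Type} (n : ℕ) (f : ℕ → α) : force n f = f n := by
  cases n <;> rfl

theorem beq_false (a b : ℕ) (h : a ≠ b) : Nat.beq a b = false := by
  cases hb : Nat.beq a b
  · rfl
  · exact absurd (Nat.eq_of_beq_eq_true hb) h

theorem allNe_of (n q st v : ℕ)
    (h : ∀ i, i < n → Nat.mod (Nat.shiftRight q (Nat.mul st i)) 8 ≠ v) : allNe n q st v = true := by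
  induction n with
  | zero => rfl
  | succ n ih =>
    show Bool.rec (motive := fun _ => Bool) (allNe n q st v) false
      (Nat.beq (Nat.mod (Nat.shiftRight q (Nat.mul st n)) 8) v) = true
    rw [beq_false _ _ (h n (by omega))]
    exact ih (fun i hi => h i (by omega))

theorem allNe2_of (n a b p w : ℕ)
    (h : ∀ i, i < n → Nat.mod (Nat.shiftRight a (Nat.mul 3 (Nat.sub (Nat.add b (Nat.mul 6 i))
        (Nat.mod (Nat.shiftRight p (Nat.mul 3 i)) 8)))) 8 ≠ w) : allNe2 n a b p w = true := by
  induction n with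
  | zero => rfl
  | succ n ih =>
    show Bool.rec (motive := fun _ => Bool) (allNe2 n a b p w) false
      (Nat.beq (Nat.mod (Nat.shiftRight a (Nat.mul 3 (Nat.sub (Nat.add b (Nat.mul 6 n))
        (Nat.mod (Nat.shiftRight p (Nat.mul 3 n)) 8)))) 8) w) = true
    rw [beq_false _ _ (h n (by omega))]
    exact ih (fun i hi => h i (by omega))

theorem band_of (a b : Bool) (ha : a = true) (hb : b = true) : band a b = true := by
  subst ha; exact hb

theorem of_band (a b : Bool) (h : band a b = true) : a = true ∧ b = true := by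
  cases a
  · exact absurd h (by simp [band])
  · exact ⟨rfl, h⟩

theorem imp_mp (a b : Bool) (h : imp a b = true) (ha : a = true) : b = true := by
  subst ha; exact h

theorem imp_of (r x : ℕ) (b : Bool) (h : r = x → b = true) : imp (Nat.beq r x) b = true := by
  cases hb : Nat.beq r x
  · rfl
  · exact h (Nat.eq_of_beq_eq_true hb)

theorem of_all6 (f : ℕ → Bool) (h : all6 f = true) (v : ℕ) (hv : v < 6) : f v = true := by
  obtain ⟨h0, h⟩ := of_band _ _ h
  obtain ⟨h1, h⟩ := of_band _ _ h
  obtain ⟨h2, h⟩ := of_band _ _ h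
  obtain ⟨h3, h⟩ := of_band _ _ h
  obtain ⟨h4, h5⟩ := of_band _ _ h
  interval_cases v <;> assumption

end Pool.Agent.H7.Euler
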