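import Pool.Agent.H7.Euler1

set_option autoImplicit false

namespace Pool.Agent.H7.Euler

def E (sol : ℕ → ℕ) : ℕ → ℕ
  | 0 => 0
  | k + 1 => E sol k * 8 + sol k

theorem shr (sol : ℕ → ℕ) (h : ∀ j, sol j < 6) (i : ℕ) :
    ∀ k, i ≤ k → Nat.shiftRight (E sol k) (3 * i) = E sol (k - i) := by
  induction i with
  | zero => intro k _; rfl
  | succ i ih =>
    intro k hk
    have h1 : (E sol k) >>> (3 * i) = E sol (k - i) := ih k (by omega)
    show (E sol k) >>> (3 * (i + 1)) = _
    rw [show 3 * (i + 1) = 3 * i + 3 by ring, Nat.shiftRight_add, h1,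
      show k - i = (k - (i + 1)) + 1 by omega, E, Nat.shiftRight_eq_div_pow]
    have := h (k - (i + 1))
    omega

theorem G (sol : ℕ → ℕ) (h : ∀ j, sol j < 6) (k i j : ℕ) (hi : k = i + 1 + j) :
    Nat.mod (Nat.shiftRight (E sol k) (3 * i)) 8 = sol j := by
  rw [shr sol h i k (by omega), show k - i = j + 1 by omega, E]
  show (E sol j * 8 + sol j) % 8 = _
  have := h j
  omega

theorem go_sound (base : ℕ → Bool) (sol : ℕ → ℕ) (N : ℕ)
    (hok : ∀ k, k < N → ∀ nx, node k (E sol k) nx = true → nx (sol k) = true) :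
    ∀ fuel k, k + fuel ≤ N → go base fuel k (E sol k) = true →
      base (E sol (k + fuel)) = true := by
  intro fuel
  induction fuel with
  | zero => intro k _ hg; exact hg
  | succ f ih =>
    intro k hk hg
    have hg' : (force (Nat.succ k) fun k' => node k (E sol k) (fun v =>
      force (Nat.add (Nat.mul (E sol k) 8) v) (fun p' => go base f k' p'))) = true := hg
    rw [force_eq] at hg'
    have h1 := hok k (by omega) _ hg'
    rw [force_eq] at h1
    have h2 : go base f (k + 1) (E sol (k + 1)) = true := h1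
    have h3 := ih (k + 1) (by omega) h2
    rw [show k + (f + 1) = k + 1 + f by omega]
    exact h3

theorem beq_of (a b : ℕ) (h : a = b) : Nat.beq a b = true := by
  subst h; exact Nat.beq_refl a

theorem sol_ok (a t : ℕ → ℕ → ℕ) (ha : ∀ r c, a r c < 6) (ht : ∀ s r, t s r < 6)
    (h0 : ∀ c, c < 6 → a 0 c = c) (h1 : ∀ r, r < 6 → a r 0 = r)
    (h2 : ∀ c, c < 6 → a 1 c ≤ c + 1)
    (hr : ∀ r c x, r < 6 → c < 6 → x < c → a r x ≠ a r c)
    (hc : ∀ r c x, r < 6 → c < 6 → x < r → a x c ≠ a r c)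
    (t0 : ∀ s, s < 6 → t s 0 = s)
    (t1 : ∀ s r x, s < 6 → r < 6 → x < r → t s x ≠ t s r)
    (t2 : ∀ s r x, s < 6 → r < 6 → x < s → t x r ≠ t s r)
    (t3 : ∀ s r x, s < 6 → r < 6 → x < r → a x (t s x) ≠ a r (t s r)) :
    ∃ sol : ℕ → ℕ, ∀ k, k < 72 → ∀ nx, node k (E sol k) nx = true → nx (sol k) = true := by
  let sol : ℕ → ℕ := fun j => if j < 36 then a (j / 6) (j % 6) else t ((j - 36) / 6) ((j - 36) % 6)
  have h6 : ∀ j, sol j < 6 := by
    intro j; simp only [sol]; split_ifs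
    · exact ha _ _
    · exact ht _ _
  have sA : ∀ r c, r < 6 → c < 6 → sol (6 * r + c) = a r c := by
    intro r c hr' hc'
    simp only [sol]
    rw [if_pos (by omega), show (6 * r + c) / 6 = r by omega, show (6 * r + c) % 6 = c by omega]
  have sT : ∀ s r, r < 6 → sol (36 + 6 * s + r) = t s r := by
    intro s r hr'
    simp only [sol]
    rw [if_neg (by omega), show (36 + 6 * s + r - 36) / 6 = s by omega,
      show (36 + 6 * s + r - 36) % 6 = r by omega]
  have hA : ∀ r c, r < 6 → c < 6 → ∀ nx, nodeA (E sol (6 * r + c)) r c nx = true →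
      nx (a r c) = true := by
    intro r c hr' hc' nx hn
    unfold nodeA at hn
    rw [force_eq] at hn
    refine imp_mp _ _ (of_all6 _ hn (a r c) (ha r c)) ?_
    refine band_of _ _ (allNe_of _ _ _ _ ?_) (band_of _ _ (allNe_of _ _ _ _ ?_)
      (band_of _ _ (imp_of _ _ _ ?_) (band_of _ _ (imp_of _ _ _ ?_) (imp_of _ _ _ ?_))))
    · intro i hi
      show Nat.mod (Nat.shiftRight _ (3 * i)) 8 ≠ _
      rw [G sol h6 _ i (6 * r + (c - 1 - i)) (by omega), sA r _ hr' (by omega)]
      exact hr r c _ hr' hc' (by omega)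
    · intro i hi
      show Nat.mod (Nat.shiftRight (Nat.shiftRight _ (3 * 5)) (18 * i)) 8 ≠ _
      rw [shr sol h6 5 _ (by omega), show 18 * i = 3 * (6 * i) by ring,
        G sol h6 _ (6 * i) (6 * (r - 1 - i) + c) (by omega), sA _ c (by omega) hc']
      exact hc r c _ hr' hc' (by omega)
    · intro e; subst e; exact beq_of _ _ (h0 c hc')
    · intro e; subst e; exact beq_of _ _ (h1 r hr')
    · intro e; subst e; exact Nat.ble_eq.mpr (h2 c hc')
  have hT : ∀ s r, s < 6 → r < 6 → ∀ nx, nodeT (E sol (36 + 6 * s + r)) s r nx = true →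
      nx (t s r) = true := by
    intro s r hs hr' nx hn
    unfold nodeT at hn
    rw [force_eq, force_eq, force_eq] at hn
    refine imp_mp _ _ (of_all6 _ hn (t s r) (ht s r)) ?_
    rw [force_eq]
    refine band_of _ _ (allNe_of _ _ _ _ ?_) (band_of _ _ (allNe_of _ _ _ _ ?_)
      (band_of _ _ (imp_of _ _ _ ?_) (allNe2_of _ _ _ _ _ ?_)))
    · intro i hi
      show Nat.mod (Nat.shiftRight _ (3 * i)) 8 ≠ _
      rw [G sol h6 _ i (36 + 6 * s + (r - 1 - i)) (by omega), sT s _ (by omega)]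
      exact t1 s r _ hs hr' (by omega)
    · intro i hi
      show Nat.mod (Nat.shiftRight (Nat.shiftRight _ (3 * 5)) (18 * i)) 8 ≠ _
      rw [shr sol h6 5 _ (by omega), show 18 * i = 3 * (6 * i) by ring,
        G sol h6 _ (6 * i) (36 + 6 * (s - 1 - i) + r) (by omega), sT _ r hr']
      exact t2 s r _ hs hr' (by omega)
    · intro e; subst e; exact beq_of _ _ (t0 s hs)
    · intro i hi
      show Nat.mod (Nat.shiftRight (Nat.shiftRight _ (3 * (6 * s + r)))
          (3 * (41 - 6 * r + 6 * i - Nat.mod (Nat.shiftRight _ (3 * i)) 8))) 8 ≠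
        Nat.mod (Nat.shiftRight (Nat.shiftRight _ (3 * (6 * s + r)))
          (3 * (41 - 6 * r - (6 + t s r)))) 8
      have e1 := ht s (r - 1 - i)
      have e2 := ht s r
      rw [G sol h6 _ i (36 + 6 * s + (r - 1 - i)) (by omega), sT s _ (by omega),
        shr sol h6 (6 * s + r) _ (by omega),
        G sol h6 _ _ (6 * (r - 1 - i) + t s (r - 1 - i)) (by omega),
        G sol h6 _ _ (6 * r + t s r) (by omega), sA _ _ (by omega) e1, sA r _ hr' e2]
      exact t3 s r _ hs hr' (by omega)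
  refine ⟨sol, fun k hk nx hn => ?_⟩
  unfold node at hn
  by_cases hk' : k < 36
  · have e1 : Nat.ble k 35 = true := Nat.ble_eq.mpr (by omega)
    rw [e1] at hn
    have hn' : force (k / 6) (fun r => force (k % 6) (fun c => nodeA (E sol k) r c nx)) = true := hn
    rw [force_eq, force_eq] at hn'
    have := hA (k / 6) (k % 6) (by omega) (by omega) nx
    rw [← sA _ _ (by omega) (by omega), show 6 * (k / 6) + k % 6 = k by omega] at this
    exact this hn'
  · have e1 : Nat.ble k 35 = false := by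
      cases hb : Nat.ble k 35
      · rfl
      · have := Nat.ble_eq.mp hb; omega
    rw [e1] at hn
    have hn' : force ((k - 36) / 6) (fun s => force (k % 6)
      (fun r => nodeT (E sol k) s r nx)) = true := hn
    rw [force_eq, force_eq] at hn'
    have := hT ((k - 36) / 6) (k % 6) (by omega) (by omega) nx
    rw [← sT _ _ (by omega), show 36 + 6 * ((k - 36) / 6) + k % 6 = k by omega] at this
    exact this hn'

structure OL (A B : Fin 6 → Fin 6 → Fin 6) : Prop where
  ar : ∀ r c c', A r c = A r c' → c = c'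
  ac : ∀ r r' c, A r c = A r' c → r = r'
  br : ∀ r c c', B r c = B r c' → c = c'
  bc : ∀ r r' c, B r c = B r' c → r = r'
  o : ∀ r c r' c', A r c = A r' c' → B r c = B r' c' → r = r' ∧ c = c'

theorem OL.perm {A B : Fin 6 → Fin 6 → Fin 6} (h : OL A B) (ρ γ σ τ : Equiv.Perm (Fin 6)) :
    OL (fun r c => σ (A (ρ r) (γ c))) (fun r c => τ (B (ρ r) (γ c))) where
  ar := fun _ _ _ e => γ.injective (h.ar _ _ _ (σ.injective e))
  ac := fun _ _ _ e => ρ.injective (h.ac _ _ _ (σ.injective e))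
  br := fun _ _ _ e => γ.injective (h.br _ _ _ (τ.injective e))
  bc := fun _ _ _ e => ρ.injective (h.bc _ _ _ (τ.injective e))
  o := fun _ _ _ _ e e' =>
    ⟨ρ.injective (h.o _ _ _ _ (σ.injective e) (τ.injective e')).1,
     γ.injective (h.o _ _ _ _ (σ.injective e) (τ.injective e')).2⟩

def Red (A B : Fin 6 → Fin 6 → Fin 6) : Prop :=
  (∀ c, A 0 c = c) ∧ (∀ r, A r 0 = r) ∧ (∀ c, B 0 c = c)

theorem exists_red {A B : Fin 6 → Fin 6 → Fin 6} (h : OL A B) :
    ∃ A' B', OL A' B' ∧ Red A' B' := by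
  let σ : Equiv.Perm (Fin 6) :=
    Equiv.ofBijective (A 0) (Finite.injective_iff_bijective.mp (fun c c' e => h.ar 0 c c' e))
  let τ : Equiv.Perm (Fin 6) :=
    Equiv.ofBijective (B 0) (Finite.injective_iff_bijective.mp (fun c c' e => h.br 0 c c' e))
  have hσ : ∀ c, σ.symm (A 0 c) = c := fun c => σ.symm_apply_apply c
  have hτ : ∀ c, τ.symm (B 0 c) = c := fun c => τ.symm_apply_apply c
  let ρ : Equiv.Perm (Fin 6) :=
    Equiv.ofBijective (fun r => σ.symm (A r 0)) (Finite.injective_iff_bijective.mp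
      (fun r r' e => h.ac r r' 0 (σ.symm.injective e)))
  have hρ : ∀ r, σ.symm (A (ρ.symm r) 0) = r := fun r => ρ.apply_symm_apply r
  have hρ0 : ρ.symm 0 = 0 := by
    rw [Equiv.symm_apply_eq]; exact (hσ 0).symm
  refine ⟨_, _, h.perm ρ.symm (Equiv.refl _) σ.symm τ.symm, fun c => ?_, fun r => ?_, fun c => ?_⟩
  · show σ.symm (A (ρ.symm 0) c) = c
    rw [hρ0]; exact hσ c
  · exact hρ r
  · show τ.symm (B (ρ.symm 0) c) = c
    rw [hρ0]; exact hτ c

def P (n : ℕ) (A : Fin 6 → Fin 6 → Fin 6) : Prop :=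
  ∀ c : Fin 6, c.val < n → (A 1 c).val ≤ c.val + 1

theorem step (n : ℕ) (hn : 1 ≤ n) (hn' : n + 1 < 6) {A B : Fin 6 → Fin 6 → Fin 6} (h : OL A B)
    (hr : Red A B) (hp : P n A) : ∃ A' B', OL A' B' ∧ Red A' B' ∧ P (n + 1) A' := by
  by_cases hy : (A 1 ⟨n, by omega⟩).val ≤ n + 1
  · refine ⟨A, B, h, hr, fun c hc => ?_⟩
    rcases Nat.lt_succ_iff_lt_or_eq.mp hc with h1 | h1
    · exact hp c h1
    · have : c = ⟨n, by omega⟩ := Fin.ext h1
      rw [this]; exact hy
  · let π : Equiv.Perm (Fin 6) := Equiv.swap ⟨n + 1, hn'⟩ (A 1 ⟨n, by omega⟩)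
    have hfix : ∀ z : Fin 6, z.val ≤ n → π z = z := by
      intro z hz
      apply Equiv.swap_apply_of_ne_of_ne
      · intro e; rw [e] at hz; simp at hz
      · intro e; rw [e] at hz; omega
    have hππ : ∀ z, π (π z) = z := fun z => Equiv.swap_apply_self _ _ z
    have h0 : π 0 = 0 := hfix 0 (by simp)
    have h1 : π 1 = 1 := hfix 1 (by simpa using hn)
    refine ⟨_, _, h.perm π π π π, ⟨fun c => ?_, fun r => ?_, fun c => ?_⟩, fun c hc => ?_⟩
    · show π (A (π 0) (π c)) = c
      rw [h0, hr.1, hππ]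
    · show π (A (π r) (π 0)) = r
      rw [h0, hr.2.1, hππ]
    · show π (B (π 0) (π c)) = c
      rw [h0, hr.2.2, hππ]
    · show (π (A (π 1) (π c))).val ≤ c.val + 1
      rw [h1, hfix c (by omega)]
      rcases Nat.lt_succ_iff_lt_or_eq.mp hc with h2 | h2
      · have := hp c h2
        rw [hfix _ (by omega)]; exact this
      · have : c = ⟨n, by omega⟩ := Fin.ext h2
        rw [this]
        show (Equiv.swap _ _ _ : Fin 6).val ≤ _
        rw [Equiv.swap_apply_right]

def F (n : ℕ) : Fin 6 := ⟨n % 6, Nat.mod_lt _ (by norm_num)⟩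

theorem F_val (n : ℕ) (h : n < 6) : (F n).val = n := Nat.mod_eq_of_lt h

theorem F_coe (z : Fin 6) : F z.val = z := Fin.ext (F_val _ z.2)

theorem F_ne (x y : ℕ) (hy : y < 6) (h : x < y) : F x ≠ F y := by
  intro e
  have := congrArg Fin.val e
  rw [F_val x (by omega), F_val y hy] at this
  omega

theorem sol_of_OL {A B : Fin 6 → Fin 6 → Fin 6} (h : OL A B) :
    ∃ sol : ℕ → ℕ, ∀ k, k < 72 → ∀ nx, node k (E sol k) nx = true → nx (sol k) = true := by
  obtain ⟨A1, B1, h1, r1⟩ := exists_red h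
  have p1 : P 1 A1 := by
    intro c hc
    have : c = 0 := Fin.ext (by simpa using hc)
    rw [this, r1.2.1]; simp
  obtain ⟨A2, B2, h2, r2, p2⟩ := step 1 (by omega) (by omega) h1 r1 p1
  obtain ⟨A3, B3, h3, r3, p3⟩ := step 2 (by omega) (by omega) h2 r2 p2
  obtain ⟨A4, B4, h4, r4, p4⟩ := step 3 (by omega) (by omega) h3 r3 p3
  let β : Fin 6 → Equiv.Perm (Fin 6) := fun r =>
    Equiv.ofBijective (B4 r) (Finite.injective_iff_bijective.mp (fun c c' e => h4.br r c c' e))
  let T : Fin 6 → Fin 6 → Fin 6 := fun s r => (β r).symm s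
  have hT : ∀ s r, B4 r (T s r) = s := fun s r => (β r).apply_symm_apply s
  have F0 : F 0 = 0 := rfl
  have F1 : F 1 = 1 := rfl
  refine sol_ok (fun r c => (A4 (F r) (F c)).val) (fun s r => (T (F s) (F r)).val)
    (fun _ _ => Fin.is_lt _) (fun _ _ => Fin.is_lt _) ?_ ?_ ?_ ?_ ?_ ?_ ?_ ?_ ?_
  · intro c hc
    show (A4 (F 0) (F c)).val = c
    rw [F0, r4.1, F_val c hc]
  · intro r hr
    show (A4 (F r) (F 0)).val = r
    rw [F0, r4.2.1, F_val r hr]
  · intro c hc
    show (A4 (F 1) (F c)).val ≤ c + 1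
    rw [F1]
    by_cases hc4 : c < 4
    · have := p4 (F c) (by rw [F_val c hc]; exact hc4)
      rw [F_val c hc] at this; exact this
    · have := (A4 1 (F c)).is_lt
      omega
  · intro r c x _ hc hx e
    exact F_ne x c hc hx (h4.ar _ _ _ (Fin.ext e))
  · intro r c x hr _ hx e
    exact F_ne x r hr hx (h4.ac _ _ _ (Fin.ext e))
  · intro s hs
    show (T (F s) (F 0)).val = s
    have := hT (F s) 0
    rw [r4.2.2] at this
    rw [F0, this, F_val s hs]
  · intro s r x _ hr hx e
    have e' : T (F s) (F x) = T (F s) (F r) := Fin.ext e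
    have e1 := hT (F s) (F x)
    rw [e'] at e1
    exact F_ne x r hr hx (h4.bc _ _ _ (e1.trans (hT (F s) (F r)).symm))
  · intro s r x hs _ hx e
    have e' : T (F x) (F r) = T (F s) (F r) := Fin.ext e
    have e1 := hT (F x) (F r)
    rw [e', hT] at e1
    exact F_ne x s hs hx e1.symm
  · intro s r x _ hr hx e
    have e' : A4 (F x) (F (T (F s) (F x)).val) = A4 (F r) (F (T (F s) (F r)).val) := Fin.ext e
    rw [F_coe, F_coe] at e'
    exact F_ne x r hr hx (h4.o _ _ _ _ e' ((hT _ _).trans (hT _ _).symm)).1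

end Pool.Agent.H7.Euler
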