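import Pool.Agent.H7.Euler1

set_option autoImplicit false

namespace Pool.Agent.H7.Euler

theorem c0_0 : go (fun _ => false) 57 15 717948278940 = true := by decide +kernel
theorem c0_1 : go (fun _ => false) 57 15 717951751836 = true := by decide +kernel
theorem c0_2 : go (fun _ => false) 57 15 717951751851 = true := by decide +kernel
theorem c0_3 : go (fun _ => false) 57 15 717952407712 = true := by decide +kernel
theorem c0_4 : go (fun _ => false) 57 15 717952407684 = true := by decide +kernel
theorem c0_5 : go (fun _ => false) 57 15 717952407685 = true := by decide +kernel
theorem c0_6 : go (fun _ => false) 57 15 717952407724 = true := by decide +kernel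
theorem c0_7 : go (fun _ => false) 57 15 717952536708 = true := by decide +kernel
theorem c0_8 : go (fun _ => false) 57 15 717951751812 = true := by decide +kernel
theorem c0_9 : go (fun _ => false) 57 15 717948343448 = true := by decide +kernel
theorem c0_10 : go (fun _ => false) 57 15 717951751809 = true := by decide +kernel
theorem c0_11 : go (fun _ => false) 57 15 717948343449 = true := by decide +kernel
theorem c0_12 : go (fun _ => false) 57 15 717952536709 = true := by decide +kernel
theorem c0_13 : go (fun _ => false) 57 15 717948278936 = true := by decide +kernel
theorem c0_14 : go (fun _ => false) 57 15 717948278937 = true := by decide +kernel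
theorem c0_15 : go (fun _ => false) 57 15 717952407704 = true := by decide +kernel
theorem c0_16 : go (fun _ => false) 57 15 717952407681 = true := by decide +kernel
theorem c0_17 : go (fun _ => false) 57 15 717952407705 = true := by decide +kernel

def L0 : List ℕ := [717948278940, 717951751836, 717951751851, 717952407712, 717952407684, 717952407685, 717952407724, 717952536708, 717951751812, 717948343448, 717951751809, 717948343449, 717952536709, 717948278936, 717948278937, 717952407704, 717952407681, 717952407705]

theorem all0 : ∀ p ∈ L0, go (fun _ => false) 57 15 p = true := by
  intro p hp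
  simp only [L0, List.mem_cons, List.not_mem_nil, or_false] at hp
  rcases hp with rfl | rfl | rfl | rfl | rfl | rfl | rfl | rfl | rfl | rfl | rfl | rfl | rfl | rfl | rfl | rfl | rfl | rfl
  exacts [c0_0, c0_1, c0_2, c0_3, c0_4, c0_5, c0_6, c0_7, c0_8, c0_9, c0_10, c0_11, c0_12, c0_13, c0_14, c0_15, c0_16, c0_17]

end Pool.Agent.H7.Euler
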