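import Pool.Agent.H7.Euler1

set_option autoImplicit false

namespace Pool.Agent.H7.Euler

theorem c1_0 : go (fun _ => false) 57 15 717948278941 = true := by decide +kernel
theorem c1_1 : go (fun _ => false) 57 15 717952536741 = true := by decide +kernel
theorem c1_2 : go (fun _ => false) 57 15 717948278945 = true := by decide +kernel
theorem c1_3 : go (fun _ => false) 57 15 717948343457 = true := by decide +kernel
theorem c1_4 : go (fun _ => false) 57 15 717951751843 = true := by decide +kernel
theorem c1_5 : go (fun _ => false) 57 15 717948343452 = true := by decide +kernel
theorem c1_6 : go (fun _ => false) 57 15 717952407721 = true := by decide +kernel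
theorem c1_7 : go (fun _ => false) 57 15 717952407708 = true := by decide +kernel
theorem c1_8 : go (fun _ => false) 57 15 717948343453 = true := by decide +kernel
theorem c1_9 : go (fun _ => false) 57 15 717952536729 = true := by decide +kernel
theorem c1_10 : go (fun _ => false) 57 15 717951751841 = true := by decide +kernel
theorem c1_11 : go (fun _ => false) 57 15 717951751833 = true := by decide +kernel
theorem c1_12 : go (fun _ => false) 57 15 717952536744 = true := by decide +kernel

def L1 : List ℕ := [717948278941, 717952536741, 717948278945, 717948343457, 717951751843, 717948343452, 717952407721, 717952407708, 717948343453, 717952536729, 717951751841, 717951751833, 717952536744]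

theorem all1 : ∀ p ∈ L1, go (fun _ => false) 57 15 p = true := by
  intro p hp
  simp only [L1, List.mem_cons, List.not_mem_nil, or_false] at hp
  rcases hp with rfl | rfl | rfl | rfl | rfl | rfl | rfl | rfl | rfl | rfl | rfl | rfl | rfl
  exacts [c1_0, c1_1, c1_2, c1_3, c1_4, c1_5, c1_6, c1_7, c1_8, c1_9, c1_10, c1_11, c1_12]

end Pool.Agent.H7.Euler
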