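import Pool.Agent.H7.Euler1

set_option autoImplicit false

namespace Pool.Agent.H7.Euler

theorem c2_0 : go (fun _ => false) 57 15 717948343461 = true := by decide +kernel
theorem c2_1 : go (fun _ => false) 57 15 717948343468 = true := by decide +kernel
theorem c2_2 : go (fun _ => false) 57 15 717951751845 = true := by decide +kernel
theorem c2_3 : go (fun _ => false) 57 15 717948278953 = true := by decide +kernel
theorem c2_4 : go (fun _ => false) 57 15 717952407720 = true := by decide +kernel
theorem c2_5 : go (fun _ => false) 57 15 717951751852 = true := by decide +kernel
theorem c2_6 : go (fun _ => false) 57 15 717952407717 = true := by decide +kernel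
theorem c2_7 : go (fun _ => false) 57 15 717951751837 = true := by decide +kernel
theorem c2_8 : go (fun _ => false) 57 15 717952536733 = true := by decide +kernel
theorem c2_9 : go (fun _ => false) 57 15 717951751811 = true := by decide +kernel
theorem c2_10 : go (fun _ => false) 57 15 717952536705 = true := by decide +kernel
theorem c2_11 : go (fun _ => false) 57 15 717951751849 = true := by decide +kernel
theorem c2_12 : go (fun _ => false) 57 15 717952536737 = true := by decide +kernel
theorem c2_13 : go (fun _ => false) 57 15 717948343464 = true := by decide +kernel

def L2 : List ℕ := [717948343461, 717948343468, 717951751845, 717948278953, 717952407720, 717951751852, 717952407717, 717951751837, 717952536733, 717951751811, 717952536705, 717951751849, 717952536737, 717948343464]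

theorem all2 : ∀ p ∈ L2, go (fun _ => false) 57 15 p = true := by
  intro p hp
  simp only [L2, List.mem_cons, List.not_mem_nil, or_false] at hp
  rcases hp with rfl | rfl | rfl | rfl | rfl | rfl | rfl | rfl | rfl | rfl | rfl | rfl | rfl | rfl
  exacts [c2_0, c2_1, c2_2, c2_3, c2_4, c2_5, c2_6, c2_7, c2_8, c2_9, c2_10, c2_11, c2_12, c2_13]

end Pool.Agent.H7.Euler
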