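import Pool.Agent.H7.Euler1

set_option autoImplicit false

namespace Pool.Agent.H7.Euler

theorem c3_0 : go (fun _ => false) 57 15 717948278949 = true := by decide +kernel
theorem c3_1 : go (fun _ => false) 57 15 717948278956 = true := by decide +kernel
theorem c3_2 : go (fun _ => false) 57 15 717952536748 = true := by decide +kernel
theorem c3_3 : go (fun _ => false) 57 15 717948343456 = true := by decide +kernel
theorem c3_4 : go (fun _ => false) 57 15 717948278952 = true := by decide +kernel
theorem c3_5 : go (fun _ => false) 57 15 717948278944 = true := by decide +kernel
theorem c3_6 : go (fun _ => false) 57 15 717952407713 = true := by decide +kernel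
theorem c3_7 : go (fun _ => false) 57 15 717952536736 = true := by decide +kernel
theorem c3_8 : go (fun _ => false) 57 15 717952407709 = true := by decide +kernel
theorem c3_9 : go (fun _ => false) 57 15 717951751813 = true := by decide +kernel
theorem c3_10 : go (fun _ => false) 57 15 717952536732 = true := by decide +kernel
theorem c3_11 : go (fun _ => false) 57 15 717952536728 = true := by decide +kernel
theorem c3_12 : go (fun _ => false) 57 15 717948343465 = true := by decide +kernel
theorem c3_13 : go (fun _ => false) 57 15 717952536745 = true := by decide +kernel

def L3 : List ℕ := [717948278949, 717948278956, 717952536748, 717948343456, 717948278952, 717948278944, 717952407713, 717952536736, 717952407709, 717951751813, 717952536732, 717952536728, 717948343465, 717952536745]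

theorem all3 : ∀ p ∈ L3, go (fun _ => false) 57 15 p = true := by
  intro p hp
  simp only [L3, List.mem_cons, List.not_mem_nil, or_false] at hp
  rcases hp with rfl | rfl | rfl | rfl | rfl | rfl | rfl | rfl | rfl | rfl | rfl | rfl | rfl | rfl
  exacts [c3_0, c3_1, c3_2, c3_3, c3_4, c3_5, c3_6, c3_7, c3_8, c3_9, c3_10, c3_11, c3_12, c3_13]

end Pool.Agent.H7.Euler
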