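import Pool.Agent.H7.Euler2
import Pool.Agent.H7.EulerC0
import Pool.Agent.H7.EulerC1
import Pool.Agent.H7.EulerC2
import Pool.Agent.H7.EulerC3

set_option autoImplicit false

namespace Pool.Agent.H7.Euler

theorem top : go (fun p => (L0 ++ L1 ++ L2 ++ L3).contains p) 15 0 0 = true := by decide +kernel

theorem euler {A B : Fin 6 → Fin 6 → Fin 6} (h : OL A B) : False := by
  obtain ⟨sol, hok⟩ := sol_of_OL h
  have h1 := go_sound _ sol 72 hok 15 0 (by omega) top
  have h2 : E sol 15 ∈ L0 ++ L1 ++ L2 ++ L3 := by simpa using h1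
  have h3 : go (fun _ => false) 57 15 (E sol 15) = true := by
    simp only [List.mem_append] at h2
    rcases h2 with ((h2 | h2) | h2) | h2
    exacts [all0 _ h2, all1 _ h2, all2 _ h2, all3 _ h2]
  have h4 := go_sound _ sol 72 hok 57 15 (by omega) h3
  exact absurd h4 (by simp)

end Pool.Agent.H7.Euler
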