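import Mathlib

set_option autoImplicit false
set_option linter.dupNamespace false

namespace Pool.Agent.H7.Grow

open Finset

/-- Growth systems: an item `i` may be added when its trigger set `P i` meets the current set `R`
and `Q i` is not yet inside `R`; then `Q i` is added to `R`. -/
inductive Grow (P Q : ℕ → Set ℕ) : Set ℕ → Finset ℕ → Prop
  | nil (R : Set ℕ) : Grow P Q R ∅
  | cons (R : Set ℕ) (F : Finset ℕ) (i p q : ℕ) (hp : p ∈ P i) (hR : p ∈ R) (hq : q ∈ Q i)
      (hqR : q ∉ R) (hi : i ∉ F) (h : Grow P Q (R ∪ Q i) F) : Grow P Q R (insert i F)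

variable {P Q : ℕ → Set ℕ}

theorem Grow.not_dead {R : Set ℕ} {F : Finset ℕ} (h : Grow P Q R F) :
    ∀ i ∈ F, ∃ q ∈ Q i, q ∉ R := by
  induction h with
  | nil R => simp
  | cons R F j p q hp hR hq hqR hi h ih =>
    intro i hi'
    rcases mem_insert.1 hi' with rfl | h1
    · exact ⟨q, hq, hqR⟩
    · obtain ⟨x, hx, hx'⟩ := ih i h1
      exact ⟨x, hx, fun h2 => hx' (Or.inl h2)⟩

theorem Grow.congr {R : Set ℕ} {F : Finset ℕ} (h : Grow P Q R F) :
    ∀ R' : Set ℕ, (∀ i ∈ F, ∀ x, (x ∈ P i ∨ x ∈ Q i) → (x ∈ R ↔ x ∈ R')) → Grow P Q R' F := by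
  induction h with
  | nil R => intro R' _; exact Grow.nil _
  | cons R F j p q hp hR hq hqR hi h ih =>
    intro R' hR'
    refine Grow.cons R' F j p q hp ((hR' j (mem_insert_self _ _) p (Or.inl hp)).1 hR) hq
      (fun h2 => hqR ((hR' j (mem_insert_self _ _) q (Or.inr hq)).2 h2)) hi (ih _ ?_)
    intro i hi' x hx
    have := hR' i (mem_insert_of_mem hi') x hx
    simp only [Set.mem_union, this]

theorem Grow.first {R : Set ℕ} {F : Finset ℕ} (h : Grow P Q R F) (hne : F ≠ ∅) :
    ∃ i ∈ F, ∃ p ∈ P i, p ∈ R := by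
  induction h with
  | nil => exact absurd rfl hne
  | cons R F j p q hp hR hq hqR hi h _ => exact ⟨j, mem_insert_self _ _, p, hp, hR⟩

/-- Each usable item adds exactly one new point. -/
def Uni (P Q : ℕ → Set ℕ) : Prop :=
  ∀ i, ∀ p ∈ P i, ∀ a ∈ Q i, ∀ b ∈ Q i, a ≠ p → b ≠ p → a = b

theorem Grow.exch (hU : Uni P Q) {R : Set ℕ} {F : Finset ℕ} (h : Grow P Q R F) :
    ∀ i ∈ F, ∀ p ∈ P i, p ∈ R → Grow P Q (R ∪ Q i) (F.erase i) := by
  induction h with
  | nil R => simp
  | cons R F j p q hp hR hq hqR hj h ih =>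
    intro i hi p' hp' hp'R
    by_cases hij : i = j
    · subst hij
      rw [erase_insert hj]; exact h
    · have hiF : i ∈ F := by
        rcases mem_insert.1 hi with h1 | h1
        · exact absurd h1 hij
        · exact h1
      have h1 := ih i hiF p' hp' (Or.inl hp'R)
      obtain ⟨x, hx, hx'⟩ := h.not_dead i hiF
      have hqi : q ∉ R ∪ Q i := by
        rintro (h2 | h2)
        · exact hqR h2
        · have : q = x := hU i p' hp' q h2 x hx (fun e => hqR (e ▸ hp'R))
            (fun e => hx' (Or.inl (e ▸ hp'R)))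
          exact hx' (Or.inr (this ▸ hq))
      rw [erase_insert_of_ne (Ne.symm hij)]
      refine Grow.cons _ _ j p q hp (Or.inl hR) hq hqi (fun h2 => hj (mem_of_mem_erase h2)) ?_
      rw [Set.union_right_comm]; exact h1

open Classical in
/-- Weighted count of the grown sets inside `A`. -/
noncomputable def Z (P Q : ℕ → Set ℕ) (g : ℕ → ℕ) (R : Set ℕ) (A : Finset ℕ) : ℕ :=
  ∑ F ∈ A.powerset, if Grow P Q R F then g F.card else 0

theorem Z_nil (g : ℕ → ℕ) {R : Set ℕ} {A : Finset ℕ} (h : ∀ i ∈ A, ∀ p ∈ P i, p ∉ R) :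
    Z P Q g R A = g 0 := by
  classical
  unfold Z
  rw [sum_eq_single ∅]
  · simp [Grow.nil]
  · intro F hF hne
    rw [if_neg]
    intro hG
    obtain ⟨i, hi, p, hp, hR⟩ := hG.first hne
    exact h i (mem_powerset.1 hF hi) p hp hR
  · intro h; exact absurd (empty_mem_powerset _) h

theorem Z_congr (g : ℕ → ℕ) {R R' : Set ℕ} {A : Finset ℕ}
    (h : ∀ i ∈ A, ∀ x, (x ∈ P i ∨ x ∈ Q i) → (x ∈ R ↔ x ∈ R')) :
    Z P Q g R A = Z P Q g R' A := by
  classical
  unfold Z
  refine sum_congr rfl fun F hF => ?_
  have hs := mem_powerset.1 hF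
  have : Grow P Q R F ↔ Grow P Q R' F :=
    ⟨fun hG => hG.congr _ (fun i hi x hx => h i (hs hi) x hx),
     fun hG => hG.congr _ (fun i hi x hx => (h i (hs hi) x hx).symm)⟩
  simp only [this]

theorem Z_dead (g : ℕ → ℕ) {R : Set ℕ} {A : Finset ℕ} {i : ℕ} (hi : i ∈ A)
    (h : ∀ q ∈ Q i, q ∈ R) : Z P Q g R A = Z P Q g R (A.erase i) := by
  classical
  unfold Z
  conv_lhs => rw [← insert_erase hi, sum_powerset_insert (notMem_erase _ _)]
  rw [add_eq_left]
  refine sum_eq_zero fun F _ => if_neg fun hG => ?_
  obtain ⟨q, hq, hq'⟩ := hG.not_dead i (mem_insert_self _ _)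
  exact hq' (h q hq)

theorem Z_split (hU : Uni P Q) (g : ℕ → ℕ) {R : Set ℕ} {A : Finset ℕ} {i p q : ℕ} (hi : i ∈ A)
    (hp : p ∈ P i) (hR : p ∈ R) (hq : q ∈ Q i) (hqR : q ∉ R) :
    Z P Q g R A = Z P Q g R (A.erase i) + Z P Q (fun k => g (k + 1)) (R ∪ Q i) (A.erase i) := by
  classical
  unfold Z
  conv_lhs => rw [← insert_erase hi, sum_powerset_insert (notMem_erase _ _)]
  congr 1
  refine sum_congr rfl fun F hF => ?_
  have hiF : i ∉ F := fun h => notMem_erase _ _ (mem_powerset.1 hF h)
  have : Grow P Q R (insert i F) ↔ Grow P Q (R ∪ Q i) F := by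
    constructor
    · intro hG
      have := hG.exch hU i (mem_insert_self _ _) p hp hR
      rwa [erase_insert hiF] at this
    · intro hG; exact Grow.cons R F i p q hp hR hq hqR hiF hG
  simp only [this, card_insert_of_notMem hiF]

theorem Z_succ (R : Set ℕ) (A : Finset ℕ) :
    Z P Q (fun k => k + 1) R A = Z P Q (fun k => k) R A + Z P Q (fun _ => 1) R A := by
  classical
  unfold Z
  rw [← sum_add_distrib]
  refine sum_congr rfl fun F _ => ?_
  split_ifs <;> rfl

/-- `j` is an inner point of a path-like stretch. -/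
def Plain (P Q : ℕ → Set ℕ) (m d j : ℕ) : Prop :=
  (∀ i < m, (j ∈ P i ∨ j ∈ Q i) → j + d ≤ i + 2 ∧ i ≤ j + d) ∧ j ∈ P (j + d) ∧ j + 1 ∈ Q (j + d) ∧
    (∀ q ∈ Q (j + d), q = j ∨ q = j + 1)

theorem Z_jump (hU : Uni P Q) (m d : ℕ) : ∀ (l j : ℕ) (g : ℕ → ℕ) (A : Finset ℕ),
    (∀ i ∈ A, i < m) → (∀ t < l, Plain P Q m d (j + t)) → (∀ t < l, j + d + t ∈ A) →
    (∀ i ∈ A, j + d ≤ i + 2 → j + d ≤ i) →
    Z P Q g {j} A = ∑ t ∈ range l, g t +
      Z P Q (fun k => g (k + l)) {j + l} (A.filter (fun i => i < j + d ∨ j + d + l ≤ i)) := by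
  intro l
  induction l with
  | zero =>
    intro j g A _ _ _ _
    rw [filter_true_of_mem (fun i _ => by omega)]
    simp
  | succ l ih =>
    intro j g A hm hp hA hl
    obtain ⟨p1, p2, p3, p4⟩ := hp 0 (by omega)
    rw [add_zero] at p1 p2 p3 p4
    have hi : j + d ∈ A := hA 0 (by omega)
    have hno : ∀ i ∈ A.erase (j + d), ¬ (j ∈ P i ∨ j ∈ Q i) := by
      intro i hi' hx
      rw [mem_erase] at hi'
      have h1 := p1 i (hm i hi'.2) hx
      have h2 := hl i hi'.2 h1.1
      omega
    rw [Z_split hU g hi p2 (Set.mem_singleton j) p3 (by simp),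
      Z_nil g (R := {j}) (fun i hi' p hp' hR => hno i hi' (Or.inl (Set.mem_singleton_iff.1 hR ▸ hp'))),
      Z_congr (R' := {j + 1}) _ (by
        intro i hi' x hx
        constructor
        · rintro (h | h)
          · exact absurd (Set.mem_singleton_iff.1 h ▸ hx) (hno i hi')
          · rcases p4 x h with h' | h'
            · exact absurd (h' ▸ hx) (hno i hi')
            · exact h'
        · intro h
          rw [Set.mem_singleton_iff.1 h]; exact Or.inr p3),
      ih (j + 1) _ _ (fun i hi' => hm i (mem_of_mem_erase hi'))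
        (fun t ht => by have := hp (t + 1) (by omega); rwa [show j + (t + 1) = j + 1 + t by ring] at this)
        (fun t ht => by
          have := hA (t + 1) (by omega)
          rw [mem_erase, show j + 1 + d + t = j + d + (t + 1) by ring]
          exact ⟨by omega, this⟩)
        (fun i hi' h => by
          rw [mem_erase] at hi'
          have := hl i hi'.2 (by omega)
          omega),
      sum_range_succ']
    have e1 : (A.erase (j + d)).filter (fun i => i < j + 1 + d ∨ j + 1 + d + l ≤ i) =
        A.filter (fun i => i < j + d ∨ j + d + (l + 1) ≤ i) := by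
      ext i
      simp only [mem_filter, mem_erase]
      constructor
      · rintro ⟨⟨h1, h2⟩, h3⟩; exact ⟨h2, by omega⟩
      · rintro ⟨h1, h2⟩; exact ⟨⟨by omega, h1⟩, by omega⟩
    rw [e1, show j + 1 + l = j + (l + 1) by ring]
    simp only [add_assoc]
    ring

theorem Z_add (l : ℕ) (R : Set ℕ) (A : Finset ℕ) :
    Z P Q (fun k => k + l) R A = Z P Q (fun k => k) R A + l * Z P Q (fun _ => 1) R A := by
  classical
  unfold Z
  rw [mul_sum, ← sum_add_distrib]
  refine sum_congr rfl fun F _ => ?_
  split_ifs <;> simp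

/-! ### The evaluator -/

def force {β : Type} (n : ℕ) (k : ℕ → β) : β :=
  Nat.rec (motive := fun _ => β) (k 0) (fun m _ => k (Nat.succ m)) n

theorem force_eq {β : Type} (n : ℕ) (k : ℕ → β) : force n k = k n := by cases n <;> rfl

/-- Salted encoding (the low bits vary, which keeps kernel hashing effective). -/
def sal (x : ℕ) : ℕ := Nat.add (Nat.shiftLeft x 32) (Nat.mod x 4294967291)

def uns (y : ℕ) : ℕ := Nat.shiftRight y 32

theorem uns_sal (x : ℕ) : uns (sal x) = x := by
  show (x <<< 32 + x % 4294967291) >>> 32 = x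
  rw [Nat.shiftLeft_eq, Nat.shiftRight_eq_div_pow]
  have : x % 4294967291 < 4294967291 := Nat.mod_lt _ (by norm_num)
  omega

def bset (R : ℕ) : Set ℕ := {x | R.testBit x = true}

def bits (m A : ℕ) : Finset ℕ := (range m).filter (fun i => A.testBit i = true)

abbrev Ent := ℕ × ℕ × ℕ × ℕ

def look (R A : ℕ) (c : List Ent) : Option (ℕ × ℕ) :=
  List.rec (motive := fun _ => Option (ℕ × ℕ)) none
    (fun e _ ih => bif Nat.beq e.2.1 A then (bif Nat.beq e.1 R then some (e.2.2.1, e.2.2.2) else ih)
      else ih) c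

def takeK {β : Type} (K : ℕ) : List Ent → (List Ent → β) → β :=
  Nat.rec (motive := fun _ => List Ent → (List Ent → β) → β) (fun _ k => k [])
    (fun _ ih l k => List.casesOn (motive := fun _ => β) l (k []) (fun e t => ih t (fun t' => k (e :: t')))) K

theorem takeK_eq {β : Type} (K : ℕ) : ∀ (l : List Ent) (k : List Ent → β),
    takeK K l k = k (l.take K) := by
  induction K with
  | zero => intro l k; rfl
  | succ K ih =>
    intro l k
    cases l with
    | nil => rfl
    | cons e t => exact ih t _

def nrmStep (low touch : ℕ → ℕ) (A : ℕ) (ih : ℕ → ℕ → ℕ) (W R : ℕ) : ℕ :=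
  bif Nat.beq W 0 then R else
    force (low (uns W)) fun r =>
      force (sal (Nat.xor (uns W) (Nat.shiftLeft 1 r))) fun W' =>
        bif Nat.beq (Nat.land (touch r) (uns A)) 0 then
          force (sal (Nat.xor (uns R) (Nat.shiftLeft 1 r))) fun R' => ih W' R'
        else ih W' R

def nrm (low touch : ℕ → ℕ) (A : ℕ) (f : ℕ) : ℕ → ℕ → ℕ :=
  Nat.rec (motive := fun _ => ℕ → ℕ → ℕ) (fun _ R => R) (fun _ ih => nrmStep low touch A ih) f

theorem tb_xor (R r x : ℕ) (h : x ≠ r) :
    (Nat.xor R (Nat.shiftLeft 1 r)).testBit x = R.testBit x := by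
  have e : Nat.xor R (Nat.shiftLeft 1 r) = R ^^^ 2 ^ r := by
    show R ^^^ (1 <<< r) = _
    rw [Nat.one_shiftLeft]
  rw [e, Nat.testBit_xor, Nat.testBit_two_pow_of_ne (Ne.symm h), Bool.xor_false]

theorem nrm_spec (low touch : ℕ → ℕ) (A : ℕ) (f : ℕ) : ∀ W R x : ℕ, touch x &&& uns A ≠ 0 →
    (uns (nrm low touch A f W R)).testBit x = (uns R).testBit x := by
  induction f with
  | zero => intro W R x _; rfl
  | succ f ih =>
    intro W R x hx
    show (uns (nrmStep low touch A (nrm low touch A f) W R)).testBit x = _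
    unfold nrmStep
    cases Nat.beq W 0
    · simp only [cond_false, force_eq]
      cases hb : Nat.beq (Nat.land (touch (low (uns W))) (uns A)) 0
      · simp only [cond_false]
        exact ih _ _ x hx
      · simp only [cond_true]
        refine (ih _ _ x hx).trans ?_
        rw [uns_sal]
        refine tb_xor _ _ _ ?_
        rintro rfl
        exact hx (Nat.eq_of_beq_eq_true hb)
    · rfl

abbrev Res := Option (ℕ × ℕ × List Ent)

def evMain (m : ℕ) (sel pick Pm Qm touch : ℕ → ℕ) (sp : ℕ → Bool) (K : ℕ)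
    (ih : ℕ → ℕ → List Ent → Res) (R A : ℕ) (c : List Ent) : Res :=
  Option.casesOn (motive := fun _ => Res) (bif sp (uns R) then look R A c else none)
    (force (pick (Nat.land (touch (sel (uns R))) (uns A))) fun i =>
      force (sal (Nat.xor (uns A) (Nat.shiftLeft 1 i))) fun A' =>
      bif Nat.ble m i then none else
      bif Nat.beq (Nat.land (uns A) (Nat.shiftLeft 1 i)) 0 then none else
      bif Nat.beq (Nat.land (Qm i) (uns R)) (Qm i) then ih R A' c else
      bif Nat.beq (Nat.land (Pm i) (uns R)) 0 then none else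
      Option.casesOn (motive := fun _ => Res) (ih R A' c) none
        (fun r1 => Prod.casesOn (motive := fun _ => Res) r1 fun a r1' =>
          Prod.casesOn (motive := fun _ => Res) r1' fun s c1 =>
          force (sal (Nat.lor (uns R) (Qm i))) fun R2 =>
          Option.casesOn (motive := fun _ => Res) (ih R2 A' c1) none
            (fun r2 => Prod.casesOn (motive := fun _ => Res) r2 fun x r2' =>
              Prod.casesOn (motive := fun _ => Res) r2' fun y c2 =>
              force (Nat.add a x) fun u => force (Nat.add s (Nat.add y x)) fun v =>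
              bif sp (uns R) then takeK K c2 (fun c3 => some (u, v, (R, A, u, v) :: c3))
              else some (u, v, c2))))
    (fun xy => some (xy.1, xy.2, c))

def ones (l : ℕ) : ℕ := Nat.pred (Nat.shiftLeft 1 l)

def evStep (m d PL : ℕ) (low sel pick Pm Qm touch : ℕ → ℕ) (sp : ℕ → Bool) (K : ℕ)
    (ih : ℕ → ℕ → List Ent → Res) (R0 A : ℕ) (c : List Ent) : Res :=
  force (nrm low touch A 8 R0 R0) fun R =>
  bif Nat.beq R 0 then some (1, 0, c) else
  force (low (uns R)) fun j =>
  bif Nat.beq (uns R) (Nat.shiftLeft 1 j) then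
    force (low (Nat.succ (Nat.land (Nat.shiftRight (uns A) (Nat.add j d)) (Nat.shiftRight PL j))))
      fun l =>
    bif Nat.beq l 0 then evMain m sel pick Pm Qm touch sp K ih R A c else
    bif Nat.beq (Nat.land (Nat.shiftRight PL j) (ones l)) (ones l) &&
      Nat.beq (Nat.land (Nat.shiftRight (Nat.shiftLeft (uns A) 2) (Nat.add j d)) (ones (Nat.add l 2)))
        (Nat.shiftLeft (ones l) 2) && Nat.ble (Nat.add (Nat.add j d) l) m then
      force (sal (Nat.shiftLeft 1 (Nat.add j l))) fun R' =>
      force (sal (Nat.xor (uns A) (Nat.shiftLeft (ones l) (Nat.add j d)))) fun A' =>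
      Option.casesOn (motive := fun _ => Res) (ih R' A' c) none
        (fun r1 => Prod.casesOn (motive := fun _ => Res) r1 fun x r1' =>
          Prod.casesOn (motive := fun _ => Res) r1' fun y c1 =>
          force (Nat.add l x) fun u =>
          force (Nat.add (Nat.div (Nat.mul l (Nat.pred l)) 2) (Nat.add y (Nat.mul l x))) fun v =>
          some (u, v, c1))
    else evMain m sel pick Pm Qm touch sp K ih R A c
  else evMain m sel pick Pm Qm touch sp K ih R A c

def ev (m d PL : ℕ) (low sel pick Pm Qm touch : ℕ → ℕ) (sp : ℕ → Bool) (K : ℕ) (f : ℕ) :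
    ℕ → ℕ → List Ent → Res :=
  Nat.rec (motive := fun _ => ℕ → ℕ → List Ent → Res) (fun _ _ _ => none)
    (fun _ ih => evStep m d PL low sel pick Pm Qm touch sp K ih) f

section sound

variable (m d PL : ℕ) (low sel pick Pm Qm touch : ℕ → ℕ)

def Good (e : Ent) : Prop :=
  e.2.2.1 = Z (fun i => bset (Pm i)) (fun i => bset (Qm i)) (fun _ => 1) (bset (uns e.1)) (bits m (uns e.2.1)) ∧
  e.2.2.2 = Z (fun i => bset (Pm i)) (fun i => bset (Qm i)) (fun k => k) (bset (uns e.1)) (bits m (uns e.2.1))

theorem look_sound (R A : ℕ) : ∀ (c : List Ent) (x y : ℕ), (∀ e ∈ c, Good m Pm Qm e) →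
    look R A c = some (x, y) → Good m Pm Qm (R, A, x, y) := by
  intro c
  induction c with
  | nil => intro x y _ h; cases h
  | cons e t ih =>
    intro x y hc h
    have ht : ∀ e ∈ t, Good m Pm Qm e := fun e' he => hc e' (List.mem_cons_of_mem _ he)
    change (bif Nat.beq e.2.1 A then (bif Nat.beq e.1 R then some (e.2.2.1, e.2.2.2)
      else look R A t) else look R A t) = _ at h
    cases h1 : Nat.beq e.2.1 A
    · rw [h1] at h; exact ih x y ht h
    · cases h2 : Nat.beq e.1 R
      · rw [h1, h2] at h; exact ih x y ht h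
      · rw [h1, h2] at h
        simp only [cond_true, Option.some.injEq, Prod.mk.injEq] at h
        have := hc e List.mem_cons_self
        rw [← Nat.eq_of_beq_eq_true h1, ← Nat.eq_of_beq_eq_true h2, ← h.1, ← h.2]
        exact this

theorem exists_bit {a b : ℕ} (h : a &&& b ≠ 0) : ∃ x, a.testBit x = true ∧ b.testBit x = true := by
  obtain ⟨x, hx⟩ := Nat.exists_testBit_of_ne_zero h
  rw [Nat.testBit_and, Bool.and_eq_true] at hx
  exact ⟨x, hx⟩

theorem ones_bit (l i : ℕ) : (ones l).testBit i = decide (i < l) := by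
  show (1 <<< l - 1).testBit i = _
  rw [Nat.one_shiftLeft, Nat.testBit_two_pow_sub_one]

theorem bset_one (j : ℕ) : bset (Nat.shiftLeft 1 j) = {j} := by
  ext z
  show (1 <<< j).testBit z = true ↔ z = j
  rw [Nat.one_shiftLeft, Nat.testBit_two_pow]
  simp [eq_comm]

theorem evMain_sound (hU : Uni (fun i => bset (Pm i)) (fun i => bset (Qm i)))
    (sp : ℕ → Bool) (K : ℕ) (E : ℕ → ℕ → List Ent → Res)
    (ih : ∀ (R A : ℕ) (c : List Ent) (x y : ℕ) (c' : List Ent), (∀ e ∈ c, Good m Pm Qm e) →
      E R A c = some (x, y, c') → Good m Pm Qm (R, A, x, y) ∧ ∀ e ∈ c', Good m Pm Qm e)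
    (R A : ℕ) (c : List Ent) (x y : ℕ) (c' : List Ent) (hc : ∀ e ∈ c, Good m Pm Qm e)
    (h : evMain m sel pick Pm Qm touch sp K E R A c = some (x, y, c')) :
    Good m Pm Qm (R, A, x, y) ∧ ∀ e ∈ c', Good m Pm Qm e := by
  unfold evMain at h
  simp only [force_eq] at h
  generalize pick (Nat.land (touch (sel (uns R))) (uns A)) = i at h
  cases hl : (bif sp (uns R) then look R A c else none) with
  | some xy =>
    rw [hl] at h
    simp only [Option.some.injEq, Prod.mk.injEq] at h
    obtain ⟨rfl, rfl, rfl⟩ := h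
    refine ⟨look_sound m Pm Qm R A c _ _ hc ?_, hc⟩
    cases hs : sp (uns R)
    · rw [hs] at hl; cases hl
    · rw [hs] at hl; exact hl
  | none =>
    rw [hl] at h
    simp only at h
    cases h1 : Nat.ble m i
    swap
    · rw [h1] at h; cases h
    rw [h1] at h
    cases h2 : Nat.beq (Nat.land (uns A) (Nat.shiftLeft 1 i)) 0
    swap
    · rw [h2] at h; cases h
    rw [h2] at h
    simp only [cond_false] at h
    have him : i < m := by
      by_contra hh
      have : Nat.ble m i = true := Nat.ble_eq_true_of_le (by omega)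
      rw [h1] at this; cases this
    have hAi : (uns A).testBit i = true := by
      have h3 : uns A &&& 2 ^ i ≠ 0 := by
        intro h4
        have : Nat.land (uns A) (Nat.shiftLeft 1 i) = 0 := by
          show uns A &&& (1 <<< i) = 0
          rw [Nat.one_shiftLeft]; exact h4
        rw [this] at h2; cases h2
      obtain ⟨z, hz1, hz2⟩ := exists_bit h3
      have : i = z := by simpa [Nat.testBit_two_pow] using hz2
      rw [this]; exact hz1
    have hi : i ∈ bits m (uns A) := by simp [bits, him, hAi]
    have hA' : bits m (Nat.xor (uns A) (Nat.shiftLeft 1 i)) = (bits m (uns A)).erase i := by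
      ext z
      by_cases hz : z = i
      · subst hz
        simp [bits, Nat.testBit_xor, hAi]
      · simp only [bits, mem_filter, mem_erase, tb_xor (uns A) i z hz, ne_eq, hz, not_false_eq_true,
          true_and]
    cases h3 : Nat.beq (Nat.land (Qm i) (uns R)) (Qm i)
    swap
    · rw [h3] at h
      simp only [cond_true] at h
      obtain ⟨g1, g2⟩ := ih R _ c x y c' hc h
      have hd : ∀ q ∈ bset (Qm i), q ∈ bset (uns R) := by
        intro q hq
        have e : Qm i &&& uns R = Qm i := Nat.eq_of_beq_eq_true h3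
        have : (Qm i &&& uns R).testBit q = true := by rw [e]; exact hq
        rw [Nat.testBit_and, Bool.and_eq_true] at this
        exact this.2
      refine ⟨⟨?_, ?_⟩, g2⟩
      · have := g1.1; simp only [uns_sal, hA'] at this
        exact this.trans (Z_dead _ hi hd).symm
      · have := g1.2; simp only [uns_sal, hA'] at this
        exact this.trans (Z_dead _ hi hd).symm
    rw [h3] at h
    cases h4 : Nat.beq (Nat.land (Pm i) (uns R)) 0
    swap
    · rw [h4] at h; cases h
    rw [h4] at h
    simp only [cond_false] at h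
    obtain ⟨p, hp1, hp2⟩ : ∃ p, (Pm i).testBit p = true ∧ (uns R).testBit p = true := by
      refine exists_bit fun h5 => ?_
      have : Nat.land (Pm i) (uns R) = 0 := h5
      rw [this] at h4; cases h4
    obtain ⟨q, hq1, hq2⟩ : ∃ q, (Qm i).testBit q = true ∧ ¬ (uns R).testBit q = true := by
      by_contra hh
      push Not at hh
      have : Nat.land (Qm i) (uns R) = Qm i := by
        refine Nat.eq_of_testBit_eq fun z => ?_
        show (Qm i &&& uns R).testBit z = _
        rw [Nat.testBit_and]
        cases hz : (Qm i).testBit z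
        · rfl
        · rw [hh z hz]; rfl
      rw [this, Nat.beq_refl] at h3; cases h3
    cases e1 : E R (sal (Nat.xor (uns A) (Nat.shiftLeft 1 i))) c with
    | none => rw [e1] at h; cases h
    | some r1 =>
      obtain ⟨a, s, c1⟩ := r1
      obtain ⟨g1, g1'⟩ := ih _ _ _ _ _ _ hc e1
      rw [e1] at h
      simp only at h
      cases e2 : E (sal (Nat.lor (uns R) (Qm i))) (sal (Nat.xor (uns A) (Nat.shiftLeft 1 i))) c1 with
      | none => rw [e2] at h; cases h
      | some r2 =>
        obtain ⟨u, v, c2⟩ := r2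
        obtain ⟨g2, g2'⟩ := ih _ _ _ _ _ _ g1' e2
        rw [e2] at h
        simp only [takeK_eq] at h
        have hU' : bset (Nat.lor (uns R) (Qm i)) = bset (uns R) ∪ bset (Qm i) := by
          ext z
          show (uns R ||| Qm i).testBit z = true ↔ _
          rw [Nat.testBit_or, Bool.or_eq_true]; rfl
        have gg : Good m Pm Qm (R, A, Nat.add a u, Nat.add s (Nat.add v u)) := by
          obtain ⟨a1, a2⟩ := g1
          obtain ⟨b1, b2⟩ := g2
          simp only [uns_sal, hA', hU'] at a1 a2 b1 b2
          refine ⟨?_, ?_⟩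
          · show a + u = _
            rw [Z_split hU _ hi (p := p) (q := q) hp1 hp2 hq1 hq2, a1, b1]
          · show s + (v + u) = _
            rw [Z_split hU _ hi (p := p) (q := q) hp1 hp2 hq1 hq2, Z_succ, a2, b1, b2]
        cases hs : sp (uns R)
        · rw [hs] at h
          simp only [cond_false, Option.some.injEq, Prod.mk.injEq] at h
          obtain ⟨rfl, rfl, rfl⟩ := h
          exact ⟨gg, g2'⟩
        · rw [hs] at h
          simp only [cond_true, Option.some.injEq, Prod.mk.injEq] at h
          obtain ⟨rfl, rfl, rfl⟩ := h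
          refine ⟨gg, fun e he => ?_⟩
          rcases List.mem_cons.1 he with rfl | he
          · exact gg
          · exact g2' e (List.mem_of_mem_take he)

theorem ev_sound (hU : Uni (fun i => bset (Pm i)) (fun i => bset (Qm i)))
    (hT : ∀ i < m, ∀ x, ((Pm i).testBit x = true ∨ (Qm i).testBit x = true) →
      (touch x).testBit i = true)
    (hP : ∀ j, PL.testBit j = true → Plain (fun i => bset (Pm i)) (fun i => bset (Qm i)) m d j) (sp : ℕ → Bool) (K f : ℕ) :
    ∀ (R A : ℕ) (c : List Ent) (x y : ℕ) (c' : List Ent), (∀ e ∈ c, Good m Pm Qm e) →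
      ev m d PL low sel pick Pm Qm touch sp K f R A c = some (x, y, c') →
      Good m Pm Qm (R, A, x, y) ∧ ∀ e ∈ c', Good m Pm Qm e := by
  induction f with
  | zero => intro R A c x y c' _ h; cases h
  | succ f ih =>
    intro R0 A c x y c' hc h
    have hn : ∀ g : ℕ → ℕ, Z (fun i => bset (Pm i)) (fun i => bset (Qm i)) g (bset (uns R0)) (bits m (uns A)) =
        Z (fun i => bset (Pm i)) (fun i => bset (Qm i)) g (bset (uns (nrm low touch A 8 R0 R0)))
          (bits m (uns A)) := by
      intro g
      refine Z_congr g fun i hi z hz => ?_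
      simp only [bits, mem_filter, mem_range] at hi
      have h1 := hT i hi.1 z hz
      have h2 : touch z &&& uns A ≠ 0 := by
        intro h0
        have : (touch z &&& uns A).testBit i = true := by rw [Nat.testBit_and, h1, hi.2]; rfl
        rw [h0] at this; simp at this
      simp only [bset, Set.mem_ofPred_eq, nrm_spec low touch A 8 R0 R0 z h2]
    suffices H : Good m Pm Qm (nrm low touch A 8 R0 R0, A, x, y) ∧ ∀ e ∈ c', Good m Pm Qm e from
      ⟨⟨H.1.1.trans (hn _).symm, H.1.2.trans (hn _).symm⟩, H.2⟩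
    change evStep m d PL low sel pick Pm Qm touch sp K (ev m d PL low sel pick Pm Qm touch sp K f) R0 A c = _ at h
    generalize ev m d PL low sel pick Pm Qm touch sp K f = E at h ih
    unfold evStep at h
    simp only [force_eq] at h
    generalize nrm low touch A 8 R0 R0 = R at h ⊢
    cases h0 : Nat.beq R 0
    swap
    · rw [h0] at h
      simp only [cond_true, Option.some.injEq, Prod.mk.injEq] at h
      obtain ⟨rfl, rfl, rfl⟩ := h
      have hR : R = 0 := Nat.eq_of_beq_eq_true h0
      subst hR
      have hz : ∀ p, p ∉ bset (uns 0) := fun p => by simp [bset, uns]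
      exact ⟨⟨(Z_nil (fun _ => 1) (fun _ _ p _ => hz p)).symm,
        (Z_nil (fun k => k) (fun _ _ p _ => hz p)).symm⟩, hc⟩
    rw [h0] at h
    simp only [cond_false] at h
    have hM := evMain_sound m sel pick Pm Qm touch hU sp K E ih R A c x y c' hc
    generalize low (uns R) = j at h
    cases h1 : Nat.beq (uns R) (Nat.shiftLeft 1 j)
    · rw [h1] at h; exact hM h
    rw [h1] at h
    simp only [cond_true] at h
    generalize low (Nat.succ (Nat.land (Nat.shiftRight (uns A) (Nat.add j d))
      (Nat.shiftRight PL j))) = l at h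
    cases h2 : Nat.beq l 0
    swap
    · rw [h2] at h; exact hM h
    rw [h2] at h
    simp only [cond_false] at h
    cases h3 : (Nat.beq (Nat.land (Nat.shiftRight PL j) (ones l)) (ones l) &&
      Nat.beq (Nat.land (Nat.shiftRight (Nat.shiftLeft (uns A) 2) (Nat.add j d)) (ones (Nat.add l 2)))
        (Nat.shiftLeft (ones l) 2) && Nat.ble (Nat.add (Nat.add j d) l) m)
    · rw [h3] at h; exact hM h
    rw [h3] at h
    simp only [cond_true] at h
    rw [Bool.and_eq_true, Bool.and_eq_true] at h3
    obtain ⟨⟨k1, k2⟩, k3⟩ := h3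
    have k1' : (PL >>> j) &&& ones l = ones l := Nat.eq_of_beq_eq_true k1
    have k2' : ((uns A <<< 2) >>> (j + d)) &&& ones (l + 2) = ones l <<< 2 :=
      Nat.eq_of_beq_eq_true k2
    have k3' : j + d + l ≤ m := Nat.le_of_ble_eq_true k3
    have hR : bset (uns R) = {j} := by rw [Nat.eq_of_beq_eq_true h1]; exact bset_one j
    have b1 : ∀ t < l, PL.testBit (j + t) = true := by
      intro t ht
      have := congrArg (fun z => z.testBit t) k1'
      simpa [ones_bit, ht] using this
    have b2 : ∀ t < l, (uns A).testBit (j + d + t) = true := by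
      intro t ht
      have := congrArg (fun z => z.testBit (t + 2)) k2'
      simp only [Nat.testBit_and, Nat.testBit_shiftRight, Nat.testBit_shiftLeft, ones_bit] at this
      rw [show j + d + (t + 2) - 2 = j + d + t by omega, show t + 2 - 2 = t by omega] at this
      have h6 : 2 ≤ j + d + (t + 2) ∧ (uns A).testBit (j + d + t) = true := by simpa [ht] using this
      exact h6.2
    have b3 : ∀ i, (uns A).testBit i = true → j + d ≤ i + 2 → j + d ≤ i := by
      intro i hi h2
      by_contra h3
      have := congrArg (fun z => z.testBit (i + 2 - (j + d))) k2'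
      simp only [Nat.testBit_and, Nat.testBit_shiftRight, Nat.testBit_shiftLeft, ones_bit] at this
      rw [show j + d + (i + 2 - (j + d)) - 2 = i by omega, hi,
        decide_eq_true (show j + d + (i + 2 - (j + d)) ≥ 2 by omega),
        decide_eq_true (show i + 2 - (j + d) < l + 2 by omega),
        decide_eq_false (show ¬ i + 2 - (j + d) ≥ 2 by omega)] at this
      simp at this
    have hA' : bits m (Nat.xor (uns A) (Nat.shiftLeft (ones l) (Nat.add j d))) =
        (bits m (uns A)).filter (fun i => i < j + d ∨ j + d + l ≤ i) := by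
      ext i
      have e : (Nat.xor (uns A) (Nat.shiftLeft (ones l) (Nat.add j d))).testBit i =
          ((uns A).testBit i ^^ (decide (i ≥ j + d) && decide (i - (j + d) < l))) := by
        show (uns A ^^^ (ones l <<< (j + d))).testBit i = _
        rw [Nat.testBit_xor, Nat.testBit_shiftLeft, ones_bit]
      simp only [bits, mem_filter, e]
      by_cases hh : i < j + d ∨ j + d + l ≤ i
      · have : (decide (i ≥ j + d) && decide (i - (j + d) < l)) = false := by
          rw [Bool.and_eq_false_iff]; simp only [decide_eq_false_iff_not]; omega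
        simp [this, hh]
      · have h5 := b2 (i - (j + d)) (by omega)
        rw [show j + d + (i - (j + d)) = i by omega] at h5
        have : (decide (i ≥ j + d) && decide (i - (j + d) < l)) = true := by
          rw [Bool.and_eq_true]; simp only [decide_eq_true_eq]; omega
        simp [this, hh, h5]
    cases e1 : E (sal (Nat.shiftLeft 1 (Nat.add j l)))
        (sal (Nat.xor (uns A) (Nat.shiftLeft (ones l) (Nat.add j d)))) c with
    | none => rw [e1] at h; cases h
    | some r1 =>
      obtain ⟨a, s, c1⟩ := r1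
      obtain ⟨⟨a1, a2⟩, g1'⟩ := ih _ _ _ _ _ _ hc e1
      rw [e1] at h
      simp only [Option.some.injEq, Prod.mk.injEq] at h
      obtain ⟨rfl, rfl, rfl⟩ := h
      simp only [uns_sal, hA', bset_one] at a1 a2
      have hJ := fun g => Z_jump hU m d l j g (bits m (uns A))
        (fun i hi => mem_range.1 (mem_filter.1 hi).1) (fun t ht => hP _ (b1 t ht))
        (fun t ht => mem_filter.2 ⟨mem_range.2 (by omega), b2 t ht⟩)
        (fun i hi => b3 i (mem_filter.1 hi).2)
      refine ⟨⟨?_, ?_⟩, g1'⟩
      · show l + a = Z _ _ _ (bset (uns R)) (bits m (uns A))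
        rw [hR, hJ, a1]; simp
      · show l * (l - 1) / 2 + (s + l * a) = Z _ _ _ (bset (uns R)) (bits m (uns A))
        rw [hR, hJ, Z_add, a1, a2, sum_range_id]
        rfl

end sound

end Pool.Agent.H7.Grow
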