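import Mathlib

open MeasureTheory Set Filter Topology

namespace Pool.Agent.H7.Kak

def Good (s : ℝ) : Prop := ∃ m : ℕ, ∀ c ∈ cantorSet, s + c / 3 ^ m ∈ cantorSet

def cc (b : Bool) : ℝ := if b then 2 else 0

lemma cc_nonneg (b : Bool) : 0 ≤ cc b := by cases b <;> simp [cc]
lemma cc_le (b : Bool) : cc b ≤ 2 := by cases b <;> simp [cc]

lemma half_mem (b : Bool) {c : ℝ} (hc : c ∈ cantorSet) : (cc b + c) / 3 ∈ cantorSet := by
  rw [cantorSet_eq_union_halves]
  cases b
  · left; exact ⟨c, hc, by simp [cc]⟩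
  · right; exact ⟨c, hc, by simp [cc]⟩

lemma div_pow_mem (m : ℕ) {c : ℝ} (hc : c ∈ cantorSet) : c / 3 ^ m ∈ cantorSet := by
  induction m with
  | zero => simpa using hc
  | succ m ih =>
    have := half_mem false ih
    have e : (cc false + c / 3 ^ m) / 3 = c / 3 ^ (m + 1) := by simp [cc, pow_succ, div_div]
    rwa [e] at this

lemma Good.mem {s : ℝ} (h : Good s) : s ∈ cantorSet := by
  obtain ⟨m, hm⟩ := h
  simpa using hm 0 zero_mem_cantorSet

lemma good_zero : Good 0 := ⟨0, fun c hc => by simpa using hc⟩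

lemma Good.half {s : ℝ} (h : Good s) (b : Bool) : Good ((cc b + s) / 3) := by
  obtain ⟨m, hm⟩ := h
  refine ⟨m + 1, fun c hc => ?_⟩
  have := half_mem b (hm c hc)
  have e : (cc b + (s + c / 3 ^ m)) / 3 = (cc b + s) / 3 + c / 3 ^ (m + 1) := by
    rw [pow_succ]; field_simp; ring
  rwa [e] at this

lemma Good.add {s : ℝ} (h : Good s) : ∀ᶠ m : ℕ in atTop, ∀ c, Good c → Good (s + c / 3 ^ m) := by
  obtain ⟨m, hm⟩ := h
  filter_upwards [eventually_ge_atTop m] with k hk c hc
  obtain ⟨j, rfl⟩ := Nat.exists_eq_add_of_le hk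
  obtain ⟨l, hl⟩ := hc
  refine ⟨m + j + l, fun d hd => ?_⟩
  have := hm _ (div_pow_mem j (hl d hd))
  have e : s + (c + d / 3 ^ l) / 3 ^ j / 3 ^ m = s + c / 3 ^ (m + j) + d / 3 ^ (m + j + l) := by
    simp only [pow_add]; field_simp; ring
  rwa [e] at this

def U (F : Finset (ℝ × ℝ × ℝ)) : Set (ℝ × ℝ) :=
  {p | ∃ q ∈ F, q.2.1 ≤ p.2 - q.1 * p.1 ∧ p.2 - q.1 * p.1 ≤ q.2.2}

lemma isClosed_U (F : Finset (ℝ × ℝ × ℝ)) : IsClosed (U F) := by
  have : U F = ⋃ q ∈ F, {p : ℝ × ℝ | q.2.1 ≤ p.2 - q.1 * p.1 ∧ p.2 - q.1 * p.1 ≤ q.2.2} := by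
    ext p; simp only [U, mem_iUnion, mem_ofPred_eq, exists_prop]
  rw [this]
  refine isClosed_biUnion_finset fun q _ => IsClosed.and ?_ ?_ <;>
    exact isClosed_le (by fun_prop) (by fun_prop)

noncomputable def rho (u : ℝ) : ℝ := u / (2 + u)
noncomputable def psi (u : ℝ) : ℝ := (1 - u) / (1 + u)

noncomputable def h : ℕ → ℝ → ℝ → ℝ
  | 0, _, y => (Icc (0 : ℝ) 1).indicator 1 y
  | n + 1, t, y => ∑ x : Fin 3, (rho (h n t (3 * y - x)) + rho (h n t (3 * y - x - 2 * t)))

lemma rho_nonneg {u : ℝ} (hu : 0 ≤ u) : 0 ≤ rho u := by unfold rho; positivity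
lemma rho_le {u : ℝ} (hu : 0 ≤ u) : rho u ≤ u := div_le_self hu (by linarith)
lemma rho_lt {u : ℝ} (hu : 0 ≤ u) : rho u ≤ 1 := by
  unfold rho; rw [div_le_one (by linarith)]; linarith

lemma h_nonneg (n : ℕ) (t y : ℝ) : 0 ≤ h n t y := by
  induction n generalizing y with
  | zero => exact indicator_nonneg (fun _ _ => zero_le_one) _
  | succ n ih => exact Finset.sum_nonneg fun x _ => add_nonneg (rho_nonneg (ih _)) (rho_nonneg (ih _))

lemma h_supp (n : ℕ) {t : ℝ} (ht : 0 ≤ t) (y : ℝ) (hy : y ∉ Icc 0 (1 + t)) : h n t y = 0 := by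
  induction n generalizing y with
  | zero => exact indicator_of_notMem (fun hh => hy ⟨hh.1, by linarith [hh.2]⟩) _
  | succ n ih =>
    refine Finset.sum_eq_zero fun x _ => ?_
    have h0 : (0 : ℝ) ≤ (x : ℕ) := Nat.cast_nonneg _
    have h2 : ((x : ℕ) : ℝ) ≤ 2 := by exact_mod_cast Nat.lt_succ_iff.1 x.2
    rw [ih, ih]
    · simp [rho]
    · exact fun hh => hy ⟨by linarith [hh.1], by linarith [hh.2]⟩
    · exact fun hh => hy ⟨by linarith [hh.1], by linarith [hh.2]⟩

lemma h_meas (n : ℕ) (t : ℝ) : Measurable (h n t) := by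
  induction n with
  | zero => exact measurable_one.indicator measurableSet_Icc
  | succ n ih =>
    change Measurable fun y => ∑ x : Fin 3, (rho (h n t (3 * y - x)) + rho (h n t (3 * y - x - 2 * t)))
    unfold rho
    fun_prop

lemma int_aff {g : ℝ → ℝ} (hg : Integrable g) (c : ℝ) :
    Integrable (fun y => g (3 * y - c)) ∧ ∫ y, g (3 * y - c) = (∫ y, g y) / 3 := by
  refine ⟨(hg.comp_sub_right c).comp_mul_left' (R := 3) (by norm_num), ?_⟩
  rw [Measure.integral_comp_mul_left (fun y => g (y - c)) 3, integral_sub_right_eq_self]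
  rw [abs_of_pos (by norm_num), smul_eq_mul]; ring

lemma h_int (n : ℕ) {t : ℝ} (ht : 0 ≤ t) :
    Integrable (h n t) ∧ ∫ y, h n t y ≤ 2 * (1 + t) / (n + 1) := by
  induction n with
  | zero =>
    refine ⟨(integrable_indicator_iff measurableSet_Icc).2 (integrableOn_const (by simp)), ?_⟩
    change ∫ y, (Icc (0 : ℝ) 1).indicator 1 y ≤ _
    rw [integral_indicator_one measurableSet_Icc]
    simp; linarith
  | succ n ih =>
    have hr : Integrable fun y => rho (h n t y) := by
      refine ih.1.mono' ?_ (Eventually.of_forall fun y => ?_)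
      · have := h_meas n t
        unfold rho
        exact Measurable.aestronglyMeasurable (by fun_prop)
      · rw [Real.norm_of_nonneg (rho_nonneg (h_nonneg _ _ _))]; exact rho_le (h_nonneg _ _ _)
    set N : ℝ := n + 1 with hN
    have hN0 : 0 < N := by positivity
    have hi : Integrable ((Icc (0 : ℝ) (1 + t)).indicator (1 : ℝ → ℝ)) :=
      (integrable_indicator_iff measurableSet_Icc).2 (integrableOn_const (by simp))
    have hb : ∫ y, rho (h n t y) ≤ (1 + t) / (N + 1) := by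
      have h1 : ∫ y, rho (h n t y) ≤ ∫ y, (N ^ 2 / (2 * (N + 1) ^ 2) * h n t y +
          1 / (N + 1) ^ 2 * (Icc (0 : ℝ) (1 + t)).indicator 1 y) := by
        refine integral_mono hr ((ih.1.const_mul _).add (hi.const_mul _)) fun y => ?_
        by_cases hy : y ∈ Icc 0 (1 + t)
        · simp only [indicator_of_mem hy, Pi.one_apply, mul_one, rho]
          have hu := h_nonneg n t y
          generalize h n t y = u at hu
          rw [← sub_nonneg]
          have e : N ^ 2 / (2 * (N + 1) ^ 2) * u + 1 / (N + 1) ^ 2 - u / (2 + u)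
              = (N * u - 2) ^ 2 / (2 * (N + 1) ^ 2 * (2 + u)) := by field_simp; ring
          rw [e]; positivity
        · simp [h_supp n ht y hy, indicator_of_notMem hy, rho]
      rw [integral_add (ih.1.const_mul _) (hi.const_mul _), integral_const_mul, integral_const_mul,
        integral_indicator_one measurableSet_Icc] at h1
      have e1 : (volume : Measure ℝ).real (Icc 0 (1 + t)) = 1 + t := by
        simp; linarith
      rw [e1] at h1
      have h2 := mul_le_mul_of_nonneg_left ih.2 (show 0 ≤ N ^ 2 / (2 * (N + 1) ^ 2) by positivity)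
      have e2 : N ^ 2 / (2 * (N + 1) ^ 2) * (2 * (1 + t) / N) + 1 / (N + 1) ^ 2 * (1 + t)
          = (1 + t) / (N + 1) := by field_simp
      linarith
    have a1 := fun x : Fin 3 => int_aff hr ((x : ℕ) : ℝ)
    have a2 := fun x : Fin 3 => int_aff hr (((x : ℕ) : ℝ) + 2 * t)
    simp only [← sub_sub] at a2
    have a3 : ∀ x : Fin 3, Integrable
        fun y => rho (h n t (3 * y - x)) + rho (h n t (3 * y - x - 2 * t)) :=
      fun x => (a1 x).1.add (a2 x).1
    refine ⟨integrable_finsetSum _ fun x _ => a3 x, ?_⟩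
    change ∫ y, ∑ x : Fin 3, (rho (h n t (3 * y - x)) + rho (h n t (3 * y - x - 2 * t))) ≤ _
    rw [integral_finsetSum _ fun x _ => a3 x]
    have : ∀ x : Fin 3, ∫ y, (rho (h n t (3 * y - x)) + rho (h n t (3 * y - x - 2 * t)))
        = 2 * (∫ y, rho (h n t y)) / 3 := fun x => by
      rw [integral_add (a1 x).1 (a2 x).1, (a1 x).2, (a2 x).2]; ring
    simp only [this, Finset.sum_const, Finset.card_univ, Fintype.card_fin, nsmul_eq_mul]
    push_cast
    rw [← hN, mul_div_assoc 2 (1 + t)]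
    linarith

lemma psi_mul {u v : ℝ} (hu : 0 ≤ u) (hv : 0 ≤ v) : psi (u + v) ≤ psi u * psi v := by
  rw [← sub_nonneg]
  have e : psi u * psi v - psi (u + v)
      = 2 * (u * v) * (u + v) / ((1 + u) * (1 + v) * (1 + (u + v))) := by
    unfold psi; field_simp; ring
  rw [e]; positivity

lemma psi_step {u v : ℝ} (hu : 0 ≤ u) (hv : 0 ≤ v) (h0 : u = 0 ∨ v = 0) :
    0 ≤ psi (rho u + rho v) ∧ psi (rho u + rho v) = (psi u + psi v) / 2 := by
  have key : ∀ w : ℝ, 0 ≤ w → 0 ≤ psi (rho w) ∧ psi (rho w) = (psi w + 1) / 2 := by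
    intro w hw
    have e : psi (rho w) = 1 / (1 + w) := by unfold psi rho; field_simp; ring
    rw [e]
    refine ⟨by positivity, ?_⟩
    unfold psi; field_simp; ring
  rcases h0 with rfl | rfl
  · have := key v hv
    simp only [rho, psi, zero_div, zero_add, sub_zero, add_zero, div_one] at this ⊢
    rw [add_comm 1 ((1 - v) / (1 + v))]; exact this
  · have := key u hu
    simp only [rho, psi, zero_div, sub_zero, add_zero, div_one] at this ⊢
    exact this

noncomputable def T (x : Fin 3) (b : Bool) (q : ℝ × ℝ × ℝ) : ℝ × ℝ × ℝ :=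
  ((cc b + q.1) / 3, (x + q.2.1) / 3, (x + q.2.2) / 3)

open Classical in
noncomputable def nx {ι : Type} (F : ι → Finset (ℝ × ℝ × ℝ)) (ω : Fin 3 → Bool × ι) :
    Finset (ℝ × ℝ × ℝ) :=
  Finset.univ.biUnion fun x => (F (ω x).2).image (T x (ω x).1)

lemma mem_nx {ι : Type} (F : ι → Finset (ℝ × ℝ × ℝ)) (ω : Fin 3 → Bool × ι) (t y : ℝ) :
    (t, y) ∈ U (nx F ω) ↔ ∃ x : Fin 3, (t, 3 * y - x - cc (ω x).1 * t) ∈ U (F (ω x).2) := by
  simp only [U, nx, mem_ofPred_eq, Finset.mem_biUnion, Finset.mem_univ, true_and, Finset.mem_image]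
  constructor
  · rintro ⟨_, ⟨x, q, hq, rfl⟩, h1, h2⟩
    simp only [T] at h1 h2
    exact ⟨x, q, hq, by linarith, by linarith⟩
  · rintro ⟨x, q, hq, h1, h2⟩
    exact ⟨_, ⟨x, q, hq, rfl⟩, by simp only [T]; linarith, by simp only [T]; linarith⟩

def OK (F : Finset (ℝ × ℝ × ℝ)) : Prop :=
  ∀ q ∈ F, Good q.1 ∧ 0 ≤ q.2.1 ∧ q.2.1 ≤ q.2.2 ∧ q.2.2 ≤ 1

def gap (F : Finset (ℝ × ℝ × ℝ)) (t : ℝ) : Set ℝ := {y | y ∈ Icc (0 : ℝ) 1 ∧ (t, y) ∉ U F}

lemma vol_aff (A : Set ℝ) (c : ℝ) : 3 * volume {y : ℝ | 3 * y - c ∈ A} = volume A := by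
  have e : {y : ℝ | 3 * y - c ∈ A} = (fun y => 3 * y) ⁻¹' ((fun y => y + -c) ⁻¹' A) := rfl
  rw [e, Real.volume_preimage_mul_left (by norm_num), measure_preimage_add_right, ← mul_assoc,
    abs_of_pos (by norm_num), ENNReal.ofReal_inv_of_pos (by norm_num)]
  simp [ENNReal.mul_inv_cancel]

lemma gap_nx {ι : Type} (F : ι → Finset (ℝ × ℝ × ℝ)) (ω : Fin 3 → Bool × ι) {t : ℝ} (ht : 0 ≤ t)
    {c : ℝ} (hc : 0 ≤ c) (H : ∀ i, volume (gap (F i) t) ≤ ENNReal.ofReal c) :
    volume (gap (nx F ω) t) ≤ ENNReal.ofReal (c + 2 * t) := by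
  have sub : gap (nx F ω) t ⊆ ⋃ x : Fin 3,
      {y : ℝ | 3 * y - (x + cc (ω x).1 * t) ∈ gap (F (ω x).2) t ∪ Icc (-(2 * t)) 0} := by
    rintro y ⟨⟨h0, h1⟩, hy⟩
    rw [mem_nx] at hy
    push Not at hy
    have : ∃ x : Fin 3, ((x : ℕ) : ℝ) ≤ 3 * y ∧ 3 * y ≤ (x : ℕ) + 1 := by
      by_cases a : 3 * y ≤ 1
      · exact ⟨0, by simp; linarith, by simp; linarith⟩
      · by_cases b : 3 * y ≤ 2
        · exact ⟨1, by simp; linarith, by simp; linarith⟩
        · exact ⟨2, by simp; linarith, by simp; linarith⟩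
    obtain ⟨x, a, b⟩ := this
    refine mem_iUnion.2 ⟨x, ?_⟩
    have c1 := mul_nonneg (cc_nonneg (ω x).1) ht
    have c2 := mul_le_mul_of_nonneg_right (cc_le (ω x).1) ht
    by_cases hp : 0 ≤ 3 * y - (x + cc (ω x).1 * t)
    · left; exact ⟨⟨hp, by linarith⟩, by rw [← sub_sub]; exact hy x⟩
    · right; exact ⟨by linarith, by linarith⟩
  have b : ∀ x : Fin 3, 3 * volume
      {y : ℝ | 3 * y - (x + cc (ω x).1 * t) ∈ gap (F (ω x).2) t ∪ Icc (-(2 * t)) 0}
      ≤ ENNReal.ofReal (c + 2 * t) := fun x => by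
    rw [vol_aff, ENNReal.ofReal_add hc (by positivity)]
    refine (measure_union_le _ _).trans (add_le_add (H _) (by simp))
  rw [← ENNReal.mul_le_mul_iff_right (a := 3) (by norm_num) (by norm_num)]
  refine (mul_le_mul_right ((measure_mono sub).trans (measure_iUnion_fintype_le _ _)) 3).trans ?_
  rw [Finset.mul_sum]
  refine (Finset.sum_le_sum fun x _ => b x).trans ?_
  simp

open Classical in
lemma exists_family (n : ℕ) : ∃ (ι : Type) (_ : Fintype ι) (_ : Nonempty ι)
    (F : ι → Finset (ℝ × ℝ × ℝ)), (∀ i, OK (F i)) ∧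
      (∀ t, 0 ≤ t → ∀ i, volume (gap (F i) t) ≤ ENNReal.ofReal (2 * n * t)) ∧
      ∀ t, 1 < t → ∀ y, Fintype.card ι * psi (h n t y)
        ≤ ∑ i, if (t, y) ∈ U (F i) then (0 : ℝ) else 1 := by
  induction n with
  | zero =>
    refine ⟨Unit, inferInstance, inferInstance, fun _ => {(0, 0, 1)}, ?_, ?_, ?_⟩
    · intro i q hq
      rw [Finset.mem_singleton.1 hq]
      exact ⟨good_zero, by simp⟩
    · intro t _ i
      have : gap {(0, 0, 1)} t = ∅ := by
        ext y; simp [gap, U]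
      simp [this]
    · intro t _ y
      by_cases hy : y ∈ Icc (0 : ℝ) 1
      · simp [h, psi, U, hy.1, hy.2]
      · have : ¬ (0 ≤ y ∧ y ≤ 1) := hy
        simp [h, psi, U, this]
  | succ n ih =>
    obtain ⟨ι, _, _, F, h1, h2, h3⟩ := ih
    refine ⟨Fin 3 → Bool × ι, inferInstance, inferInstance, nx F, ?_, ?_, ?_⟩
    · intro ω q hq
      simp only [nx, Finset.mem_biUnion, Finset.mem_univ, true_and, Finset.mem_image] at hq
      obtain ⟨x, q, hq, rfl⟩ := hq
      obtain ⟨a, b, c, d⟩ := h1 _ q hq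
      have h0 : (0 : ℝ) ≤ (x : ℕ) := Nat.cast_nonneg _
      have h2 : ((x : ℕ) : ℝ) ≤ 2 := by exact_mod_cast Nat.lt_succ_iff.1 x.2
      exact ⟨a.half _, by simp only [T]; linarith, by simp only [T]; linarith,
        by simp only [T]; linarith⟩
    · intro t ht ω
      have := gap_nx F ω ht (by positivity) (h2 t ht)
      refine this.trans (le_of_eq ?_)
      congr 1; push_cast; ring
    · intro t ht y
      let f : Fin 3 → Bool × ι → ℝ := fun x j =>
        if (t, 3 * y - x - cc j.1 * t) ∈ U (F j.2) then 0 else 1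
      have e : ∀ ω : Fin 3 → Bool × ι,
          (if (t, y) ∈ U (nx F ω) then (0 : ℝ) else 1) = ∏ x, f x (ω x) := by
        intro ω
        split_ifs with hh
        · obtain ⟨x, hx⟩ := (mem_nx _ _ _ _).1 hh
          exact (Finset.prod_eq_zero (f := fun x => f x (ω x)) (Finset.mem_univ x) (if_pos hx)).symm
        · rw [mem_nx] at hh
          push Not at hh
          exact (Finset.prod_eq_one fun x _ => if_neg (hh x)).symm
      rw [Finset.sum_congr rfl fun ω _ => e ω, ← Fintype.prod_sum]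
      let v : Fin 3 → ℝ := fun x => rho (h n t (3 * y - x)) + rho (h n t (3 * y - x - 2 * t))
      have hv : ∀ x, 0 ≤ v x := fun x =>
        add_nonneg (rho_nonneg (h_nonneg _ _ _)) (rho_nonneg (h_nonneg _ _ _))
      have st : ∀ x : Fin 3, 0 ≤ psi (v x) ∧
          psi (v x) = (psi (h n t (3 * y - x)) + psi (h n t (3 * y - x - 2 * t))) / 2 := by
        intro x
        refine psi_step (h_nonneg _ _ _) (h_nonneg _ _ _) ?_
        by_cases hh : 3 * y - x ∈ Icc 0 (1 + t)
        · right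
          exact h_supp n (by linarith) _ fun k => by linarith [k.1, hh.2]
        · left; exact h_supp n (by linarith) _ hh
      have lo : ∀ x : Fin 3, 2 * Fintype.card ι * psi (v x) ≤ ∑ j, f x j := by
        intro x
        rw [Fintype.sum_prod_type, Fintype.sum_bool, (st x).2]
        have a1 := h3 t ht (3 * y - x)
        have a2 := h3 t ht (3 * y - x - 2 * t)
        simp only [f, cc, if_true, Bool.false_eq_true, if_false, zero_mul, sub_zero]
        linarith
      refine le_trans ?_ (Finset.prod_le_prod (fun x _ => mul_nonneg (by positivity) (st x).1)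
        fun x _ => lo x)
      have e2 : h (n + 1) t y = v 0 + v 1 + v 2 := by
        change ∑ x, v x = _
        rw [Fin.sum_univ_three]
      have p1 := psi_mul (add_nonneg (hv 0) (hv 1)) (hv 2)
      have p2 := mul_le_mul_of_nonneg_right (psi_mul (hv 0) (hv 1)) (st 2).1
      rw [e2, Fin.prod_univ_three]
      simp only [Fintype.card_pi, Fintype.card_prod, Fintype.card_bool, Finset.prod_const,
        Finset.card_univ, Fintype.card_fin]
      push_cast
      have : (0 : ℝ) ≤ (2 * Fintype.card ι) ^ 3 := by positivity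
      nlinarith [mul_le_mul_of_nonneg_left (p1.trans p2) this]

end Pool.Agent.H7.Kak
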