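import Mathlib
import Pool.Agent.H7.Kak1

open MeasureTheory Set Filter Topology
open scoped ENNReal

namespace Pool.Agent.H7.Kak

def reg (F : Finset (ℝ × ℝ × ℝ)) (a b : ℝ) : Set (ℝ × ℝ) := U F ∩ Icc a b ×ˢ univ

lemma isClosed_reg (F : Finset (ℝ × ℝ × ℝ)) (a b : ℝ) : IsClosed (reg F a b) :=
  (isClosed_U F).inter (isClosed_Icc.prod isClosed_univ)

lemma vol_reg (F : Finset (ℝ × ℝ × ℝ)) (a b : ℝ) :
    volume (reg F a b) = ∫⁻ t in Icc a b, volume {y | (t, y) ∈ U F} := by
  rw [Measure.volume_eq_prod, Measure.prod_apply (isClosed_reg F a b).measurableSet,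
    ← lintegral_indicator measurableSet_Icc]
  refine lintegral_congr fun t => ?_
  by_cases ht : t ∈ Icc a b
  · rw [indicator_of_mem ht]
    congr 1; ext y; simp [reg, ht.1, ht.2]
  · rw [indicator_of_notMem ht]
    have : Prod.mk t ⁻¹' reg F a b = ∅ := by
      ext y; simp only [reg, mem_preimage, mem_inter_iff, mem_prod, ht]; simp
    rw [this, measure_empty]

lemma vol_strip (s α β a b : ℝ) :
    volume (reg {(s, α, β)} a b) = ENNReal.ofReal (β - α) * ENNReal.ofReal (b - a) := by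
  rw [vol_reg]
  have : ∀ t, volume {y | (t, y) ∈ U {(s, α, β)}} = ENNReal.ofReal (β - α) := fun t => by
    have e : {y | (t, y) ∈ U {(s, α, β)}} = Icc (α + s * t) (β + s * t) := by
      ext y; simp [U, le_sub_iff_add_le]
    rw [e, Real.volume_Icc]; congr 1; ring
  simp [this]

lemma reg_ne_top (F : Finset (ℝ × ℝ × ℝ)) (a b : ℝ) : volume (reg F a b) ≠ ∞ := by
  have : reg F a b ⊆ ⋃ q ∈ F, reg {(q.1, q.2.1, q.2.2)} a b := by
    rintro p ⟨⟨q, hq, h⟩, hp⟩
    exact mem_biUnion hq ⟨⟨q, by simp, h⟩, hp⟩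
  refine ne_top_of_le_ne_top ?_ ((measure_mono this).trans (measure_biUnion_finset_le _ _))
  refine ENNReal.sum_ne_top.2 fun q _ => ?_
  rw [vol_strip]
  exact ENNReal.mul_ne_top ENNReal.ofReal_ne_top ENNReal.ofReal_ne_top

lemma meas_sec (F : Finset (ℝ × ℝ × ℝ)) (t : ℝ) : MeasurableSet {y | (t, y) ∈ U F} :=
  measurable_prodMk_left (isClosed_U F).measurableSet

lemma exists_cfg (n : ℕ) : ∃ F, OK F ∧
    (∀ r : ℝ, 0 ≤ r → 4 * n * r ≤ 1 → ENNReal.ofReal (r / 2) ≤ volume (reg F 0 r)) ∧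
    volume (reg F 2 14) ≤ ENNReal.ofReal (720 / (n + 1)) := by
  classical
  obtain ⟨ι, _, _, F, h1, h2, h3⟩ := exists_family n
  have pt : ∀ t ∈ Icc (2 : ℝ) 14, ∑ i, volume {y | (t, y) ∈ U (F i)}
      ≤ ENNReal.ofReal (Fintype.card ι * (60 / (n + 1))) := by
    intro t ht
    have hi := h_int n (t := t) (by linarith [ht.1])
    have e : ∀ i, volume {y | (t, y) ∈ U (F i)}
        = ∫⁻ y, {y | (t, y) ∈ U (F i)}.indicator 1 y := fun i =>
      (lintegral_indicator_one (meas_sec _ _)).symm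
    simp only [e]
    rw [← lintegral_finsetSum _ fun i _ => measurable_one.indicator (meas_sec _ _)]
    calc _ ≤ ∫⁻ y, ENNReal.ofReal (Fintype.card ι * 2 * h n t y) := by
          refine lintegral_mono fun y => ?_
          have a := h3 t (by linarith [ht.1]) y
          have hu := h_nonneg n t y
          have b : 1 - psi (h n t y) ≤ 2 * h n t y := by
            unfold psi
            rw [one_sub_div (by linarith), div_le_iff₀ (by linarith)]; nlinarith
          have c : ∑ i, (if (t, y) ∈ U (F i) then (1 : ℝ) else 0) +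
              ∑ i, (if (t, y) ∈ U (F i) then (0 : ℝ) else 1) = Fintype.card ι := by
            rw [← Finset.sum_add_distrib, Finset.sum_congr rfl (g := fun _ => (1 : ℝ))]
            · simp
            · intro i _; split_ifs <;> simp
          have d : ∑ i, (if (t, y) ∈ U (F i) then (1 : ℝ) else 0)
              ≤ Fintype.card ι * 2 * h n t y := by
            have : (0 : ℝ) ≤ Fintype.card ι := Nat.cast_nonneg _
            nlinarith [mul_le_mul_of_nonneg_left b this]
          refine le_trans (le_of_eq ?_) (ENNReal.ofReal_le_ofReal d)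
          rw [ENNReal.ofReal_sum_of_nonneg fun i _ => by split_ifs <;> simp]
          refine Finset.sum_congr rfl fun i _ => ?_
          by_cases hh : (t, y) ∈ U (F i) <;> simp [hh]
      _ = ENNReal.ofReal (∫ y, Fintype.card ι * 2 * h n t y) :=
          (ofReal_integral_eq_lintegral_ofReal (hi.1.const_mul _)
            (Eventually.of_forall fun y => mul_nonneg (by positivity) (h_nonneg _ _ _))).symm
      _ ≤ _ := by
          refine ENNReal.ofReal_le_ofReal ?_
          rw [integral_const_mul, mul_assoc]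
          refine mul_le_mul_of_nonneg_left ?_ (Nat.cast_nonneg _)
          have : 2 * (1 + t) / ((n : ℝ) + 1) ≤ 30 / (n + 1) :=
            div_le_div_of_nonneg_right (by linarith [ht.2]) (by positivity)
          have e : (60 : ℝ) / (n + 1) = 2 * (30 / (n + 1)) := by ring
          linarith [hi.2]
  have tot : ∑ i, volume (reg (F i) 2 14) ≤ ∑ _i : ι, ENNReal.ofReal (720 / (n + 1)) := by
    simp only [vol_reg]
    have mm : ∀ i, Measurable fun t => volume {y | (t, y) ∈ U (F i)} := fun i =>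
      measurable_measure_prodMk_left (isClosed_U (F i)).measurableSet
    rw [← lintegral_finsetSum _ fun i _ => mm i]
    refine (setLIntegral_mono measurable_const pt).trans (le_of_eq ?_)
    rw [setLIntegral_const, Real.volume_Icc, ← ENNReal.ofReal_mul (by positivity)]
    simp only [Finset.sum_const, Finset.card_univ, nsmul_eq_mul]
    rw [← ENNReal.ofReal_natCast, ← ENNReal.ofReal_mul (by positivity)]
    congr 1; ring
  obtain ⟨i, -, hi⟩ := ENNReal.exists_le_of_sum_le Finset.univ_nonempty tot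
  refine ⟨F i, h1 i, fun r hr hn => ?_, hi⟩
  rw [vol_reg]
  have lo : ∀ t ∈ Icc 0 r, ENNReal.ofReal (1 / 2) ≤ volume {y | (t, y) ∈ U (F i)} := by
    intro t ht
    have a : volume (Icc (0 : ℝ) 1) ≤ volume {y | (t, y) ∈ U (F i)} + volume (gap (F i) t) := by
      refine (measure_mono fun y hy => ?_).trans (measure_union_le _ _)
      by_cases hh : (t, y) ∈ U (F i)
      · exact Or.inl hh
      · exact Or.inr ⟨hy, hh⟩
    have b : volume (gap (F i) t) ≤ ENNReal.ofReal (1 / 2) :=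
      (h2 t ht.1 i).trans (ENNReal.ofReal_le_ofReal (by
        nlinarith [mul_le_mul_of_nonneg_left ht.2 (Nat.cast_nonneg (α := ℝ) n)]))
    have c := a.trans (add_le_add le_rfl b)
    rw [Real.volume_Icc, show (1 : ℝ) - 0 = 1 / 2 + 1 / 2 by norm_num,
      ENNReal.ofReal_add (by norm_num) (by norm_num)] at c
    exact (ENNReal.add_le_add_iff_right ENNReal.ofReal_ne_top).1 c
  refine le_trans (le_of_eq ?_) (setLIntegral_mono' measurableSet_Icc lo)
  rw [setLIntegral_const, Real.volume_Icc, ← ENNReal.ofReal_mul (by norm_num)]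
  congr 1; ring

lemma ratio {M : ℝ} (hM : 0 < M) : ∃ F r, OK F ∧ 0 < r ∧
    ENNReal.ofReal M * volume (reg F (2 * r) (14 * r)) < volume (reg F 0 r) := by
  by_contra hn
  push Not at hn
  have hθ : M / (M + 1) < 1 := by rw [div_lt_one (by linarith)]; linarith
  obtain ⟨k, hk⟩ := exists_pow_lt_of_lt_one (show 0 < 1 / (5760 * M) by positivity) hθ
  obtain ⟨F, hF, lo, up⟩ := exists_cfg (14 ^ k)
  let g : ℝ → ℝ → ℝ := fun a b => (volume (reg F a b)).toReal
  have h1 : ∀ r, 0 < r → g 0 r ≤ M * g (2 * r) (14 * r) := fun r hr => by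
    have := ENNReal.toReal_mono (ENNReal.mul_ne_top ENNReal.ofReal_ne_top (reg_ne_top _ _ _))
      (hn F r hF hr)
    rwa [ENNReal.toReal_mul, ENNReal.toReal_ofReal hM.le] at this
  have h2 : ∀ r, 0 < r → g 0 r + g (2 * r) (14 * r) ≤ g 0 (14 * r) := fun r hr => by
    simp only [g]
    rw [← ENNReal.toReal_add (reg_ne_top _ _ _) (reg_ne_top _ _ _),
      ← measure_union _ (isClosed_reg _ _ _).measurableSet]
    · refine ENNReal.toReal_mono (reg_ne_top _ _ _) (measure_mono ?_)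
      rintro p (⟨a, b, -⟩ | ⟨a, b, -⟩)
      · exact ⟨a, ⟨b.1, by linarith [b.2]⟩, trivial⟩
      · exact ⟨a, ⟨by linarith [b.1], b.2⟩, trivial⟩
    · rw [Set.disjoint_left]
      rintro p ⟨-, b, -⟩ ⟨-, c, -⟩
      linarith [b.2, c.1]
  have h3 : ∀ j : ℕ, g 0 (1 / 14 ^ j) ≤ (M / (M + 1)) ^ j * g 0 1 := by
    intro j
    induction j with
    | zero => simp
    | succ j ih =>
      have hr : (0 : ℝ) < 1 / 14 ^ (j + 1) := by positivity
      have a := h1 _ hr
      have b := h2 _ hr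
      have e : (14 : ℝ) * (1 / 14 ^ (j + 1)) = 1 / 14 ^ j := by rw [pow_succ]; field_simp
      rw [e] at a b
      have c : g 0 (1 / 14 ^ (j + 1)) ≤ M / (M + 1) * g 0 (1 / 14 ^ j) := by
        rw [div_mul_eq_mul_div, le_div_iff₀ (by linarith)]
        nlinarith [mul_le_mul_of_nonneg_left b hM.le]
      rw [pow_succ' (M / (M + 1)), mul_assoc]
      exact c.trans (mul_le_mul_of_nonneg_left ih (by positivity))
  have hN : (0 : ℝ) < 14 ^ k := by positivity
  have a1 : g 2 14 ≤ 720 / 14 ^ k := by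
    have := ENNReal.toReal_mono ENNReal.ofReal_ne_top up
    rw [ENNReal.toReal_ofReal (by positivity)] at this
    push_cast at this
    exact this.trans (div_le_div_of_nonneg_left (by norm_num) hN (by linarith))
  have a2 := h1 1 one_pos
  rw [mul_one, mul_one] at a2
  have a3 : 1 / (4 * 14 ^ k) / 2 ≤ g 0 (1 / 14 ^ k) := by
    have b := lo (1 / (4 * 14 ^ k)) (by positivity) (by push_cast; field_simp; rfl)
    have c : volume (reg F 0 (1 / (4 * 14 ^ k))) ≤ volume (reg F 0 (1 / 14 ^ k)) := by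
      refine measure_mono ?_
      rintro p ⟨a, b, -⟩
      exact ⟨a, ⟨b.1, b.2.trans (one_div_le_one_div_of_le hN (by linarith))⟩, trivial⟩
    have := ENNReal.toReal_mono (reg_ne_top _ _ _) (b.trans c)
    rwa [ENNReal.toReal_ofReal (by positivity)] at this
  have a4 := a3.trans ((h3 k).trans (mul_le_mul_of_nonneg_left
    (a2.trans (mul_le_mul_of_nonneg_left a1 hM.le)) (by positivity)))
  have a5 := mul_lt_mul_of_pos_right hk (show 0 < M * (720 / 14 ^ k) by positivity)
  have e : 1 / (5760 * M) * (M * (720 / 14 ^ k)) = 1 / (4 * 14 ^ k) / 2 := by field_simp; ring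
  linarith

lemma scaled {s M δ : ℝ} (hs : Good s) (hM : 0 < M) (hδ : 0 < δ) : ∃ F : Finset (ℝ × ℝ × ℝ),
    (∀ q ∈ F, Good q.1 ∧ s ≤ q.1 ∧ q.1 ≤ s + δ ∧ 0 ≤ q.2.1 ∧ q.2.1 ≤ q.2.2 ∧ q.2.2 ≤ δ) ∧
    ENNReal.ofReal M * volume (reg F (1 / 5) (7 / 5)) < volume (reg F 0 (1 / 10)) := by
  classical
  obtain ⟨F, r, hF, hr, hlt⟩ := ratio hM
  have t0 : Tendsto (fun m : ℕ => ((3 : ℝ) ^ m)⁻¹) atTop (𝓝 0) :=
    tendsto_inv_atTop_zero.comp (tendsto_pow_atTop_atTop_of_one_lt (by norm_num))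
  obtain ⟨m, h1, h2, h3⟩ := (hs.add.and ((t0.eventually (ge_mem_nhds hδ)).and
    (t0.eventually (ge_mem_nhds (mul_pos hδ (show 0 < 10 * r by positivity)))))).exists
  set η : ℝ := ((3 : ℝ) ^ m)⁻¹ with hη
  have hη0 : 0 < η := by positivity
  set κ : ℝ := η / (10 * r) with hκ
  have hκ0 : 0 < κ := by positivity
  have hκδ : κ ≤ δ := by rw [hκ, div_le_iff₀ (by positivity)]; exact h3
  let G := F.image fun q => (s + q.1 * η, κ * q.2.1, κ * q.2.2)
  let Φ : ℝ × ℝ →ₗ[ℝ] ℝ × ℝ := LinearMap.prod ((10 * r) • LinearMap.fst ℝ ℝ ℝ)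
    (κ⁻¹ • (LinearMap.snd ℝ ℝ ℝ - s • LinearMap.fst ℝ ℝ ℝ))
  have hΦ : ∀ p, Φ p = (10 * r * p.1, κ⁻¹ * (p.2 - s * p.1)) := fun p => rfl
  have hdet : LinearMap.det Φ ≠ 0 := by
    rw [Ne, LinearMap.det_eq_zero_iff_ker_ne_bot, not_not, LinearMap.ker_eq_bot']
    intro p hp
    rw [hΦ, Prod.mk_eq_zero] at hp
    have a : p.1 = 0 := by simpa [hr.ne'] using hp.1
    have b : p.2 = 0 := by simpa [a, hκ0.ne'] using hp.2
    exact Prod.ext a b
  have key : ∀ a b, reg G a b = Φ ⁻¹' reg F (10 * r * a) (10 * r * b) := by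
    intro a b
    ext p
    have e : ∀ q : ℝ × ℝ × ℝ, κ * (κ⁻¹ * (p.2 - s * p.1) - q.1 * (10 * r * p.1))
        = p.2 - (s + q.1 * η) * p.1 := fun q => by
      rw [hκ]; field_simp; ring
    simp only [reg, U, G, mem_inter_iff, mem_ofPred_eq, Finset.mem_image, mem_preimage, hΦ,
      mem_prod, mem_univ, and_true, mem_Icc]
    rw [mul_le_mul_iff_right₀ (by positivity), mul_le_mul_iff_right₀ (by positivity)]
    refine and_congr_left fun _ => ⟨?_, ?_⟩
    · rintro ⟨_, ⟨q, hq, rfl⟩, a1, a2⟩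
      simp only [← e q, mul_le_mul_iff_right₀ hκ0] at a1 a2
      exact ⟨q, hq, a1, a2⟩
    · rintro ⟨q, hq, a1, a2⟩
      refine ⟨_, ⟨q, hq, rfl⟩, ?_, ?_⟩ <;> simp only [← e q, mul_le_mul_iff_right₀ hκ0] <;>
        assumption
  refine ⟨G, ?_, ?_⟩
  · intro q' hq'
    obtain ⟨q, hq, rfl⟩ := Finset.mem_image.1 hq'
    obtain ⟨a, b, c, d⟩ := hF q hq
    have := cantorSet_subset_unitInterval a.mem
    refine ⟨by simpa [hη, div_eq_mul_inv] using h1 _ a, ?_, ?_, ?_, ?_, ?_⟩ <;> simp only <;>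
      nlinarith [this.1, this.2]
  · rw [key, key, Measure.addHaar_preimage_linearMap _ hdet, Measure.addHaar_preimage_linearMap _ hdet,
      mul_left_comm]
    rw [show 10 * r * (1 / 5) = 2 * r by ring, show 10 * r * (7 / 5) = 14 * r by ring, mul_zero,
      show 10 * r * (1 / 10) = r by ring]
    refine ENNReal.mul_lt_mul_right ?_ ENNReal.ofReal_ne_top hlt
    simpa using hdet

lemma avg {W Z V : Set (ℝ × ℝ)} (hW : MeasurableSet W) (hZ : MeasurableSet Z)
    (hV : MeasurableSet V) (hV1 : volume V ≠ ∞) (hW1 : volume W ≠ ∞) (hZ1 : volume Z ≠ ∞)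
    (h0 : volume Z * volume W ≠ 0) (H : ∀ p ∈ W, ∀ z ∈ Z, p - z ∈ V) :
    ∃ v ∈ V, volume Z * volume W ≤ volume V * volume (W ∩ {p | p - v ∈ Z}) := by
  let S : Set ((ℝ × ℝ) × (ℝ × ℝ)) := {x | x.1 ∈ V ∧ x.2 ∈ W ∧ x.2 - x.1 ∈ Z}
  have hS : MeasurableSet S :=
    (measurable_fst hV).inter ((measurable_snd hW).inter ((measurable_snd.sub measurable_fst) hZ))
  have e1 : (volume.prod volume) S = ∫⁻ v in V, volume (W ∩ {p | p - v ∈ Z}) := by
    rw [Measure.prod_apply hS, ← lintegral_indicator hV]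
    refine lintegral_congr fun v => ?_
    by_cases hv : v ∈ V
    · rw [indicator_of_mem hv]; congr 1; ext p; simp [S, hv]
    · rw [indicator_of_notMem hv]
      have : Prod.mk v ⁻¹' S = ∅ := by ext p; simp [S, hv]
      rw [this, measure_empty]
  have e2 : (volume.prod volume) S = volume Z * volume W := by
    rw [Measure.prod_apply_symm hS, ← setLIntegral_const, ← lintegral_indicator hW]
    refine lintegral_congr fun p => ?_
    by_cases hp : p ∈ W
    · rw [indicator_of_mem hp,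
        ← (Measure.measurePreserving_sub_left volume p).measure_preimage hZ.nullMeasurableSet]
      congr 1; ext v
      simp only [S, mem_preimage, mem_ofPred_eq, hp, true_and]
      exact ⟨fun h => h.2, fun h => ⟨by simpa using H p hp _ h, h⟩⟩
    · rw [indicator_of_notMem hp]
      have : (fun v => (v, p)) ⁻¹' S = ∅ := by ext v; simp [S, hp]
      rw [this, measure_empty]
  rw [e1] at e2
  have hV0 : volume V ≠ 0 := fun h => h0 (by
    rw [← e2, setLIntegral_measure_zero _ _ h])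
  obtain ⟨v, hv, hle⟩ := exists_setLAverage_le (f := fun v => volume (W ∩ {p | p - v ∈ Z})) hV0
    hV.nullMeasurableSet (by rw [e2]; exact ENNReal.mul_ne_top hZ1 hW1)
  refine ⟨v, hv, ?_⟩
  rw [← e2, ← measure_mul_setLAverage _ hV1]
  exact mul_le_mul_right hle _

lemma greedy {W Z V : Set (ℝ × ℝ)} (hW : MeasurableSet W) (hZ : MeasurableSet Z)
    (hV : MeasurableSet V) (hV1 : volume V ≠ ∞) (hW1 : volume W ≠ ∞) (hZ1 : volume Z ≠ ∞)
    (hZ0 : volume Z ≠ 0) (H : ∀ p ∈ W, ∀ z ∈ Z, p - z ∈ V) {ε : ℝ≥0∞} (hε : ε ≠ 0) :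
    ∃ (j : ℕ) (Tr : Finset (ℝ × ℝ)), (∀ v ∈ Tr, v ∈ V) ∧ Tr.card ≤ j ∧
      j * (volume Z * ε) ≤ volume V * volume W ∧
      volume (W \ {p | ∃ v ∈ Tr, p - v ∈ Z}) ≤ ε := by
  classical
  have P : ∀ k : ℕ, ∃ (j : ℕ) (Tr : Finset (ℝ × ℝ)), (∀ v ∈ Tr, v ∈ V) ∧ Tr.card ≤ j ∧
      j * (volume Z * ε) + volume V * volume (W \ {p | ∃ v ∈ Tr, p - v ∈ Z})
        ≤ volume V * volume W ∧ (volume (W \ {p | ∃ v ∈ Tr, p - v ∈ Z}) ≤ ε ∨ j = k) := by
    intro k
    induction k with
    | zero => exact ⟨0, ∅, by simp, by simp, by simp, Or.inr rfl⟩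
    | succ k ih =>
      obtain ⟨j, Tr, a, b, c, d⟩ := ih
      by_cases hh : volume (W \ {p | ∃ v ∈ Tr, p - v ∈ Z}) ≤ ε
      · exact ⟨j, Tr, a, b, c, Or.inl hh⟩
      obtain rfl : j = k := d.resolve_left hh
      push Not at hh
      set W' := W \ {p | ∃ v ∈ Tr, p - v ∈ Z} with hW'
      have m1 : ∀ v, MeasurableSet {p | p - v ∈ Z} := fun v => (measurable_sub_const v) hZ
      have m2 : MeasurableSet W' := by
        refine hW.diff ?_
        have : {p | ∃ v ∈ Tr, p - v ∈ Z} = ⋃ v ∈ Tr, {p | p - v ∈ Z} := by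
          ext p; simp only [mem_iUnion, mem_ofPred_eq, exists_prop]
        rw [this]
        exact Finset.measurableSet_biUnion _ fun v _ => m1 v
      obtain ⟨v, hv, hle⟩ := avg m2 hZ hV hV1
        (ne_top_of_le_ne_top hW1 (measure_mono sdiff_subset)) hZ1
        (mul_ne_zero hZ0 (ne_zero_of_lt hh)) fun p hp => H p hp.1
      refine ⟨j + 1, insert v Tr, ?_, (Finset.card_insert_le _ _).trans (by omega), ?_, Or.inr rfl⟩
      · intro u hu
        rcases Finset.mem_insert.1 hu with rfl | hu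
        exacts [hv, a u hu]
      · have e : W \ {p | ∃ u ∈ insert v Tr, p - u ∈ Z} = W' \ {p | p - v ∈ Z} := by
          ext p; simp only [hW', Set.mem_sdiff, mem_ofPred_eq, Finset.mem_insert, exists_eq_or_imp]
          exact ⟨fun h => ⟨⟨h.1, fun k => h.2 (Or.inr k)⟩, fun k => h.2 (Or.inl k)⟩,
            fun h => ⟨h.1.1, fun k => k.elim h.2 h.1.2⟩⟩
        rw [e]
        refine le_trans ?_ c
        rw [← measure_inter_add_sdiff W' (m1 v), mul_add]
        push_cast
        rw [add_mul, one_mul, add_assoc]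
        exact add_le_add le_rfl (add_le_add ((mul_le_mul_right hh.le _).trans hle) le_rfl)
  obtain ⟨k, hk⟩ := ENNReal.exists_nat_mul_gt (mul_ne_zero hZ0 hε) (ENNReal.mul_ne_top hV1 hW1)
  obtain ⟨j, Tr, a, b, c, d⟩ := P k
  refine ⟨j, Tr, a, b, le_self_add.trans c, d.resolve_right ?_⟩
  rintro rfl
  exact absurd (le_self_add.trans c) hk.not_ge

end Pool.Agent.H7.Kak
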