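import Mathlib
import Pool.Agent.H7.Kak2

open MeasureTheory Set Filter Topology
open scoped ENNReal

namespace Pool.Agent.H7.Kak

lemma mem_reg1 {s α β a b : ℝ} {p : ℝ × ℝ} : p ∈ reg {(s, α, β)} a b ↔
    (α ≤ p.2 - s * p.1 ∧ p.2 - s * p.1 ≤ β) ∧ a ≤ p.1 ∧ p.1 ≤ b := by
  simp only [reg, U, mem_inter_iff, mem_ofPred_eq, Finset.mem_singleton, exists_eq_left, mem_prod,
    mem_Icc, mem_univ, and_true]

lemma cover {s a b w ε : ℝ} (hs : Good s) (hw : 0 < w) (hε : 0 < ε) :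
    ∃ G : Finset (ℝ × ℝ × ℝ), (∀ c ∈ G, Good c.1 ∧ s ≤ c.1 ∧ c.1 < s + w ∧ a < c.2.1 ∧
      c.2.1 ≤ c.2.2 ∧ c.2.2 < b ∧ c.2.2 - c.2.1 ≤ ε) ∧
      volume (reg G 0 1) ≤ ENNReal.ofReal ε ∧
      volume (reg {(s, a, b)} (-3 / 10) (-2 / 10) \ U G) ≤ ENNReal.ofReal ε := by
  classical
  set δ := min (ε / 2) (w / 2) with hδ
  have hδ0 : 0 < δ := by positivity
  have hδ1 : δ ≤ ε / 2 := min_le_left _ _
  have hδ2 : δ ≤ w / 2 := min_le_right _ _
  set W := reg {(s, a + 3 * δ, b - 3 * δ)} (-3 / 10) (-2 / 10) with hW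
  set V := reg {(s, a + δ, b - 3 * δ)} (-4 / 10) (-2 / 10) with hV
  have hfin : volume V * volume W ≠ ∞ := ENNReal.mul_ne_top (reg_ne_top _ _ _) (reg_ne_top _ _ _)
  set M := (volume V * volume W).toReal / (ε / 2 * ε) + 1 with hM
  have hM0 : 0 < M := by positivity
  obtain ⟨F, hF, hlt⟩ := scaled hs hM0 hδ0
  obtain ⟨j, Tr, t1, t2, t3, t4⟩ := greedy (W := W) (Z := reg F 0 (1 / 10)) (V := V)
    (isClosed_reg _ _ _).measurableSet (isClosed_reg _ _ _).measurableSet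
    (isClosed_reg _ _ _).measurableSet (reg_ne_top _ _ _) (reg_ne_top _ _ _) (reg_ne_top _ _ _)
    (ne_zero_of_lt hlt) (by
      rintro p hp z ⟨⟨q, hq, z1, z2⟩, ⟨z3, z4⟩, -⟩
      obtain ⟨-, f1, f2, f3, f4, f5⟩ := hF q hq
      rw [mem_reg1] at hp ⊢
      simp only [Prod.fst_sub, Prod.snd_sub]
      have k1 := mul_nonneg (sub_nonneg.2 f1) z3
      have k2 : (q.1 - s) * z.1 ≤ δ * (1 / 10) :=
        mul_le_mul (by linarith) z4 z3 hδ0.le
      refine ⟨⟨by linarith [hp.1.1], by linarith [hp.1.2]⟩, by linarith [hp.2.1],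
        by linarith [hp.2.2]⟩)
    (ε := ENNReal.ofReal (ε / 2)) (by simpa using hε)
  let G := Tr.biUnion fun v => F.image fun q =>
    (q.1, q.2.1 + (v.2 - q.1 * v.1), q.2.2 + (v.2 - q.1 * v.1))
  have mG : ∀ p, p ∈ U G ↔ ∃ v ∈ Tr, p - v ∈ U F := by
    intro p
    simp only [U, G, mem_ofPred_eq, Finset.mem_biUnion, Finset.mem_image, Prod.fst_sub,
      Prod.snd_sub]
    constructor
    · rintro ⟨_, ⟨v, hv, q, hq, rfl⟩, h1, h2⟩
      exact ⟨v, hv, q, hq, by linarith, by linarith⟩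
    · rintro ⟨v, hv, q, hq, h1, h2⟩
      exact ⟨_, ⟨v, hv, q, hq, rfl⟩, by simp only; linarith, by simp only; linarith⟩
  refine ⟨G, ?_, ?_, ?_⟩
  · intro c hc
    simp only [G, Finset.mem_biUnion, Finset.mem_image] at hc
    obtain ⟨v, hv, q, hq, rfl⟩ := hc
    obtain ⟨f0, f1, f2, f3, f4, f5⟩ := hF q hq
    obtain ⟨⟨v1, v2⟩, v3, v4⟩ := mem_reg1.1 (t1 v hv)
    have k1 : 0 ≤ (q.1 - s) * (-v.1) := mul_nonneg (sub_nonneg.2 f1) (by linarith)
    have k2 : (q.1 - s) * (-v.1) ≤ δ * (4 / 10) :=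
      mul_le_mul (by linarith) (by linarith) (by linarith) hδ0.le
    refine ⟨f0, f1, ?_, ?_, ?_, ?_, ?_⟩ <;> simp only <;> linarith
  · have sub : reg G 0 1 ⊆ ⋃ v ∈ Tr, (fun p => p + -v) ⁻¹' reg F (1 / 5) (7 / 5) := by
      rintro p ⟨hp, ⟨p1, p2⟩, -⟩
      obtain ⟨v, hv, hh⟩ := (mG p).1 hp
      obtain ⟨-, v3, v4⟩ := mem_reg1.1 (t1 v hv)
      refine mem_biUnion hv ⟨by rw [sub_eq_add_neg] at hh; exact hh, ⟨?_, ?_⟩, trivial⟩ <;>
        simp only [Prod.fst_add, Prod.fst_neg] <;> linarith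
    refine ((measure_mono sub).trans (measure_biUnion_finset_le _ _)).trans ?_
    simp only [measure_preimage_add_right, Finset.sum_const, nsmul_eq_mul]
    have c0 : ENNReal.ofReal M * ENNReal.ofReal (ε / 2) ≠ 0 := by
      simp [hM0, hε]
    rw [← ENNReal.mul_le_mul_iff_left c0
      (ENNReal.mul_ne_top ENNReal.ofReal_ne_top ENNReal.ofReal_ne_top)]
    calc _ = (Tr.card : ℝ≥0∞) * (ENNReal.ofReal M * volume (reg F (1 / 5) (7 / 5)) *
          ENNReal.ofReal (ε / 2)) := by ring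
      _ ≤ j * (volume (reg F 0 (1 / 10)) * ENNReal.ofReal (ε / 2)) := by
          gcongr
      _ ≤ ENNReal.ofReal (volume V * volume W).toReal := by rwa [ENNReal.ofReal_toReal hfin]
      _ ≤ _ := by
          rw [← ENNReal.ofReal_mul hM0.le, ← ENNReal.ofReal_mul hε.le]
          refine ENNReal.ofReal_le_ofReal ?_
          have : ε * (M * (ε / 2)) = (volume V * volume W).toReal + ε / 2 * ε := by
            rw [hM]; field_simp
          rw [this]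
          have : 0 < ε / 2 * ε := by positivity
          linarith
  · have sub : reg {(s, a, b)} (-3 / 10) (-2 / 10) \ U G ⊆
        W \ {p | ∃ v ∈ Tr, p - v ∈ reg F 0 (1 / 10)} ∪
          (reg {(s, a, a + 3 * δ)} (-3 / 10) (-2 / 10) ∪
            reg {(s, b - 3 * δ, b)} (-3 / 10) (-2 / 10)) := by
      rintro p ⟨hp, hn⟩
      rw [mem_reg1] at hp
      by_cases c1 : p.2 - s * p.1 ≤ a + 3 * δ
      · exact Or.inr (Or.inl (mem_reg1.2 ⟨⟨hp.1.1, c1⟩, hp.2⟩))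
      by_cases c2 : b - 3 * δ ≤ p.2 - s * p.1
      · exact Or.inr (Or.inr (mem_reg1.2 ⟨⟨c2, hp.1.2⟩, hp.2⟩))
      refine Or.inl ⟨mem_reg1.2 ⟨⟨by linarith, by linarith⟩, hp.2⟩, ?_⟩
      rintro ⟨v, hv, hh⟩
      exact hn ((mG p).2 ⟨v, hv, hh.1⟩)
    refine ((measure_mono sub).trans (measure_union_le _ _)).trans ?_
    refine (add_le_add t4 (measure_union_le _ _)).trans ?_
    rw [vol_strip, vol_strip, ← ENNReal.ofReal_mul (by linarith), ← ENNReal.ofReal_mul (by linarith),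
      ← ENNReal.ofReal_add (by linarith) (by linarith),
      ← ENNReal.ofReal_add (by linarith) (by linarith)]
    exact ENNReal.ofReal_le_ofReal (by linarith)

lemma Good.near {s γ : ℝ} (hs : Good s) (hγ : 0 < γ) :
    {x | Good x ∧ s ≤ x ∧ x ≤ s + γ}.Infinite := by
  have g2 : Good (2 / 3) := by simpa [cc] using good_zero.half true
  have t0 : Tendsto (fun m : ℕ => (2 / 3 : ℝ) / 3 ^ m) atTop (𝓝 0) :=
    tendsto_const_nhds.div_atTop (tendsto_pow_atTop_atTop_of_one_lt (by norm_num))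
  obtain ⟨N, hN⟩ := eventually_atTop.1 (hs.add.and (t0.eventually (ge_mem_nhds hγ)))
  refine infinite_of_injective_forall_mem (f := fun n : ℕ => s + (2 / 3 : ℝ) / 3 ^ (n + N)) ?_ ?_
  · refine StrictAnti.injective (strictAnti_nat_of_succ_lt fun n => ?_)
    have : (3 : ℝ) ^ (n + N) < 3 ^ (n + 1 + N) := pow_lt_pow_right₀ (by norm_num) (by omega)
    have := div_lt_div_of_pos_left (show (0 : ℝ) < 2 / 3 by norm_num) (by positivity) this
    linarith
  · intro n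
    have := hN (n + N) (by omega)
    refine ⟨this.1 _ g2, le_add_of_nonneg_right (by positivity), by linarith [this.2]⟩

lemma perturb (G : Finset (ℝ × ℝ × ℝ)) (hG : ∀ c ∈ G, Good c.1) {γ : ℝ} (hγ : 0 < γ) :
    ∃ σ : ℝ × ℝ × ℝ → ℝ, (∀ c ∈ G, Good (σ c) ∧ c.1 ≤ σ c ∧ σ c ≤ c.1 + γ) ∧ InjOn σ G := by
  classical
  induction G using Finset.induction_on with
  | empty => exact ⟨fun _ => 0, by simp, by simp⟩
  | insert c G hc ih =>
    obtain ⟨σ, h1, h2⟩ := ih fun d hd => hG d (Finset.mem_insert_of_mem hd)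
    obtain ⟨x, hx, hn⟩ := ((hG c (Finset.mem_insert_self _ _)).near hγ).exists_notMem_finset
      (G.image σ)
    have e : ∀ d ∈ G, Function.update σ c x d = σ d := fun d hd =>
      Function.update_of_ne (fun h : d = c => hc (h ▸ hd)) _ _
    refine ⟨Function.update σ c x, ?_, ?_⟩
    · intro d hd
      rcases Finset.mem_insert.1 hd with rfl | hd
      · rw [Function.update_self]; exact hx
      · rw [e d hd]; exact h1 d hd
    · rw [Finset.coe_insert, injOn_insert (by simpa using hc)]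
      refine ⟨h2.congr fun d hd => (e d hd).symm, ?_⟩
      rintro ⟨d, hd, hh⟩
      rw [e d hd, Function.update_self] at hh
      exact hn (Finset.mem_image.2 ⟨d, hd, hh⟩)

def hull (G : Finset (ℝ × ℝ × ℝ)) (w : ℝ) : Set (ℝ × ℝ) :=
  ⋃ q ∈ G, Icc q.1 (q.1 + w) ×ˢ Icc q.2.1 q.2.2

def sweep (L : Set (ℝ × ℝ)) (a b : ℝ) : Set (ℝ × ℝ) :=
  (fun x : ℝ × ℝ × ℝ => (x.1, x.2.2 + x.2.1 * x.1)) '' (Icc a b ×ˢ L)

lemma isCompact_hull (G : Finset (ℝ × ℝ × ℝ)) (w : ℝ) : IsCompact (hull G w) :=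
  G.isCompact_biUnion fun _ _ => isCompact_Icc.prod isCompact_Icc

lemma isCompact_sweep {L : Set (ℝ × ℝ)} (hL : IsCompact L) (a b : ℝ) : IsCompact (sweep L a b) :=
  (isCompact_Icc.prod hL).image (by fun_prop)

lemma mem_hull {G : Finset (ℝ × ℝ × ℝ)} {w : ℝ} {x : ℝ × ℝ} : x ∈ hull G w ↔
    ∃ q ∈ G, (q.1 ≤ x.1 ∧ x.1 ≤ q.1 + w) ∧ q.2.1 ≤ x.2 ∧ x.2 ≤ q.2.2 := by
  simp only [hull, mem_iUnion, mem_prod, mem_Icc, exists_prop]

lemma reg_eq (G : Finset (ℝ × ℝ × ℝ)) (a b : ℝ) : reg G a b = sweep (hull G 0) a b := by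
  ext p
  constructor
  · rintro ⟨⟨q, hq, h1, h2⟩, hp, -⟩
    exact ⟨(p.1, q.1, p.2 - q.1 * p.1), ⟨hp, mem_hull.2 ⟨q, hq, by simp, h1, h2⟩⟩, by simp⟩
  · rintro ⟨⟨t, s, y⟩, ⟨ht, hx⟩, rfl⟩
    obtain ⟨q, hq, ⟨a1, a2⟩, a3, a4⟩ := mem_hull.1 hx
    obtain rfl : q.1 = s := le_antisymm a1 (by simpa using a2)
    exact ⟨⟨q, hq, by simpa using a3, by simpa using a4⟩, ht, trivial⟩

def Val (X : Finset (ℝ × ℝ × ℝ) × ℝ) : Prop := 0 < X.2 ∧ ∀ q ∈ X.1, Good q.1 ∧ q.2.1 < q.2.2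

def Rel (ε : ℝ) (X Y : Finset (ℝ × ℝ × ℝ) × ℝ) : Prop :=
  Y.2 ≤ ε ∧ hull Y.1 Y.2 ⊆ hull X.1 X.2 ∧
    (∀ x ∈ hull Y.1 Y.2, ∀ y ∈ hull Y.1 Y.2, x.1 = y.1 → x.2 - y.2 ≤ ε) ∧
    volume (sweep (hull Y.1 Y.2) 0 1) ≤ ENNReal.ofReal ε ∧
    volume (reg X.1 (-3 / 10) (-2 / 10) \ U Y.1) ≤ ENNReal.ofReal ε

lemma step {X : Finset (ℝ × ℝ × ℝ) × ℝ} (hX : Val X) {ε : ℝ} (hε : 0 < ε) :
    ∃ Y, Val Y ∧ Rel ε X Y := by
  classical
  obtain ⟨G, w⟩ := X
  obtain ⟨hw, hG⟩ := hX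
  simp only at hw hG
  set e := ε / (2 * (G.card + 1)) with he
  have he0 : 0 < e := by positivity
  have he1 : G.card * e < ε := by
    rw [he, ← mul_div_assoc, div_lt_iff₀ (by positivity)]
    nlinarith [mul_nonneg (Nat.cast_nonneg (α := ℝ) G.card) hε.le]
  have he2 : e ≤ ε / 2 := by
    rw [he]
    exact div_le_div_of_nonneg_left hε.le (by norm_num)
      (by linarith [Nat.cast_nonneg (α := ℝ) G.card])
  choose! C c1 c2 c3 using fun q (hq : q ∈ G) => cover (a := q.2.1) (b := q.2.2) (hG q hq).1 hw he0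
  let H := G.biUnion C
  have sm : ∑ _q ∈ G, ENNReal.ofReal e < ENNReal.ofReal ε := by
    rw [Finset.sum_const, nsmul_eq_mul, ← ENNReal.ofReal_natCast,
      ← ENNReal.ofReal_mul (Nat.cast_nonneg _), ENNReal.ofReal_lt_ofReal_iff hε]
    exact he1
  have n1 : volume (reg H 0 1) < ENNReal.ofReal ε := by
    have sub : reg H 0 1 ⊆ ⋃ q ∈ G, reg (C q) 0 1 := by
      rintro p ⟨⟨c, hc, h⟩, hp⟩
      obtain ⟨q, hq, hc⟩ := Finset.mem_biUnion.1 hc
      exact mem_biUnion hq ⟨⟨c, hc, h⟩, hp⟩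
    exact (((measure_mono sub).trans (measure_biUnion_finset_le _ _)).trans
      (Finset.sum_le_sum c2)).trans_lt sm
  have n2 : volume (reg G (-3 / 10) (-2 / 10) \ U H) ≤ ENNReal.ofReal ε := by
    have sub : reg G (-3 / 10) (-2 / 10) \ U H ⊆
        ⋃ q ∈ G, reg {(q.1, q.2.1, q.2.2)} (-3 / 10) (-2 / 10) \ U (C q) := by
      rintro p ⟨⟨⟨q, hq, h⟩, hp⟩, hn⟩
      refine mem_biUnion hq ⟨⟨⟨q, by simp, h⟩, hp⟩, ?_⟩
      rintro ⟨c, hc, hh⟩
      exact hn ⟨c, Finset.mem_biUnion.2 ⟨q, hq, hc⟩, hh⟩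
    exact (((measure_mono sub).trans (measure_biUnion_finset_le _ _)).trans
      (Finset.sum_le_sum c3)).trans sm.le
  have cpt : IsCompact (reg H 0 1) := by
    rw [reg_eq]; exact isCompact_sweep (isCompact_hull _ _) _ _
  have t3 : ∀ k : ℝ, Tendsto (fun γ : ℝ => k * γ) (𝓝[>] 0) (𝓝 0) := fun k => by
    have : Tendsto (fun γ : ℝ => k * γ) (𝓝 0) (𝓝 (k * 0)) := tendsto_id.const_mul k
    rw [mul_zero] at this
    exact this.mono_left nhdsWithin_le_nhds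
  have ev1 := ((tendsto_measure_cthickening_of_isCompact (μ := volume) cpt).comp
    (t3 3)).eventually (gt_mem_nhds n1)
  have ev2 : ∀ᶠ γ : ℝ in 𝓝[>] 0, ∀ q ∈ G, ∀ c ∈ C q,
      2 * γ < q.1 + w - c.1 ∧ 1 * γ < c.2.1 - q.2.1 ∧ 1 * γ < q.2.2 - c.2.2 := by
    rw [Finset.eventually_all]
    intro q hq
    rw [Finset.eventually_all]
    intro c hc
    obtain ⟨-, -, a1, a2, -, a3, -⟩ := c1 q hq c hc
    exact ((t3 2).eventually (gt_mem_nhds (sub_pos.2 a1))).and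
      (((t3 1).eventually (gt_mem_nhds (sub_pos.2 a2))).and
        ((t3 1).eventually (gt_mem_nhds (sub_pos.2 a3))))
  obtain ⟨γ, g0, g1, g2, g3⟩ := (eventually_mem_nhdsWithin.and (ev1.and (ev2.and
    ((t3 4).eventually (gt_mem_nhds hε))))).exists
  have g0' : 0 < γ := g0
  have hH : ∀ c ∈ H, ∃ q ∈ G, c ∈ C q := fun c hc => Finset.mem_biUnion.1 hc
  obtain ⟨σ, s1, s2⟩ := perturb H (fun c hc => by
    obtain ⟨q, hq, hc⟩ := hH c hc
    exact (c1 q hq c hc).1) g0'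
  have ev3 : ∀ᶠ u : ℝ in 𝓝[>] 0, ∀ c ∈ H, ∀ d ∈ H, c ≠ d → 1 * u < |σ c - σ d| := by
    rw [Finset.eventually_all]
    intro c hc
    rw [Finset.eventually_all]
    intro d hd
    by_cases h : c = d
    · simp [h]
    · have : 0 < |σ c - σ d| := abs_pos.2 (sub_ne_zero.2 fun k => h (s2 hc hd k))
      exact ((t3 1).eventually (gt_mem_nhds this)).mono fun u hu _ => hu
  obtain ⟨u, u0, u1, u2⟩ := (eventually_mem_nhdsWithin.and (ev3.and
    ((t3 1).eventually (gt_mem_nhds g0')))).exists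
  have u0' : 0 < u := u0
  let G' := H.image fun c => (σ c, c.2.1 - γ, c.2.2 + γ)
  have mh : ∀ x ∈ hull G' u, ∃ c ∈ H, (σ c ≤ x.1 ∧ x.1 ≤ σ c + u) ∧
      c.2.1 - γ ≤ x.2 ∧ x.2 ≤ c.2.2 + γ := by
    intro x hx
    obtain ⟨q, hq, h⟩ := mem_hull.1 hx
    obtain ⟨c, hc, rfl⟩ := Finset.mem_image.1 hq
    exact ⟨c, hc, h⟩
  refine ⟨(G', u), ⟨u0', ?_⟩, by simp only; linarith, ?_, ?_, ?_, ?_⟩
  · intro q' hq'
    obtain ⟨c, hc, rfl⟩ := Finset.mem_image.1 hq'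
    obtain ⟨q, hq, hc'⟩ := hH c hc
    exact ⟨(s1 c hc).1, by simp only; linarith [(c1 q hq c hc').2.2.2.2.1]⟩
  · intro x hx
    obtain ⟨c, hc, ⟨a1, a2⟩, a3, a4⟩ := mh x hx
    obtain ⟨q, hq, hc'⟩ := hH c hc
    obtain ⟨b1, b2, b3⟩ := g2 q hq c hc'
    obtain ⟨-, d1, d2⟩ := s1 c hc
    exact mem_hull.2 ⟨q, hq, ⟨by linarith [(c1 q hq c hc').2.1], by simp only; linarith⟩,
      by linarith, by linarith⟩
  · intro x hx y hy hxy
    obtain ⟨c, hc, ⟨a1, a2⟩, a3, a4⟩ := mh x hx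
    obtain ⟨d, hd, ⟨b1, b2⟩, b3, b4⟩ := mh y hy
    obtain rfl : c = d := by
      by_contra h
      have := u1 c hc d hd h
      rw [lt_abs] at this
      rcases this with h | h <;> linarith
    obtain ⟨q, hq, hc'⟩ := hH c hc
    linarith [(c1 q hq c hc').2.2.2.2.2.2]
  · refine le_trans (measure_mono ?_) g1.le
    rintro _ ⟨⟨t, s, y⟩, ⟨ht, hx⟩, rfl⟩
    obtain ⟨c, hc, ⟨a1, a2⟩, a3, a4⟩ := mh _ hx
    obtain ⟨q, hq, hc'⟩ := hH c hc
    obtain ⟨-, d1, d2⟩ := s1 c hc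
    have d3 := (c1 q hq c hc').2.2.2.2.1
    simp only at a1 a2 a3 a4 ht
    refine Metric.mem_cthickening_of_dist_le _ (t, max c.2.1 (min y c.2.2) + c.1 * t) _ _
      ⟨⟨c, hc, by simp, by simp [d3]⟩, ht, trivial⟩ ?_
    rw [Prod.dist_eq, dist_self, Real.dist_eq]
    refine max_le (by positivity) ?_
    have k1 : 0 ≤ (s - c.1) * t := mul_nonneg (by linarith) ht.1
    have k2 : (s - c.1) * t ≤ 2 * γ * 1 := mul_le_mul (by linarith) ht.2 ht.1 (by positivity)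
    have k3 : |y - max c.2.1 (min y c.2.2)| ≤ γ := by
      rw [abs_le]
      rcases le_total y c.2.2 with h | h
      · rw [min_eq_left h]
        rcases le_total c.2.1 y with h' | h'
        · rw [max_eq_right h']; constructor <;> linarith
        · rw [max_eq_left h']; constructor <;> linarith
      · rw [min_eq_right h, max_eq_right d3]; constructor <;> linarith
    rw [abs_le] at k3 ⊢
    constructor <;> linarith [k3.1, k3.2]
  · refine le_trans (measure_mono ?_) n2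
    rintro p ⟨hp, hn⟩
    refine ⟨hp, ?_⟩
    rintro ⟨c, hc, a1, a2⟩
    obtain ⟨-, d1, d2⟩ := s1 c hc
    obtain ⟨-, ⟨p1, p2⟩, -⟩ := hp
    have k1 : 0 ≤ (σ c - c.1) * (-p.1) := mul_nonneg (by linarith) (by linarith)
    have k2 : (σ c - c.1) * (-p.1) ≤ γ * 1 :=
      mul_le_mul (by linarith) (by linarith) (by linarith) g0'.le
    exact hn ⟨_, Finset.mem_image.2 ⟨c, hc, rfl⟩, by simp only; linarith, by simp only; linarith⟩

theorem main : ∃ L : Set (ℝ × ℝ), IsCompact L ∧ (∀ x ∈ L, x.1 ∈ cantorSet) ∧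
    (∀ x ∈ L, ∀ y ∈ L, x.1 = y.1 → x = y) ∧ volume (sweep L 0 1) = 0 ∧
    0 < volume (sweep L (-3 / 10) (-2 / 10)) := by
  let ε : ℕ → ℝ := fun k => 1 / 20 / 2 / 2 ^ k
  have hε : ∀ k, 0 < ε k := fun k => by positivity
  have hs : HasSum ε (1 / 20) := hasSum_geometric_two' _
  have t0 : Tendsto ε atTop (𝓝 0) := hs.summable.tendsto_atTop_zero
  choose! f f1 f2 using fun (k : ℕ) X (hX : Val X) => step hX (hε k)
  obtain ⟨X, X0, Xs⟩ : ∃ X : ℕ → Finset (ℝ × ℝ × ℝ) × ℝ, X 0 = ({(0, 0, 1)}, 1) ∧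
      ∀ k, X (k + 1) = f k (X k) := ⟨fun k => Nat.rec ({(0, 0, 1)}, 1) f k, rfl, fun _ => rfl⟩
  have hV : ∀ k, Val (X k) := fun k => by
    induction k with
    | zero =>
      rw [X0]
      exact ⟨one_pos, fun q hq => by
        rw [Finset.mem_singleton.1 hq]; exact ⟨good_zero, one_pos⟩⟩
    | succ k ih => rw [Xs]; exact f1 k _ ih
  have hR : ∀ k, Rel (ε k) (X k) (X (k + 1)) := fun k => by rw [Xs]; exact f2 k _ (hV k)
  let K : ℕ → Set (ℝ × ℝ) := fun k => hull (X k).1 (X k).2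
  have hK : ∀ k, IsCompact (K k) := fun k => isCompact_hull _ _
  have cL : IsCompact (⋂ k, K k) :=
    (hK 0).of_isClosed_subset (isClosed_iInter fun k => (hK k).isClosed) (iInter_subset _ 0)
  refine ⟨⋂ k, K k, cL, ?_, ?_, ?_, ?_⟩
  · intro x hx
    rw [← isClosed_cantorSet.closure_eq, Metric.mem_closure_iff]
    intro η hη
    obtain ⟨k, hk⟩ := (t0.eventually (gt_mem_nhds hη)).exists
    obtain ⟨q, hq, ⟨a1, a2⟩, -⟩ := mem_hull.1 (mem_iInter.1 hx (k + 1))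
    refine ⟨q.1, ((hV _).2 q hq).1.mem, ?_⟩
    rw [Real.dist_eq, abs_of_nonneg (by linarith)]
    linarith [(hR k).1]
  · intro x hx y hy hxy
    have key : ∀ x ∈ ⋂ k, K k, ∀ y ∈ ⋂ k, K k, x.1 = y.1 → x.2 - y.2 ≤ 0 :=
      fun x hx y hy hxy => ge_of_tendsto' t0 fun k =>
        (hR k).2.2.1 x (mem_iInter.1 hx _) y (mem_iInter.1 hy _) hxy
    exact Prod.ext hxy (by linarith [key x hx y hy hxy, key y hy x hx hxy.symm])
  · have t1 := ENNReal.tendsto_ofReal t0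
    rw [ENNReal.ofReal_zero] at t1
    refine le_antisymm (ge_of_tendsto' t1 fun k => le_trans (measure_mono ?_) (hR k).2.2.2.1)
      zero_le
    exact image_mono (prod_mono Subset.rfl (iInter_subset _ (k + 1)))
  · rw [pos_iff_ne_zero]
    intro h0
    have sub : reg (X 0).1 (-3 / 10) (-2 / 10) ⊆ sweep (⋂ k, K k) (-3 / 10) (-2 / 10) ∪
        ⋃ k, reg (X k).1 (-3 / 10) (-2 / 10) \ U (X (k + 1)).1 := by
      intro p hp
      by_contra hn
      rw [mem_union, not_or, mem_iUnion, not_exists] at hn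
      have all : ∀ k, p ∈ U (X k).1 := fun k => by
        induction k with
        | zero => exact hp.1
        | succ k ih =>
          by_contra h
          exact hn.2 k ⟨⟨ih, hp.2⟩, h⟩
      have cl : IsClosed {x : ℝ × ℝ | x.2 + x.1 * p.1 = p.2} :=
        isClosed_eq (by fun_prop) (by fun_prop)
      obtain ⟨x, hx⟩ := IsCompact.nonempty_iInter_of_sequence_nonempty_isCompact_isClosed
        (fun k => K k ∩ {x : ℝ × ℝ | x.2 + x.1 * p.1 = p.2})
        (fun k => inter_subset_inter_left _ (hR k).2.1)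
        (fun k => by
          obtain ⟨q, hq, a1, a2⟩ := all k
          exact ⟨(q.1, p.2 - q.1 * p.1), mem_hull.2 ⟨q, hq,
            ⟨le_rfl, le_add_of_nonneg_right (hV k).1.le⟩, a1, a2⟩, by simp⟩)
        ((hK 0).inter_right cl) fun k => (hK k).isClosed.inter cl
      rw [mem_iInter] at hx
      exact hn.1 ⟨(p.1, x), ⟨hp.2.1, mem_iInter.2 fun k => (hx k).1⟩, Prod.ext rfl (hx 0).2⟩
    have le := ((measure_mono (μ := volume) sub).trans (measure_union_le _ _)).trans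
      (add_le_add h0.le ((measure_iUnion_le _).trans
        (ENNReal.tsum_le_tsum fun k => (hR k).2.2.2.2)))
    rw [zero_add, ← ENNReal.ofReal_tsum_of_nonneg (fun k => (hε k).le) hs.summable,
      hs.tsum_eq] at le
    rw [X0, vol_strip, ← ENNReal.ofReal_mul (by norm_num),
      ENNReal.ofReal_le_ofReal_iff (by norm_num)] at le
    norm_num at le

end Pool.Agent.H7.Kak
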