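import Pool.Agent.H7.Pick2

namespace Pool.Agent.H7.Pick

open scoped ComplexOrder Matrix InnerProductSpace ComplexConjugate MatrixOrder
open Finset Matrix

universe u

lemma isClosed_kernel {X : Type u} : IsClosed {A : X → X → ℂ | IsKernel A} := by
  have : {A : X → X → ℂ | IsKernel A} = (⋂ i, ⋂ j, {A | star (A j i) = A i j}) ∩
      ⋂ x : X →₀ ℂ, {A | 0 ≤ x.sum fun i xi ↦ x.sum fun j xj ↦ star xi * A i j * xj} := by
    ext A
    simp only [IsKernel, PosSemidef, Set.mem_inter_iff, Set.mem_iInter, Set.mem_ofPred_eq]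
    exact and_congr ⟨fun h i j => h.apply i j, fun h => Matrix.IsHermitian.ext h⟩ Iff.rfl
  rw [this]
  refine IsClosed.inter (isClosed_iInter fun i => isClosed_iInter fun j => isClosed_eq
    (by fun_prop) (by fun_prop)) (isClosed_iInter fun x => isClosed_le continuous_const ?_)
  unfold Finsupp.sum
  fun_prop

lemma box_compact {X : Type u} (R : X → X → ℝ) :
    IsCompact {p : X → X → ℂ | ∀ x y, ‖p x y‖ ≤ R x y} := by
  have := isCompact_univ_pi fun x => isCompact_univ_pi fun y => isCompact_closedBall (0 : ℂ) (R x y)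
  convert this using 1
  ext p
  simp [Set.mem_pi]

lemma cut_psd {X : Type u} {a : X → X → ℂ} (h : IsKernel a) (S : Set X) : IsKernel (cut S a) := by
  classical
  have h1 : (Matrix.of fun x y : X => ⟪(if x ∈ S then (1 : ℂ) else 0),
      (if y ∈ S then (1 : ℂ) else 0)⟫_ℂ).PosSemidef := gram_psd _
  refine psd_congr (had h1 h) fun x y => ?_
  by_cases hx : x ∈ S <;> by_cases hy : y ∈ S <;> simp [cut, hx, hy]

lemma norm_le_add {a b : ℂ} (ha : 0 ≤ a) (hb : 0 ≤ b) : ‖a‖ ≤ ‖a + b‖ :=
  CStarAlgebra.norm_le_norm_of_nonneg_of_le ha (le_add_of_nonneg_right hb)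

lemma box_of_diag {X : Type u} {a : X → X → ℂ} (h : IsKernel a) (S : Set X) (r : X → ℝ)
    (h0 : ∀ x, 0 ≤ r x) (hr : ∀ x ∈ S, ‖a x x‖ ≤ r x) (x y : X) : ‖cut S a x y‖ ≤ r x + r y := by
  unfold cut
  simp only [of_apply]
  split_ifs with hxy
  · have h1 : ‖a x y‖ ^ 2 ≤ ‖a x x‖ * ‖a y y‖ := entry_le h x y
    have h2 : ‖a x x‖ * ‖a y y‖ ≤ r x * r y :=
      mul_le_mul (hr x hxy.1) (hr y hxy.2) (norm_nonneg _) (h0 x)
    refine le_of_sq_le_sq ?_ (add_nonneg (h0 x) (h0 y))
    nlinarith [mul_nonneg (h0 x) (h0 y), sq_nonneg (r x), sq_nonneg (r y)]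
  · simpa using add_nonneg (h0 x) (h0 y)

/-- approximate certificates -/
def Approx {X : Type u} (k l : X → X → ℂ) (S : Set X) (z : X) (ε : ℝ) (p a b : X → X → ℂ) : Prop :=
  IsKernel p ∧ IsKernel a ∧ IsKernel b ∧ ∀ x ∈ S, ∀ y ∈ S,
    ‖schur l z x y - p x y * l x y - a x y‖ ≤ ε ∧ ‖p x y * k x y - schur k z x y - b x y‖ ≤ ε

lemma cert_of_approx {X : Type u} {k l : X → X → ℂ} (hl : IsKernel l) (hl0 : ∀ x, l x x ≠ 0)
    (T : Set X) (z : X)
    (h : ∀ S : Finset X, (S : Set X) ⊆ T → ∀ ε > 0, ∃ p a b, Approx k l S z ε p a b) :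
    ∃ p, CertOn k l T z p := by
  classical
  set r : X → ℝ := fun x => (‖schur l z x x‖ + 1) / ‖l x x‖ * (1 + ‖k x x‖)
    + ‖schur l z x x‖ + ‖schur k z x x‖ + 1 with hr
  have hr0 : ∀ x, 0 ≤ r x := fun x => by positivity
  set B : Set (X → X → ℂ) := {p | ∀ x y, ‖p x y‖ ≤ r x + r y} with hB
  have hBc : IsCompact (B ×ˢ (B ×ˢ B)) :=
    (box_compact _).prod ((box_compact _).prod (box_compact _))
  set Z : {S : Finset X // (S : Set X) ⊆ T} × ℕ → Set ((X → X → ℂ) × (X → X → ℂ) × (X → X → ℂ)) :=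
    fun d => (B ×ˢ (B ×ˢ B)) ∩ {t | Approx k l d.1.1 z (1 / (d.2 + 1)) t.1 t.2.1 t.2.2} with hZ
  have hcl : ∀ (S : Set X) (ε : ℝ), IsClosed {t : (X → X → ℂ) × (X → X → ℂ) × (X → X → ℂ) |
      Approx k l S z ε t.1 t.2.1 t.2.2} := by
    intro S ε
    simp only [Approx, Set.ofPred_and, Set.ofPred_forall]
    refine (isClosed_kernel.preimage continuous_fst).inter
      ((isClosed_kernel.preimage (continuous_fst.comp continuous_snd)).inter
      ((isClosed_kernel.preimage (continuous_snd.comp continuous_snd)).inter ?_))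
    refine isClosed_iInter fun x => isClosed_iInter fun _ => isClosed_iInter fun y =>
      isClosed_iInter fun _ => IsClosed.inter ?_ ?_
    · exact isClosed_le (by fun_prop) continuous_const
    · exact isClosed_le (by fun_prop) continuous_const
  have : Nonempty ({S : Finset X // (S : Set X) ⊆ T} × ℕ) := ⟨(⟨∅, by simp⟩, 0)⟩
  obtain ⟨⟨p, a, b⟩, ht⟩ := IsCompact.nonempty_iInter_of_directed_nonempty_isCompact_isClosed Z
    (by
      rintro ⟨⟨S, hS⟩, n⟩ ⟨⟨S', hS'⟩, n'⟩
      refine ⟨(⟨S ∪ S', by simp [hS, hS']⟩, max n n'), ?_, ?_⟩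
      · rintro t ⟨h1, h2, h3, h4, h5⟩
        refine ⟨h1, h2, h3, h4, fun x hx y hy => ?_⟩
        have h6 := h5 x (by simp [show x ∈ S from hx]) y (by simp [show y ∈ S from hy])
        have h7 : (1 : ℝ) / ((max n n' : ℕ) + 1) ≤ 1 / (n + 1) := by
          gcongr; exact le_max_left _ _
        exact ⟨h6.1.trans h7, h6.2.trans h7⟩
      · rintro t ⟨h1, h2, h3, h4, h5⟩
        refine ⟨h1, h2, h3, h4, fun x hx y hy => ?_⟩
        have h6 := h5 x (by simp [show x ∈ S' from hx]) y (by simp [show y ∈ S' from hy])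
        have h7 : (1 : ℝ) / ((max n n' : ℕ) + 1) ≤ 1 / (n' + 1) := by
          gcongr; exact le_max_right _ _
        exact ⟨h6.1.trans h7, h6.2.trans h7⟩)
    (by
      rintro ⟨⟨S, hS⟩, n⟩
      obtain ⟨p, a, b, h1, h2, h3, h4⟩ := h S hS (1 / (n + 1)) (by positivity)
      have hε : (1 : ℝ) / (n + 1) ≤ 1 := by
        rw [div_le_one (by positivity)]; linarith [Nat.cast_nonneg (α := ℝ) n]
      have hd : ∀ x ∈ (S : Set X), ‖p x x‖ ≤ r x ∧ ‖a x x‖ ≤ r x ∧ ‖b x x‖ ≤ r x := by
        intro x hx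
        obtain ⟨h5, h6⟩ := h4 x hx x hx
        have hp0 : 0 ≤ p x x := h1.diag_nonneg (i := x)
        have hl1 : 0 ≤ l x x := hl.diag_nonneg (i := x)
        have ha0 : 0 ≤ a x x := h2.diag_nonneg (i := x)
        have h7 : ‖p x x * l x x + a x x‖ ≤ ‖schur l z x x‖ + 1 := by
          have : p x x * l x x + a x x
            = schur l z x x - (schur l z x x - p x x * l x x - a x x) := by ring
          rw [this]
          exact (norm_sub_le _ _).trans (by linarith)
        have h8 := (norm_le_add (mul_nonneg hp0 hl1) ha0).trans h7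
        have h9 := norm_le_add ha0 (mul_nonneg hp0 hl1)
        rw [add_comm] at h9
        have hpos : 0 < ‖l x x‖ := norm_pos_iff.mpr (hl0 x)
        have h10 : ‖p x x‖ ≤ (‖schur l z x x‖ + 1) / ‖l x x‖ := by
          rw [le_div_iff₀ hpos, ← norm_mul]; exact h8
        have h11 : ‖b x x‖ ≤ ‖p x x‖ * ‖k x x‖ + ‖schur k z x x‖ + 1 := by
          have : b x x = (p x x * k x x - schur k z x x)
            - (p x x * k x x - schur k z x x - b x x) := by ring
          rw [this, ← norm_mul]
          refine (norm_sub_le _ _).trans ?_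
          linarith [norm_sub_le (p x x * k x x) (schur k z x x)]
        have h12 : 0 ≤ (‖schur l z x x‖ + 1) / ‖l x x‖ := by positivity
        have h13 := mul_le_mul_of_nonneg_right h10 (norm_nonneg (k x x))
        have h14 := mul_nonneg h12 (norm_nonneg (k x x))
        simp only [hr]
        refine ⟨?_, ?_, ?_⟩ <;>
          nlinarith [norm_nonneg (schur l z x x), norm_nonneg (schur k z x x)]
      refine ⟨(cut S p, cut S a, cut S b), ⟨box_of_diag h1 _ r hr0 fun x hx => (hd x hx).1,
        box_of_diag h2 _ r hr0 fun x hx => (hd x hx).2.1,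
        box_of_diag h3 _ r hr0 fun x hx => (hd x hx).2.2⟩, cut_psd h1 _, cut_psd h2 _,
        cut_psd h3 _, fun x hx y hy => ?_⟩
      simpa only [cut, of_apply, hx, hy, and_self, if_true] using h4 x hx y hy)
    (fun d => hBc.inter_right (hcl _ _)) (fun d => hBc.isClosed.inter (hcl _ _))
  rw [Set.mem_iInter] at ht
  obtain ⟨-, h1, h2, h3, -⟩ := ht (⟨∅, by simp⟩, 0)
  have key : ∀ x ∈ T, ∀ y ∈ T, schur l z x y - p x y * l x y = a x y ∧
      p x y * k x y - schur k z x y = b x y := by
    intro x hx y hy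
    have h5 := fun n : ℕ => (ht (⟨{x, y}, by simp [Set.insert_subset_iff, hx, hy]⟩, n)).2.2.2.2 x
      (by simp) y (by simp)
    have h6 : ∀ c : ℂ, (∀ n : ℕ, ‖c‖ ≤ 1 / ((n : ℝ) + 1)) → c = 0 := by
      intro c hc
      exact norm_le_zero_iff.mp (ge_of_tendsto' tendsto_one_div_add_atTop_nhds_zero_nat hc)
    exact ⟨sub_eq_zero.mp (h6 _ fun n => (h5 n).1), sub_eq_zero.mp (h6 _ fun n => (h5 n).2)⟩
  refine ⟨p, h1, psd_congr (cut_psd h2 T) fun x y => ?_, psd_congr (cut_psd h3 T) fun x y => ?_⟩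
  · simp only [cut, of_apply]
    split_ifs with h
    · exact (key x h.1 y h.2).1
    · rfl
  · simp only [cut, of_apply]
    split_ifs with h
    · exact (key x h.1 y h.2).2
    · rfl

lemma psd_of_re {I : Type*} [Fintype I] (G : I → I → ℂ)
    (h : ∀ c : I → ℂ, 0 ≤ (∑ i, ∑ j, c i * conj (c j) * G i j).re) :
    (Matrix.of fun i j => (G i j + conj (G j i)) / 2).PosSemidef := by
  refine PosSemidef.of_dotProduct_mulVec_nonneg ?_ fun c => ?_
  · ext i j
    simp [add_comm]
  · have h1 := h (star c)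
    set s := ∑ i, ∑ j, star c i * conj (star c j) * G i j with hs
    have e : star c ⬝ᵥ (Matrix.of fun i j => (G i j + conj (G j i)) / 2) *ᵥ c = (s + conj s) / 2 := by
      rw [hs, map_sum]
      simp only [map_sum]
      rw [Finset.sum_comm (f := fun i j => conj (star c i * conj (star c j) * G i j)),
        ← Finset.sum_add_distrib, Finset.sum_div]
      simp only [dotProduct, mulVec, of_apply, Finset.mul_sum]
      refine Finset.sum_congr rfl fun i _ => ?_
      rw [← Finset.sum_add_distrib, Finset.sum_div]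
      refine Finset.sum_congr rfl fun j _ => ?_
      simp only [Pi.star_apply, RCLike.star_def, map_mul, Complex.conj_conj]
      ring
    rw [e, Complex.add_conj]
    have : ((2 * s.re : ℝ) : ℂ) / 2 = (s.re : ℂ) := by push_cast; ring
    rw [this]
    exact Complex.zero_le_real.mpr h1

lemma re_herm {I : Type*} [Fintype I] (G A : I → I → ℂ) (hA : ∀ i j, conj (A i j) = A j i) :
    (∑ i, ∑ j, A i j * ((G i j + conj (G j i)) / 2)).re = (∑ i, ∑ j, A i j * G i j).re := by
  have : ∑ i, ∑ j, A i j * ((G i j + conj (G j i)) / 2)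
      = ((∑ i, ∑ j, A i j * G i j) + conj (∑ i, ∑ j, A i j * G i j)) / 2 := by
    rw [map_sum]
    simp only [map_sum]
    rw [Finset.sum_comm (f := fun i j => conj (A i j * G i j)),
        ← Finset.sum_add_distrib, Finset.sum_div]
    refine Finset.sum_congr rfl fun i _ => ?_
    rw [← Finset.sum_add_distrib, Finset.sum_div]
    refine Finset.sum_congr rfl fun j _ => ?_
    rw [map_mul, hA]
    ring
  rw [this, Complex.add_conj]
  simp

lemma separation {I : Type u} [Fintype I] (L K A B : I → I → ℂ)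
    (hL : ∀ i j, conj (L i j) = L j i) (hK : ∀ i j, conj (K i j) = K j i)
    (hA : ∀ i j, conj (A i j) = A j i) (hB : ∀ i j, conj (B i j) = B j i) :
    (∀ ε > 0, ∃ p a b : I → I → ℂ, IsKernel p ∧ IsKernel a ∧ IsKernel b ∧ ∀ i j,
      ‖A i j - p i j * L i j - a i j‖ ≤ ε ∧ ‖p i j * K i j - B i j - b i j‖ ≤ ε) ∨
    ∃ G H : I → I → ℂ, IsKernel G ∧ IsKernel H ∧
      IsKernel (fun i j => L i j * G i j - K i j * H i j) ∧
      (∑ i, ∑ j, A i j * G i j).re < (∑ i, ∑ j, B i j * H i j).re := by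
  classical
  set C : Set ((I → I → ℂ) × (I → I → ℂ)) := {t | ∃ p a b : I → I → ℂ, IsKernel p ∧ IsKernel a ∧
    IsKernel b ∧ t = (fun i j => p i j * L i j + a i j, fun i j => b i j - p i j * K i j)} with hC
  have hsm : ∀ (s : ℝ), 0 ≤ s → ∀ p : I → I → ℂ, IsKernel p → IsKernel (fun i j => s * p i j) :=
    fun s hs p hp => psd_congr (hp.smul (Complex.zero_le_real.mpr hs)) fun i j => rfl
  have hadd : ∀ p q : I → I → ℂ, IsKernel p → IsKernel q → IsKernel (fun i j => p i j + q i j) :=
    fun p q hp hq => psd_congr (hp.add hq) fun i j => rfl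
  have h0 : IsKernel (fun _ _ : I => (0 : ℂ)) := psd_congr PosSemidef.zero fun i j => rfl
  by_cases h : (A, -B) ∈ closure C
  · left
    intro ε hε
    obtain ⟨t, ⟨p, a, b, h1, h2, h3, rfl⟩, h4⟩ := Metric.mem_closure_iff.mp h ε hε
    refine ⟨p, a, b, h1, h2, h3, fun i j => ?_⟩
    rw [Prod.dist_eq, max_lt_iff] at h4
    have hd : ∀ M N : I → I → ℂ, dist (M i j) (N i j) ≤ dist M N := fun M N =>
      (dist_le_pi_dist (M i) (N i) j).trans (dist_le_pi_dist M N i)
    have h5 := (hd _ _).trans h4.1.le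
    have h6 := (hd _ _).trans h4.2.le
    rw [dist_eq_norm] at h5 h6
    constructor
    · rwa [sub_sub]
    · have e : p i j * K i j - B i j - b i j = -B i j - (b i j - p i j * K i j) := by ring
      rw [e]; exact h6
  · right
    have hconv : Convex ℝ C := by
      rintro _ ⟨p, a, b, h1, h2, h3, rfl⟩ _ ⟨p', a', b', h1', h2', h3', rfl⟩ s t hs ht _
      refine ⟨_, _, _, hadd _ _ (hsm s hs p h1) (hsm t ht p' h1'),
        hadd _ _ (hsm s hs a h2) (hsm t ht a' h2'), hadd _ _ (hsm s hs b h3) (hsm t ht b' h3'), ?_⟩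
      ext i j <;> simp <;> ring
    obtain ⟨f, u, hf1, hf2⟩ := RCLike.geometric_hahn_banach_point_closed (𝕜 := ℂ) hconv.closure
      isClosed_closure h
    set G : I → I → ℂ := fun i j => f (Pi.single i (Pi.single j 1), 0) with hG
    set H : I → I → ℂ := fun i j => f (0, Pi.single i (Pi.single j 1)) with hH
    have hf : ∀ M N : I → I → ℂ, f (M, N) = ∑ i, ∑ j, M i j * G i j + ∑ i, ∑ j, N i j * H i j := by
      intro M N
      have e : (M, N) = ∑ i, ∑ j, M i j • ((Pi.single i (Pi.single j 1), 0) : (I → I → ℂ) × (I → I → ℂ))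
          + ∑ i, ∑ j, N i j • ((0, Pi.single i (Pi.single j 1)) : (I → I → ℂ) × (I → I → ℂ)) := by
        ext i j <;> simp [Prod.fst_sum, Prod.snd_sum, Finset.sum_apply, Pi.single_apply]
      rw [e]
      simp only [map_add, map_sum, map_smul, smul_eq_mul, hG, hH]
    have hpos : ∀ p a b : I → I → ℂ, IsKernel p → IsKernel a → IsKernel b →
        0 ≤ (f (fun i j => p i j * L i j + a i j, fun i j => b i j - p i j * K i j)).re := by
      intro p a b h1 h2 h3
      set c := (f (fun i j => p i j * L i j + a i j, fun i j => b i j - p i j * K i j)).re with hc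
      have h4 : ∀ s : ℝ, 0 ≤ s → u < s * c := by
        intro s hs
        have := hf2 _ (subset_closure ⟨_, _, _, hsm s hs p h1, hsm s hs a h2, hsm s hs b h3, rfl⟩)
        have e : ((fun i j => s * p i j * L i j + s * a i j, fun i j => s * b i j - s * p i j * K i j) :
          (I → I → ℂ) × (I → I → ℂ)) = (s : ℂ) •
            (fun i j => p i j * L i j + a i j, fun i j => b i j - p i j * K i j) := by
          ext i j <;> simp <;> ring
        rw [e, map_smul, smul_eq_mul] at this
        simpa [hc] using this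
      by_contra hneg
      rw [not_le] at hneg
      have h5 := h4 0 le_rfl
      have h6 := h4 (u / c) (div_nonneg_of_nonpos (by linarith) hneg.le)
      rw [div_mul_cancel₀ _ hneg.ne] at h6
      exact lt_irrefl _ h6
    have hu : u < 0 := by
      have := hf2 _ (subset_closure ⟨_, _, _, h0, h0, h0, rfl⟩)
      rw [hf] at this
      simpa using this
    have hr1 : ∀ c : I → ℂ, IsKernel (fun i j => c i * conj (c j)) := fun c =>
      psd_congr (posSemidef_vecMulVec_self_star c) fun i j => rfl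
    refine ⟨_, _, psd_of_re G fun c => ?_, psd_of_re H fun c => ?_, ?_, ?_⟩
    · simpa [hf] using hpos _ _ _ h0 (hr1 c) h0
    · simpa [hf] using hpos _ _ _ h0 h0 (hr1 c)
    · refine psd_congr (psd_of_re (fun i j => L i j * G i j - K i j * H i j) fun c => ?_)
        fun i j => ?_
      · have := hpos _ _ _ (hr1 c) h0 h0
        rw [hf] at this
        convert this using 2
        rw [← Finset.sum_add_distrib]
        refine Finset.sum_congr rfl fun i _ => ?_
        rw [← Finset.sum_add_distrib]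
        exact Finset.sum_congr rfl fun j _ => by ring
      · simp only [of_apply, map_sub, map_mul, hL, hK]
        ring
    · rw [re_herm G A hA, re_herm H B hB]
      rw [hf] at hf1
      simp only [Pi.neg_apply, neg_mul, Finset.sum_neg_distrib, RCLike.re_to_complex,
        Complex.add_re, Complex.neg_re] at hf1
      linarith

end Pool.Agent.H7.Pick
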