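import Pool.Agent.H7.LmiDefs
import Pool.Agent.H7.Pick3

namespace Pool.Agent.H7.Mu

open scoped ComplexOrder Matrix InnerProductSpace ComplexConjugate
open Finset Real

/-- sector in cosine form -/
def Sec (c : ℝ) (z : ℂ) : Prop := ‖z‖ * c ≤ z.re

lemma inSector_iff {θ : ℝ} (h0 : 0 ≤ θ) (h1 : θ ≤ π / 2) (z : ℂ) :
    InSector θ z ↔ Sec (cos θ) z := by
  by_cases hz : z = 0
  · simp [InSector, Sec, hz]
  have hn : 0 < ‖z‖ := norm_pos_iff.mpr hz
  have e : z.re = ‖z‖ * cos |Complex.arg z| := by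
    rw [cos_abs, Complex.cos_arg hz]; field_simp
  simp only [InSector, Sec, hz, false_or, e]
  rw [mul_le_mul_iff_right₀ hn]
  exact (strictAntiOn_cos.le_iff_ge ⟨h0, by linarith [pi_pos]⟩
    ⟨abs_nonneg _, Complex.abs_arg_le_pi z⟩).symm

lemma Sec.add {c : ℝ} (hc : 0 ≤ c) {z w : ℂ} (h : Sec c z) (h' : Sec c w) : Sec c (z + w) := by
  unfold Sec at *
  have := mul_le_mul_of_nonneg_right (norm_add_le z w) hc
  simp only [Complex.add_re]
  linarith

lemma Sec.smul {c : ℝ} {z : ℂ} (h : Sec c z) {t : ℝ} (ht : 0 ≤ t) : Sec c (t * z) := by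
  unfold Sec at *
  simp only [norm_mul, Complex.norm_real, Real.norm_of_nonneg ht, Complex.re_ofReal_mul, mul_assoc]
  exact mul_le_mul_of_nonneg_left h ht

lemma Sec.conj {c : ℝ} {z : ℂ} (h : Sec c z) : Sec c (conj z) := by
  simpa [Sec] using h

lemma Sec.im {c s : ℝ} (hc : 0 ≤ c) (hs : 0 ≤ s) (h1 : c ^ 2 + s ^ 2 = 1) {z : ℂ} (h : Sec c z) :
    0 ≤ z.re ∧ |z.im| * c ≤ z.re * s := by
  unfold Sec at h
  have h0 : 0 ≤ z.re := (mul_nonneg (norm_nonneg _) hc).trans h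
  refine ⟨h0, le_of_sq_le_sq ?_ (mul_nonneg h0 hs)⟩
  have h2 : (‖z‖ * c) ^ 2 ≤ z.re ^ 2 := by gcongr
  rw [mul_pow, Complex.sq_norm, Complex.normSq_apply] at h2
  rw [mul_pow, sq_abs, mul_pow]
  nlinarith

variable {E : Type*} [NormedAddCommGroup E] [InnerProductSpace ℂ E]

lemma form_expand (T : E →L[ℂ] E) (x y : E) (α β : ℂ) :
    ⟪α • x + β • y, T (α • x + β • y)⟫_ℂ = (conj α * α) * ⟪x, T x⟫_ℂ + (conj β * β) * ⟪y, T y⟫_ℂ
      + (conj α * β) * ⟪x, T y⟫_ℂ + conj (conj α * β) * ⟪y, T x⟫_ℂ := by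
  simp only [map_add, map_smul, inner_add_left, inner_add_right, inner_smul_left, inner_smul_right,
    map_mul, Complex.conj_conj]
  ring

lemma add_forms (A T : E →L[ℂ] E) (x y : E) (hx : x ≠ 0) :
    ∃ z, z ≠ 0 ∧ ⟪z, T z⟫_ℂ = ⟪x, T x⟫_ℂ + ⟪y, T y⟫_ℂ ∧
      (⟪x, A x⟫_ℂ).re + (⟪y, A y⟫_ℂ).re ≤ (⟪z, A z⟫_ℂ).re := by
  by_cases hd : ∃ l : ℂ, y = l • x
  · obtain ⟨l, rfl⟩ := hd
    have h1 : ∀ S : E →L[ℂ] E, ⟪((√(1 + ‖l‖ ^ 2) : ℝ) : ℂ) • x, S (((√(1 + ‖l‖ ^ 2) : ℝ) : ℂ) • x)⟫_ℂ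
        = ⟪x, S x⟫_ℂ + ⟪l • x, S (l • x)⟫_ℂ := by
      intro S
      simp only [map_smul, inner_smul_left, inner_smul_right, Complex.conj_ofReal]
      rw [← mul_assoc, ← mul_assoc, Complex.mul_conj', ← Complex.ofReal_mul,
        Real.mul_self_sqrt (by positivity)]
      push_cast; ring
    refine ⟨((√(1 + ‖l‖ ^ 2) : ℝ) : ℂ) • x, smul_ne_zero ?_ hx, h1 T, by rw [h1]; simp⟩
    have : 0 < √(1 + ‖l‖ ^ 2) := Real.sqrt_pos.mpr (by positivity)
    exact_mod_cast this.ne'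
  set L : (ℝ × ℂ) →ₗ[ℝ] ℂ :=
    { toFun := fun p => p.1 * (⟪x, T x⟫_ℂ - ⟪y, T y⟫_ℂ) + p.2 * ⟪x, T y⟫_ℂ + conj p.2 * ⟪y, T x⟫_ℂ
      map_add' := fun p q => by simp; ring
      map_smul' := fun t p => by simp; ring } with hL
  obtain ⟨⟨k, c⟩, h1, h2⟩ := (Submodule.ne_bot_iff _).mp (LinearMap.ker_ne_bot_of_finrank_lt
    (f := L) (by simp))
  have h1' : k * (⟪x, T x⟫_ℂ - ⟪y, T y⟫_ℂ) + c * ⟪x, T y⟫_ℂ + conj c * ⟪y, T x⟫_ℂ = 0 := h1
  have hρ : 0 < k ^ 2 + ‖c‖ ^ 2 := by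
    by_contra h
    apply h2
    have h3 : k = 0 := by nlinarith [sq_nonneg k, sq_nonneg ‖c‖]
    have h4 : ‖c‖ = 0 := by nlinarith [sq_nonneg k, sq_nonneg ‖c‖]
    simp [h3, norm_eq_zero.mp h4]
  set a := (k * (⟪x, A x⟫_ℂ - ⟪y, A y⟫_ℂ) + c * ⟪x, A y⟫_ℂ + conj c * ⟪y, A x⟫_ℂ).re with ha
  obtain ⟨t, ht1, ht2⟩ : ∃ t : ℝ, t ^ 2 * (k ^ 2 + ‖c‖ ^ 2) = 1 ∧ 0 ≤ t * a := by
    have h3 : (1 / √(k ^ 2 + ‖c‖ ^ 2)) ^ 2 * (k ^ 2 + ‖c‖ ^ 2) = 1 := by
      rw [div_pow, Real.sq_sqrt hρ.le]; field_simp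
    have h4 : 0 ≤ 1 / √(k ^ 2 + ‖c‖ ^ 2) := by positivity
    rcases le_total 0 a with h | h
    · exact ⟨_, h3, mul_nonneg h4 h⟩
    · exact ⟨-_, by rwa [neg_sq], by nlinarith⟩
  obtain ⟨α, β, h3, h4, h5⟩ : ∃ α β : ℂ, conj α * α = 1 + t * k ∧ conj β * β = 1 - t * k ∧
      conj α * β = t * c := by
    have h6 : 0 ≤ 1 + t * k := by nlinarith [sq_nonneg (t * ‖c‖), sq_nonneg (1 + t * k)]
    rcases h6.eq_or_lt with h7 | h7
    · have h8 : t * k = -1 := by linarith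
      have h9 : (t * ‖c‖) ^ 2 = 0 := by nlinarith
      have h10 : (t : ℂ) * c = 0 := by
        rw [← norm_eq_zero, norm_mul, Complex.norm_real, ← sq_eq_zero_iff, mul_pow, Real.norm_eq_abs,
          sq_abs, ← mul_pow, h9]
      have h8' : (t : ℂ) * k = -1 := by exact_mod_cast h8
      refine ⟨0, (√2 : ℝ), by simp [h8'], ?_, by simp [h10]⟩
      rw [Complex.conj_ofReal, ← Complex.ofReal_mul, Real.mul_self_sqrt (by norm_num), h8']
      norm_num
    · have h8 : ((√(1 + t * k) : ℝ) : ℂ) * (√(1 + t * k) : ℝ) = 1 + t * k := by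
        rw [← Complex.ofReal_mul, Real.mul_self_sqrt h6]; push_cast; rfl
      have h9 : ((√(1 + t * k) : ℝ) : ℂ) ≠ 0 := by exact_mod_cast (Real.sqrt_pos.mpr h7).ne'
      have h10 : (1 : ℂ) + t * k ≠ 0 := by rw [← h8]; exact mul_ne_zero h9 h9
      refine ⟨(√(1 + t * k) : ℝ), t * c / (√(1 + t * k) : ℝ), by rw [Complex.conj_ofReal, h8], ?_, ?_⟩
      · rw [map_div₀, map_mul, Complex.conj_ofReal, Complex.conj_ofReal, div_mul_div_comm, h8,
          div_eq_iff h10]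
        have h11 : ((t ^ 2 * (k ^ 2 + ‖c‖ ^ 2) : ℝ) : ℂ) = 1 := by exact_mod_cast ht1
        push_cast at h11
        linear_combination h11 + (t : ℂ) ^ 2 * Complex.conj_mul' c
      · rw [Complex.conj_ofReal]; field_simp
  refine ⟨α • x + β • y, fun h => ?_, ?_, ?_⟩
  · by_cases hβ : β = 0
    · rw [hβ, zero_smul, add_zero, smul_eq_zero] at h
      have hα := h.resolve_right hx
      rw [hα, mul_zero] at h3
      rw [hβ, mul_zero] at h4
      have : (2 : ℂ) = 0 := by linear_combination -h3 - h4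
      norm_num at this
    · apply hd
      refine ⟨-α / β, ?_⟩
      have : β • y = -(α • x) := eq_neg_of_add_eq_zero_right h
      rw [← inv_smul_smul₀ hβ y, this, smul_neg, smul_smul, ← neg_smul]
      congr 1
      field_simp
  · rw [form_expand, h3, h4, h5, map_mul, Complex.conj_ofReal]
    linear_combination (t : ℂ) * h1'
  · rw [form_expand, h3, h4, h5, map_mul, Complex.conj_ofReal]
    have : (1 + t * k) * ⟪x, A x⟫_ℂ + (1 - t * k) * ⟪y, A y⟫_ℂ + t * c * ⟪x, A y⟫_ℂ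
        + t * conj c * ⟪y, A x⟫_ℂ = ⟪x, A x⟫_ℂ + ⟪y, A y⟫_ℂ
        + t * (k * (⟪x, A x⟫_ℂ - ⟪y, A y⟫_ℂ) + c * ⟪x, A y⟫_ℂ + conj c * ⟪y, A x⟫_ℂ) := by ring
    rw [this, Complex.add_re, Complex.add_re, Complex.re_ofReal_mul, ← ha]
    linarith

lemma sum_forms (A T : E →L[ℂ] E) {I : Type*} (s : Finset I) (x : I → E) (h : ∃ i ∈ s, x i ≠ 0) :
    ∃ z, z ≠ 0 ∧ ⟪z, T z⟫_ℂ = ∑ i ∈ s, ⟪x i, T (x i)⟫_ℂ ∧
      ∑ i ∈ s, (⟪x i, A (x i)⟫_ℂ).re ≤ (⟪z, A z⟫_ℂ).re := by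
  classical
  induction s using Finset.induction_on with
  | empty => simp at h
  | insert a s ha ih =>
    rw [Finset.sum_insert ha, Finset.sum_insert ha]
    by_cases h' : ∃ i ∈ s, x i ≠ 0
    · obtain ⟨z, h1, h2, h3⟩ := ih h'
      obtain ⟨w, h4, h5, h6⟩ := add_forms A T z (x a) h1
      exact ⟨w, h4, by rw [h5, h2, add_comm], by linarith⟩
    · push Not at h'
      obtain ⟨i, hi, hi'⟩ := h
      rcases Finset.mem_insert.mp hi with rfl | hi
      · refine ⟨x i, hi', ?_, ?_⟩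
        · rw [Finset.sum_eq_zero fun j hj => by simp [h' j hj], add_zero]
        · rw [Finset.sum_eq_zero fun j hj => by simp [h' j hj], add_zero]
      · exact absurd (h' i hi) hi'

lemma exists_unitary {c s : ℝ} (hc : 0 ≤ c) (h1 : c ^ 2 + s ^ 2 = 1) (u w : E) (hu : ‖u‖ = 1)
    (hw : ‖w‖ = 1) (h : c ≤ (⟪u, w⟫_ℂ).re) :
    ∃ U : E →L[ℂ] E, U u = w ∧ ‖U‖ ≤ 1 ∧ ∀ v, Sec c ⟪v, U v⟫_ℂ := by
  set l : ℂ := ⟨c, s⟩ with hl
  have hl1 : ‖l‖ = 1 := by
    rw [← sq_eq_sq₀ (norm_nonneg _) zero_le_one, Complex.sq_norm, Complex.normSq_apply]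
    simp only [hl]; nlinarith
  have hl2 : conj l * l = 1 := by rw [Complex.conj_mul', hl1]; simp
  have hls : Sec c l := by unfold Sec; rw [hl1]; simp [hl]
  have hvv : ∀ v : E, ⟪v, v⟫_ℂ = ((‖v‖ ^ 2 : ℝ) : ℂ) := fun v => by
    rw [inner_self_eq_norm_sq_to_K]; simp
  set d := w - l • u with hd
  by_cases hd0 : d = 0
  · refine ⟨l • 1, by simp [(sub_eq_zero.mp hd0)], ?_, fun v => ?_⟩
    · rw [norm_smul, hl1, one_mul]; exact ContinuousLinearMap.norm_id_le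
    · simp only [_root_.smul_apply, one_apply_eq_self, inner_smul_right, hvv]
      rw [mul_comm]; exact hls.smul (sq_nonneg _)
  set a := ⟪u, w⟫_ℂ with ha
  have huu : ⟪u, u⟫_ℂ = 1 := by rw [hvv, hu]; simp
  have hww : ⟪w, w⟫_ℂ = 1 := by rw [hvv, hw]; simp
  have hwu : ⟪w, u⟫_ℂ = conj a := by rw [ha, inner_conj_symm]
  have h2 : ⟪d, u⟫_ℂ = conj (a - l) := by
    rw [hd, inner_sub_left, inner_smul_left, huu, hwu, map_sub, mul_one]
  set D := ‖d‖ ^ 2 with hD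
  have hD0 : 0 < D := by positivity
  have h3 : (D : ℂ) = 2 - l * conj a - conj l * a := by
    rw [← hvv, hd]
    simp only [inner_sub_left, inner_sub_right, inner_smul_left, inner_smul_right, huu, hww, hwu, ← ha]
    linear_combination hl2
  have h4 : a - l ≠ 0 := by
    intro h5
    rw [sub_eq_zero.mp h5] at h3
    have : (D : ℂ) = 0 := by linear_combination h3 - 2 * hl2
    exact hD0.ne' (by exact_mod_cast this)
  have h4' : conj (a - l) ≠ 0 := (map_ne_zero _).mpr h4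
  set κ := (conj (a - l))⁻¹ with hκ
  have hκ1 : κ * (conj a - conj l) = 1 := by rw [← map_sub]; exact inv_mul_cancel₀ h4'
  have hκ2 : conj κ * (a - l) = 1 := by
    have := congrArg conj hκ1
    simpa using this
  have hκ3 : conj l * κ + conj κ * l + conj κ * κ * D = 0 := by
    rw [h3]
    linear_combination (-(conj l * κ)) * hκ2 - (conj κ * l) * hκ1 - 2 * conj κ * κ * hl2
  set m := l + κ * D with hm
  have hm1 : ‖m‖ = 1 := by
    have : conj m * m = 1 := by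
      simp only [hm, map_add, map_mul, Complex.conj_ofReal]
      linear_combination hl2 + D * hκ3
    rw [Complex.conj_mul'] at this
    have h5 : ‖m‖ ^ 2 = 1 := by exact_mod_cast this
    rwa [← sq_eq_sq₀ (norm_nonneg _) zero_le_one, one_pow]
  have hms : Sec c m := by
    have e : κ = ((‖κ‖ ^ 2 : ℝ) : ℂ) * (a - l) := by
      push_cast
      rw [← Complex.conj_mul']
      linear_combination (-κ) * hκ2
    unfold Sec
    rw [hm1, one_mul, hm, Complex.add_re, mul_comm κ, Complex.re_ofReal_mul, e,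
      Complex.re_ofReal_mul, Complex.sub_re]
    have : 0 ≤ D * (‖κ‖ ^ 2 * (a.re - c)) := by
      have := sub_nonneg.mpr h
      positivity
    simp only [hl]
    linarith
  refine ⟨l • 1 + κ • (innerSL ℂ d).smulRight d, ?_, ?_, fun v => ?_⟩
  · simp only [_root_.add_apply, _root_.smul_apply, one_apply_eq_self,
      ContinuousLinearMap.smulRight_apply, innerSL_apply_apply, h2, smul_smul]
    rw [inv_mul_cancel₀ h4', one_smul, hd]; abel
  · refine ContinuousLinearMap.opNorm_le_bound _ zero_le_one fun v => ?_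
    simp only [_root_.add_apply, _root_.smul_apply, one_apply_eq_self,
      ContinuousLinearMap.smulRight_apply, innerSL_apply_apply, smul_smul, one_mul]
    refine le_of_eq ?_
    rw [← sq_eq_sq₀ (norm_nonneg _) (norm_nonneg _)]
    apply Complex.ofReal_injective
    rw [← hvv, ← hvv]
    simp only [inner_add_left, inner_add_right, inner_smul_left, inner_smul_right, map_mul]
    rw [hvv d, ← hD, ← inner_conj_symm v d]
    linear_combination ⟪v, v⟫_ℂ * hl2 + (conj ⟪d, v⟫_ℂ * ⟪d, v⟫_ℂ) * hκ3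
  · simp only [_root_.add_apply, _root_.smul_apply, one_apply_eq_self,
      ContinuousLinearMap.smulRight_apply, innerSL_apply_apply, smul_smul, inner_add_right,
      inner_smul_right]
    set b := ‖⟪d, v⟫_ℂ‖ ^ 2 / D with hb
    have hb0 : 0 ≤ b := by positivity
    have hb1 : 0 ≤ ‖v‖ ^ 2 - b := by
      rw [sub_nonneg, hb, div_le_iff₀ hD0, hD, ← mul_pow, mul_comm]
      gcongr
      exact norm_inner_le_norm _ _
    have e : l * ⟪v, v⟫_ℂ + κ * ⟪d, v⟫_ℂ * ⟪v, d⟫_ℂ = ((‖v‖ ^ 2 - b : ℝ) : ℂ) * l + (b : ℂ) * m := by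
      have : (D : ℂ) ≠ 0 := by exact_mod_cast hD0.ne'
      rw [hvv, ← inner_conj_symm v d, mul_assoc, Complex.mul_conj', hm, hb]
      push_cast
      field_simp
      ring
    rw [e]
    exact (hls.smul hb1).add hc (hms.smul hb0)

lemma top_vector [CompleteSpace E] {c s : ℝ} (hc : 0 ≤ c) (hs : 0 ≤ s) (h1 : c ^ 2 + s ^ 2 = 1)
    (U : E →L[ℂ] E) (hU : ‖U‖ ≤ 1) (hS : ∀ v, Sec c ⟪v, U v⟫_ℂ) (u w : E) (hu : ‖u‖ = 1)
    (hw : ‖w‖ = 1) (h : U u = w) : c ≤ (⟪u, w⟫_ℂ).re := by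
  have hvv : ∀ v : E, ⟪v, v⟫_ℂ = ((‖v‖ ^ 2 : ℝ) : ℂ) := fun v => by
    rw [inner_self_eq_norm_sq_to_K]; simp
  have hww : ⟪w, w⟫_ℂ = 1 := by rw [hvv, hw]; simp
  have h2 : ContinuousLinearMap.adjoint U w = u := by
    have h3 : ‖ContinuousLinearMap.adjoint U w‖ ≤ 1 := by
      have := (ContinuousLinearMap.adjoint U).le_opNorm w
      rw [LinearIsometryEquiv.norm_map, hw, mul_one] at this
      exact this.trans hU
    have h4 : ⟪ContinuousLinearMap.adjoint U w, u⟫_ℂ = 1 := by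
      rw [ContinuousLinearMap.adjoint_inner_left, h, hww]
    have h5 := norm_sub_sq (𝕜 := ℂ) (ContinuousLinearMap.adjoint U w) u
    rw [h4, hu] at h5
    simp only [RCLike.one_re] at h5
    have h6 : ‖ContinuousLinearMap.adjoint U w - u‖ ^ 2 ≤ 0 := by
      nlinarith [norm_nonneg (ContinuousLinearMap.adjoint U w)]
    rwa [sq_nonpos_iff, norm_eq_zero, sub_eq_zero] at h6
  set a := ⟪u, w⟫_ℂ with ha
  set d := ⟪u, U w⟫_ℂ with hd
  have h3 : ⟪w, U w⟫_ℂ = a := by rw [← ContinuousLinearMap.adjoint_inner_left, h2]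
  have key : ∀ β : ℂ, conj β * β = 1 → Sec c (2 * a + β * d + conj β) := by
    intro β hβ
    have := hS ((1 : ℂ) • u + β • w)
    rw [form_expand, h, h3, hβ, hww, ← ha, ← hd] at this
    convert this using 1
    simp only [map_one, one_mul]; ring
  have k1 := (key Complex.I (by simp)).im hc hs h1
  have k2 := (key (-Complex.I) (by simp)).im hc hs h1
  have k3 := (key (-1) (by simp)).im hc hs h1
  have k4 := (key ⟨-c, -s⟩ (by
    apply Complex.ext <;> simp <;> nlinarith)).im hc hs h1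
  have k5 := (key ⟨-c, s⟩ (by
    apply Complex.ext <;> simp <;> nlinarith)).im hc hs h1
  rcases hs.eq_or_lt with rfl | hs'
  · have hc1 : c = 1 := by nlinarith
    subst hc1
    have e1 := abs_nonpos_iff.mp (by simpa only [mul_one, mul_zero] using k1.2)
    have e2 := abs_nonpos_iff.mp (by simpa only [mul_one, mul_zero] using k2.2)
    have e3 := k3.1
    simp at e1 e2 e3
    linarith
  · have e1 := (mul_le_mul_of_nonneg_right (le_abs_self _) hc).trans k4.2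
    have e2 := (mul_le_mul_of_nonneg_right (neg_le_abs _) hc).trans k5.2
    simp at e1 e2
    clear * - e1 e2 hs' h1
    have : s * (a.re - c) ≥ 0 := by nlinarith
    have := nonneg_of_mul_nonneg_right this hs'
    linarith

end Pool.Agent.H7.Mu
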