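import Pool.Agent.H7.Lmi1

namespace Pool.Agent.H7.Mu

open scoped ComplexOrder Matrix InnerProductSpace ComplexConjugate
open Finset Real

variable {E : Type*} [NormedAddCommGroup E] [InnerProductSpace ℂ E]

lemma form_smul (T : E →L[ℂ] E) (x : E) (t : ℝ) :
    ⟪(t : ℂ) • x, T ((t : ℂ) • x)⟫_ℂ = ((t ^ 2 : ℝ) : ℂ) * ⟪x, T x⟫_ℂ := by
  simp only [map_smul, inner_smul_left, inner_smul_right, Complex.conj_ofReal]
  push_cast; ring

lemma exists_K [FiniteDimensional ℂ E] (T : E →L[ℂ] E) {c m : ℝ} (hm : 0 ≤ m)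
    (h : ∀ x, ‖x‖ = 1 → Sec c (-⟪x, T x⟫_ℂ) → ‖T x‖ < m) :
    ∃ K : ℝ, 0 ≤ K ∧ ∀ z, ‖T z‖ ^ 2 - m ^ 2 * ‖z‖ ^ 2 ≤
      K * max (‖⟪z, T z⟫_ℂ‖ * c + (⟪z, T z⟫_ℂ).re) 0 := by
  have : ProperSpace E := FiniteDimensional.proper ℂ E
  have hZ : IsCompact (Metric.sphere (0 : E) 1 ∩ {x | m ≤ ‖T x‖}) :=
    (isCompact_sphere _ _).inter_right (isClosed_le continuous_const (by fun_prop))
  obtain ⟨δ, hδ, h2⟩ := hZ.exists_forall_le' (a := 0)
    (f := fun z => ‖⟪z, T z⟫_ℂ‖ * c + (⟪z, T z⟫_ℂ).re) (by fun_prop) (fun x hx => by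
      by_contra h3
      refine absurd (h x (by simpa using hx.1) ?_) (not_lt.mpr hx.2)
      simp only [Sec, norm_neg, Complex.neg_re]
      linarith)
  refine ⟨‖T‖ ^ 2 / δ, by positivity, fun z => ?_⟩
  have h3 : ∀ x, ‖x‖ = 1 → ‖T x‖ ^ 2 - m ^ 2 ≤
      ‖T‖ ^ 2 / δ * max (‖⟪x, T x⟫_ℂ‖ * c + (⟪x, T x⟫_ℂ).re) 0 := by
    intro x hx
    by_cases h4 : m ≤ ‖T x‖
    · have h5 := (h2 x ⟨by simpa using hx, h4⟩).trans (le_max_left _ 0)
      have h6 : ‖T x‖ ≤ ‖T‖ := by simpa [hx] using T.le_opNorm x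
      calc ‖T x‖ ^ 2 - m ^ 2 ≤ ‖T‖ ^ 2 := by
            have : ‖T x‖ ^ 2 ≤ ‖T‖ ^ 2 := by gcongr
            nlinarith
        _ = ‖T‖ ^ 2 / δ * δ := by field_simp
        _ ≤ _ := by gcongr
    · have h5 : ‖T x‖ ^ 2 ≤ m ^ 2 := by gcongr; linarith
      have : 0 ≤ ‖T‖ ^ 2 / δ * max (‖⟪x, T x⟫_ℂ‖ * c + (⟪x, T x⟫_ℂ).re) 0 :=
        mul_nonneg (by positivity) (le_max_right _ _)
      linarith
  by_cases hz : z = 0
  · simp [hz]
  have hn : 0 < ‖z‖ := norm_pos_iff.mpr hz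
  obtain ⟨t, x, ht, hx, rfl⟩ : ∃ (t : ℝ) (x : E), 0 < t ∧ ‖x‖ = 1 ∧ z = (t : ℂ) • x :=
    ⟨_, ((‖z‖ : ℝ) : ℂ)⁻¹ • z, hn, by simp [norm_smul, hn.ne'],
      by rw [smul_inv_smul₀ (by exact_mod_cast hn.ne')]⟩
  have h4 := mul_le_mul_of_nonneg_left (h3 x hx) (sq_nonneg t)
  rw [form_smul, map_smul, norm_smul, norm_smul, norm_mul, Complex.re_ofReal_mul, hx,
    Complex.norm_real, Complex.norm_real, Real.norm_of_nonneg ht.le,
    Real.norm_of_nonneg (sq_nonneg t), mul_assoc, ← mul_add, ← mul_zero (t ^ 2),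
    ← mul_max_of_nonneg _ _ (sq_nonneg t)]
  linarith

lemma slemma [FiniteDimensional ℂ E] (T : E →L[ℂ] E) {c s m γ : ℝ} (hc : 0 ≤ c) (hs : 0 ≤ s)
    (h1 : c ^ 2 + s ^ 2 = 1) (hm : 0 ≤ m) (hγ : m < γ)
    (h : ∀ x, ‖x‖ = 1 → Sec c (-⟪x, T x⟫_ℂ) → ‖T x‖ ≤ m) :
    ∃ r : ℝ, 0 < r ∧ ∃ β : ℝ, |β| * s ≤ c ∧ ∀ x, x ≠ 0 →
      r * (‖T x‖ ^ 2 - γ ^ 2 * ‖x‖ ^ 2) < 2 * ((1 + Complex.I * β) * ⟪x, T x⟫_ℂ).re := by
  have : CompleteSpace E := FiniteDimensional.complete ℂ E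
  set m' := (m + γ) / 2 with hm'
  obtain ⟨K, hK, h2⟩ := exists_K T (c := c) (m := m') (by linarith)
    fun x hx hx' => (h x hx hx').trans_lt (by linarith)
  set A : E →L[ℂ] E := ContinuousLinearMap.adjoint T ∘L T - ((m' ^ 2 : ℝ) : ℂ) • 1 with hA
  have hA' : ∀ z, (⟪z, A z⟫_ℂ).re = ‖T z‖ ^ 2 - m' ^ 2 * ‖z‖ ^ 2 := by
    intro z
    simp only [hA, _root_.sub_apply, ContinuousLinearMap.comp_apply, _root_.smul_apply,
      one_apply_eq_self, inner_sub_right, ContinuousLinearMap.adjoint_inner_right, inner_smul_right,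
      inner_self_eq_norm_sq_to_K, Complex.sub_re, Complex.re_ofReal_mul]
    norm_cast
  have hO : Convex ℝ {p : ℝ × ℂ | K * max (‖p.2‖ * c + p.2.re) 0 < p.1} := by
    intro p hp q hq a b ha hb hab
    simp only [Set.mem_ofPred_eq, Prod.snd_add, Prod.smul_snd, Prod.fst_add, Prod.smul_fst,
      smul_eq_mul, Complex.add_re, Complex.real_smul, Complex.re_ofReal_mul] at hp hq ⊢
    have e1 : ‖(a : ℂ) * p.2 + b * q.2‖ ≤ a * ‖p.2‖ + b * ‖q.2‖ := by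
      refine (norm_add_le _ _).trans ?_
      simp [abs_of_nonneg ha, abs_of_nonneg hb]
    have e2 : max (‖(a : ℂ) * p.2 + b * q.2‖ * c + (a * p.2.re + b * q.2.re)) 0 ≤
        a * max (‖p.2‖ * c + p.2.re) 0 + b * max (‖q.2‖ * c + q.2.re) 0 := by
      have f1 := mul_le_mul_of_nonneg_left (le_max_left (‖p.2‖ * c + p.2.re) 0) ha
      have f2 := mul_le_mul_of_nonneg_left (le_max_left (‖q.2‖ * c + q.2.re) 0) hb
      have f3 := mul_le_mul_of_nonneg_right e1 hc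
      refine max_le (by linarith) (add_nonneg (mul_nonneg ha (le_max_right _ _))
        (mul_nonneg hb (le_max_right _ _)))
    have e3 := mul_le_mul_of_nonneg_left e2 hK
    have e4 := Convex.combo_self hab (0 : ℝ)
    rcases ha.eq_or_lt with rfl | ha'
    · have : b = 1 := by linarith
      subst this
      linarith
    · have f1 := mul_lt_mul_of_pos_left hp ha'
      have f2 := mul_le_mul_of_nonneg_left hq.le hb
      linarith
  have hS : Convex ℝ {p : ℝ × ℂ | ∃ z, ⟪z, T z⟫_ℂ = p.2 ∧ p.1 ≤ (⟪z, A z⟫_ℂ).re} := by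
    rintro p ⟨x, hx, hx'⟩ q ⟨y, hy, hy'⟩ a b ha hb -
    have e1 : ∀ (S : E →L[ℂ] E) (v : E) (t : ℝ), 0 ≤ t →
        ⟪((√t : ℝ) : ℂ) • v, S (((√t : ℝ) : ℂ) • v)⟫_ℂ = t * ⟪v, S v⟫_ℂ := fun S v t ht => by
      rw [form_smul, Real.sq_sqrt ht]
    have f1 := mul_le_mul_of_nonneg_left hx' ha
    have f2 := mul_le_mul_of_nonneg_left hy' hb
    simp only [Set.mem_ofPred_eq, Prod.snd_add, Prod.smul_snd, Prod.fst_add, Prod.smul_fst,
      smul_eq_mul, Complex.real_smul]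
    by_cases h0 : ((√a : ℝ) : ℂ) • x = 0
    · have g1 := e1 T x a ha
      have g2 := congrArg Complex.re (e1 A x a ha)
      rw [h0, inner_zero_left] at g1 g2
      refine ⟨((√b : ℝ) : ℂ) • y, by rw [e1 _ _ _ hb, ← hx, ← g1, hy, zero_add], ?_⟩
      rw [e1 _ _ _ hb, Complex.re_ofReal_mul]
      rw [Complex.re_ofReal_mul, Complex.zero_re] at g2
      linarith
    · obtain ⟨z, -, g1, g2⟩ := add_forms A T _ (((√b : ℝ) : ℂ) • y) h0
      rw [e1 _ _ _ ha, e1 _ _ _ hb] at g1 g2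
      rw [Complex.re_ofReal_mul, Complex.re_ofReal_mul] at g2
      exact ⟨z, by rw [g1, hx, hy], by linarith⟩
  obtain ⟨f, u, h3, h4⟩ := geometric_hahn_banach_open hO (isOpen_lt (by fun_prop) (by fun_prop)) hS
    (Set.disjoint_left.mpr fun p hp ⟨z, hz, hz'⟩ => by
      have := h2 z
      rw [← hA', hz] at this
      exact absurd (hz'.trans this) (not_le.mpr hp))
  set a := f (1, 0)
  set p := f (0, 1)
  set q := f (0, Complex.I)
  have hf : ∀ t (z : ℂ), f (t, z) = a * t + p * z.re + q * z.im := by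
    intro t z
    have : ((t, z) : ℝ × ℂ) = t • ((1, 0) : ℝ × ℂ) + z.re • ((0, 1) : ℝ × ℂ)
        + z.im • ((0, Complex.I) : ℝ × ℂ) := by
      ext <;> simp
    rw [this, map_add, map_add, map_smul, map_smul, map_smul]
    simp only [smul_eq_mul]; ring
  have hu : u ≤ 0 := by simpa using h4 0 ⟨0, by simp, by simp⟩
  have h5 : ∀ t (z : ℂ), 0 < t → Sec c (-z) → a * t + p * z.re + q * z.im < u := by
    intro t z ht hz
    rw [← hf]
    refine h3 _ ?_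
    simp only [Sec, norm_neg, Complex.neg_re] at hz
    simp only [Set.mem_ofPred_eq]
    rwa [max_eq_right (by linarith), mul_zero]
  have ha : a < 0 := by
    have := h5 1 0 one_pos (by simp [Sec])
    simp at this
    linarith
  have h6 : ∀ z : ℂ, Sec c (-z) → p * z.re + q * z.im ≤ u := by
    intro z hz
    by_contra h7
    have := h5 ((u - (p * z.re + q * z.im)) / a) z (div_pos_of_neg_of_neg (by linarith) ha) hz
    rw [mul_div_cancel₀ _ ha.ne] at this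
    linarith
  have hu' : 0 ≤ u := by simpa using h6 0 (by simp [Sec])
  have hc1 : c ≤ 1 := by nlinarith
  have hp : 0 ≤ p := by
    have := h6 (-1) (by simpa [Sec] using hc1)
    simp at this
    linarith
  have hn : ∀ t : ℝ, t ^ 2 = s ^ 2 → Sec c (-(-⟨c, t⟩)) := by
    intro t ht
    have : ‖(⟨c, t⟩ : ℂ)‖ = 1 := by
      rw [← sq_eq_sq₀ (norm_nonneg _) zero_le_one, Complex.sq_norm, Complex.normSq_apply]
      simp only; nlinarith
    simp [Sec, this]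
  have hq : |q| * s ≤ p * c := by
    have g1 := h6 _ (hn s rfl)
    have g2 := h6 _ (hn (-s) (neg_sq s))
    simp at g1 g2
    rcases abs_cases q with ⟨e, -⟩ | ⟨e, -⟩ <;> rw [e] <;> linarith
  have hd : 0 < γ ^ 2 - m' ^ 2 := by
    have : m' ^ 2 < γ ^ 2 := by gcongr <;> linarith
    linarith
  set ε := -a * (γ ^ 2 - m' ^ 2) / (‖T‖ + 1) with hε
  have hε0 : 0 < ε := div_pos (mul_pos (by linarith) hd) (by positivity)
  have hε1 : ε * (‖T‖ + 1) = -a * (γ ^ 2 - m' ^ 2) := by rw [hε]; field_simp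
  have hp' : 0 < p + ε := by linarith
  refine ⟨2 * -a / (p + ε), div_pos (by linarith) hp', -q / (p + ε), ?_, fun x hx => ?_⟩
  · rw [abs_div, abs_neg, abs_of_pos hp', div_mul_eq_mul_div, div_le_iff₀ hp']
    have := mul_nonneg hc hε0.le
    linarith
  · have g1 := h4 ((⟪x, A x⟫_ℂ).re, ⟪x, T x⟫_ℂ) ⟨x, rfl, le_rfl⟩
    rw [hf, hA'] at g1
    have g2 : -(⟪x, T x⟫_ℂ).re ≤ ‖T‖ * ‖x‖ ^ 2 := by
      have k1 := (neg_le_abs _).trans (Complex.abs_re_le_norm ⟪x, T x⟫_ℂ)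
      have k2 := norm_inner_le_norm (𝕜 := ℂ) x (T x)
      have k3 := mul_le_mul_of_nonneg_left (T.le_opNorm x) (norm_nonneg x)
      linarith
    have g3 : 0 < ‖x‖ ^ 2 := by positivity
    have g4 : ((1 + Complex.I * ((-q / (p + ε) : ℝ) : ℂ)) * ⟪x, T x⟫_ℂ).re
        = ((p + ε) * (⟪x, T x⟫_ℂ).re + q * (⟪x, T x⟫_ℂ).im) / (p + ε) := by
      simp only [Complex.mul_re, Complex.add_re, Complex.one_re, Complex.I_re, Complex.ofReal_re,
        Complex.I_im, Complex.ofReal_im, Complex.add_im, Complex.one_im, Complex.mul_im]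
      field_simp
      ring
    rw [g4, div_mul_eq_mul_div, ← mul_div_assoc, div_lt_div_iff_of_pos_right hp']
    have g5 := mul_le_mul_of_nonneg_left g2 hε0.le
    have g6 := mul_pos hε0 g3
    have g7 : ε * (‖T‖ + 1) * ‖x‖ ^ 2 = -a * (γ ^ 2 - m' ^ 2) * ‖x‖ ^ 2 := by rw [hε1]
    linarith

end Pool.Agent.H7.Mu
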