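import Pool.Agent.H7.Lmi2

namespace Pool.Agent.H7.Mu

open scoped ComplexOrder Matrix InnerProductSpace ComplexConjugate Matrix.Norms.L2Operator
open Finset Real WithLp

variable {n : ℕ}

/-- the operator of a matrix -/
noncomputable abbrev op (M : Matrix (Fin n) (Fin n) ℂ) :
    EuclideanSpace ℂ (Fin n) →L[ℂ] EuclideanSpace ℂ (Fin n) :=
  Matrix.toEuclideanCLM (n := Fin n) (𝕜 := ℂ) M

lemma en_eq (x : EuclideanSpace ℂ (Fin n)) : en x.ofLp = ‖x‖ := by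
  rw [EuclideanSpace.norm_eq]; rfl

lemma en_op (M : Matrix (Fin n) (Fin n) ℂ) (x : EuclideanSpace ℂ (Fin n)) :
    en (M *ᵥ x.ofLp) = ‖op M x‖ := en_eq (op M x)

lemma form_eq (M : Matrix (Fin n) (Fin n) ℂ) (x : EuclideanSpace ℂ (Fin n)) :
    star x.ofLp ⬝ᵥ M *ᵥ x.ofLp = ⟪x, op M x⟫_ℂ := by
  rw [EuclideanSpace.inner_eq_star_dotProduct, dotProduct_comm]; rfl

lemma forall_lp {P : (Fin n → ℂ) → Prop} : (∀ x, P x) ↔ ∀ x : EuclideanSpace ℂ (Fin n), P x.ofLp :=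
  ⟨fun h _ => h _, fun h x => h (toLp 2 x)⟩

lemma exists_lp {P : (Fin n → ℂ) → Prop} : (∃ x, P x) ↔ ∃ x : EuclideanSpace ℂ (Fin n), P x.ofLp :=
  ⟨fun ⟨x, h⟩ => ⟨toLp 2 x, h⟩, fun ⟨_, h⟩ => ⟨_, h⟩⟩

lemma polar {E : Type*} [NormedAddCommGroup E] [NormedSpace ℂ E] {z : E} (hz : z ≠ 0) :
    ∃ (t : ℝ) (x : E), 0 < t ∧ ‖x‖ = 1 ∧ z = (t : ℂ) • x := by
  have hn : 0 < ‖z‖ := norm_pos_iff.mpr hz
  exact ⟨_, ((‖z‖ : ℝ) : ℂ)⁻¹ • z, hn, by simp [norm_smul, hn.ne'],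
      by rw [smul_inv_smul₀ (by exact_mod_cast hn.ne')]⟩

lemma sing_iff {θ : ℝ} (h0 : 0 ≤ θ) (h1 : θ ≤ π / 2) (M Γ : Matrix (Fin n) (Fin n) ℂ) :
    Γ ∈ Sing θ M ↔ (∀ v, Sec (cos θ) ⟪v, op Γ v⟫_ℂ) ∧ ∃ x, ‖x‖ = 1 ∧ op Γ (op M x) = -x := by
  have e : ∀ x : EuclideanSpace ℂ (Fin n), (1 + Γ * M) *ᵥ x.ofLp = 0 ↔ op Γ (op M x) = -x := by
    intro x
    rw [Matrix.add_mulVec, Matrix.one_mulVec, ← Matrix.mulVec_mulVec, add_comm,
      add_eq_zero_iff_eq_neg]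
    exact ⟨fun h => ofLp_injective 2 h, fun h => congrArg ofLp h⟩
  refine and_congr ?_ ?_
  · unfold Gam
    rw [forall_lp]
    simp only [en_eq, form_eq, inSector_iff h0 h1]
    refine ⟨fun h v => ?_, fun h v _ => h v⟩
    by_cases hv : v = 0
    · simp [hv, Sec]
    obtain ⟨t, x, ht, hx, rfl⟩ := polar hv
    rw [form_smul]
    exact (h x hx).smul (sq_nonneg t)
  · rw [← Matrix.exists_mulVec_eq_zero_iff, exists_lp]
    simp only [e]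
    constructor
    · rintro ⟨v, hv, h⟩
      obtain ⟨t, x, ht, hx, rfl⟩ := polar (z := v) (fun h => hv (by simp [h]))
      refine ⟨x, hx, ?_⟩
      rw [map_smul, map_smul, ← smul_neg] at h
      exact smul_right_injective _ (by exact_mod_cast ht.ne') h
    · rintro ⟨x, hx, h⟩
      refine ⟨x, fun h => ?_, h⟩
      have : x = 0 := ofLp_injective 2 h
      simp [this] at hx

lemma lmi_iff (M : Matrix (Fin n) (Fin n) ℂ) (γ r β : ℝ) :
    (-lmi M γ r β).PosDef ↔ ∀ x, x ≠ 0 → r * (‖op M x‖ ^ 2 - γ ^ 2 * ‖x‖ ^ 2) <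
      2 * ((1 + Complex.I * β) * ⟪x, op M x⟫_ℂ).re := by
  have hH : (-lmi M γ r β).IsHermitian := by
    simp [Matrix.IsHermitian, lmi, add_comm]
  have e : ∀ x : EuclideanSpace ℂ (Fin n), star x.ofLp ⬝ᵥ (-lmi M γ r β) *ᵥ x.ofLp =
      ((2 * ((1 + Complex.I * β) * ⟪x, op M x⟫_ℂ).re
        - r * (‖op M x‖ ^ 2 - γ ^ 2 * ‖x‖ ^ 2) : ℝ) : ℂ) := by
    intro x
    rw [form_eq]
    simp only [lmi, ← Matrix.star_eq_conjTranspose, op, map_neg, map_sub, map_add, map_smul, map_mul,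
      map_star, map_one, _root_.neg_apply, _root_.sub_apply, _root_.add_apply, _root_.smul_apply,
      one_apply_eq_self, mul_apply_eq_comp, ContinuousLinearMap.star_eq_adjoint, inner_neg_right,
      inner_sub_right, inner_add_right, inner_smul_right, ContinuousLinearMap.adjoint_inner_right,
      inner_smul_left, inner_self_eq_norm_sq_to_K]
    rw [← inner_conj_symm (Matrix.toEuclideanCLM (n := Fin n) (𝕜 := ℂ) M x) x]
    have := Complex.add_conj ((1 + Complex.I * β) *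
      ⟪x, Matrix.toEuclideanCLM (n := Fin n) (𝕜 := ℂ) M x⟫_ℂ)
    rw [map_mul, map_add, map_one, map_mul] at this
    rw [this]
    push_cast
    simp only [Complex.coe_algebraMap]
    ring
  rw [Matrix.posDef_iff_dotProduct_mulVec, and_iff_right hH, forall_lp]
  simp only [e, Complex.zero_lt_real, sub_pos, ne_eq, ofLp_eq_zero]

lemma beta_iff {θ : ℝ} (h0 : 0 ≤ θ) (h1 : θ ≤ π / 2) (β : ℝ) :
    (θ = 0 ∨ |β| ≤ Real.cot θ) ↔ |β| * sin θ ≤ cos θ := by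
  rcases h0.eq_or_lt with rfl | h
  · simp
  · have : 0 < sin θ := sin_pos_of_pos_of_lt_pi h (by linarith [pi_pos])
    rw [Real.cot_eq_cos_div_sin, le_div_iff₀ this]
    simp [h.ne']

lemma feas_gt {c s β r γ : ℝ} (hc : 0 ≤ c) (hs : 0 ≤ s) (h1 : c ^ 2 + s ^ 2 = 1) (hβ : |β| * s ≤ c)
    (hr : 0 < r) (hγ : 0 < γ) {z : ℂ} {t : ℝ} (hz : Sec c (-z))
    (h : r * (t ^ 2 - γ ^ 2 * 1 ^ 2) < 2 * ((1 + Complex.I * β) * z).re) : t < γ := by
  obtain ⟨h2, h3⟩ := hz.im hc hs h1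
  simp only [Complex.neg_re, Complex.neg_im, abs_neg] at h2 h3
  have h4 : ((1 + Complex.I * β) * z).re ≤ 0 := by
    have e : ((1 + Complex.I * β) * z).re = z.re - β * z.im := by simp
    have h5 : -(β * z.im) ≤ |β| * |z.im| := by rw [← abs_mul]; exact neg_le_abs _
    rw [e]
    rcases hc.eq_or_lt with rfl | hc'
    · have : s = 1 := by nlinarith
      subst this
      have : β = 0 := abs_nonpos_iff.mp (by linarith)
      subst this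
      linarith
    · have h6 := mul_le_mul_of_nonneg_left h3 (abs_nonneg β)
      have h7 := mul_le_mul_of_nonneg_left hβ h2
      have : (|β| * |z.im|) * c ≤ -z.re * c := by linarith
      have := le_of_mul_le_mul_right this hc'
      linarith
  have h5 : t ^ 2 - γ ^ 2 * 1 ^ 2 < 0 := by
    by_contra h6
    have := mul_nonneg hr.le (not_lt.mp h6)
    linarith
  exact lt_of_pow_lt_pow_left₀ 2 hγ.le (by linarith)

section
variable {θ : ℝ} (h0 : 0 ≤ θ) (h1 : θ ≤ π / 2) (M : Matrix (Fin n) (Fin n) ℂ)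
include h0 h1

lemma cs : 0 ≤ cos θ ∧ 0 ≤ sin θ ∧ cos θ ^ 2 + sin θ ^ 2 = 1 :=
  ⟨cos_nonneg_of_mem_Icc ⟨by linarith, h1⟩, sin_nonneg_of_nonneg_of_le_pi h0 (by linarith [pi_pos]),
    cos_sq_add_sin_sq θ⟩

lemma muHat_le {m : ℝ} (hm : 0 ≤ m)
    (h : ∀ x, ‖x‖ = 1 → Sec (cos θ) (-⟪x, op M x⟫_ℂ) → ‖op M x‖ ≤ m) : muHat θ M ≤ m := by
  obtain ⟨hc, hs, e⟩ := cs h0 h1
  refine le_of_forall_gt_imp_ge_of_dense fun γ hγ => csInf_le ⟨0, fun _ h => h.1.le⟩ ?_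
  obtain ⟨r, hr, β, h2, h3⟩ := slemma (op M) hc hs e hm hγ h
  exact ⟨hm.trans_lt hγ, r, hr, β, (beta_iff h0 h1 β).mpr h2, (lmi_iff _ _ _ _).mpr h3⟩

lemma le_muHat (x : EuclideanSpace ℂ (Fin n)) (hx : ‖x‖ = 1)
    (h : Sec (cos θ) (-⟪x, op M x⟫_ℂ)) : ‖op M x‖ ≤ muHat θ M := by
  obtain ⟨hc, hs, e⟩ := cs h0 h1
  refine le_csInf ?_ ?_
  · obtain ⟨r, hr, β, h2, h3⟩ := slemma (op M) hc hs e (norm_nonneg (op M)) (lt_add_one _)
      fun x hx _ => by simpa [hx] using (op M).le_opNorm x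
    exact ⟨_, by positivity, r, hr, β, (beta_iff h0 h1 β).mpr h2, (lmi_iff _ _ _ _).mpr h3⟩
  · rintro γ ⟨hγ, r, hr, β, h2, h3⟩
    have h4 := (lmi_iff _ _ _ _).mp h3 x (by rintro rfl; simp at hx)
    rw [hx] at h4
    exact (feas_gt hc hs e ((beta_iff h0 h1 β).mp h2) hr hγ h h4).le

lemma exists_min (h : (Sing θ M).Nonempty) :
    ∃ Γ ∈ Sing θ M, 0 < ‖Γ‖ ∧ mu θ M = 1 / ‖Γ‖ ∧ ∀ Γ' ∈ Sing θ M, ‖Γ‖ ≤ ‖Γ'‖ := by
  have : ProperSpace (Matrix (Fin n) (Fin n) ℂ) := FiniteDimensional.proper ℂ _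
  have hcl : IsClosed (Sing θ M) := by
    have e : Sing θ M = (⋂ x : Fin n → ℂ, {Γ | en x = 1 → Sec (cos θ) (star x ⬝ᵥ Γ *ᵥ x)}) ∩
        {Γ | (1 + Γ * M).det = 0} := by
      ext Γ
      simp [Sing, Gam, inSector_iff h0 h1]
    rw [e]
    refine (isClosed_iInter fun x => ?_).inter (isClosed_eq (by fun_prop) continuous_const)
    by_cases hx : en x = 1
    · simp only [hx, forall_const, Sec]
      exact isClosed_le (by fun_prop) (by fun_prop)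
    · simp [hx]
  obtain ⟨Γ, h2, h3⟩ := hcl.exists_infDist_eq_dist h 0
  have h4 : ∀ Γ' ∈ Sing θ M, ‖Γ‖ ≤ ‖Γ'‖ := fun Γ' h' => by
    have := Metric.infDist_le_dist_of_mem (x := 0) h'
    rwa [h3, dist_zero_left, dist_zero_left] at this
  refine ⟨Γ, h2, norm_pos_iff.mpr ?_, ?_, h4⟩
  · rintro rfl
    simpa using h2.2
  · have : IsLeast ((fun Γ => ‖Γ‖) '' Sing θ M) ‖Γ‖ :=
      ⟨⟨Γ, h2, rfl⟩, by rintro _ ⟨Γ', h', rfl⟩; exact h4 _ h'⟩
    rw [mu, if_pos h, this.csInf_eq]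

lemma mu_nonneg : 0 ≤ mu θ M := by
  by_cases h : (Sing θ M).Nonempty
  · obtain ⟨Γ, -, h2, h3, -⟩ := exists_min h0 h1 M h
    rw [h3]; positivity
  · rw [mu, if_neg h]

lemma le_mu (x : EuclideanSpace ℂ (Fin n)) (hx : ‖x‖ = 1)
    (h : cos θ * ‖op M x‖ ≤ -(⟪x, op M x⟫_ℂ).re) : ‖op M x‖ ≤ mu θ M := by
  obtain ⟨hc, hs, e⟩ := cs h0 h1
  by_cases hz : op M x = 0
  · rw [hz, norm_zero]; exact mu_nonneg h0 h1 M
  obtain ⟨t, u, ht, hu, h2⟩ := polar hz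
  have ht' : (t : ℂ) ≠ 0 := by exact_mod_cast ht.ne'
  have h3 : ‖op M x‖ = t := by rw [h2, norm_smul, hu]; simp [ht.le]
  obtain ⟨U, h4, h5, h6⟩ := exists_unitary hc e u (-x) hu (by rwa [norm_neg]) (by
    rw [h3, h2, inner_smul_right, Complex.re_ofReal_mul, ← inner_conj_symm, Complex.conj_re] at h
    rw [inner_neg_right, Complex.neg_re]
    exact le_of_mul_le_mul_right (by linarith) ht)
  obtain ⟨Γ, hΓ⟩ : ∃ Γ, Matrix.toEuclideanCLM (n := Fin n) (𝕜 := ℂ) Γ = ((t⁻¹ : ℝ) : ℂ) • U :=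
    (Matrix.toEuclideanCLM (n := Fin n) (𝕜 := ℂ)).surjective _
  have h7 : Γ ∈ Sing θ M := by
    rw [sing_iff h0 h1, op, hΓ]
    refine ⟨fun v => ?_, x, hx, ?_⟩
    · rw [_root_.smul_apply, inner_smul_right]
      exact (h6 v).smul (by positivity)
    · rw [h2, map_smul, _root_.smul_apply, h4, smul_smul]
      push_cast
      rw [mul_inv_cancel₀ ht', one_smul]
  obtain ⟨Γ', -, h8, h9, h10⟩ := exists_min h0 h1 M ⟨Γ, h7⟩
  have h11 : ‖Γ‖ ≤ t⁻¹ := by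
    rw [Matrix.cstar_norm_def, hΓ, norm_smul, Complex.norm_real, Real.norm_of_nonneg (by positivity)]
    exact mul_le_of_le_one_right (by positivity) h5
  rw [h3, h9, one_div, le_inv_comm₀ ht h8]
  exact (h10 _ h7).trans h11

lemma mu_vec (h : (Sing θ M).Nonempty) : ∃ x, ‖x‖ = 1 ∧ Sec (cos θ) (-⟪x, op M x⟫_ℂ) ∧
    mu θ M ≤ ‖op M x‖ ∧ (‖op M x‖ ≤ mu θ M → cos θ * ‖op M x‖ ≤ -(⟪x, op M x⟫_ℂ).re) := by
  obtain ⟨hc, hs, e⟩ := cs h0 h1
  obtain ⟨Γ, h2, h3, h4, -⟩ := exists_min h0 h1 M h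
  obtain ⟨h5, x, hx, h6⟩ := (sing_iff h0 h1 _ _).mp h2
  have h7 : mu θ M ≤ ‖op M x‖ := by
    have := (op Γ).le_opNorm (op M x)
    rw [h6, norm_neg, hx, ← Matrix.cstar_norm_def] at this
    rw [h4, div_le_iff₀ h3]
    linarith
  refine ⟨x, hx, ?_, h7, fun h8 => ?_⟩
  · have := (h5 (op M x)).conj
    rwa [h6, inner_neg_right, map_neg, inner_conj_symm] at this
  · have h9 : ‖op M x‖ = ‖Γ‖⁻¹ := by rw [le_antisymm h8 h7, h4, one_div]
    have h10 : ((‖Γ‖ : ℝ) : ℂ) ≠ 0 := by exact_mod_cast h3.ne'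
    have := top_vector hc hs e (((‖Γ‖⁻¹ : ℝ) : ℂ) • op Γ) (by
      rw [norm_smul, ← Matrix.cstar_norm_def, Complex.norm_real, norm_inv, norm_norm,
        inv_mul_cancel₀ h3.ne']) (fun v => by
      rw [_root_.smul_apply, inner_smul_right]
      exact (h5 v).smul (by positivity)) (((‖Γ‖ : ℝ) : ℂ) • op M x) (-x) (by
      rw [norm_smul, h9, Complex.norm_real, norm_norm, mul_inv_cancel₀ h3.ne'])
      (by rwa [norm_neg]) (by
      rw [map_smul, _root_.smul_apply, h6, smul_smul]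
      push_cast
      rw [mul_inv_cancel₀ h10, one_smul])
    rw [inner_smul_left, Complex.conj_ofReal, Complex.re_ofReal_mul, inner_neg_right,
      Complex.neg_re, ← inner_conj_symm, Complex.conj_re] at this
    rw [h9, ← div_eq_mul_inv, div_le_iff₀ h3]
    linarith

lemma mu_le_muHat : mu θ M ≤ muHat θ M := by
  by_cases h : (Sing θ M).Nonempty
  · obtain ⟨x, hx, h2, h3, -⟩ := mu_vec h0 h1 M h
    exact h3.trans (le_muHat h0 h1 M x hx h2)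
  · rw [mu, if_neg h]
    exact Real.sInf_nonneg fun _ h => h.1.le

theorem main : mu θ M = muHat θ M ↔ ∀ x, ‖x‖ = 1 → Sec (cos θ) (-⟪x, op M x⟫_ℂ) →
    ∃ y, ‖y‖ = 1 ∧ ‖op M x‖ ≤ ‖op M y‖ ∧ cos θ * ‖op M y‖ ≤ -(⟪y, op M y⟫_ℂ).re := by
  constructor
  · intro h x hx h2
    have h3 := le_muHat h0 h1 M x hx h2
    rw [← h] at h3
    by_cases h4 : (Sing θ M).Nonempty
    · obtain ⟨y, hy, h5, h6, h7⟩ := mu_vec h0 h1 M h4
      exact ⟨y, hy, h3.trans h6, h7 (h ▸ le_muHat h0 h1 M y hy h5)⟩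
    · rw [mu, if_neg h4, norm_le_zero_iff] at h3
      exact ⟨x, hx, le_rfl, by simp [h3]⟩
  · intro h
    refine le_antisymm (mu_le_muHat h0 h1 M) (muHat_le h0 h1 M (mu_nonneg h0 h1 M) fun x hx h2 => ?_)
    obtain ⟨y, hy, h3, h4⟩ := h x hx h2
    exact h3.trans (le_mu h0 h1 M y hy h4)

end

end Pool.Agent.H7.Mu
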