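import Mathlib

namespace Pool.Agent.H7.Mu

open scoped ComplexOrder Matrix Matrix.Norms.L2Operator

variable {n : ℕ}

/-- The closed sector `{z : z = 0 or |arg z| ≤ θ}`. -/
def InSector (θ : ℝ) (z : ℂ) : Prop := z = 0 ∨ |Complex.arg z| ≤ θ

/-- The Euclidean norm on `ℂ^n`. -/
noncomputable def en (x : Fin n → ℂ) : ℝ := √(∑ i, ‖x i‖ ^ 2)

/-- The set `Γ_θ`: the numerical range lies in the sector. -/
def Gam (θ : ℝ) (Γ : Matrix (Fin n) (Fin n) ℂ) : Prop :=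
  ∀ x : Fin n → ℂ, en x = 1 → InSector θ (star x ⬝ᵥ Γ *ᵥ x)

/-- The set `S_θ(M)`. -/
def Sing (θ : ℝ) (M : Matrix (Fin n) (Fin n) ℂ) : Set (Matrix (Fin n) (Fin n) ℂ) :=
  {Γ | Gam θ Γ ∧ (1 + Γ * M).det = 0}

open Classical in
/-- The phase-sensitive structured singular value (the matrix norm is the largest singular
value). -/
noncomputable def mu (θ : ℝ) (M : Matrix (Fin n) (Fin n) ℂ) : ℝ :=
  if (Sing θ M).Nonempty then 1 / sInf ((fun Γ => ‖Γ‖) '' Sing θ M) else 0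

/-- The matrix of the linear matrix inequality. -/
noncomputable def lmi (M : Matrix (Fin n) (Fin n) ℂ) (γ r β : ℝ) : Matrix (Fin n) (Fin n) ℂ :=
  (r : ℂ) • (Mᴴ * M - ((γ : ℂ) ^ 2) • 1)
    - ((1 + Complex.I * β) • M + ((1 + Complex.I * β) • M)ᴴ)

/-- The LMI upper bound. -/
noncomputable def muHat (θ : ℝ) (M : Matrix (Fin n) (Fin n) ℂ) : ℝ :=
  sInf {γ : ℝ | 0 < γ ∧ ∃ r : ℝ, 0 < r ∧ ∃ β : ℝ, (θ = 0 ∨ |β| ≤ Real.cot θ) ∧
    (-lmi M γ r β).PosDef}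

end Pool.Agent.H7.Mu
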