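import Mathlib

set_option autoImplicit false

namespace Pool.Agent.H7.Markov

variable {α β γ : Type} [Fintype α] [Fintype β] [Fintype γ]

/-- The integer array of a table. -/
def cz (u : α → β → γ → ℕ) : α → β → γ → ℤ := fun i j k => (u i j k : ℤ)

def Step (B : Finset (α → β → γ → ℤ)) (w w' : α → β → γ → ℕ) : Prop :=
  ∃ m ∈ B, (∀ i j k, (w' i j k : ℤ) = (w i j k : ℤ) + m i j k) ∨
    (∀ i j k, (w' i j k : ℤ) = (w i j k : ℤ) - m i j k)

def MB (L : AddSubgroup (α → β → γ → ℤ)) (B : Finset (α → β → γ → ℤ)) : Prop :=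
  (∀ m ∈ B, m ∈ L) ∧ ∀ u v, cz v - cz u ∈ L → Relation.ReflTransGen (Step B) u v

omit [Fintype α] [Fintype β] [Fintype γ] in
lemma step_symm {B : Finset (α → β → γ → ℤ)} {w w' : α → β → γ → ℕ} (h : Step B w w') :
    Step B w' w := by
  obtain ⟨m, hm, h | h⟩ := h
  · exact ⟨m, hm, Or.inr fun i j k => by rw [h i j k]; ring⟩
  · exact ⟨m, hm, Or.inl fun i j k => by rw [h i j k]; ring⟩

omit [Fintype α] [Fintype β] [Fintype γ] in
lemma rtg_symm {B : Finset (α → β → γ → ℤ)} {w w' : α → β → γ → ℕ}
    (h : Relation.ReflTransGen (Step B) w w') : Relation.ReflTransGen (Step B) w' w := by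
  induction h with
  | refl => exact Relation.ReflTransGen.refl
  | tail _ h2 ih => exact Relation.ReflTransGen.head (step_symm h2) ih

def phi (m : α → β → γ → ℤ) : (α → β → γ → ℕ) × (α → β → γ → ℕ) :=
  (fun i j k => (m i j k).toNat, fun i j k => (-m i j k).toNat)

omit [Fintype α] [Fintype β] [Fintype γ] in
lemma phi_inj : Function.Injective (phi (α := α) (β := β) (γ := γ)) := by
  intro m m' h
  funext i j k
  have h1 := congrFun (congrFun (congrFun (congrArg Prod.fst h) i) j) k
  have h2 := congrFun (congrFun (congrFun (congrArg Prod.snd h) i) j) k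
  simp only [phi] at h1 h2
  omega

def nrm (m : α → β → γ → ℤ) : ℕ := ∑ i, ∑ j, ∑ k, (m i j k).natAbs

theorem exists_MB (L : AddSubgroup (α → β → γ → ℤ)) : ∃ B, MB L B := by
  classical
  let P : (α → β → γ → ℕ) × (α → β → γ → ℕ) → Prop := fun p => ∃ m ∈ L, m ≠ 0 ∧ phi m = p
  have hfin : {p | Minimal P p}.Finite :=
    WellQuasiOrderedLE.finite_of_isAntichain (setOfPred_minimal_antichain P)
  have hfin2 : (phi ⁻¹' {p | Minimal P p}).Finite := hfin.preimage phi_inj.injOn
  refine ⟨hfin2.toFinset, ?_, ?_⟩
  · intro m hm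
    rw [Set.Finite.mem_toFinset] at hm
    obtain ⟨m', hm', -, h⟩ := hm.1
    rwa [← phi_inj h]
  · intro u v
    induction h : nrm (cz v - cz u) using Nat.strong_induction_on generalizing u with
    | _ n ih =>
      intro huv
      by_cases h0 : cz v - cz u = 0
      · have : u = v := by
          funext i j k
          have := congrFun (congrFun (congrFun h0 i) j) k
          simp only [cz, Pi.sub_apply, Pi.zero_apply] at this
          omega
        rw [this]
      · obtain ⟨p, hp1, hp2⟩ := exists_minimal_le_of_wellFoundedLT P (phi (cz v - cz u))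
          ⟨_, huv, h0, rfl⟩
        obtain ⟨g, hgL, hg0, rfl⟩ := hp2.1
        have hle : ∀ i j k, (g i j k).toNat ≤ ((v i j k : ℤ) - u i j k).toNat ∧
            (-g i j k).toNat ≤ (-((v i j k : ℤ) - u i j k)).toNat :=
          fun i j k => ⟨hp1.1 i j k, hp1.2 i j k⟩
        let w : α → β → γ → ℕ := fun i j k => ((u i j k : ℤ) + g i j k).toNat
        have hw : ∀ i j k, (w i j k : ℤ) = (u i j k : ℤ) + g i j k := by
          intro i j k
          have := hle i j k
          simp only [w]
          omega
        have hst : Step hfin2.toFinset u w :=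
          ⟨g, by rw [Set.Finite.mem_toFinset]; exact hp2, Or.inl hw⟩
        have hd : cz v - cz w = (cz v - cz u) - g := by
          funext i j k
          simp only [cz, Pi.sub_apply, hw]
          ring
        refine Relation.ReflTransGen.head hst (ih (nrm (cz v - cz w)) ?_ w rfl ?_)
        · rw [← h, hd]
          have hc : ∀ i j k, ((cz v - cz u - g) i j k).natAbs ≤ ((cz v - cz u) i j k).natAbs := by
            intro i j k
            have := hle i j k
            simp only [cz, Pi.sub_apply]
            omega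
          obtain ⟨i0, j0, k0, hne⟩ : ∃ i j k, g i j k ≠ 0 := by
            by_contra hcon
            push Not at hcon
            exact hg0 (by funext i j k; exact hcon i j k)
          unfold nrm
          refine Finset.sum_lt_sum (fun i _ => Finset.sum_le_sum fun j _ =>
            Finset.sum_le_sum fun k _ => hc i j k) ⟨i0, Finset.mem_univ _, ?_⟩
          refine Finset.sum_lt_sum (fun j _ => Finset.sum_le_sum fun k _ => hc i0 j k)
            ⟨j0, Finset.mem_univ _, ?_⟩
          refine Finset.sum_lt_sum (fun k _ => hc i0 j0 k) ⟨k0, Finset.mem_univ _, ?_⟩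
          have := hle i0 j0 k0
          simp only [cz, Pi.sub_apply]
          omega
        · rw [hd]
          exact L.sub_mem huv hgL

theorem exists_min (L : AddSubgroup (α → β → γ → ℤ)) (x a b : α → β → γ → ℕ)
    (ha : cz a - cz x ∈ L) (hb : cz b - cz x ∈ L) (hax : a ≠ x) (hbx : b ≠ x) (hab : a ≠ b)
    (i0 : α) (j0 : β) (k0 : γ) (hp : x i0 j0 k0 ≠ 0)
    (iso : ∀ y, cz y - cz x ∈ L → y = x ∨ ∀ i j k, x i j k = 0 ∨ y i j k = 0) :
    ∃ B, (MB L B ∧ ∀ C, C ⊂ B → ¬ MB L C) ∧ cz a - cz x ∈ B ∧
      ¬ (cz b - cz x ∈ B ∨ -(cz b - cz x) ∈ B) := by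
  classical
  obtain ⟨B0, hB0L, hB0⟩ := exists_MB L
  let bad : (α → β → γ → ℤ) → Prop := fun m => ∃ z, z ≠ x ∧ cz z - cz x ∈ L ∧ m = cz z - cz x
  have hbad : ∀ m, bad m → m i0 j0 k0 < 0 := by
    rintro m ⟨z, hz1, hz2, rfl⟩
    have := (iso z hz2).resolve_left hz1 i0 j0 k0
    simp only [cz, Pi.sub_apply]
    omega
  have hbad2 : ∀ m, bad m → (m - (cz a - cz x)) i0 j0 k0 = 0 := by
    rintro m ⟨z, hz1, hz2, rfl⟩
    have h1 := (iso z hz2).resolve_left hz1 i0 j0 k0
    have h2 := (iso a ha).resolve_left hax i0 j0 k0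
    simp only [cz, Pi.sub_apply]
    omega
  let B1 : Finset (α → β → γ → ℤ) :=
    ((B0.filter (fun m => ¬ bad m ∧ ¬ bad (-m)) ∪ {cz a - cz x}) ∪
      (B0.filter bad).image (fun m => m - (cz a - cz x))) ∪
      (B0.filter (fun m => bad (-m))).image (fun m => -m - (cz a - cz x))
  have hmem : ∀ m ∈ B1, bad m ∨ bad (-m) → m = cz a - cz x := by
    intro m hm hb'
    have hne : m i0 j0 k0 ≠ 0 := by
      rcases hb' with h | h
      · exact (hbad m h).ne
      · have := hbad _ h
        simp only [Pi.neg_apply] at this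
        omega
    simp only [B1, Finset.mem_union, Finset.mem_filter, Finset.mem_singleton,
      Finset.mem_image] at hm
    rcases hm with ((h | h) | ⟨m', h, rfl⟩) | ⟨m', h, rfl⟩
    · exact (hb'.elim h.2.1 h.2.2).elim
    · exact h
    · exact absurd (hbad2 _ h.2) hne
    · exact absurd (hbad2 _ h.2) hne
  have haB : cz a - cz x ∈ B1 := by simp [B1]
  have core : ∀ m, bad m → m - (cz a - cz x) ∈ B1 → ∀ w w' : α → β → γ → ℕ,
      (∀ i j k, (w' i j k : ℤ) = (w i j k : ℤ) + m i j k) →
      Relation.ReflTransGen (Step B1) w w' := by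
    rintro m ⟨z, hz1, hz2, rfl⟩ hm w w' hw
    have h1 := (iso z hz2).resolve_left hz1
    let mid : α → β → γ → ℕ := fun i j k => w i j k - x i j k + a i j k
    have hmid : ∀ i j k, (mid i j k : ℤ) = (w i j k : ℤ) + (cz a - cz x) i j k := by
      intro i j k
      have h2 := h1 i j k
      have h3 := hw i j k
      simp only [cz, Pi.sub_apply, mid] at h3 ⊢
      omega
    refine Relation.ReflTransGen.head (b := mid) ⟨_, haB, Or.inl hmid⟩
      (Relation.ReflTransGen.single ⟨_, hm, Or.inl ?_⟩)
    intro i j k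
    rw [hmid, hw]
    simp only [Pi.sub_apply]
    ring
  have hB1 : MB L B1 := by
    refine ⟨?_, ?_⟩
    · intro m hm
      simp only [B1, Finset.mem_union, Finset.mem_filter, Finset.mem_singleton,
        Finset.mem_image] at hm
      rcases hm with ((h | h) | ⟨m', h, rfl⟩) | ⟨m', h, rfl⟩
      · exact hB0L m h.1
      · rw [h]; exact ha
      · exact L.sub_mem (hB0L _ h.1) ha
      · exact L.sub_mem (L.neg_mem (hB0L _ h.1)) ha
    · intro u v huv
      have h := hB0 u v huv
      clear huv
      induction h with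
      | refl => exact Relation.ReflTransGen.refl
      | @tail w w' _ h2 ih =>
        refine ih.trans ?_
        obtain ⟨m, hm, h3⟩ := h2
        by_cases hb1 : bad m
        · have hin : m - (cz a - cz x) ∈ B1 := by
            simp only [B1, Finset.mem_union, Finset.mem_filter, Finset.mem_image]
            exact Or.inl (Or.inr ⟨m, ⟨hm, hb1⟩, rfl⟩)
          rcases h3 with h3 | h3
          · exact core m hb1 hin w w' h3
          · exact rtg_symm (core m hb1 hin w' w fun i j k => by rw [h3]; ring)
        · by_cases hb2 : bad (-m)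
          · have hin : -m - (cz a - cz x) ∈ B1 := by
              simp only [B1, Finset.mem_union, Finset.mem_filter, Finset.mem_image]
              exact Or.inr ⟨m, ⟨hm, hb2⟩, rfl⟩
            rcases h3 with h3 | h3
            · exact rtg_symm (core _ hb2 hin w' w fun i j k => by
                rw [h3]; simp only [Pi.neg_apply]; ring)
            · exact core _ hb2 hin w w' fun i j k => by
                rw [h3]; simp only [Pi.neg_apply]; ring
          · refine Relation.ReflTransGen.single ⟨m, ?_, h3⟩
            simp only [B1, Finset.mem_union, Finset.mem_filter]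
            exact Or.inl (Or.inl (Or.inl ⟨hm, hb1, hb2⟩))
  obtain ⟨B, hBle, hBmin⟩ := exists_minimal_le_of_wellFoundedLT (MB L) B1 hB1
  have hleave : ∀ y, Relation.ReflTransGen (Step B) x y → y = x ∨ ∃ m ∈ B, bad m ∨ bad (-m) := by
    intro y h
    induction h with
    | refl => exact Or.inl rfl
    | @tail w w' _ h2 ih =>
      rcases ih with rfl | ih
      · by_cases hw : w' = w
        · exact Or.inl hw
        · obtain ⟨m, hm, h3 | h3⟩ := h2
          · have e : m = cz w' - cz w := by
              funext i j k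
              simp only [cz, Pi.sub_apply, h3]
              ring
            exact Or.inr ⟨m, hm, Or.inl ⟨w', hw, e ▸ hBmin.1.1 m hm, e⟩⟩
          · have e : -m = cz w' - cz w := by
              funext i j k
              simp only [cz, Pi.sub_apply, Pi.neg_apply, h3]
              ring
            exact Or.inr ⟨m, hm, Or.inr ⟨w', hw, e ▸ L.neg_mem (hBmin.1.1 m hm), e⟩⟩
      · exact Or.inr ih
  refine ⟨B, ⟨hBmin.1, fun C hC hC' => ?_⟩, ?_, ?_⟩
  · exact hC.not_subset (hBmin.2 hC' hC.subset)
  · obtain ⟨m, hm, h⟩ := (hleave a (hBmin.1.2 x a ha)).resolve_left hax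
    rw [← hmem m (hBle hm) h]
    exact hm
  · have hbb : bad (cz b - cz x) := ⟨b, hbx, hb, rfl⟩
    rintro (h | h)
    · have e := hmem _ (hBle h) (Or.inl hbb)
      apply hab
      funext i j k
      have := congrFun (congrFun (congrFun e i) j) k
      simp only [cz, Pi.sub_apply] at this
      omega
    · have e := hmem _ (hBle h) (Or.inr (by rwa [neg_neg]))
      have h1 := hbad _ hbb
      have h2 := hbad _ ⟨a, hax, ha, rfl⟩
      rw [← e] at h2
      simp only [Pi.neg_apply] at h2
      omega

end Pool.Agent.H7.Markov
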