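import Pool.Agent.H7.Grow

set_option autoImplicit false

namespace Pool.Agent.H7.Mu

open Pool.Agent.H7.Grow

/-- First endpoint of edge number `i`. -/
def eu (i : ℕ) : ℕ :=
  bif Nat.blt i 505 then i else bif Nat.blt i 517 then 0 else bif Nat.blt i 529 then 159
  else 34 + 45 * ((i - 529) / 2) + (i - 529) % 2

/-- Second endpoint of edge number `i`. -/
def ew (i : ℕ) : ℕ :=
  bif Nat.blt i 504 then Nat.succ i else bif Nat.blt i 505 then 0 else bif Nat.blt i 529 then i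
  else 529 + (i - 529) / 2

def QE (i : ℕ) : ℕ := Nat.lor (Nat.shiftLeft 1 (eu i)) (Nat.shiftLeft 1 (ew i))

def SP : ℕ := 2 ^ 159 + 3 * 2 ^ 34 + 3 * 2 ^ 79 + 3 * 2 ^ 124 + 7 * 2 ^ 529

def SX : ℕ := 2 ^ 0 + 2 ^ 159 + 3 * 2 ^ 34 + 3 * 2 ^ 79 + 3 * 2 ^ 124 + (2 ^ 28 - 1) * 2 ^ 504

def PL : ℕ := 2 ^ 504 - 4 - (2 ^ 159 + 3 * 2 ^ 34 + 3 * 2 ^ 79 + 3 * 2 ^ 124)

def tE (SX r : ℕ) : ℕ :=
  bif Nat.beq (Nat.land (Nat.shiftRight SX r) 1) 0 then Nat.shiftLeft 3 (Nat.pred r) else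
  bif Nat.beq r 0 then 1 + 8191 * 2 ^ 504 else
  bif Nat.beq r 159 then 3 * 2 ^ 158 + 4095 * 2 ^ 517 else
  bif Nat.blt r 504 then 3 * 2 ^ (r - 1) + 2 ^ (529 + 2 * ((r - 34) / 45) + (r - 34) % 45) else
  bif Nat.beq r 504 then 3 * 2 ^ 503 else
  bif Nat.blt r 529 then 2 ^ r else 3 * 2 ^ (529 + 2 * (r - 529))

def PV (SX r : ℕ) : ℕ :=
  bif Nat.beq (Nat.land (Nat.shiftRight SX r) 1) 0 then Nat.shiftLeft 5 (Nat.pred r) else
  bif Nat.beq r 0 then 2 + 8191 * 2 ^ 504 else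
  bif Nat.beq r 159 then 5 * 2 ^ 158 + 4095 * 2 ^ 517 else
  bif Nat.blt r 504 then 5 * 2 ^ (r - 1) + 2 ^ (529 + (r - 34) / 45) else
  bif Nat.beq r 504 then 1 + 2 ^ 503 else
  bif Nat.blt r 517 then 1 else
  bif Nat.blt r 529 then 2 ^ 159 else 3 * 2 ^ (34 + 45 * (r - 529))

def QV (r : ℕ) : ℕ := Nat.shiftLeft 1 r

def tV (SX r : ℕ) : ℕ := Nat.lor (PV SX r) (Nat.shiftLeft 1 r)

/-- The bit mask of `{i < k | f i}`, added to `a`. -/
def mk (f : ℕ → Bool) (k : ℕ) : ℕ → ℕ :=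
  Nat.rec (motive := fun _ => ℕ → ℕ) (fun a => a)
    (fun j ih a => bif f j then force (Nat.lor a (Nat.shiftLeft 1 j)) ih else ih a) k

def mV (r : ℕ) : ℕ := Nat.shiftLeft (ones (531 - r)) (r + 1)

def mE (r : ℕ) : ℕ := Nat.lor (Nat.shiftLeft (ones (504 - r)) r)
  (Nat.shiftLeft (mk (fun t => Nat.ble r (eu (504 + t)) && Nat.ble r (ew (504 + t))) 31 0) 504)

/-- Sum over the roots `k - 1, …, 0`. -/
def tot (E : ℕ → ℕ → List Ent → Res) (mask : ℕ → ℕ) (k : ℕ) :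
    ℕ → ℕ → List Ent → Option (ℕ × ℕ) :=
  Nat.rec (motive := fun _ => ℕ → ℕ → List Ent → Option (ℕ × ℕ)) (fun C S _ => some (C, S))
    (fun r ih C S c => force (sal (mask r)) fun A => force (sal (Nat.shiftLeft 1 r)) fun R =>
      Option.casesOn (motive := fun _ => Option (ℕ × ℕ)) (E R A c) none
        (fun t => Prod.casesOn (motive := fun _ => Option (ℕ × ℕ)) t fun x t' =>
          Prod.casesOn (motive := fun _ => Option (ℕ × ℕ)) t' fun y c' =>
            force (Nat.add C x) fun C' => force (Nat.add S (Nat.add y x)) fun S' => ih C' S' c')) k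

def tab (k : ℕ) : ℕ → ℕ :=
  Nat.rec (motive := fun _ => ℕ → ℕ) (fun a => a)
    (fun j ih a => force (Nat.lor a (Nat.shiftLeft j (10 * (2 ^ j % 541)))) ih) k

/-- Heuristic index of the lowest set bit (table look-up). -/
def low (T x : ℕ) : ℕ :=
  Nat.land (Nat.shiftRight T
    (Nat.mul 10 (Nat.mod (Nat.xor x (Nat.land x (Nat.pred x))) 541))) 1023

def sel (T x : ℕ) : ℕ :=
  bif Nat.beq x 1 then 0 else Nat.succ (low T (Nat.shiftRight x 1))

def pick (T x : ℕ) : ℕ :=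
  bif Nat.beq (Nat.shiftRight x 505) 0 then
    (bif Nat.beq (Nat.shiftRight x 504) 0 then low T x else 504)
  else Nat.add 505 (low T (Nat.shiftRight x 505))

def spf (SP R : ℕ) : Bool := Nat.beq R 1 || !(Nat.beq (Nat.land R SP) 0)

def chk (o : Option (ℕ × ℕ)) (a b : ℕ) : Bool :=
  Option.casesOn (motive := fun _ => Bool) o false (fun t => Nat.beq t.1 a && Nat.beq t.2 b)

def runV : Bool := force SX fun sx => force SP fun sp => force PL fun pl => force (tab 540 0) fun T =>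
  chk (tot (ev 532 1 pl (low T) (sel T) (pick T) (PV sx) QV (tV sx) (spf sp) 6 600) mV 532 0 0 [])
    8913444107502 3662317059645722

def runE : Bool := force SX fun sx => force SP fun sp => force PL fun pl => force (tab 540 0) fun T =>
  chk (tot (ev 535 0 pl (low T) (sel T) (pick T) QE QE (tE sx) (spf sp) 6 600) mE 532 0 0 [])
    69570704846182 28584726354608266

end Pool.Agent.H7.Mu
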