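import Pool.Agent.H7.MuLink
import Pool.Agent.H7.MuDefs

set_option autoImplicit false

namespace Pool.Agent.H7.Mu2

open Finset Pool.Agent.H7.Grow Pool.Agent.H7.MuLink
open Pool.Agent.H7.Mu (mk tot tab low sel spf chk)

theorem tot_sound (m : ℕ) (Pm Qm : ℕ → ℕ) (E : ℕ → ℕ → List Ent → Res) (mask : ℕ → ℕ)
    (hE : ∀ (R A : ℕ) (c : List Ent) (x y : ℕ) (c' : List Ent), (∀ e ∈ c, Good m Pm Qm e) →
      E R A c = some (x, y, c') → Good m Pm Qm (R, A, x, y) ∧ ∀ e ∈ c', Good m Pm Qm e) :
    ∀ (k C S : ℕ) (c : List Ent) (a b : ℕ), (∀ e ∈ c, Good m Pm Qm e) →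
      tot E mask k C S c = some (a, b) →
      a = C + ∑ r ∈ range k, Z (fun i => bset (Pm i)) (fun i => bset (Qm i)) (fun _ => 1) {r}
        (bits m (mask r)) ∧
      b = S + ∑ r ∈ range k, Z (fun i => bset (Pm i)) (fun i => bset (Qm i)) (fun k => k + 1) {r}
        (bits m (mask r)) := by
  intro k
  induction k with
  | zero =>
    intro C S c a b _ h
    change some (C, S) = _ at h
    simp only [Option.some.injEq, Prod.mk.injEq] at h
    simp [h.1, h.2]
  | succ r ih =>
    intro C S c a b hc h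
    change (force (sal (mask r)) fun A => force (sal (Nat.shiftLeft 1 r)) fun R =>
      Option.casesOn (motive := fun _ => Option (ℕ × ℕ)) (E R A c) none
        (fun t => Prod.casesOn (motive := fun _ => Option (ℕ × ℕ)) t fun x t' =>
          Prod.casesOn (motive := fun _ => Option (ℕ × ℕ)) t' fun y c' =>
            force (Nat.add C x) fun C' => force (Nat.add S (Nat.add y x)) fun S' =>
              tot E mask r C' S' c')) = _ at h
    simp only [force_eq] at h
    cases e1 : E (sal (Nat.shiftLeft 1 r)) (sal (mask r)) c with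
    | none => rw [e1] at h; cases h
    | some t =>
      obtain ⟨x, y, c'⟩ := t
      rw [e1] at h
      obtain ⟨⟨g1, g2⟩, g3⟩ := hE _ _ _ _ _ _ hc e1
      simp only [uns_sal, bset_one] at g1 g2
      obtain ⟨h1, h2⟩ := ih _ _ _ _ _ g3 h
      rw [sum_range_succ, sum_range_succ, Z_succ, ← g1, ← g2, h1, h2]
      simp only [Nat.add_eq]
      omega

theorem chk_eq {o : Option (ℕ × ℕ)} {a b : ℕ} (h : chk o a b = true) : o = some (a, b) := by
  cases o with
  | none => cases h
  | some t =>
    change (Nat.beq t.1 a && Nat.beq t.2 b) = true at h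
    rw [Bool.and_eq_true] at h
    rw [← Nat.eq_of_beq_eq_true h.1, ← Nat.eq_of_beq_eq_true h.2]

theorem mk_bit (f : ℕ → Bool) : ∀ k a i : ℕ,
    (mk f k a).testBit i = (a.testBit i || (decide (i < k) && f i)) := by
  intro k
  induction k with
  | zero => intro a i; simp [Pool.Agent.H7.Mu.mk]
  | succ j ih =>
    intro a i
    show (bif f j then force (Nat.lor a (Nat.shiftLeft 1 j)) (mk f j) else mk f j a).testBit i = _
    have e : (Nat.lor a (Nat.shiftLeft 1 j)).testBit i = (a.testBit i || decide (j = i)) := by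
      show (a ||| (1 <<< j)).testBit i = _
      rw [Nat.testBit_or, Nat.one_shiftLeft, Nat.testBit_two_pow]
    cases hf : f j
    · simp only [cond_false, ih]
      by_cases h : i = j
      · subst h; simp [hf]
      · have : decide (i < j + 1) = decide (i < j) := by
          rw [decide_eq_decide]; omega
        rw [this]
    · simp only [cond_true, force_eq, ih, e]
      by_cases h : i = j
      · subst h; simp [hf]
      · have : decide (i < j + 1) = decide (i < j) := by
          rw [decide_eq_decide]; omega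
        rw [this, decide_eq_false (Ne.symm h), Bool.or_false]

def eu (i : ℕ) : ℕ :=
  bif Nat.blt i 182 then i else bif Nat.blt i 194 then 0 else bif Nat.blt i 206 then 46 else 23

def ew (i : ℕ) : ℕ :=
  bif Nat.blt i 181 then Nat.succ i else bif Nat.blt i 182 then 0 else i

def QE (i : ℕ) : ℕ := Nat.lor (Nat.shiftLeft 1 (eu i)) (Nat.shiftLeft 1 (ew i))

def SP : ℕ := 2 ^ 23 + 2 ^ 46

def PL : ℕ := 2 ^ 181 - 4 - (2 ^ 23 + 2 ^ 46)

def tE (r : ℕ) : ℕ :=
  bif Nat.beq r 0 then 1 + 8191 * 2 ^ 181 else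
  bif Nat.beq r 46 then 3 * 2 ^ 45 + 4095 * 2 ^ 194 else
  bif Nat.beq r 23 then 3 * 2 ^ 22 + 2 ^ 206 else
  bif Nat.blt r 182 then Nat.shiftLeft 3 (Nat.pred r) else Nat.shiftLeft 1 r

def mE (k r : ℕ) : ℕ := Nat.lor (Nat.shiftLeft (ones (181 - r)) r)
  (Nat.shiftLeft (mk (fun t => Nat.ble r (eu (181 + t)) && Nat.ble r (ew (181 + t))) k 0) 181)

def pick (T x : ℕ) : ℕ :=
  bif Nat.beq (Nat.shiftRight x 182) 0 then
    (bif Nat.beq (Nat.shiftRight x 181) 0 then low T x else 181)
  else Nat.add 182 (low T (Nat.shiftRight x 182))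

def run (k a b : ℕ) : Bool := force SP fun sp => force PL fun pl => force (tab 540 0) fun T =>
  chk (tot (ev (181 + k) 0 pl (low T) (sel T) (pick T) QE QE tE (spf sp) 6 300) (mE k) (181 + k) 0 0 [])
    a b

theorem run1 : run 26 340067166737 51724804118172 = true := by decide +kernel

theorem run0 : run 25 174483974143 26539531216131 = true := by decide +kernel

def idx (T a b : ℕ) : ℕ := low T (Nat.land (tE a) (tE b))

def pe (v : ℕ) : ℕ := if v < 182 then v - 1 else v

def okE (T e : ℕ) : Bool :=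
  decide (eu e < 206) && decide (ew e < 207) && decide (e < 206 → ew e < 206) &&
  decide (eu e ≠ ew e) &&
  decide (idx T (eu e) (ew e) = e) && (tE (eu e)).testBit e && (tE (ew e)).testBit e &&
  (!PL.testBit (eu e) || decide (eu e ≤ e + 2 ∧ e ≤ eu e)) &&
  (!PL.testBit (ew e) || decide (ew e ≤ e + 2 ∧ e ≤ ew e)) &&
  (decide (181 ≤ e) || decide (eu e = e ∧ ew e = e + 1)) &&
  (decide (e = 0) || decide (pe e < 207 ∧ ew (pe e) = e ∧ eu (pe e) < e))

theorem ok_all : force (tab 540 0) (fun T => (List.range 207).all (okE T)) = true := by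
  decide +kernel

theorem specE (e : ℕ) (he : e < 207) :
    ((((((((((eu e < 206 ∧ ew e < 207) ∧ (e < 206 → ew e < 206)) ∧ eu e ≠ ew e) ∧
    idx (tab 540 0) (eu e) (ew e) = e) ∧
    (tE (eu e)).testBit e = true) ∧ (tE (ew e)).testBit e = true) ∧
    (PL.testBit (eu e) = false ∨ (eu e ≤ e + 2 ∧ e ≤ eu e))) ∧
    (PL.testBit (ew e) = false ∨ (ew e ≤ e + 2 ∧ e ≤ ew e))) ∧
    (181 ≤ e ∨ (eu e = e ∧ ew e = e + 1))) ∧
    (e = 0 ∨ (pe e < 207 ∧ ew (pe e) = e ∧ eu (pe e) < e))) := by
  have := ok_all
  rw [force_eq, List.all_eq_true] at this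
  have := this e (List.mem_range.2 he)
  simp only [okE, Bool.and_eq_true, Bool.or_eq_true, decide_eq_true_eq, Bool.not_eq_true'] at this
  exact this

theorem PL_lt (j : ℕ) (h : PL.testBit j = true) : j < 181 := by
  by_contra hh
  have h1 : PL < 2 ^ 181 := by decide +kernel
  have h2 : PL < 2 ^ j := lt_of_lt_of_le h1 (Nat.pow_le_pow_right (by norm_num) (by omega))
  rw [Nat.testBit_eq_false_of_lt h2] at h
  cases h

/-- A 182-cycle with two pendant 12-stars and one pendant vertex `206` attached at `23`. -/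
def G : SimpleGraph (Fin 207) where
  Adj a b := ∃ e < 207, (eu e = a ∧ ew e = b) ∨ (ew e = a ∧ eu e = b)
  symm := ⟨fun _ _ ⟨e, he, h⟩ => ⟨e, he, by omega⟩⟩
  loopless := ⟨fun _ ⟨e, he, h⟩ => by have := (specE e he).1.1.1.1.1.1.1.2; omega⟩

theorem QE_mem (e x : ℕ) : x ∈ bset (QE e) ↔ x = eu e ∨ x = ew e := by
  show (1 <<< eu e ||| 1 <<< ew e).testBit x = true ↔ _
  rw [Nat.testBit_or, Nat.one_shiftLeft, Nat.one_shiftLeft, Nat.testBit_two_pow,
    Nat.testBit_two_pow, Bool.or_eq_true, decide_eq_true_eq, decide_eq_true_eq]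
  omega

theorem inj (e : ℕ) (he : e < 207) (e' : ℕ) (he' : e' < 207)
    (h : (eu e = eu e' ∧ ew e = ew e') ∨ (eu e = ew e' ∧ ew e = eu e')) : e = e' := by
  have h1 := (specE e he).1.1.1.1.1.1.2
  have h2 := (specE e' he').1.1.1.1.1.1.2
  rcases h with h | h
  · rw [← h1, h.1, h.2, h2]
  · rw [← h1, h.1, h.2]
    rw [← h2]
    show low _ (_ &&& _) = low _ (_ &&& _)
    rw [h2, Nat.and_comm]

theorem lst : Lst 207 207 eu ew (fun i => bset (QE i)) G where
  adj _ _ := Iff.rfl
  lt e he := by have := (specE e he).1.1.1.1.1.1.1.1.1; omega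
  inj := inj
  hQ := QE_mem

theorem lst0 (H : SimpleGraph (Fin 206))
    (hH : ∀ a b : Fin 206, H.Adj a b ↔ G.Adj a.castSucc b.castSucc) :
    Lst 206 206 eu ew (fun i => bset (QE i)) H where
  adj a b := by
    rw [hH]
    have ha := a.2
    have hb := b.2
    constructor
    · rintro ⟨e, he, h⟩
      simp only [Fin.val_castSucc] at h
      refine ⟨e, ?_, h⟩
      by_contra hh
      have : e = 206 := by omega
      subst this
      have : ew 206 = 206 := rfl
      omega
    · rintro ⟨e, he, h⟩
      exact ⟨e, by omega, h⟩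
  lt e he := by have := (specE e (by omega)).1.1.1.1.1.1.1.1; omega
  inj e he e' he' := inj e (by omega) e' (by omega)
  hQ := QE_mem

theorem leaf (x : Fin 207) (h : G.Adj (Fin.last 206) x) : x = 23 := by
  obtain ⟨e, he, h⟩ := h
  have s := (specE e he).1.1.1.1.1.1.1.1
  simp only [Fin.val_last] at h
  have : e = 206 := by omega
  subst this
  have h1 : eu 206 = 23 := rfl
  have h2 : ew 206 = 206 := rfl
  exact Fin.ext (by show x.val = 23; omega)

theorem G_conn : G.Connected := by
  have h : ∀ k, ∀ v : Fin 207, v.val = k → G.Reachable 0 v := by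
    intro k
    induction k using Nat.strong_induction_on with
    | _ k ih =>
      intro v hv
      rcases (specE v v.2).2 with h2 | h2
      · have : v = 0 := Fin.ext h2
        rw [this]
      · refine (ih (eu (pe v)) (by omega) ⟨eu (pe v), by omega⟩ rfl).trans
          (SimpleGraph.Adj.reachable ⟨pe v, h2.1, Or.inl ⟨rfl, h2.2.1⟩⟩)
  exact ⟨fun u v => (h _ u rfl).symm.trans (h _ v rfl)⟩

open Classical in
theorem trees_val (k a b : ℕ) (hk : k ≤ 26) (H : SimpleGraph (Fin (181 + k)))
    (L : Lst (181 + k) (181 + k) eu ew (fun i => bset (QE i)) H) (h : run k a b = true)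
    [Fintype H.Subgraph] :
    ∑ T ∈ univ.filter (fun T : H.Subgraph => T.coe.IsTree), (fun _ => 1) T.verts.ncard = a ∧
    ∑ T ∈ univ.filter (fun T : H.Subgraph => T.coe.IsTree), (fun k => k) T.verts.ncard = b := by
  rw [L.trees_sum (fun _ => 1), L.trees_sum (fun k => k)]
  simp only [run, force_eq] at h
  have hT : ∀ i < 181 + k, ∀ x, ((QE i).testBit x = true ∨ (QE i).testBit x = true) →
      (tE x).testBit i = true := by
    intro i hi x hx
    rcases (QE_mem i x).1 (hx.elim id id) with rfl | rfl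
    · exact (specE i (by omega)).1.1.1.1.1.2
    · exact (specE i (by omega)).1.1.1.1.2
  have hPl : ∀ j, PL.testBit j = true →
      Plain (fun i => bset (QE i)) (fun i => bset (QE i)) (181 + k) 0 j := by
    intro j hj
    have hlt := PL_lt j hj
    have h0 := (specE j (by omega)).1.2
    refine ⟨fun i hi hx => ?_, (QE_mem _ _).2 ?_, (QE_mem _ _).2 ?_, fun q hq => ?_⟩
    · have s1 := (specE i (by omega)).1.1.1.2
      have s2 := (specE i (by omega)).1.1.2
      rcases (QE_mem i j).1 (hx.elim id id) with h1 | h1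
      · rw [← h1, hj] at s1; simp only [Bool.true_eq_false, false_or] at s1; omega
      · rw [← h1, hj] at s2; simp only [Bool.true_eq_false, false_or] at s2; omega
    · rw [add_zero]; omega
    · rw [add_zero]; omega
    · have := (QE_mem _ _).1 hq
      rw [add_zero] at this; omega
  have hs := tot_sound (181 + k) QE QE _ (mE k)
    (ev_sound (181 + k) 0 PL _ _ _ QE QE tE L.uni hT hPl _ _ _) (181 + k) 0 0 [] _ _ (by simp)
    (chk_eq h)
  have hm : ∀ r ∈ range (181 + k), bits (181 + k) (mE k r) =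
      (range (181 + k)).filter (fun e => r ≤ eu e ∧ r ≤ ew e) := by
    intro r hr
    ext i
    have e : (mE k r).testBit i = ((decide (i ≥ r) && decide (i - r < 181 - r)) ||
        (decide (i ≥ 181) && (decide (i - 181 < k) &&
          (Nat.ble r (eu (181 + (i - 181))) && Nat.ble r (ew (181 + (i - 181))))))) := by
      show (ones (181 - r) <<< r ||| mk _ k 0 <<< 181).testBit i = _
      rw [Nat.testBit_or, Nat.testBit_shiftLeft, Nat.testBit_shiftLeft, ones_bit, mk_bit,
        Nat.zero_testBit, Bool.false_or]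
    simp only [bits, mem_filter, mem_range, e, Bool.and_eq_true, Bool.or_eq_true,
      decide_eq_true_eq, Nat.ble_eq, and_congr_right_iff]
    intro hi
    have h0 := (specE i (by omega)).1.2
    by_cases h1 : 181 ≤ i
    · rw [Nat.add_sub_cancel' h1]
      generalize eu i = a at *
      generalize ew i = b at *
      omega
    · generalize eu (181 + (i - 181)) = a' at *
      generalize ew (181 + (i - 181)) = b' at *
      omega
  constructor
  · refine Eq.trans ?_ (hs.1.trans (Nat.zero_add _)).symm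
    exact sum_congr rfl fun r hr => by rw [hm r hr]
  · refine Eq.trans ?_ (hs.2.trans (Nat.zero_add _)).symm
    exact sum_congr rfl fun r hr => by rw [hm r hr]

end Pool.Agent.H7.Mu2
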