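import Pool.Agent.H7.Grow

set_option autoImplicit false

namespace Pool.Agent.H7.MuLink

open Finset Pool.Agent.H7.Grow Relation

theorem rtg_mono {r p : ℕ → ℕ → Prop} (h : ∀ a b, r a b → p a b) {a b : ℕ}
    (hab : ReflTransGen r a b) : ReflTransGen p a b := by
  induction hab with
  | refl => exact ReflTransGen.refl
  | tail _ h2 ih => exact ih.tail (h _ _ h2)

/-! ### Connected vertex sets -/

theorem growS_reach {P : ℕ → Set ℕ} {R : Set ℕ} {F : Finset ℕ}
    (h : Grow P (fun i => {i}) R F) :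
    ∀ v ∈ F, ∃ r ∈ R, ReflTransGen (fun a b => a ∈ P b ∧ b ∈ F) r v := by
  induction h with
  | nil R => simp
  | cons R F i p q hp hR hq hqR hi h ih =>
    have h0 : ReflTransGen (fun a b => a ∈ P b ∧ b ∈ insert i F) p i :=
      ReflTransGen.single ⟨hp, mem_insert_self _ _⟩
    intro v hv
    rcases mem_insert.1 hv with rfl | hv
    · exact ⟨p, hR, h0⟩
    · obtain ⟨r, hr, hp'⟩ := ih v hv
      have h1 : ReflTransGen (fun a b => a ∈ P b ∧ b ∈ insert i F) r v :=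
        rtg_mono (fun a b hab => ⟨hab.1, mem_insert_of_mem hab.2⟩) hp'
      rcases hr with hr | hr
      · exact ⟨r, hr, h1⟩
      · rw [Set.mem_singleton_iff.1 hr] at h1
        exact ⟨p, hR, h0.trans h1⟩

theorem growS_of {P : ℕ → Set ℕ} : ∀ (k : ℕ) (F : Finset ℕ) (R : Set ℕ), F.card = k →
    (∀ v ∈ F, v ∉ R) →
    (∀ T : Set ℕ, R ⊆ T → (∃ v ∈ F, v ∉ T) → ∃ a ∈ T, ∃ b ∈ F, b ∉ T ∧ a ∈ P b) →
    Grow P (fun i => {i}) R F := by
  intro k
  induction k with
  | zero => intro F R h _ _; rw [card_eq_zero.1 h]; exact Grow.nil _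
  | succ k ih =>
    intro F R hk hd hc
    obtain ⟨v, hv⟩ : F.Nonempty := card_pos.1 (by omega)
    obtain ⟨a, ha, b, hb, hbR, hab⟩ := hc R subset_rfl ⟨v, hv, hd v hv⟩
    rw [← insert_erase hb]
    refine Grow.cons R _ b a b hab ha rfl hbR (notMem_erase _ _) (ih _ _ ?_ ?_ ?_)
    · rw [card_erase_of_mem hb]; omega
    · intro w hw
      rw [mem_erase] at hw
      rintro (h | h)
      · exact hd w hw.2 h
      · exact hw.1 h
    · rintro T hT ⟨w, hw, hwT⟩
      obtain ⟨a', ha', b', hb', hb'T, h⟩ :=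
        hc T (fun x hx => hT (Or.inl hx)) ⟨w, mem_of_mem_erase hw, hwT⟩
      refine ⟨a', ha', b', mem_erase.2 ⟨?_, hb'⟩, hb'T, h⟩
      rintro rfl
      exact hb'T (hT (Or.inr rfl))

open Classical in
theorem sets_sum {n : ℕ} (G : SimpleGraph (Fin n)) (P : ℕ → Set ℕ)
    (hP : ∀ a b : Fin n, G.Adj a b ↔ (a : ℕ) ∈ P b) (g : ℕ → ℕ)
    [DecidablePred (fun S : Finset (Fin n) => (G.induce (S : Set (Fin n))).Connected)] :
    ∑ S ∈ univ.filter (fun S : Finset (Fin n) => (G.induce (S : Set (Fin n))).Connected), g S.card =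
      ∑ r ∈ range n, Z P (fun i => {i}) (fun k => g (k + 1)) {r} (Ioo r n) := by
  unfold Z
  simp only [← sum_filter]
  rw [sum_sigma']
  symm
  have hb : ∀ x ∈ (range n).sigma
      (fun r => (Ioo r n).powerset.filter (fun F => Grow P (fun i => {i}) {r} F)),
      (∀ v ∈ x.2, x.1 < v) ∧ ∀ v ∈ insert x.1 x.2, v < n := by
    intro x hx
    simp only [mem_sigma, mem_range, mem_filter, mem_powerset] at hx
    refine ⟨fun v hv => (mem_Ioo.1 (hx.2.1 hv)).1, fun v hv => ?_⟩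
    rcases mem_insert.1 hv with rfl | hv
    · exact hx.1
    · exact (mem_Ioo.1 (hx.2.1 hv)).2
  refine sum_bij (fun x hx => (insert x.1 x.2).attachFin (hb x hx).2) ?_ ?_ ?_ ?_
  · rintro ⟨r, F⟩ hx
    have hb' := hb _ hx
    simp only [mem_sigma, mem_range, mem_filter, mem_powerset] at hx
    simp only [mem_filter, mem_univ, true_and]
    have hr : (⟨r, hx.1⟩ : Fin n) ∈ (((insert r F).attachFin hb'.2 : Finset (Fin n)) : Set (Fin n)) := by
      simp
    have key : ∀ v, ReflTransGen (fun a b => a ∈ P b ∧ b ∈ F) r v →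
        ∀ w : (((insert r F).attachFin hb'.2 : Finset (Fin n)) : Set (Fin n)), (w.1 : ℕ) = v →
        (G.induce _).Reachable ⟨_, hr⟩ w := by
      intro v hv
      induction hv with
      | refl =>
        intro w hw
        have : w = ⟨_, hr⟩ := Subtype.ext (Fin.ext hw)
        rw [this]
      | @tail b c hb1 hc ih =>
        intro w hw
        have hbm : b ∈ insert r F := by
          cases hb1 with
          | refl => exact mem_insert_self _ _
          | tail _ h => exact mem_insert_of_mem h.2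
        have hbw : (⟨b, hb'.2 b hbm⟩ : Fin n) ∈
            (((insert r F).attachFin hb'.2 : Finset (Fin n)) : Set (Fin n)) := by
          simpa using hbm
        refine (ih ⟨_, hbw⟩ rfl).trans (SimpleGraph.Adj.reachable ?_)
        show G.Adj ⟨b, hb'.2 b hbm⟩ w.1
        rw [hP, hw]; exact hc.1
    have hall : ∀ w : (((insert r F).attachFin hb'.2 : Finset (Fin n)) : Set (Fin n)),
        (G.induce _).Reachable ⟨_, hr⟩ w := by
      intro w
      have hw : (w.1 : ℕ) ∈ insert r F := by simpa using w.2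
      rcases mem_insert.1 hw with h | h
      · exact key r ReflTransGen.refl w h
      · obtain ⟨r', hr', hp⟩ := growS_reach hx.2.2 _ h
        rw [Set.mem_singleton_iff.1 hr'] at hp
        exact key _ hp w rfl
    have : Nonempty (((insert r F).attachFin hb'.2 : Finset (Fin n)) : Set (Fin n)) := ⟨⟨_, hr⟩⟩
    exact ⟨fun u v => (hall u).symm.trans (hall v)⟩
  · rintro ⟨r, F⟩ hx ⟨r', F'⟩ hx' h
    have h1 := hb _ hx
    have h2 := hb _ hx'
    have e : insert r F = insert r' F' := by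
      ext v
      constructor
      · intro hv
        have : (⟨v, h1.2 v hv⟩ : Fin n) ∈ (insert r F).attachFin h1.2 := by simpa using hv
        rw [h] at this; simpa using this
      · intro hv
        have : (⟨v, h2.2 v hv⟩ : Fin n) ∈ (insert r' F').attachFin h2.2 := by simpa using hv
        rw [← h] at this; simpa using this
    have hr : r = r' := by
      have a1 : r ∈ insert r' F' := e ▸ mem_insert_self _ _
      have a2 : r' ∈ insert r F := e ▸ mem_insert_self _ _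
      rcases mem_insert.1 a1 with a | a
      · exact a
      · rcases mem_insert.1 a2 with b | b
        · exact b.symm
        · have := h1.1 _ b; have := h2.1 _ a; simp only at *; omega
    subst hr
    have n1 : r ∉ F := fun hh => lt_irrefl _ (h1.1 _ hh)
    have n2 : r ∉ F' := fun hh => lt_irrefl _ (h2.1 _ hh)
    have : F = F' := by rw [← erase_insert n1, e, erase_insert n2]
    rw [this]
  · intro S hS
    simp only [mem_filter, mem_univ, true_and] at hS
    obtain ⟨v0, hv0⟩ := hS.nonempty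
    have hne : S.Nonempty := ⟨v0, hv0⟩
    set r := S.min' hne with hr
    have hrS : r ∈ S := min'_mem _ _
    have hm : ∀ v, v ∈ (S.map Fin.valEmbedding).erase r ↔ v ≠ r ∧ ∃ w ∈ S, (w : ℕ) = v := by
      intro v; simp
    refine ⟨⟨r, (S.map Fin.valEmbedding).erase r⟩, ?_, ?_⟩
    · simp only [mem_sigma, mem_range, mem_filter, mem_powerset]
      refine ⟨r.2, fun v hv => ?_, growS_of _ _ _ rfl (fun v hv => ((hm v).1 hv).1) ?_⟩
      · obtain ⟨h1, w, hw, rfl⟩ := (hm v).1 hv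
        have : r ≤ w := min'_le _ _ hw
        exact mem_Ioo.2 ⟨lt_of_le_of_ne this (Ne.symm h1), w.2⟩
      · rintro T hT ⟨v, hv, hvT⟩
        obtain ⟨h1, w, hw, rfl⟩ := (hm v).1 hv
        obtain ⟨p⟩ := hS.preconnected ⟨r, hrS⟩ ⟨w, hw⟩
        obtain ⟨d, _, d1, d2⟩ := p.exists_boundary_dart {x | (x.1 : ℕ) ∈ T} (hT rfl) hvT
        refine ⟨_, d1, _, (hm _).2 ⟨?_, _, d.snd.2, rfl⟩, d2, (hP _ _).1 d.adj⟩
        intro h
        exact d2 (hT h)
    · ext v
      simp only [mem_attachFin, mem_insert, hm]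
      constructor
      · rintro (h | ⟨_, w, hw, h⟩)
        · rw [Fin.ext h]; exact hrS
        · rw [← Fin.ext h]; exact hw
      · intro hv
        by_cases h : (v : ℕ) = r
        · exact Or.inl h
        · exact Or.inr ⟨h, v, hv, rfl⟩
  · rintro ⟨r, F⟩ hx
    have n1 : r ∉ F := fun hh => lt_irrefl _ ((hb _ hx).1 _ hh)
    simp only [card_attachFin, card_insert_of_notMem n1]

/-! ### Subtrees -/

section trees

variable {Q : ℕ → Set ℕ}

theorem growE_reach {R : Set ℕ} {F : Finset ℕ} (h : Grow Q Q R F) :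
    ∀ e ∈ F, ∀ x ∈ Q e, ∃ r ∈ R, ReflTransGen (fun a b => ∃ e ∈ F, a ∈ Q e ∧ b ∈ Q e) r x := by
  induction h with
  | nil R => simp
  | cons R F i p q hp hR hq hqR hi h ih =>
    have h0 : ∀ x ∈ Q i, ReflTransGen (fun a b => ∃ e ∈ insert i F, a ∈ Q e ∧ b ∈ Q e) p x :=
      fun x hx => ReflTransGen.single ⟨i, mem_insert_self _ _, hp, hx⟩
    intro e he x hx
    rcases mem_insert.1 he with rfl | he
    · exact ⟨p, hR, h0 x hx⟩
    · obtain ⟨r, hr, hp'⟩ := ih e he x hx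
      have h1 : ReflTransGen (fun a b => ∃ e ∈ insert i F, a ∈ Q e ∧ b ∈ Q e) r x :=
        rtg_mono (fun a b ⟨e, h1, h2⟩ => ⟨e, mem_insert_of_mem h1, h2⟩) hp'
      rcases hr with hr | hr
      · exact ⟨r, hr, h1⟩
      · exact ⟨p, hR, (h0 r hr).trans h1⟩

theorem growE_card (hU : Uni Q Q) {R : Set ℕ} {F : Finset ℕ} (h : Grow Q Q R F) :
    ∀ W : Finset ℕ, (∀ x, x ∈ W ↔ x ∉ R ∧ ∃ e ∈ F, x ∈ Q e) → W.card = F.card := by
  induction h with
  | nil R =>
    intro W hW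
    rw [card_empty, card_eq_zero]
    ext x; simp [hW]
  | cons R F i p q hp hR hq hqR hi h ih =>
    intro W hW
    have hqW : q ∈ W := (hW q).2 ⟨hqR, i, mem_insert_self _ _, hq⟩
    rw [card_insert_of_notMem hi, ← ih (W.erase q), card_erase_add_one hqW]
    intro x
    rw [mem_erase, hW]
    constructor
    · rintro ⟨h1, h2, e, he, hx⟩
      have h3 : x ∉ Q i := fun h4 =>
        h1 (hU i p hp x h4 q hq (fun e => h2 (e ▸ hR)) (fun e => hqR (e ▸ hR)))
      refine ⟨fun h4 => h4.elim h2 h3, e, ?_, hx⟩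
      rcases mem_insert.1 he with rfl | he
      · exact absurd hx h3
      · exact he
    · rintro ⟨h1, e, he, hx⟩
      exact ⟨fun h2 => h1 (Or.inr (h2 ▸ hq)), fun h2 => h1 (Or.inl h2), e, mem_insert_of_mem he, hx⟩

theorem growE_of (hU : Uni Q Q) (W ES : Finset ℕ) (r : ℕ)
    (hc : ∀ T : Set ℕ, r ∈ T → (∃ v ∈ W, v ∉ T) →
      ∃ e ∈ ES, ∃ a ∈ Q e, a ∈ T ∧ ∃ b ∈ Q e, b ∉ T ∧ b ∈ W) :
    ∀ (k : ℕ) (R : Set ℕ) (U : Finset ℕ), r ∈ R → (∀ x, x ∈ U ↔ x ∈ W ∧ x ∉ R) → U.card = k →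
      ∃ F ⊆ ES, Grow Q Q R F ∧ F.card = k := by
  intro k
  induction k with
  | zero => intro R _ _ _ _; exact ⟨∅, empty_subset _, Grow.nil _, rfl⟩
  | succ k ih =>
    intro R U hr hUm hk
    obtain ⟨v, hv⟩ : U.Nonempty := card_pos.1 (by omega)
    rw [hUm] at hv
    obtain ⟨e, he, a, ha, haR, b, hb, hbR, hbW⟩ := hc R hr ⟨v, hv⟩
    obtain ⟨F, hF, hG, hcard⟩ := ih (R ∪ Q e) (U.erase b) (Or.inl hr) (by
      intro x
      simp only [mem_erase, Set.mem_union, hUm]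
      constructor
      · rintro ⟨h1, h2, h3⟩
        refine ⟨h2, fun h4 => h4.elim h3 fun h5 => ?_⟩
        exact h1 (hU e a ha x h5 b hb (fun e => h3 (e ▸ haR)) (fun e => hbR (e ▸ haR)))
      · rintro ⟨h1, h2⟩
        exact ⟨fun h3 => h2 (Or.inr (h3 ▸ hb)), h1, fun h3 => h2 (Or.inl h3)⟩)
      (by rw [card_erase_of_mem ((hUm b).2 ⟨hbW, hbR⟩)]; omega)
    have heF : e ∉ F := fun h => by
      obtain ⟨q, hq, hq'⟩ := hG.not_dead e h
      exact hq' (Or.inr hq)
    exact ⟨insert e F, insert_subset he hF, Grow.cons R F e a b ha haR hb hbR heF hG,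
      by rw [card_insert_of_notMem heF, hcard]⟩

variable {n m : ℕ} {eu ew : ℕ → ℕ} {G : SimpleGraph (Fin n)}

/-- `G` is the graph whose edges are listed without repetition by `eu e, ew e`, `e < m`. -/
structure Lst (n m : ℕ) (eu ew : ℕ → ℕ) (Q : ℕ → Set ℕ) (G : SimpleGraph (Fin n)) : Prop where
  adj : ∀ a b : Fin n, G.Adj a b ↔ ∃ e < m, (eu e = a ∧ ew e = b) ∨ (ew e = a ∧ eu e = b)
  lt : ∀ e < m, eu e < n ∧ ew e < n
  inj : ∀ e < m, ∀ e' < m, ((eu e = eu e' ∧ ew e = ew e') ∨ (eu e = ew e' ∧ ew e = eu e')) → e = e'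
  hQ : ∀ e x, x ∈ Q e ↔ x = eu e ∨ x = ew e

theorem Lst.uni (L : Lst n m eu ew Q G) : Uni Q Q := by
  intro i p hp a ha b hb h1 h2
  rw [L.hQ] at hp ha hb
  omega

open Classical in
noncomputable def ES (m : ℕ) (eu ew : ℕ → ℕ) (H : G.Subgraph) : Finset ℕ :=
  (range m).filter (fun e => ∃ a b : Fin n, H.Adj a b ∧ eu e = a ∧ ew e = b)

theorem mem_ES (H : G.Subgraph) (e : ℕ) :
    e ∈ ES m eu ew H ↔ e < m ∧ ∃ a b : Fin n, H.Adj a b ∧ eu e = a ∧ ew e = b := by
  simp only [ES, mem_filter, mem_range]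

open Classical in
noncomputable def WS (H : G.Subgraph) : Finset ℕ :=
  (univ.filter (fun v => v ∈ H.verts)).map Fin.valEmbedding

theorem mem_WS (H : G.Subgraph) (x : ℕ) : x ∈ WS H ↔ ∃ v ∈ H.verts, (v : ℕ) = x := by
  simp [WS]

theorem card_WS (H : G.Subgraph) : (WS H).card = H.verts.ncard := by
  classical
  rw [WS, card_map, ← Set.ncard_coe_finset]
  congr 1; ext v; simp

theorem Lst.adj_iff (L : Lst n m eu ew Q G) (H : G.Subgraph) (a b : Fin n) :
    H.Adj a b ↔ ∃ e ∈ ES m eu ew H, (eu e = a ∧ ew e = b) ∨ (ew e = a ∧ eu e = b) := by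
  simp only [ES, mem_filter, mem_range]
  constructor
  · intro h
    obtain ⟨e, he, h1 | h1⟩ := (L.adj a b).1 (H.adj_sub h)
    · exact ⟨e, ⟨he, a, b, h, h1⟩, Or.inl h1⟩
    · exact ⟨e, ⟨he, b, a, h.symm, h1.2, h1.1⟩, Or.inr h1⟩
  · rintro ⟨e, ⟨_, c, d, h, h1, h2⟩, h3 | h3⟩
    · rw [← Fin.ext (h1.symm.trans h3.1), ← Fin.ext (h2.symm.trans h3.2)]; exact h
    · rw [← Fin.ext (h1.symm.trans h3.2), ← Fin.ext (h2.symm.trans h3.1)]; exact h.symm

theorem Lst.card_ES (L : Lst n m eu ew Q G) (H : G.Subgraph) :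
    Nat.card H.coe.edgeSet = (ES m eu ew H).card := by
  have hm : ∀ e ∈ (ES m eu ew H : Set ℕ), e < m := fun e he => ((mem_ES H e).1 he).1
  rw [Nat.card_coe_set_eq, ← Set.ncard_image_of_injective _
    (Sym2.map.injective (f := ((↑) : H.verts → Fin n)) Subtype.val_injective),
    H.image_coe_edgeSet_coe, ← Set.ncard_coe_finset]
  symm
  refine Set.ncard_congr
    (fun e he => s((⟨eu e, (L.lt e (hm e he)).1⟩ : Fin n), (⟨ew e, (L.lt e (hm e he)).2⟩ : Fin n)))
    ?_ ?_ ?_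
  · intro e he
    rw [SimpleGraph.Subgraph.mem_edgeSet, L.adj_iff]
    exact ⟨e, he, Or.inl ⟨rfl, rfl⟩⟩
  · intro e e' he he' h
    refine L.inj e (hm e he) e' (hm e' he') ?_
    simpa [Fin.ext_iff] using h
  · intro z hz
    induction z using Sym2.ind with
    | _ a b =>
      rw [SimpleGraph.Subgraph.mem_edgeSet, L.adj_iff] at hz
      obtain ⟨e, he, h | h⟩ := hz
      · exact ⟨e, he, by simp [h.1, h.2]⟩
      · exact ⟨e, he, by simp [Fin.ext_iff, h.1, h.2]⟩

theorem Lst.ends (L : Lst n m eu ew Q G) (H : G.Subgraph) {e : ℕ} (he : e ∈ ES m eu ew H) :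
    ∀ x ∈ Q e, x ∈ WS H := by
  intro x hx
  obtain ⟨_, a, b, h, h1, h2⟩ := (mem_ES H e).1 he
  rw [mem_WS]
  rcases (L.hQ e x).1 hx with rfl | rfl
  · exact ⟨a, h.fst_mem, h1.symm⟩
  · exact ⟨b, h.snd_mem, h2.symm⟩

theorem Lst.cut (L : Lst n m eu ew Q G) (H : G.Subgraph) (hH : H.coe.Connected) {r : ℕ}
    (hr : r ∈ WS H) (T : Set ℕ) (hT : r ∈ T) (hv : ∃ v ∈ WS H, v ∉ T) :
    ∃ e ∈ ES m eu ew H, ∃ a ∈ Q e, a ∈ T ∧ ∃ b ∈ Q e, b ∉ T ∧ b ∈ WS H := by
  obtain ⟨v, hv, hvT⟩ := hv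
  obtain ⟨r', hr', rfl⟩ := (mem_WS H r).1 hr
  obtain ⟨v', hv', rfl⟩ := (mem_WS H v).1 hv
  obtain ⟨p⟩ := hH.preconnected ⟨r', hr'⟩ ⟨v', hv'⟩
  obtain ⟨d, _, d1, d2⟩ := p.exists_boundary_dart {x | (x.1 : ℕ) ∈ T} hT hvT
  obtain ⟨e, he, h⟩ := (L.adj_iff H _ _).1 d.adj
  refine ⟨e, he, _, (L.hQ _ _).2 ?_, d1, _, (L.hQ _ _).2 ?_, d2, (mem_WS _ _).2 ⟨_, d.snd.2, rfl⟩⟩
  · omega
  · omega

theorem Lst.tree_card (L : Lst n m eu ew Q G) (H : G.Subgraph) :
    H.coe.IsTree ↔ H.coe.Connected ∧ (ES m eu ew H).card + 1 = (WS H).card := by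
  rw [SimpleGraph.isTree_iff_connected_and_card, L.card_ES, card_WS, Nat.card_coe_set_eq]

theorem WS_ne (H : G.Subgraph) (hH : H.coe.IsTree) : (WS H).Nonempty := by
  obtain ⟨v, hv⟩ := hH.connected.nonempty
  exact ⟨v, (mem_WS _ _).2 ⟨v, hv, rfl⟩⟩

theorem Lst.verts_eq (L : Lst n m eu ew Q G) (H : G.Subgraph) (hH : H.coe.Connected) {r : ℕ}
    (hr : r ∈ WS H) (x : ℕ) : x ∈ WS H ↔ x = r ∨ ∃ e ∈ ES m eu ew H, x ∈ Q e := by
  constructor
  · intro hx
    by_contra hh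
    obtain ⟨e, he, a, _, _, b, hb, hbT, _⟩ :=
      L.cut H hH hr {x | x = r ∨ ∃ e ∈ ES m eu ew H, x ∈ Q e} (Or.inl rfl) ⟨x, hx, hh⟩
    exact hbT (Or.inr ⟨e, he, hb⟩)
  · rintro (rfl | ⟨e, he, hx⟩)
    · exact hr
    · exact L.ends H he x hx

open Classical in
theorem Lst.trees_sum (L : Lst n m eu ew Q G) [Fintype G.Subgraph] (g : ℕ → ℕ) :
    ∑ H ∈ univ.filter (fun H : G.Subgraph => H.coe.IsTree), g H.verts.ncard =
      ∑ r ∈ range n, Z Q Q (fun k => g (k + 1)) {r}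
        ((range m).filter (fun e => r ≤ eu e ∧ r ≤ ew e)) := by
  unfold Z
  simp only [← sum_filter]
  rw [sum_sigma']
  refine sum_bij (fun H hH => (⟨(WS H).min' (WS_ne H (mem_filter.1 hH).2), ES m eu ew H⟩ :
    (_ : ℕ) × Finset ℕ)) ?_ ?_ ?_ ?_
  · intro H hH
    have hT := (mem_filter.1 hH).2
    obtain ⟨hc, hk⟩ := (L.tree_card H).1 hT
    set r := (WS H).min' (WS_ne H hT)
    have hr : r ∈ WS H := min'_mem _ _
    simp only [mem_sigma, mem_range, mem_filter, mem_powerset]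
    refine ⟨?_, fun e he => ?_, ?_⟩
    · obtain ⟨v, _, hv⟩ := (mem_WS H r).1 hr
      rw [← hv]; exact v.2
    · exact mem_filter.2 ⟨mem_range.2 ((mem_ES H e).1 he).1,
        min'_le _ _ (L.ends H he _ ((L.hQ _ _).2 (Or.inl rfl))),
        min'_le _ _ (L.ends H he _ ((L.hQ _ _).2 (Or.inr rfl)))⟩
    · obtain ⟨F, hF, hG, hcard⟩ := growE_of L.uni (WS H) (ES m eu ew H) r (L.cut H hc hr)
        (ES m eu ew H).card {r} ((WS H).erase r) rfl (by intro x; simp [and_comm])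
        (by rw [card_erase_of_mem hr]; omega)
      rwa [eq_of_subset_of_card_le hF hcard.ge] at hG
  · intro H hH H' hH' h
    have hT := (mem_filter.1 hH).2
    have hT' := (mem_filter.1 hH').2
    simp only [Sigma.mk.injEq, heq_eq_eq] at h
    have hW : ∀ x, x ∈ WS H ↔ x ∈ WS H' := fun x => by
      rw [L.verts_eq H hT.connected (min'_mem _ (WS_ne H hT)),
        L.verts_eq H' hT'.connected (min'_mem _ (WS_ne H' hT')), h.1, h.2]
    ext a b
    · have := hW a
      simpa [mem_WS, Fin.val_inj] using this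
    · rw [L.adj_iff, L.adj_iff, h.2]
  · rintro ⟨r, F⟩ hx
    simp only [mem_sigma, mem_range, mem_filter, mem_powerset] at hx
    obtain ⟨hr, hF, hG⟩ := hx
    have hF' : ∀ e ∈ F, e < m ∧ r ≤ eu e ∧ r ≤ ew e := fun e he => by
      have := mem_filter.1 (hF he); exact ⟨mem_range.1 this.1, this.2⟩
    let H : G.Subgraph :=
      { verts := {v | (v : ℕ) = r ∨ ∃ e ∈ F, (v : ℕ) ∈ Q e}
        Adj := fun a b => ∃ e ∈ F, (eu e = a ∧ ew e = b) ∨ (ew e = a ∧ eu e = b)
        adj_sub := fun ⟨e, he, h⟩ => (L.adj _ _).2 ⟨e, (hF' e he).1, h⟩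
        edge_vert := fun ⟨e, he, h⟩ => Or.inr ⟨e, he, (L.hQ _ _).2 (by omega)⟩
        symm := ⟨fun _ _ ⟨e, he, h⟩ => ⟨e, he, by omega⟩⟩ }
    have hQn : ∀ e ∈ F, ∀ x ∈ Q e, x < n ∧ r ≤ x := fun e he x hx => by
      have h1 := L.lt e (hF' e he).1
      have h2 := hF' e he
      rw [L.hQ] at hx
      omega
    have hE : ES m eu ew H = F := by
      ext e
      simp only [ES, mem_filter, mem_range]
      constructor
      · rintro ⟨he, a, b, ⟨e', he', h⟩, h1, h2⟩
        rw [L.inj e he e' (hF' e' he').1 (by omega)]; exact he'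
      · intro he
        have h1 := L.lt e (hF' e he).1
        exact ⟨(hF' e he).1, ⟨eu e, h1.1⟩, ⟨ew e, h1.2⟩, ⟨e, he, Or.inl ⟨rfl, rfl⟩⟩, rfl, rfl⟩
    have hW : ∀ x, x ∈ WS H ↔ x = r ∨ ∃ e ∈ F, x ∈ Q e := by
      intro x
      rw [mem_WS]
      constructor
      · rintro ⟨v, hv, rfl⟩; exact hv
      · intro hx
        have : x < n := by
          rcases hx with rfl | ⟨e, he, hx⟩
          · exact hr
          · exact (hQn e he x hx).1
        exact ⟨⟨x, this⟩, hx, rfl⟩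
    have hr' : (⟨r, hr⟩ : Fin n) ∈ H.verts := Or.inl rfl
    have key : ∀ v, ReflTransGen (fun a b => ∃ e ∈ F, a ∈ Q e ∧ b ∈ Q e) r v →
        ∀ w : H.verts, (w.1 : ℕ) = v → H.coe.Reachable ⟨_, hr'⟩ w := by
      intro v hv
      induction hv with
      | refl =>
        intro w hw
        have : w = ⟨_, hr'⟩ := Subtype.ext (Fin.ext hw)
        rw [this]
      | @tail b c _ hc ih =>
        intro w hw
        obtain ⟨e, he, h1, h2⟩ := hc
        by_cases hbc : b = c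
        · exact ih w (hw.trans hbc.symm)
        have hbw : (⟨b, (hQn e he b h1).1⟩ : Fin n) ∈ H.verts := Or.inr ⟨e, he, h1⟩
        refine (ih ⟨_, hbw⟩ rfl).trans (SimpleGraph.Adj.reachable ?_)
        rw [L.hQ] at h1 h2
        exact ⟨e, he, by show (eu e = b ∧ ew e = w.1) ∨ (ew e = b ∧ eu e = w.1); omega⟩
    have hall : ∀ w : H.verts, H.coe.Reachable ⟨_, hr'⟩ w := by
      intro w
      rcases w.2 with h | ⟨e, he, h⟩
      · exact key r ReflTransGen.refl w h
      · obtain ⟨r', hr1, hp⟩ := growE_reach hG e he _ h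
        rw [Set.mem_singleton_iff.1 hr1] at hp
        exact key _ hp w rfl
    have : Nonempty H.verts := ⟨⟨_, hr'⟩⟩
    have hrW : r ∈ WS H := (hW r).2 (Or.inl rfl)
    have hT : H.coe.IsTree := by
      rw [L.tree_card]
      refine ⟨⟨fun u v => (hall u).symm.trans (hall v)⟩, ?_⟩
      rw [hE, ← growE_card L.uni hG ((WS H).erase r), card_erase_add_one hrW]
      intro x
      rw [mem_erase, hW]
      constructor
      · rintro ⟨h1, h2 | h2⟩
        · exact absurd h2 h1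
        · exact ⟨h1, h2⟩
      · rintro ⟨h1, h2⟩; exact ⟨h1, Or.inr h2⟩
    refine ⟨H, mem_filter.2 ⟨mem_univ _, hT⟩, ?_⟩
    simp only [Sigma.mk.injEq, heq_eq_eq]
    refine ⟨le_antisymm (min'_le _ _ hrW) (le_min' _ _ _ fun x hx => ?_), hE⟩
    rcases (hW x).1 hx with rfl | ⟨e, he, hx⟩
    · exact le_rfl
    · exact (hQn e he x hx).2
  · intro H hH
    obtain ⟨_, hk⟩ := (L.tree_card H).1 (mem_filter.1 hH).2
    simp only [hk, card_WS]

end trees

end Pool.Agent.H7.MuLink
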