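import Pool.Agent.H7.MuDefs

namespace Pool.Agent.H7.Mu

theorem runV_eq : runV = true := by decide +kernel

end Pool.Agent.H7.Mu
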