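import Pool.Agent.H7.MuLink
import Pool.Agent.H7.MuRunV
import Pool.Agent.H7.MuRunE

set_option autoImplicit false
set_option exponentiation.threshold 600

namespace Pool.Agent.H7.Mu

open Finset Pool.Agent.H7.Grow Pool.Agent.H7.MuLink

theorem tot_sound (m : ℕ) (Pm Qm : ℕ → ℕ) (E : ℕ → ℕ → List Ent → Res) (mask : ℕ → ℕ)
    (hE : ∀ (R A : ℕ) (c : List Ent) (x y : ℕ) (c' : List Ent), (∀ e ∈ c, Good m Pm Qm e) →
      E R A c = some (x, y, c') → Good m Pm Qm (R, A, x, y) ∧ ∀ e ∈ c', Good m Pm Qm e) :
    ∀ (k C S : ℕ) (c : List Ent) (a b : ℕ), (∀ e ∈ c, Good m Pm Qm e) →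
      tot E mask k C S c = some (a, b) →
      a = C + ∑ r ∈ range k, Z (fun i => bset (Pm i)) (fun i => bset (Qm i)) (fun _ => 1) {r}
        (bits m (mask r)) ∧
      b = S + ∑ r ∈ range k, Z (fun i => bset (Pm i)) (fun i => bset (Qm i)) (fun k => k + 1) {r}
        (bits m (mask r)) := by
  intro k
  induction k with
  | zero =>
    intro C S c a b _ h
    change some (C, S) = _ at h
    simp only [Option.some.injEq, Prod.mk.injEq] at h
    simp [h.1, h.2]
  | succ r ih =>
    intro C S c a b hc h
    change (force (sal (mask r)) fun A => force (sal (Nat.shiftLeft 1 r)) fun R =>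
      Option.casesOn (motive := fun _ => Option (ℕ × ℕ)) (E R A c) none
        (fun t => Prod.casesOn (motive := fun _ => Option (ℕ × ℕ)) t fun x t' =>
          Prod.casesOn (motive := fun _ => Option (ℕ × ℕ)) t' fun y c' =>
            force (Nat.add C x) fun C' => force (Nat.add S (Nat.add y x)) fun S' =>
              tot E mask r C' S' c')) = _ at h
    simp only [force_eq] at h
    cases e1 : E (sal (Nat.shiftLeft 1 r)) (sal (mask r)) c with
    | none => rw [e1] at h; cases h
    | some t =>
      obtain ⟨x, y, c'⟩ := t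
      rw [e1] at h
      obtain ⟨⟨g1, g2⟩, g3⟩ := hE _ _ _ _ _ _ hc e1
      simp only [uns_sal, bset_one] at g1 g2
      obtain ⟨h1, h2⟩ := ih _ _ _ _ _ g3 h
      rw [sum_range_succ, sum_range_succ, Z_succ, ← g1, ← g2, h1, h2]
      simp only [Nat.add_eq]
      omega

theorem chk_eq {o : Option (ℕ × ℕ)} {a b : ℕ} (h : chk o a b = true) : o = some (a, b) := by
  cases o with
  | none => cases h
  | some t =>
    change (Nat.beq t.1 a && Nat.beq t.2 b) = true at h
    rw [Bool.and_eq_true] at h
    rw [← Nat.eq_of_beq_eq_true h.1, ← Nat.eq_of_beq_eq_true h.2]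

theorem mk_bit (f : ℕ → Bool) : ∀ k a i : ℕ,
    (mk f k a).testBit i = (a.testBit i || (decide (i < k) && f i)) := by
  intro k
  induction k with
  | zero => intro a i; simp [mk]
  | succ j ih =>
    intro a i
    show (bif f j then force (Nat.lor a (Nat.shiftLeft 1 j)) (mk f j) else mk f j a).testBit i = _
    have e : (Nat.lor a (Nat.shiftLeft 1 j)).testBit i = (a.testBit i || decide (j = i)) := by
      show (a ||| (1 <<< j)).testBit i = _
      rw [Nat.testBit_or, Nat.one_shiftLeft, Nat.testBit_two_pow]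
    cases hf : f j
    · simp only [cond_false, ih]
      by_cases h : i = j
      · subst h; simp [hf]
      · have : decide (i < j + 1) = decide (i < j) := by
          rw [decide_eq_decide]; omega
        rw [this]
    · simp only [cond_true, force_eq, ih, e]
      by_cases h : i = j
      · subst h; simp [hf]
      · have : decide (i < j + 1) = decide (i < j) := by
          rw [decide_eq_decide]; omega
        rw [this, decide_eq_false (Ne.symm h), Bool.or_false]

def allBits (lw : ℕ → ℕ) (f : ℕ → Bool) (k : ℕ) : ℕ → Bool :=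
  Nat.rec (motive := fun _ => ℕ → Bool) (fun x => Nat.beq x 0)
    (fun _ ih x => bif Nat.beq x 0 then true else
      f (lw x) && ih (Nat.xor x (Nat.shiftLeft 1 (lw x)))) k

theorem allBits_sound (lw : ℕ → ℕ) (f : ℕ → Bool) : ∀ k x : ℕ, allBits lw f k x = true →
    ∀ y, x.testBit y = true → f y = true := by
  intro k
  induction k with
  | zero =>
    intro x h y hy
    rw [Nat.eq_of_beq_eq_true h] at hy; simp at hy
  | succ k ih =>
    intro x h y hy
    change (bif Nat.beq x 0 then true else
      f (lw x) && allBits lw f k (Nat.xor x (Nat.shiftLeft 1 (lw x)))) = true at h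
    cases h0 : Nat.beq x 0
    · rw [h0, cond_false, Bool.and_eq_true] at h
      by_cases hy' : y = lw x
      · rw [hy']; exact h.1
      · exact ih _ h.2 y (by rw [tb_xor _ _ _ hy']; exact hy)
    · rw [Nat.eq_of_beq_eq_true h0] at hy; simp at hy

def idx (T a b : ℕ) : ℕ := low T (Nat.land (tE SX a) (tE SX b))

def pe (v : ℕ) : ℕ := if v < 505 then v - 1 else if v < 529 then v else 529 + 2 * (v - 529)

def okE (T e : ℕ) : Bool :=
  decide (eu e < 532) && decide (ew e < 532) && decide (eu e ≠ ew e) &&
  decide (idx T (eu e) (ew e) = e) && (tE SX (eu e)).testBit e && (tE SX (ew e)).testBit e &&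
  (PV SX (eu e)).testBit (ew e) && (PV SX (ew e)).testBit (eu e) &&
  (!PL.testBit (eu e) || decide (eu e ≤ e + 2 ∧ e ≤ eu e ∧ eu e + 1 ≤ ew e + 2 ∧ ew e ≤ eu e + 1)) &&
  (!PL.testBit (ew e) || decide (ew e ≤ e + 2 ∧ e ≤ ew e ∧ ew e + 1 ≤ eu e + 2 ∧ eu e ≤ ew e + 1)) &&
  (decide (504 ≤ e) || decide (eu e = e ∧ ew e = e + 1))

def okV (T v : ℕ) : Bool :=
  allBits (low T) (fun x => decide (idx T v x < 535 ∧ ((eu (idx T v x) = v ∧ ew (idx T v x) = x) ∨
    (ew (idx T v x) = v ∧ eu (idx T v x) = x)))) 16 (PV SX v) &&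
  (decide (v = 0) || decide (pe v < 535 ∧ ew (pe v) = v ∧ eu (pe v) < v))

theorem ok_all : force (tab 540 0) (fun T => (List.range 535).all (okE T) &&
    (List.range 532).all (okV T)) = true := by decide +kernel

theorem okE_all (e : ℕ) (he : e < 535) : okE (tab 540 0) e = true := by
  have := ok_all
  rw [force_eq, Bool.and_eq_true, List.all_eq_true] at this
  exact this.1 e (List.mem_range.2 he)

theorem okV_all (v : ℕ) (hv : v < 532) : okV (tab 540 0) v = true := by
  have := ok_all
  rw [force_eq, Bool.and_eq_true, List.all_eq_true, List.all_eq_true] at this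
  exact this.2 v (List.mem_range.2 hv)

theorem specE (e : ℕ) (he : e < 535) :
    ((((((((((eu e < 532 ∧ ew e < 532) ∧ eu e ≠ ew e) ∧ idx (tab 540 0) (eu e) (ew e) = e) ∧
    (tE SX (eu e)).testBit e = true) ∧ (tE SX (ew e)).testBit e = true) ∧
    (PV SX (eu e)).testBit (ew e) = true) ∧ (PV SX (ew e)).testBit (eu e) = true) ∧
    (PL.testBit (eu e) = false ∨
      (eu e ≤ e + 2 ∧ e ≤ eu e ∧ eu e + 1 ≤ ew e + 2 ∧ ew e ≤ eu e + 1))) ∧
    (PL.testBit (ew e) = false ∨
      (ew e ≤ e + 2 ∧ e ≤ ew e ∧ ew e + 1 ≤ eu e + 2 ∧ eu e ≤ ew e + 1))) ∧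
    (504 ≤ e ∨ (eu e = e ∧ ew e = e + 1))) := by
  have := okE_all e he
  simp only [okE, Bool.and_eq_true, Bool.or_eq_true, decide_eq_true_eq, Bool.not_eq_true'] at this
  exact this

theorem PL_lt (j : ℕ) (h : PL.testBit j = true) : j < 504 := by
  by_contra hh
  have h1 : PL < 2 ^ 504 := by decide +kernel
  have h2 : PL < 2 ^ j := lt_of_lt_of_le h1 (Nat.pow_le_pow_right (by norm_num) (by omega))
  rw [Nat.testBit_eq_false_of_lt h2] at h
  cases h

/-- A 505-cycle with two pendant 12-stars and three triangles on cycle edges. -/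
def G : SimpleGraph (Fin 532) where
  Adj a b := ∃ e < 535, (eu e = a ∧ ew e = b) ∨ (ew e = a ∧ eu e = b)
  symm := ⟨fun _ _ ⟨e, he, h⟩ => ⟨e, he, by omega⟩⟩
  loopless := ⟨fun _ ⟨e, he, h⟩ => by have := (specE e he).1.1.1.1.1.1.1.1.2; omega⟩

theorem QE_mem (e x : ℕ) : x ∈ bset (QE e) ↔ x = eu e ∨ x = ew e := by
  show (1 <<< eu e ||| 1 <<< ew e).testBit x = true ↔ _
  rw [Nat.testBit_or, Nat.one_shiftLeft, Nat.one_shiftLeft, Nat.testBit_two_pow,
    Nat.testBit_two_pow, Bool.or_eq_true, decide_eq_true_eq, decide_eq_true_eq]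
  omega

theorem lst : Lst 532 535 eu ew (fun i => bset (QE i)) G where
  adj _ _ := Iff.rfl
  lt e he := (specE e he).1.1.1.1.1.1.1.1.1
  inj e he e' he' h := by
    have h1 := (specE e he).1.1.1.1.1.1.1.2
    have h2 := (specE e' he').1.1.1.1.1.1.1.2
    rcases h with h | h
    · rw [← h1, h.1, h.2, h2]
    · rw [← h1, h.1, h.2]
      rw [← h2]
      show low _ (_ &&& _) = low _ (_ &&& _)
      rw [h2, Nat.and_comm]
  hQ := QE_mem

theorem PV_iff (v x : ℕ) (hv : v < 532) : (PV SX v).testBit x = true ↔
    ∃ e < 535, (eu e = x ∧ ew e = v) ∨ (ew e = x ∧ eu e = v) := by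
  constructor
  · intro h
    have h1 := okV_all v hv
    rw [okV, Bool.and_eq_true] at h1
    have h2 := allBits_sound _ _ _ _ h1.1 x h
    rw [decide_eq_true_eq] at h2
    exact ⟨_, h2.1, by omega⟩
  · rintro ⟨e, he, h | h⟩
    · rw [← h.1, ← h.2]; exact (specE e he).1.1.1.2
    · rw [← h.1, ← h.2]; exact (specE e he).1.1.1.1.2

theorem G_conn : G.Connected := by
  have h : ∀ k, ∀ v : Fin 532, v.val = k → G.Reachable 0 v := by
    intro k
    induction k using Nat.strong_induction_on with
    | _ k ih =>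
      intro v hv
      have h1 := okV_all v v.2
      rw [okV, Bool.and_eq_true, Bool.or_eq_true, decide_eq_true_eq, decide_eq_true_eq] at h1
      rcases h1.2 with h2 | h2
      · have : v = 0 := Fin.ext h2
        rw [this]
      · refine (ih (eu (pe v)) (by omega) ⟨eu (pe v), by omega⟩ rfl).trans
          (SimpleGraph.Adj.reachable ⟨pe v, h2.1, Or.inl ⟨rfl, h2.2.1⟩⟩)
  exact ⟨fun u v => (h _ u rfl).symm.trans (h _ v rfl)⟩

theorem QV_eq : (fun i => bset (QV i)) = fun i => ({i} : Set ℕ) := funext fun i => bset_one i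

theorem sets_val
    [DecidablePred (fun S : Finset (Fin 532) => (G.induce (S : Set (Fin 532))).Connected)] :
    ∑ S ∈ univ.filter (fun S : Finset (Fin 532) => (G.induce (S : Set (Fin 532))).Connected),
      (fun _ => 1) S.card = 8913444107502 ∧
    ∑ S ∈ univ.filter (fun S : Finset (Fin 532) => (G.induce (S : Set (Fin 532))).Connected),
      (fun k => k) S.card = 3662317059645722 := by
  have hP : ∀ a b : Fin 532, G.Adj a b ↔ (a : ℕ) ∈ (fun i => bset (PV SX i)) b :=
    fun a b => (PV_iff b a b.2).symm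
  rw [sets_sum G (fun i => bset (PV SX i)) hP (fun _ => 1),
    sets_sum G (fun i => bset (PV SX i)) hP (fun k => k)]
  have h := runV_eq
  simp only [runV, force_eq] at h
  have hT : ∀ i < 532, ∀ x, ((PV SX i).testBit x = true ∨ (QV i).testBit x = true) →
      (tV SX x).testBit i = true := by
    intro i hi x hx
    show (PV SX x ||| 1 <<< x).testBit i = true
    rw [Nat.testBit_or, Bool.or_eq_true]
    rcases hx with hx | hx
    · obtain ⟨e, he, h1⟩ := (PV_iff i x hi).1 hx
      have := lst.lt e he
      exact Or.inl ((PV_iff x i (by omega)).2 ⟨e, he, by omega⟩)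
    · have : x ∈ bset (QV i) := hx
      rw [show bset (QV i) = {i} from bset_one i] at this
      rw [Set.mem_singleton_iff.1 this, Nat.one_shiftLeft]
      exact Or.inr (Nat.testBit_two_pow_self)
  have hPl : ∀ j, PL.testBit j = true →
      Plain (fun i => bset (PV SX i)) (fun i => bset (QV i)) 532 1 j := by
    intro j hj
    have hlt := PL_lt j hj
    rw [QV_eq]
    refine ⟨fun i hi hx => ?_, ?_, rfl, fun q hq => Or.inr hq⟩
    · rcases hx with hx | hx
      · obtain ⟨e, he, h1⟩ := (PV_iff i j hi).1 hx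
        have s1 := (specE e he).1.1.2
        have s2 := (specE e he).1.2
        rcases h1 with h1 | h1
        · rw [h1.1, hj, h1.2] at s1; simp only [Bool.true_eq_false, false_or] at s1; omega
        · rw [h1.1, hj, h1.2] at s2; simp only [Bool.true_eq_false, false_or] at s2; omega
      · have : j = i := hx
        omega
    · have := (specE j (by omega)).2
      exact (PV_iff (j + 1) j (by omega)).2 ⟨j, by omega, Or.inl (by omega)⟩
  have hU : Uni (fun i => bset (PV SX i)) (fun i => bset (QV i)) := by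
    rw [QV_eq]
    intro i p _ a ha b hb _ _
    exact ha.trans hb.symm
  have hs := tot_sound 532 (PV SX) QV _ mV
    (ev_sound 532 1 PL _ _ _ (PV SX) QV (tV SX) hU hT hPl _ _ _) 532 0 0 [] _ _ (by simp) (chk_eq h)
  have hm : ∀ r ∈ range 532, bits 532 (mV r) = Ioo r 532 := by
    intro r hr
    ext i
    have e : (mV r).testBit i = (decide (i ≥ r + 1) && decide (i - (r + 1) < 531 - r)) := by
      show (ones (531 - r) <<< (r + 1)).testBit i = _
      rw [Nat.testBit_shiftLeft, ones_bit]
    simp only [bits, mem_filter, mem_range, mem_Ioo, e, Bool.and_eq_true, decide_eq_true_eq]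
    omega
  rw [QV_eq] at hs
  constructor
  · refine Eq.trans ?_ (hs.1.trans (Nat.zero_add _)).symm
    exact sum_congr rfl fun r hr => by rw [hm r hr]
  · refine Eq.trans ?_ (hs.2.trans (Nat.zero_add _)).symm
    exact sum_congr rfl fun r hr => by rw [hm r hr]

open Classical in
theorem trees_val [Fintype G.Subgraph] :
    ∑ H ∈ univ.filter (fun H : G.Subgraph => H.coe.IsTree), (fun _ => 1) H.verts.ncard =
      69570704846182 ∧
    ∑ H ∈ univ.filter (fun H : G.Subgraph => H.coe.IsTree), (fun k => k) H.verts.ncard =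
      28584726354608266 := by
  rw [lst.trees_sum (fun _ => 1), lst.trees_sum (fun k => k)]
  have h := runE_eq
  simp only [runE, force_eq] at h
  have hT : ∀ i < 535, ∀ x, ((QE i).testBit x = true ∨ (QE i).testBit x = true) →
      (tE SX x).testBit i = true := by
    intro i hi x hx
    rcases (QE_mem i x).1 (hx.elim id id) with rfl | rfl
    · exact (specE i hi).1.1.1.1.1.1.2
    · exact (specE i hi).1.1.1.1.1.2
  have hPl : ∀ j, PL.testBit j = true →
      Plain (fun i => bset (QE i)) (fun i => bset (QE i)) 535 0 j := by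
    intro j hj
    have hlt := PL_lt j hj
    have h0 := (specE j (by omega)).2
    refine ⟨fun i hi hx => ?_, (QE_mem _ _).2 ?_, (QE_mem _ _).2 ?_, fun q hq => ?_⟩
    · have s1 := (specE i hi).1.1.2
      have s2 := (specE i hi).1.2
      rcases (QE_mem i j).1 (hx.elim id id) with h1 | h1
      · rw [← h1, hj] at s1; simp only [Bool.true_eq_false, false_or] at s1; omega
      · rw [← h1, hj] at s2; simp only [Bool.true_eq_false, false_or] at s2; omega
    · rw [add_zero]; omega
    · rw [add_zero]; omega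
    · have := (QE_mem _ _).1 hq
      rw [add_zero] at this; omega
  have hs := tot_sound 535 QE QE _ mE
    (ev_sound 535 0 PL _ _ _ QE QE (tE SX) lst.uni hT hPl _ _ _) 532 0 0 [] _ _ (by simp) (chk_eq h)
  have hm : ∀ r ∈ range 532, bits 535 (mE r) =
      (range 535).filter (fun e => r ≤ eu e ∧ r ≤ ew e) := by
    intro r hr
    ext i
    have e : (mE r).testBit i = ((decide (i ≥ r) && decide (i - r < 504 - r)) ||
        (decide (i ≥ 504) && (decide (i - 504 < 31) &&
          (Nat.ble r (eu (504 + (i - 504))) && Nat.ble r (ew (504 + (i - 504))))))) := by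
      show (ones (504 - r) <<< r ||| mk _ 31 0 <<< 504).testBit i = _
      rw [Nat.testBit_or, Nat.testBit_shiftLeft, Nat.testBit_shiftLeft, ones_bit, mk_bit,
        Nat.zero_testBit, Bool.false_or]
    simp only [bits, mem_filter, mem_range, e, Bool.and_eq_true, Bool.or_eq_true,
      decide_eq_true_eq, Nat.ble_eq, and_congr_right_iff]
    intro hi
    have h0 := (specE i hi).2
    by_cases h1 : 504 ≤ i
    · rw [Nat.add_sub_cancel' h1]
      generalize eu i = a at *
      generalize ew i = b at *
      omega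
    · generalize eu (504 + (i - 504)) = a' at *
      generalize ew (504 + (i - 504)) = b' at *
      omega
  constructor
  · refine Eq.trans ?_ (hs.1.trans (Nat.zero_add _)).symm
    exact sum_congr rfl fun r hr => by rw [hm r hr]
  · refine Eq.trans ?_ (hs.2.trans (Nat.zero_add _)).symm
    exact sum_congr rfl fun r hr => by rw [hm r hr]

end Pool.Agent.H7.Mu
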