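import Pool.Agent.H7.PickDefs

namespace Pool.Agent.H7.Pick

open scoped ComplexOrder Matrix InnerProductSpace ComplexConjugate MatrixOrder
open Finset Matrix

universe u

variable {X : Type u}

lemma psd_of_finite {ι : Type*} {A : Matrix ι ι ℂ}
    (h : ∀ s : Finset ι, (A.submatrix (↑) (↑) : Matrix s s ℂ).PosSemidef) : A.PosSemidef := by
  classical
  refine ⟨?_, fun x ↦ ?_⟩
  · ext i j
    have := (h {i, j}).1.apply ⟨i, by simp⟩ ⟨j, by simp⟩
    simpa using this
  · simpa [Finsupp.sum, ← Finset.sum_attach x.support, ← Finset.subtype_mem_eq_attach,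
      ← Finsupp.subtypeDomain_apply, ← Finsupp.support_subtypeDomain] using (h x.support).2 _

lemma psd_congr {ι : Type*} {A B : Matrix ι ι ℂ} (h : A.PosSemidef) (e : ∀ i j, B i j = A i j) :
    B.PosSemidef := by
  rw [show B = A from Matrix.ext e]; exact h

lemma had {ι : Type*} {A B : Matrix ι ι ℂ} (h : A.PosSemidef) (h' : B.PosSemidef) :
    (A ⊙ B).PosSemidef := h.hadamard h'

lemma gram_vec {I : Type*} [Fintype I] {M : Matrix I I ℂ} (h : M.PosSemidef) :
    ∃ g : I → EuclideanSpace ℂ I, ∀ i j, M i j = ⟪g i, g j⟫_ℂ := by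
  classical
  obtain ⟨B, rfl⟩ := CStarAlgebra.nonneg_iff_eq_star_mul_self.mp h.nonneg
  refine ⟨fun i => WithLp.toLp 2 fun a => B a i, fun i j => ?_⟩
  simp [Matrix.mul_apply, PiLp.inner_apply, mul_comm]

lemma gram_psd {I E : Type*} [NormedAddCommGroup E] [InnerProductSpace ℂ E] (v : I → E) :
    (Matrix.of fun i j => ⟪v i, v j⟫_ℂ).PosSemidef :=
  psd_of_finite fun s => Matrix.posSemidef_gram ℂ fun i : s => v i

lemma inner_self_nn {E : Type*} [NormedAddCommGroup E] [InnerProductSpace ℂ E] (v : E) :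
    0 ≤ ⟪v, v⟫_ℂ := by
  rw [inner_self_eq_norm_sq_to_K]
  have := Complex.zero_le_real.mpr (sq_nonneg ‖v‖)
  push_cast at this
  exact this

lemma row_zero {ι : Type*} {A : Matrix ι ι ℂ} (h : A.PosSemidef) {i : ι} (hi : A i i = 0) (j : ι) :
    A i j = 0 := by
  obtain ⟨g, hg⟩ := gram_vec (h.submatrix ![i, j])
  have h0 := hg 0 0
  have h1 := hg 0 1
  simp only [submatrix_apply, cons_val_zero, cons_val_one] at h0 h1
  rw [hi] at h0
  rw [h1, inner_self_eq_zero.mp h0.symm, inner_zero_left]

lemma entry_le {ι : Type*} {A : Matrix ι ι ℂ} (h : A.PosSemidef) (i j : ι) :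
    ‖A i j‖ ^ 2 ≤ ‖A i i‖ * ‖A j j‖ := by
  obtain ⟨g, hg⟩ := gram_vec (h.submatrix ![i, j])
  have h0 := hg 0 0
  have h1 := hg 0 1
  have h2 := hg 1 1
  simp only [submatrix_apply, cons_val_zero, cons_val_one] at h0 h1 h2
  rw [h0, h1, h2, inner_self_eq_norm_sq_to_K, inner_self_eq_norm_sq_to_K]
  have := norm_inner_le_norm (𝕜 := ℂ) (g 0) (g 1)
  simp only [norm_pow, Complex.coe_algebraMap, Complex.norm_real, norm_norm]
  calc _ ≤ (‖g 0‖ * ‖g 1‖) ^ 2 := by gcongr
    _ = _ := by ring

lemma IsKernel.conj {k : X → X → ℂ} (h : IsKernel k) (x y : X) : conj (k x y) = k y x :=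
  h.1.apply y x

lemma schur_eq (k : X → X → ℂ) (z x y : X) : schur k z x y = k x y - k x z * k z y / k z z := by
  unfold schur
  split_ifs with h <;> simp [h]

lemma schur_left {k : X → X → ℂ} (h : IsKernel k) (z y : X) : schur k z z y = 0 := by
  unfold schur
  split_ifs with h0
  · exact row_zero h h0 y
  · field_simp; ring

lemma schur_right {k : X → X → ℂ} (h : IsKernel k) (z y : X) : schur k z y z = 0 := by
  unfold schur
  split_ifs with h0
  · rw [← h.conj, show k z y = 0 from row_zero h h0 y, map_zero]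
  · field_simp; ring

lemma ext_opt {I : Type*} [Fintype I] {M : Matrix I I ℂ} (hM : M.PosSemidef) (a : I → ℂ) (r : ℂ)
    (hr : 0 ≤ r) (N : Matrix (Option I) (Option I) ℂ) (h1 : ∀ i j, N (some i) (some j) = M i j)
    (h2 : ∀ i, N (some i) none = ∑ j, M i j * a j)
    (h3 : ∀ j, N none (some j) = ∑ i, conj (a i) * M i j)
    (h4 : N none none = ∑ i, ∑ j, conj (a i) * M i j * a j + r) : N.PosSemidef := by
  classical
  set T : Matrix I (Option I) ℂ := fun i o => Option.elim o (a i) fun j => if i = j then 1 else 0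
    with hT
  have e : N = Tᴴ * M * T + Matrix.diagonal fun o => Option.elim o r fun _ => 0 := by
    ext o o'
    rcases o with _ | i <;> rcases o' with _ | j
    · rw [h4]
      simp only [hT, Matrix.add_apply, Matrix.mul_apply, conjTranspose_apply, Option.elim_none,
        diagonal_apply_eq, Finset.sum_mul, RCLike.star_def]
      rw [Finset.sum_comm]
    · simp [hT, Matrix.mul_apply, h3]
    · simp [hT, Matrix.mul_apply, h2, apply_ite]
    · simp [hT, Matrix.mul_apply, h1, apply_ite, Matrix.diagonal_apply]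
  rw [e]
  refine (hM.conjTranspose_mul_mul_same T).add (Matrix.PosSemidef.diagonal fun o => ?_)
  rcases o with _ | i
  · exact hr
  · exact le_rfl

lemma proj_coeff {I : Type*} [Fintype I] {q : Matrix (Option I) (Option I) ℂ} (hq : q.PosSemidef) :
    ∃ (a : I → ℂ) (r : ℂ), 0 ≤ r ∧ (∀ i, q (some i) none = ∑ j, q (some i) (some j) * a j) ∧
      q none none = ∑ i, ∑ j, conj (a i) * q (some i) (some j) * a j + r := by
  classical
  obtain ⟨g, hg⟩ := gram_vec hq
  set U := Submodule.span ℂ (Set.range fun i => g (some i)) with hU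
  obtain ⟨a, ha⟩ := (Submodule.mem_span_range_iff_exists_fun ℂ).mp
    (U.starProjection_apply_mem (g none))
  have ho : ∀ w ∈ U, ⟪w, g none - ∑ i, a i • g (some i)⟫_ℂ = 0 := by
    intro w hw
    rw [ha]
    exact Submodule.inner_right_of_mem_orthogonal hw (U.sub_starProjection_mem_orthogonal _)
  have h1 : ∀ i, q (some i) none = ∑ j, q (some i) (some j) * a j := by
    intro i
    have := ho (g (some i)) (Submodule.subset_span ⟨i, rfl⟩)
    rw [inner_sub_right, inner_sum, sub_eq_zero] at this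
    simp only [hg, this, inner_smul_right, mul_comm]
  refine ⟨a, ⟪g none - ∑ i, a i • g (some i), g none - ∑ i, a i • g (some i)⟫_ℂ,
    inner_self_nn _, h1, ?_⟩
  have h2 := ho (∑ i, a i • g (some i)) (by rw [ha]; exact U.starProjection_apply_mem _)
  have h3 : ⟪g none - ∑ i, a i • g (some i), ∑ i, a i • g (some i)⟫_ℂ = 0 := by
    rw [← inner_conj_symm, h2, map_zero]
  have h4 : ∑ i, ∑ j, conj (a i) * q (some i) (some j) * a j
      = ⟪∑ i, a i • g (some i), ∑ i, a i • g (some i)⟫_ℂ := by
    simp only [sum_inner, inner_sum, inner_smul_left, inner_smul_right, hg, Finset.mul_sum]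
    rw [Finset.sum_comm]
    exact Finset.sum_congr rfl fun i _ => Finset.sum_congr rfl fun j _ => by ring
  rw [h4, hg]
  set s := ∑ i, a i • g (some i)
  have : g none = (g none - s) + s := by abel
  conv_lhs => rw [this]
  rw [inner_add_left, inner_add_right, inner_add_right, h2, h3]
  ring

end Pool.Agent.H7.Pick
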