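import Pool.Agent.H7.Pick1

namespace Pool.Agent.H7.Pick

open scoped ComplexOrder Matrix InnerProductSpace ComplexConjugate MatrixOrder
open Finset Matrix

universe u

variable {X : Type u} {E : Type*} [NormedAddCommGroup E] [InnerProductSpace ℂ E]

/-- Pick matrix of a family of tangential data -/
noncomputable def pick (k l : X → X → ℂ) {I : Type*} (x : I → X) (v y : I → E) : Matrix I I ℂ :=
  Matrix.of fun i j => l (x i) (x j) * ⟪v i, v j⟫_ℂ - k (x i) (x j) * ⟪y i, y j⟫_ℂ

/-- the Parrott condition at `z` for data on `S` -/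
def Good (E : Type*) [NormedAddCommGroup E] [InnerProductSpace ℂ E] (k l : X → X → ℂ) (S : Set X)
    (z : X) : Prop :=
  ∀ (I : Type u) [Fintype I] (x : I → X) (v y : I → E), (∀ i, x i ∈ S) →
    (pick k l x v y).PosSemidef → (pick (schur k z) (schur l z) x v y).PosSemidef

lemma par_psd {k : X → X → ℂ} (hk : IsKernel k) (z : X) {I : Type*} (x : I → X) (v : I → E) :
    (Matrix.of fun i j => k (x i) z * k z (x j) / k z z * ⟪v i, v j⟫_ℂ).PosSemidef := by
  have h1 := (gram_psd fun i => k z (x i) • v i).smul (show 0 ≤ (k z z)⁻¹ from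
    inv_nonneg.mpr (hk.diag_nonneg (i := z)))
  convert h1 using 1
  ext i j
  simp only [of_apply, Matrix.smul_apply, inner_smul_left, inner_smul_right, hk.conj, smul_eq_mul]
  ring

lemma ext_one {k l : X → X → ℂ} (hk : IsKernel k) (hl : IsKernel l) {I : Type u} [Fintype I]
    (x : I → X) (v y : I → E) (z : X) (w : E) (h : (pick k l x v y).PosSemidef)
    (hz : (pick (schur k z) (schur l z) x v y).PosSemidef) :
    ∃ y0 : E, (pick k l (fun o => Option.elim o z x) (fun o => Option.elim o w v)
      (fun o => Option.elim o y0 y)).PosSemidef := by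
  set x' : Option I → X := fun o => Option.elim o z x with hx'
  set v' : Option I → E := fun o => Option.elim o w v with hv'
  have h1 : (pick (schur k z) (schur l z) x' v' (fun o => Option.elim o 0 y)).PosSemidef := by
    refine ext_opt hz 0 0 le_rfl _ (fun i j => rfl) (fun i => ?_) (fun j => ?_) ?_
    · simp [pick, hx', schur_right hl]
    · simp [pick, hx', schur_left hl]
    · simp [pick, hx', schur_left hl]
  obtain ⟨a, r, hr, h2, h3⟩ := proj_coeff (h1.add (par_psd hl z x' v'))
  have hq : ∀ i j, (pick (schur k z) (schur l z) x' v' (fun o => Option.elim o 0 y)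
      + Matrix.of fun i j => l (x' i) z * l z (x' j) / l z z * ⟪v' i, v' j⟫_ℂ) (some i) (some j)
      = pick k l x v y i j + k (x i) z * k z (x j) / k z z * ⟪y i, y j⟫_ℂ := by
    intro i j
    simp only [pick, Matrix.add_apply, of_apply, schur_eq, hx', hv', Option.elim_some]
    ring
  simp only [hq] at h2 h3
  have e1 : ∀ t, schur l z t z + l t z * l z z / l z z = l t z := by
    intro t; rw [schur_eq]; ring
  have h2' : ∀ i, l (x i) z * ⟪v i, w⟫_ℂ
      = ∑ j, (pick k l x v y i j + k (x i) z * k z (x j) / k z z * ⟪y i, y j⟫_ℂ) * a j := by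
    intro i
    rw [← h2, ← e1]
    simp only [pick, Matrix.add_apply, of_apply, hx', hv', Option.elim_some, Option.elim_none,
      inner_zero_right]
    ring
  have h3' : l z z * ⟪w, w⟫_ℂ = ∑ i, ∑ j, conj (a i) *
      (pick k l x v y i j + k (x i) z * k z (x j) / k z z * ⟪y i, y j⟫_ℂ) * a j + r := by
    rw [← h3]
    simp only [pick, Matrix.add_apply, of_apply, hx', hv', Option.elim_none, inner_zero_right]
    linear_combination (-⟪w, w⟫_ℂ) * e1 z
  set y0 : E := ∑ j, (k z (x j) / k z z * a j) • y j with hy0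
  have h4 : ∀ i, k (x i) z * ⟪y i, y0⟫_ℂ
      = ∑ j, (k (x i) z * k z (x j) / k z z * ⟪y i, y j⟫_ℂ) * a j := by
    intro i
    simp only [hy0, inner_sum, inner_smul_right, Finset.mul_sum]
    exact Finset.sum_congr rfl fun j _ => by ring
  have h5 : k z z * ⟪y0, y0⟫_ℂ
      = ∑ i, ∑ j, conj (a i) * (k (x i) z * k z (x j) / k z z * ⟪y i, y j⟫_ℂ) * a j := by
    have : ∀ i, ∑ j, conj (a i) * (k (x i) z * k z (x j) / k z z * ⟪y i, y j⟫_ℂ) * a j
        = conj (a i) * (k (x i) z * ⟪y i, y0⟫_ℂ) := by
      intro i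
      rw [h4, Finset.mul_sum]
      exact Finset.sum_congr rfl fun j _ => by ring
    simp only [this]
    conv_lhs => rw [hy0, sum_inner, Finset.mul_sum]
    refine Finset.sum_congr rfl fun i _ => ?_
    rw [inner_smul_left, map_mul, map_div₀, hk.conj, hk.conj]
    by_cases h0 : k z z = 0
    · have : k (x i) z = 0 := by rw [← hk.conj, show k z (x i) = 0 from row_zero hk h0 _, map_zero]
      simp [h0, this]
    · rw [← hy0]
      field_simp
  have h6 : ∀ i, pick k l x' v' (fun o => Option.elim o y0 y) (some i) none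
      = ∑ j, pick k l x v y i j * a j := by
    intro i
    have : pick k l x' v' (fun o => Option.elim o y0 y) (some i) none
      = l (x i) z * ⟪v i, w⟫_ℂ - k (x i) z * ⟪y i, y0⟫_ℂ := rfl
    rw [this, h2', h4, ← Finset.sum_sub_distrib]
    exact Finset.sum_congr rfl fun j _ => by ring
  refine ⟨y0, ext_opt h a r hr _ (fun i j => rfl) h6 (fun j => ?_) ?_⟩
  · have : pick k l x' v' (fun o => Option.elim o y0 y) none (some j)
        = conj (pick k l x' v' (fun o => Option.elim o y0 y) (some j) none) := by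
      simp only [pick, of_apply, map_sub, map_mul, hk.conj, hl.conj, inner_conj_symm]
    rw [this, h6, map_sum]
    refine Finset.sum_congr rfl fun i _ => ?_
    rw [map_mul, mul_comm]
    congr 1
    exact h.1.apply i j
  · have : pick k l x' v' (fun o => Option.elim o y0 y) none none
      = l z z * ⟪w, w⟫_ℂ - k z z * ⟪y0, y0⟫_ℂ := rfl
    rw [this, h3', h5]
    simp only [mul_add, add_mul, Finset.sum_add_distrib]
    ring

lemma ext_fin {k l : X → X → ℂ} (hk : IsKernel k) (hl : IsKernel l) (S : Set X) (m : ℕ) :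
    ∀ (I : Type u) [Fintype I] (x : I → X) (v y : I → E) (z : Fin m → X) (w : Fin m → E),
      (∀ i, x i ∈ S) → (∀ a, z a ∈ S) → (∀ a, Good E k l S (z a)) → (pick k l x v y).PosSemidef →
      ∃ y0 : Fin m → E, (pick k l (Sum.elim x z) (Sum.elim v w) (Sum.elim y y0)).PosSemidef := by
  induction m with
  | zero =>
    intro I _ x v y z w _ _ _ h
    refine ⟨w, ?_⟩
    convert h.submatrix (Sum.elim id Fin.elim0 : I ⊕ Fin 0 → I) using 1
    ext i j
    rcases i with i | i <;> rcases j with j | j
    · rfl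
    · exact j.elim0
    · exact i.elim0
    · exact i.elim0
  | succ m ih =>
    intro I _ x v y z w hx hz hg h
    obtain ⟨y1, h1⟩ := ext_one hk hl x v y (z 0) (w 0) h (hg 0 I x v y hx h)
    obtain ⟨y2, h2⟩ := ih (Option I) _ _ _ (Fin.tail z) (Fin.tail w)
      (by rintro (_ | i); exacts [hz 0, hx i]) (fun a => hz _) (fun a => hg _) h1
    refine ⟨Fin.cons y1 y2, ?_⟩
    convert h2.submatrix (Sum.elim (fun i => Sum.inl (some i))
      (Fin.cons (Sum.inl none) fun a => Sum.inr a) : I ⊕ Fin (m + 1) → Option I ⊕ Fin m) using 1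
    ext i j
    rcases i with i | i <;> rcases j with j | j
    · rfl
    · refine Fin.cases ?_ (fun j => ?_) j <;> rfl
    · refine Fin.cases ?_ (fun i => ?_) i <;> rfl
    · refine Fin.cases ?_ (fun i => ?_) i <;> refine Fin.cases ?_ (fun j => ?_) j <;> rfl

lemma ext_many {k l : X → X → ℂ} (hk : IsKernel k) (hl : IsKernel l) (S : Set X)
    {I : Type u} [Fintype I] {J : Type*} [Fintype J] (x : I → X) (v y : I → E) (z : J → X)
    (w : J → E) (hx : ∀ i, x i ∈ S) (hz : ∀ a, z a ∈ S) (hg : ∀ a, Good E k l S (z a))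
    (h : (pick k l x v y).PosSemidef) :
    ∃ y0 : J → E, (pick k l (Sum.elim x z) (Sum.elim v w) (Sum.elim y y0)).PosSemidef := by
  set e := Fintype.equivFin J
  obtain ⟨y0, h0⟩ := ext_fin hk hl S _ I x v y (z ∘ e.symm) (w ∘ e.symm) hx (fun a => hz _)
    (fun a => hg _) h
  refine ⟨y0 ∘ e, ?_⟩
  convert h0.submatrix (Sum.map id e) using 1
  ext i j
  rcases i with i | i <;> rcases j with j | j <;> simp [pick]

open Classical in
/-- cutting a kernel down to a set -/
noncomputable def cut (S : Set X) (a : X → X → ℂ) : Matrix X X ℂ :=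
  Matrix.of fun x y => if x ∈ S ∧ y ∈ S then a x y else 0

/-- a certificate at `z` on the set `S` -/
def CertOn (k l : X → X → ℂ) (S : Set X) (z : X) (p : X → X → ℂ) : Prop :=
  IsKernel p ∧ (cut S fun x y => schur l z x y - p x y * l x y).PosSemidef ∧
    (cut S fun x y => p x y * k x y - schur k z x y).PosSemidef

lemma CertOn.good {k l : X → X → ℂ} {S : Set X} {z : X} {p : X → X → ℂ} (h : CertOn k l S z p) :
    Good E k l S z := by
  intro I _ x v y hx hp
  have h1 := had (h.2.1.submatrix x) (gram_psd v)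
  have h2 := had (h.1.submatrix x) hp
  have h3 := had (h.2.2.submatrix x) (gram_psd y)
  refine psd_congr ((h1.add h2).add h3) fun i j => ?_
  simp only [pick, cut, of_apply, Matrix.add_apply, hadamard_apply, submatrix_apply, hx, and_self,
    if_true]
  ring

lemma CertOn.insert {k l : X → X → ℂ} (hk : IsKernel k) (hl : IsKernel l) {S : Set X} {z : X}
    {p : X → X → ℂ} (h : CertOn k l (S \ {z}) z p) : ∃ p', CertOn k l S z p' := by
  classical
  refine ⟨fun x y => (if x = z then 0 else 1) * p x y * (if y = z then 0 else 1), ?_, ?_, ?_⟩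
  · have h1 : (Matrix.of fun x y : X => ⟪(if x = z then (0 : ℂ) else 1),
        (if y = z then (0 : ℂ) else 1)⟫_ℂ).PosSemidef := gram_psd _
    refine psd_congr (had h1 h.1) fun x y => ?_
    by_cases hx : x = z <;> by_cases hy : y = z <;> simp [hx, hy]
  · refine psd_congr h.2.1 fun x y => ?_
    by_cases hx : x = z <;> by_cases hy : y = z <;>
      simp [cut, hx, hy, schur_left hl, schur_right hl]
  · refine psd_congr h.2.2 fun x y => ?_
    by_cases hx : x = z <;> by_cases hy : y = z <;>
      simp [cut, hx, hy, schur_left hk, schur_right hk]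

end Pool.Agent.H7.Pick
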