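import Pool.Agent.H7.Pick3

namespace Pool.Agent.H7.Pick

open scoped ComplexOrder Matrix InnerProductSpace ComplexConjugate MatrixOrder
open Finset Matrix

universe u

variable {X : Type u}

/-- positivity form of the complete Pick property -/
def CPpos (k l : X → X → ℂ) : Prop :=
  ∀ (I : Type u) [Fintype I] [Nonempty I] (N : ℕ), 1 ≤ N → ∀ (z : I → X)
    (W : I → Matrix (Fin N) (Fin N) ℂ), (pickMat k l z W).PosSemidef →
      ∃ Φ : X → Matrix (Fin N) (Fin N) ℂ, (pickMat k l id Φ).PosSemidef ∧ ∀ i, Φ (z i) = W i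

/-- adjoint action -/
noncomputable def adjv {N : ℕ} (W : Matrix (Fin N) (Fin N) ℂ) (v : CN N) : CN N :=
  WithLp.toLp 2 (Wᴴ *ᵥ v.ofLp)

lemma pickMat_eq (k l : X → X → ℂ) {I : Type*} {N : ℕ} (z : I → X) (y0 : I × Fin N → CN N) :
    pickMat k l z (fun i => Matrix.of fun a b => conj (y0 (i, a) b))
      = pick k l (fun p => z p.1) (fun p => EuclideanSpace.single p.2 (1 : ℂ)) y0 := by
  ext p q
  simp only [pickMat, pick, of_apply, Matrix.mul_apply, conjTranspose_apply, RCLike.star_def,
    Complex.conj_conj, EuclideanSpace.inner_single_left, map_one, one_mul, PiLp.single_apply,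
    Matrix.one_apply, PiLp.inner_apply (y0 p), RCLike.inner_apply]
  congr 2
  exact Finset.sum_congr rfl fun b _ => mul_comm _ _

lemma pick_of_pickMat {k l : X → X → ℂ} {I : Type*} [Fintype I] {N : ℕ} {z : I → X}
    {W : I → Matrix (Fin N) (Fin N) ℂ} (h : (pickMat k l z W).PosSemidef) (v : I → CN N) :
    (pick k l z v fun i => adjv (W i) (v i)).PosSemidef := by
  classical
  refine psd_congr (h.conjTranspose_mul_mul_same
    (Matrix.of fun (p : I × Fin N) (j : I) => if p.1 = j then v j p.2 else 0)) fun i j => ?_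
  simp only [pick, pickMat, adjv, of_apply, Matrix.mul_apply, conjTranspose_apply,
    Fintype.sum_prod_type, PiLp.inner_apply, RCLike.inner_apply, mulVec, dotProduct, mul_ite,
    mul_zero, apply_ite star, star_zero, ite_mul, zero_mul, Finset.sum_ite_irrel, Finset.sum_const_zero,
    Finset.sum_ite_eq', mem_univ, if_true, mul_sub, Finset.sum_sub_distrib, sub_mul, Matrix.one_apply,
    mul_one, RCLike.star_def, map_sum, map_mul, Complex.conj_conj, Finset.mul_sum, Finset.sum_mul]
  congr 1
  · exact Finset.sum_congr rfl fun a _ => by ring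
  · conv_lhs => rw [Finset.sum_comm]
    conv_lhs => enter [2, a]; rw [Finset.sum_comm]
    conv_lhs => rw [Finset.sum_comm]
    refine Finset.sum_congr rfl fun a _ => Finset.sum_congr rfl fun b _ =>
      Finset.sum_congr rfl fun c _ => by ring

variable {E : Type*} [NormedAddCommGroup E] [InnerProductSpace ℂ E]

lemma sum_nonneg_of_psd {I : Type*} [Fintype I] {M : Matrix I I ℂ} (h : M.PosSemidef) (c : I → ℂ) :
    0 ≤ ∑ i, ∑ j, conj (c i) * c j * M i j := by
  have := h.dotProduct_mulVec_nonneg c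
  simp only [dotProduct, mulVec, Finset.mul_sum, Pi.star_apply, RCLike.star_def] at this
  convert this using 3
  ring

lemma inner_sum_sum {I : Type*} [Fintype I] (c : I → ℂ) (v : I → E) :
    ⟪∑ i, c i • v i, ∑ i, c i • v i⟫_ℂ = ∑ i, ∑ j, conj (c i) * c j * ⟪v i, v j⟫_ℂ := by
  simp only [sum_inner, inner_sum, inner_smul_left, inner_smul_right, Finset.mul_sum]
  rw [Finset.sum_comm]
  exact Finset.sum_congr rfl fun i _ => Finset.sum_congr rfl fun j _ => by ring

lemma same_point {k l : X → X → ℂ} (hk : IsKernel k) {I : Type*} [Fintype I] (x : X) (v y : I → E)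
    (h : (pick k l (fun _ => x) v y).PosSemidef) (c : I → ℂ) (hc : ∑ i, c i • v i = 0) :
    k x x = 0 ∨ ∑ i, c i • y i = 0 := by
  have h1 := sum_nonneg_of_psd h c
  have e : ∑ i, ∑ j, conj (c i) * c j * pick k l (fun _ => x) v y i j
      = l x x * ⟪∑ i, c i • v i, ∑ i, c i • v i⟫_ℂ - k x x * ⟪∑ i, c i • y i, ∑ i, c i • y i⟫_ℂ := by
    simp only [inner_sum_sum, Finset.mul_sum, ← Finset.sum_sub_distrib, pick, of_apply]
    exact Finset.sum_congr rfl fun i _ => Finset.sum_congr rfl fun j _ => by ring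
  rw [e, hc, inner_zero_left, mul_zero, zero_sub, neg_nonneg] at h1
  have h2 := mul_nonneg (hk.diag_nonneg (i := x)) (inner_self_nn (∑ i, c i • y i))
  have h3 := le_antisymm h1 h2
  rwa [mul_eq_zero, inner_self_eq_zero] at h3

lemma schur_ineq {k l : X → X → ℂ} (hk : IsKernel k) (hl : IsKernel l) {I : Type*} [Fintype I]
    (x : I → X) (v y : I → E) (z : X) (hz : l z z ≠ 0)
    (h : ∀ w, ∃ y0, (pick k l (fun o => Option.elim o z x) (fun o => Option.elim o w v)
      (fun o => Option.elim o y0 y)).PosSemidef) :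
    ∑ i, ∑ j, schur k z (x i) (x j) * ⟪y i, y j⟫_ℂ ≤ ∑ i, ∑ j, schur l z (x i) (x j) * ⟪v i, v j⟫_ℂ := by
  obtain ⟨y0, h⟩ := h (-∑ j, (l z (x j) / l z z) • v j)
  set x' : Option I → X := fun o => Option.elim o z x with hx'
  set v' : Option I → E := fun o => Option.elim o (-∑ j, (l z (x j) / l z z) • v j) v with hv'
  set y' : Option I → E := fun o => Option.elim o y0 y with hy'
  have h1 := sum_nonneg_of_psd (h.add (par_psd hk z x' y')) fun _ => 1
  have h2 : ∑ o, l z (x' o) • v' o = 0 := by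
    simp only [Fintype.sum_option, hx', hv', Option.elim_none, Option.elim_some, smul_neg,
      Finset.smul_sum, smul_smul]
    rw [neg_add_eq_zero]
    refine Finset.sum_congr rfl fun j _ => ?_
    congr 1
    field_simp
  have h3 := inner_sum_sum (fun o => l z (x' o)) v'
  rw [h2, inner_zero_left] at h3
  have h4 : ∑ i, ∑ j, conj (1 : ℂ) * 1 * (pick k l x' v' y'
      + Matrix.of fun i j => k (x' i) z * k z (x' j) / k z z * ⟪y' i, y' j⟫_ℂ) i j
      = ∑ i, ∑ j, schur l z (x' i) (x' j) * ⟪v' i, v' j⟫_ℂ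
        - ∑ i, ∑ j, schur k z (x' i) (x' j) * ⟪y' i, y' j⟫_ℂ
        + (∑ i, ∑ j, conj (l z (x' i)) * l z (x' j) * ⟪v' i, v' j⟫_ℂ) / l z z := by
    simp only [Finset.sum_div, ← Finset.sum_sub_distrib, ← Finset.sum_add_distrib]
    refine Finset.sum_congr rfl fun i _ => Finset.sum_congr rfl fun j _ => ?_
    simp only [pick, Matrix.add_apply, of_apply, schur_eq, hl.conj, map_one]
    ring
  rw [h4, ← h3, zero_div, add_zero, sub_nonneg] at h1
  simpa [Fintype.sum_option, hx', hv', hy', schur_left hk, schur_left hl, schur_right hk,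
    schur_right hl] using h1

lemma gram_vec_fin {I : Type*} [Fintype I] {M : Matrix I I ℂ} (h : M.PosSemidef) :
    ∃ g : I → CN (Fintype.card I), ∀ i j, M i j = ⟪g i, g j⟫_ℂ := by
  obtain ⟨g, hg⟩ := gram_vec (h.submatrix (Fintype.equivFin I).symm)
  exact ⟨fun i => g (Fintype.equivFin I i), fun i j => by simp [← hg]⟩

lemma schur_conj {k : X → X → ℂ} (hk : IsKernel k) (z x y : X) :
    conj (schur k z x y) = schur k z y x := by
  simp only [schur_eq, map_sub, map_div₀, map_mul, hk.conj]
  ring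

lemma approx_of_CP {k l : X → X → ℂ} (hk : IsKernel k) (hl : IsKernel l) (hl0 : ∀ x, l x x ≠ 0)
    (hCP : CPpos k l) (S : Finset X) : ∀ z, ∀ ε > 0, ∃ p a b, Approx k l S z ε p a b := by
  classical
  induction S using Finset.strongInduction with
  | H S ih =>
  intro z
  have h0 : IsKernel (fun _ _ : X => (0 : ℂ)) := psd_congr PosSemidef.zero fun i j => rfl
  rcases S.eq_empty_or_nonempty with rfl | ⟨x0, hx0⟩
  · intro ε _
    exact ⟨_, _, _, h0, h0, h0, by simp⟩
  have hgood : ∀ x ∈ S, Good (CN (Fintype.card S)) k l S x := by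
    intro x hx
    obtain ⟨p, hp⟩ := cert_of_approx (k := k) hl hl0 ((S : Set X) \ {x}) x fun S' hS' =>
      ih S' ⟨fun t ht => (hS' ht).1, fun h => (hS' (h hx)).2 rfl⟩ x
    obtain ⟨p', hp'⟩ := hp.insert hk hl
    exact hp'.good
  rcases separation (I := S) (fun i j => l i j) (fun i j => k i j) (fun i j => schur l z i j)
    (fun i j => schur k z i j) (fun i j => hl.conj _ _) (fun i j => hk.conj _ _)
    (fun i j => schur_conj hl _ _ _) (fun i j => schur_conj hk _ _ _) with h | ⟨G, H, hG, hH, h1, h2⟩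
  · intro ε hε
    obtain ⟨p, a, b, h1, h2, h3, h4⟩ := h ε hε
    set ρ : X → S := fun x => if hx : x ∈ S then ⟨x, hx⟩ else ⟨x0, hx0⟩ with hρ
    refine ⟨fun x y => p (ρ x) (ρ y), fun x y => a (ρ x) (ρ y), fun x y => b (ρ x) (ρ y),
      h1.submatrix ρ, h2.submatrix ρ, h3.submatrix ρ, fun x hx y hy => ?_⟩
    have hx' : ρ x = ⟨x, hx⟩ := dif_pos hx
    have hy' : ρ y = ⟨y, hy⟩ := dif_pos hy
    simp only [hx', hy']
    exact h4 ⟨x, hx⟩ ⟨y, hy⟩
  exfalso
  obtain ⟨v, hv⟩ := gram_vec_fin hG
  obtain ⟨y, hy⟩ := gram_vec_fin hH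
  simp only [of_apply] at hv hy
  have h3 : (pick k l (fun i : S => (i : X)) v y).PosSemidef :=
    psd_congr h1 fun i j => by simp only [pick, of_apply, hv, hy]
  obtain ⟨y0, h4⟩ := ext_many hk hl (S : Set X) (fun i : S => (i : X)) v y
    (fun p : S × Fin (Fintype.card S) => (p.1 : X)) (fun p => EuclideanSpace.single p.2 (1 : ℂ))
    (fun i => i.2) (fun p => p.1.2) (fun p => hgood _ p.1.2) h3
  have : Nonempty S := ⟨⟨x0, hx0⟩⟩
  obtain ⟨Φ, h5, h6⟩ := hCP S (Fintype.card S) Fintype.card_pos (fun i : S => (i : X))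
    (fun i => Matrix.of fun a b => conj (y0 (i, a) b)) (by
      rw [pickMat_eq]
      exact psd_congr (h4.submatrix Sum.inr) fun i j => rfl)
  have h7 : ∀ i : S, k i i = 0 ∨ y i = adjv (Φ i) (v i) := by
    intro i
    have := same_point (l := l) hk (i : X)
      (fun o : Option (Fin (Fintype.card S)) => Option.elim o (v i) fun a => EuclideanSpace.single a 1)
      (fun o => Option.elim o (y i) fun a => y0 (i, a))
      (psd_congr (h4.submatrix fun o => Option.elim o (Sum.inl i) fun a => Sum.inr (i, a))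
        (by rintro (_ | a) (_ | b) <;> rfl)) (fun o => Option.elim o (-1) fun a => v i a) (by
          ext b
          simp [Fintype.sum_option, Pi.single_apply])
    refine this.imp id fun h => ?_
    simp only [Fintype.sum_option, Option.elim_none, Option.elim_some, neg_smul, one_smul,
      neg_add_eq_zero] at h
    rw [h, h6]
    ext b
    simp [adjv, mulVec, dotProduct, mul_comm]
  have h8 := schur_ineq hk hl (fun i : S => (i : X)) v (fun i => adjv (Φ i) (v i)) z (hl0 z)
    fun w => ⟨adjv (Φ z) w, psd_congr (pick_of_pickMat (k := k) (l := l)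
      (z := fun o : Option S => Option.elim o z fun i => (i : X))
      (W := fun o => Φ (Option.elim o z fun i => (i : X)))
      (psd_congr (h5.submatrix fun p : Option S × Fin (Fintype.card S) =>
        (Option.elim p.1 z Subtype.val, p.2)) fun i j => rfl)
      (fun o => Option.elim o w v)) (by rintro (_ | a) (_ | b) <;> rfl)⟩
  have h9 : ∀ i j : S, schur k z i j * ⟪adjv (Φ i) (v i), adjv (Φ j) (v j)⟫_ℂ = schur k z i j * H i j := by
    intro i j
    have hz : ∀ a b : X, k a a = 0 → schur k z a b = 0 := by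
      intro a b h
      rw [schur_eq, show k a b = 0 from row_zero hk h b, show k a z = 0 from row_zero hk h z]
      simp
    rcases h7 i with hi | hi
    · simp [hz _ _ hi]
    rcases h7 j with hj | hj
    · rw [← schur_conj hk, hz _ _ hj]; simp
    rw [← hi, ← hj, hy]
  simp only [h9, ← hv] at h8
  exact absurd (Complex.le_def.mp h8).1 (not_le.mpr h2)

theorem cert_of_CPpos {k l : X → X → ℂ} (hk : IsKernel k) (hl : IsKernel l) (hl0 : ∀ x, l x x ≠ 0)
    (hCP : CPpos k l) : ∃ p, IsCert k l p := by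
  choose p hp using fun z => cert_of_approx (k := k) hl hl0 Set.univ z fun S _ =>
    approx_of_CP hk hl hl0 hCP S z
  exact ⟨p, fun z => ⟨(hp z).1, psd_congr (hp z).2.1 fun x y => by simp [cut],
    psd_congr (hp z).2.2 fun x y => by simp [cut]⟩⟩

end Pool.Agent.H7.Pick
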