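import Pool.Agent.H7.Pick4

namespace Pool.Agent.H7.Pick

open scoped ComplexOrder Matrix InnerProductSpace ComplexConjugate MatrixOrder
open Finset Matrix

universe u

variable {X : Type u}

lemma entry_bound {k l : X → X → ℂ} (hk : IsKernel k) {I : Type*} {N : ℕ} {z : I → X}
    {W : I → Matrix (Fin N) (Fin N) ℂ} (h : (pickMat k l z W).PosSemidef) (i : I)
    (h0 : k (z i) (z i) ≠ 0) (a b : Fin N) :
    ‖W i a b‖ ≤ ‖l (z i) (z i)‖ / ‖k (z i) (z i)‖ + 1 := by
  have h1 := h.diag_nonneg (i := (i, a))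
  simp only [pickMat, of_apply, one_apply_eq, mul_one, sub_nonneg] at h1
  have h2 : (W i * (W i)ᴴ) a a = ((∑ c, ‖W i a c‖ ^ 2 : ℝ) : ℂ) := by
    simp only [Matrix.mul_apply, conjTranspose_apply, RCLike.star_def, Complex.mul_conj']
    push_cast; rfl
  have hs : 0 ≤ ∑ c, ‖W i a c‖ ^ 2 := Finset.sum_nonneg fun _ _ => sq_nonneg _
  have h3 : 0 ≤ k (z i) (z i) * (W i * (W i)ᴴ) a a :=
    mul_nonneg (hk.diag_nonneg (i := z i)) (by rw [h2]; exact Complex.zero_le_real.mpr hs)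
  have h4 := CStarAlgebra.norm_le_norm_of_nonneg_of_le h3 h1
  rw [norm_mul, h2, Complex.norm_real, Real.norm_of_nonneg hs] at h4
  have h5 : ‖W i a b‖ ^ 2 ≤ ∑ c, ‖W i a c‖ ^ 2 :=
    Finset.single_le_sum (f := fun c => ‖W i a c‖ ^ 2) (fun c _ => sq_nonneg _) (mem_univ b)
  have h6 : 0 < ‖k (z i) (z i)‖ := norm_pos_iff.mpr h0
  have h7 : ‖W i a b‖ ^ 2 ≤ ‖l (z i) (z i)‖ / ‖k (z i) (z i)‖ := by
    rw [le_div_iff₀ h6, mul_comm]
    exact (mul_le_mul_of_nonneg_left h5 h6.le).trans h4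
  clear * - h7
  nlinarith [sq_nonneg (‖W i a b‖ - 1)]

theorem CPpos_of_good {k l : X → X → ℂ} (hk : IsKernel k) (hl : IsKernel l) (hk0 : ∀ x, k x x ≠ 0)
    (hg : ∀ N z, Good (CN N) k l Set.univ z) : CPpos k l := by
  classical
  intro I _ _ N _ z W h
  set R : X → ℝ := fun x => ‖l x x‖ / ‖k x x‖ + 1 with hR
  set B : Set (X → Matrix (Fin N) (Fin N) ℂ) := {Φ | ∀ x a b, ‖Φ x a b‖ ≤ R x} with hB
  have hBc : IsCompact B := by
    have := isCompact_univ_pi fun x : X => box_compact fun _ _ : Fin N => R x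
    have e : B = Set.univ.pi fun x : X => {p : Fin N → Fin N → ℂ | ∀ a b, ‖p a b‖ ≤ R x} := by
      ext Φ
      exact ⟨fun h x _ => h x, fun h x => h x trivial⟩
    rw [e]; exact this
  set Z : Finset X → Set (X → Matrix (Fin N) (Fin N) ℂ) := fun T => B ∩ {Φ | (∀ i, Φ (z i) = W i) ∧
    (pickMat k l (fun t : T => (t : X)) fun t => Φ t).PosSemidef} with hZ
  have hcl : ∀ T : Finset X, IsClosed {Φ : X → Matrix (Fin N) (Fin N) ℂ | (∀ i, Φ (z i) = W i) ∧
    (pickMat k l (fun t : T => (t : X)) fun t => Φ t).PosSemidef} := by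
    intro T
    simp only [Set.ofPred_and, Set.ofPred_forall]
    refine (isClosed_iInter fun i => isClosed_eq (by fun_prop) continuous_const).inter ?_
    refine isClosed_kernel.preimage (f := fun Φ : X → Matrix (Fin N) (Fin N) ℂ =>
      fun p q => pickMat k l (fun t : T => (t : X)) (fun t => Φ t) p q) ?_
    refine continuous_pi fun p => continuous_pi fun q => ?_
    simp only [pickMat, of_apply, Matrix.mul_apply, conjTranspose_apply]
    fun_prop
  have hmono : ∀ T T' : Finset X, T ⊆ T' → Z T' ⊆ Z T := by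
    rintro T T' hT Φ ⟨h1, h2, h3⟩
    exact ⟨h1, h2, psd_congr (h3.submatrix fun p : T × Fin N => (⟨p.1.1, hT p.1.2⟩, p.2))
      fun i j => rfl⟩
  obtain ⟨Φ, hΦ⟩ := IsCompact.nonempty_iInter_of_directed_nonempty_isCompact_isClosed Z
    (fun T T' => ⟨T ∪ T', hmono _ _ subset_union_left, hmono _ _ subset_union_right⟩)
    (by
      intro T0
      refine Set.Nonempty.mono (hmono T0 (T0 ∪ univ.image z) subset_union_left) ?_
      set T := T0 ∪ univ.image z with hT
      have h1 : pickMat k l z W = pick k l (fun p => z p.1)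
          (fun p => EuclideanSpace.single p.2 (1 : ℂ))
          (fun p : I × Fin N => (WithLp.toLp 2 fun b => conj (W p.1 p.2 b) : CN N)) := by
        rw [← pickMat_eq]
        congr 1
        ext i a b
        simp
      rw [h1] at h
      obtain ⟨y0, h2⟩ := ext_many hk hl Set.univ _ _ _ (fun p : T × Fin N => (p.1 : X))
        (fun p => EuclideanSpace.single p.2 (1 : ℂ)) (fun _ => trivial) (fun _ => trivial)
        (fun p => hg _ _) h
      set Φ : X → Matrix (Fin N) (Fin N) ℂ := fun x =>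
        if hx : x ∈ T then Matrix.of fun a b => conj (y0 (⟨x, hx⟩, a) b) else 0 with hΦ
      have h3 : (pickMat k l (fun t : T => (t : X)) fun t => Φ t).PosSemidef := by
        have : (fun t : T => Φ t) = fun t => Matrix.of fun a b => conj (y0 (t, a) b) := by
          ext t a b
          simp [hΦ]
        rw [this, pickMat_eq]
        exact psd_congr (h2.submatrix Sum.inr) fun i j => rfl
      refine ⟨Φ, fun x a b => ?_, fun i => ?_, h3⟩
      · by_cases hx : x ∈ T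
        · exact entry_bound hk h3 ⟨x, hx⟩ (hk0 x) a b
        · simp only [hΦ, hx, dif_neg, not_false_eq_true, Matrix.zero_apply, norm_zero, hR]
          exact add_nonneg (div_nonneg (norm_nonneg _) (norm_nonneg _)) zero_le_one
      · have hi : z i ∈ T := by simp [hT]
        ext a b
        have := same_point (l := l) hk (z i)
          (fun _ : Bool => EuclideanSpace.single a (1 : ℂ))
          (fun o => if o then (WithLp.toLp 2 fun b => conj (W i a b) : CN N) else y0 (⟨z i, hi⟩, a))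
          (psd_congr (h2.submatrix fun o : Bool => if o then Sum.inl (i, a) else Sum.inr (⟨z i, hi⟩, a))
            (by rintro (_ | _) (_ | _) <;> rfl)) (fun o => if o then 1 else -1) (by simp)
        have h4 := this.resolve_left (hk0 _)
        simp only [Fintype.univ_bool, mem_singleton, Bool.true_eq_false, not_false_eq_true,
          sum_insert, if_true, one_smul, sum_singleton, Bool.false_eq_true, if_false, neg_smul,
          add_neg_eq_zero] at h4
        simp [hΦ, hi, ← h4])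
    (fun T => hBc.inter_right (hcl _)) (fun T => hBc.isClosed.inter (hcl _))
  rw [Set.mem_iInter] at hΦ
  refine ⟨Φ, psd_of_finite fun s => ?_, (hΦ ∅).2.1⟩
  exact psd_congr ((hΦ (s.image Prod.fst)).2.2.submatrix fun p : s =>
    (⟨p.1.1, mem_image_of_mem _ p.2⟩, p.1.2)) fun i j => rfl

lemma exists_rep {A H : Type*} [AddCommGroup A] [Module ℂ A] [NormedAddCommGroup H]
    [InnerProductSpace ℂ H] [CompleteSpace H] (φ : A →ₗ[ℂ] ℂ) (ψ : A →ₗ[ℂ] H) (C : ℝ) (hC : 0 ≤ C)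
    (h : ∀ a, ‖φ a‖ ≤ C * ‖ψ a‖) : ∃ g : H, ‖g‖ ≤ C ∧ ∀ a, φ a = ⟪g, ψ a⟫_ℂ := by
  have hker : LinearMap.ker ψ ≤ LinearMap.ker φ := by
    intro a ha
    have := h a
    rw [LinearMap.mem_ker] at ha ⊢
    simpa [ha] using this
  set φ' : LinearMap.range ψ →ₗ[ℂ] ℂ :=
    ((LinearMap.ker ψ).liftQ φ hker) ∘ₗ ψ.quotKerEquivRange.symm.toLinearMap with hφ'
  have h1 : ∀ a, φ' ⟨ψ a, LinearMap.mem_range_self _ _⟩ = φ a := by
    intro a
    simp [hφ', LinearMap.quotKerEquivRange_symm_apply_image]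
  have h2 : ∀ t, ‖φ' t‖ ≤ C * ‖t‖ := by
    rintro ⟨_, a, rfl⟩
    rw [h1]; exact h a
  obtain ⟨F, hF1, hF2⟩ := exists_extension_norm_eq (LinearMap.range ψ) (φ'.mkContinuous C h2)
  refine ⟨(InnerProductSpace.toDual ℂ H).symm F, ?_, fun a => ?_⟩
  · rw [LinearIsometryEquiv.norm_map, hF2]
    exact LinearMap.mkContinuous_norm_le _ hC _
  · rw [InnerProductSpace.toDual_symm_apply, ← h1]
    exact (hF1 ⟨ψ a, _⟩).symm

lemma inner_ker {k : X → X → ℂ} {N : ℕ} {H : Type u} [NormedAddCommGroup H] [InnerProductSpace ℂ H]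
    [CompleteSpace H] [RKHS ℂ H X (CN N)] (h : HasKer k N H) (x y : X) (v w : CN N) :
    ⟪RKHS.kerFun H x v, RKHS.kerFun H y w⟫_ℂ = k x y * ⟪v, w⟫_ℂ := by
  rw [RKHS.kerFun_inner, RKHS.kerFun_apply, h, inner_smul_right]

lemma inner_adjv {N : ℕ} (W : Matrix (Fin N) (Fin N) ℂ) (f v : CN N) :
    ⟪f, adjv W v⟫_ℂ = ⟪(WithLp.toLp 2 (W *ᵥ f.ofLp) : CN N), v⟫_ℂ := by
  simp only [adjv, PiLp.inner_apply, RCLike.inner_apply, mulVec, dotProduct, conjTranspose_apply,
    map_sum, map_mul, Finset.sum_mul, Finset.mul_sum, RCLike.star_def]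
  rw [Finset.sum_comm]
  exact Finset.sum_congr rfl fun i _ => Finset.sum_congr rfl fun j _ => by ring

lemma sum_pick {k l : X → X → ℂ} {N : ℕ} {H₁ : Type u} [NormedAddCommGroup H₁]
    [InnerProductSpace ℂ H₁] [CompleteSpace H₁] [RKHS ℂ H₁ X (CN N)] {H₂ : Type u}
    [NormedAddCommGroup H₂] [InnerProductSpace ℂ H₂] [CompleteSpace H₂] [RKHS ℂ H₂ X (CN N)]
    (h1 : HasKer k N H₁) (h2 : HasKer l N H₂) {I : Type*} [Fintype I] (x : I → X) (v y : I → CN N)
    (c : I → ℂ) :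
    ∑ i, ∑ j, conj (c i) * c j * pick k l x v y i j
      = ((‖∑ i, c i • RKHS.kerFun H₂ (x i) (v i)‖ ^ 2 - ‖∑ i, c i • RKHS.kerFun H₁ (x i) (y i)‖ ^ 2 : ℝ) : ℂ) := by
  push_cast
  have e1 := inner_self_eq_norm_sq_to_K (𝕜 := ℂ) (∑ i, c i • RKHS.kerFun H₂ (x i) (v i))
  have e2 := inner_self_eq_norm_sq_to_K (𝕜 := ℂ) (∑ i, c i • RKHS.kerFun H₁ (x i) (y i))
  simp only [Complex.coe_algebraMap] at e1 e2
  rw [← e1, ← e2, inner_sum_sum, inner_sum_sum]
  simp only [inner_ker h1, inner_ker h2, ← Finset.sum_sub_distrib, pick, of_apply]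
  exact Finset.sum_congr rfl fun i _ => Finset.sum_congr rfl fun j _ => by ring

theorem contr_of_psd {k l : X → X → ℂ} {N : ℕ} {Φ : X → Matrix (Fin N) (Fin N) ℂ}
    (h : (pickMat k l id Φ).PosSemidef) : IsContrMult k l Φ := by
  classical
  intro H₁ _ _ _ _ H₂ _ _ _ _ h1 h2 f
  set ψ : (X →₀ CN N) →ₗ[ℂ] H₂ := Finsupp.lsum ℂ fun x => (RKHS.kerFun H₂ x).toLinearMap with hψ
  set φ : (X →₀ CN N) →ₗ[ℂ] ℂ := Finsupp.lsum ℂ fun x =>
    (innerSL ℂ (WithLp.toLp 2 (Φ x *ᵥ (f x).ofLp) : CN N)).toLinearMap with hφ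
  obtain ⟨g, hg1, hg2⟩ := exists_rep φ ψ ‖f‖ (norm_nonneg _) (by
    intro a
    have e1 : ψ a = ∑ x : a.support, (1 : ℂ) • RKHS.kerFun H₂ (x : X) (a x) := by
      simp [hψ, Finsupp.sum, Finset.sum_attach a.support fun x => RKHS.kerFun H₂ x (a x)]
    have e2 : φ a = ⟪f, ∑ x : a.support, (1 : ℂ) • RKHS.kerFun H₁ (x : X) (adjv (Φ x) (a x))⟫_ℂ := by
      simp [hφ, Finsupp.sum, inner_adjv, Finset.sum_attach a.support fun x =>
        ⟪(WithLp.toLp 2 (Φ x *ᵥ (f x).ofLp) : CN N), a x⟫_ℂ]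
    have h3 := sum_nonneg_of_psd (pick_of_pickMat (k := k) (l := l)
      (z := fun x : a.support => (x : X)) (W := fun x => Φ x)
      (psd_congr (h.submatrix fun p : a.support × Fin N => (p.1.1, p.2)) fun i j => rfl)
      fun x => a x) fun _ => 1
    rw [sum_pick h1 h2, Complex.zero_le_real, sub_nonneg, ← e1] at h3
    rw [e2]
    refine (norm_inner_le_norm _ _).trans (mul_le_mul_of_nonneg_left ?_ (norm_nonneg _))
    exact le_of_sq_le_sq h3 (norm_nonneg _))
  refine ⟨g, hg1, fun x => ?_⟩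
  have : g x = WithLp.toLp 2 (Φ x *ᵥ (f x).ofLp) := by
    refine ext_inner_right ℂ fun v => ?_
    have := hg2 (Finsupp.single x v)
    simpa [hφ, hψ] using this.symm
  rw [this]

lemma ampl_psd {k : X → X → ℂ} (hk : IsKernel k) (N : ℕ) :
    (Matrix.of fun x y => k x y • (1 : CN N →L[ℂ] CN N)).PosSemidef := by
  classical
  have key := (RKHS.posSemidef_tfae (𝕜 := ℂ)
    (K := Matrix.of fun x y => k x y • (1 : CN N →L[ℂ] CN N))).out 2 0
  refine key.mp ⟨?_, fun vv => ?_⟩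
  · ext x y v
    simp [hk.conj]
  · have h1 := sum_nonneg_of_psd (had (hk.submatrix fun x : vv.support => (x : X))
      (gram_psd fun x : vv.support => vv x)) fun _ => 1
    have h2 := (Complex.le_def.mp h1).1
    have e : (vv.sum fun x w ↦ vv.sum fun x' w' ↦
        ⟪(Matrix.of fun x y => k x y • (1 : CN N →L[ℂ] CN N)) x' x w, w'⟫_ℂ)
        = ∑ i : vv.support, ∑ j : vv.support, conj (1 : ℂ) * 1 * (k i j * ⟪vv i, vv j⟫_ℂ) := by
      simp only [Finsupp.sum, of_apply, map_one, one_mul,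
        _root_.smul_apply, one_apply_eq_self, inner_smul_left, hk.conj]
      rw [← Finset.sum_coe_sort]
      refine Finset.sum_congr rfl fun x _ => ?_
      rw [← Finset.sum_coe_sort]
    rw [e]
    exact h2

theorem psd_of_contr {k l : X → X → ℂ} (hk : IsKernel k) (hl : IsKernel l) {N : ℕ}
    {Φ : X → Matrix (Fin N) (Fin N) ℂ} (h : IsContrMult k l Φ) : (pickMat k l id Φ).PosSemidef := by
  classical
  have := Fact.mk (ampl_psd hk N)
  have := Fact.mk (ampl_psd hl N)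
  set H₁ := RKHS.OfKernel (Matrix.of fun x y => k x y • (1 : CN N →L[ℂ] CN N))
  set H₂ := RKHS.OfKernel (Matrix.of fun x y => l x y • (1 : CN N →L[ℂ] CN N))
  have h1 : HasKer k N H₁ := fun x y v => by simp [H₁]
  have h2 : HasKer l N H₂ := fun x y v => by simp [H₂]
  have h3 := h H₁ H₂ h1 h2
  refine psd_of_finite fun s => ?_
  have e : pickMat k l id Φ = pick k l (fun p => p.1) (fun p => EuclideanSpace.single p.2 (1 : ℂ))
      (fun p : X × Fin N => adjv (Φ p.1) (EuclideanSpace.single p.2 1)) := by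
    refine Eq.trans ?_ (pickMat_eq k l id _)
    congr 1
    ext i a b
    simp [adjv]
  rw [e]
  refine PosSemidef.of_dotProduct_mulVec_nonneg ?_ fun c => ?_
  · ext i j
    simp only [pick, conjTranspose_apply, submatrix_apply, of_apply, RCLike.star_def, map_sub,
      map_mul, hk.conj, hl.conj, inner_conj_symm]
  have h4 := sum_pick h1 h2 (fun p : s => p.1.1) (fun p => EuclideanSpace.single p.1.2 (1 : ℂ))
    (fun p => adjv (Φ p.1.1) (EuclideanSpace.single p.1.2 1)) c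
  set F := ∑ i : s, c i • RKHS.kerFun H₁ i.1.1 (adjv (Φ i.1.1) (EuclideanSpace.single i.1.2 1))
    with hF
  set G := ∑ i : s, c i • RKHS.kerFun H₂ i.1.1 (EuclideanSpace.single i.1.2 (1 : ℂ)) with hG
  obtain ⟨g, hg1, hg2⟩ := h3 F
  have h5 : ⟪F, F⟫_ℂ = ⟪g, G⟫_ℂ := by
    calc ⟪F, F⟫_ℂ = ⟪F, ∑ i : s, c i • RKHS.kerFun H₁ i.1.1
          (adjv (Φ i.1.1) (EuclideanSpace.single i.1.2 1))⟫_ℂ := rfl
      _ = ⟪g, ∑ i : s, c i • RKHS.kerFun H₂ i.1.1 (EuclideanSpace.single i.1.2 (1 : ℂ))⟫_ℂ := by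
        rw [inner_sum, inner_sum]
        refine Finset.sum_congr rfl fun i _ => ?_
        rw [inner_smul_right, inner_smul_right, RKHS.inner_kerFun, RKHS.inner_kerFun, inner_adjv,
          ← hg2]
  have h6 : ‖F‖ ^ 2 ≤ ‖F‖ * ‖G‖ := by
    calc ‖F‖ ^ 2 = ‖⟪F, F⟫_ℂ‖ := by rw [inner_self_eq_norm_sq_to_K]; simp
      _ ≤ ‖g‖ * ‖G‖ := by rw [h5]; exact norm_inner_le_norm _ _
      _ ≤ _ := mul_le_mul_of_nonneg_right hg1 (norm_nonneg _)
  have h7 : 0 ≤ ‖G‖ ^ 2 - ‖F‖ ^ 2 := by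
    clear * - h6
    nlinarith [sq_nonneg (‖F‖ - ‖G‖)]
  have h8 := Complex.zero_le_real.mpr h7
  rw [← h4] at h8
  convert h8 using 1
  simp only [dotProduct, mulVec, Finset.mul_sum, Pi.star_apply, RCLike.star_def]
  refine Finset.sum_congr rfl fun i _ => Finset.sum_congr rfl fun j _ => ?_
  rw [mul_assoc, mul_comm (c j)]
  rfl

theorem CPpos_of_CP {k l : X → X → ℂ} (hk : IsKernel k) (hl : IsKernel l) (h : IsCPPair k l) :
    CPpos k l := by
  intro I _ _ N hN z W hW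
  set e := Fintype.equivFin I
  obtain ⟨Φ, h1, h2⟩ := h (Fintype.card I) N Fintype.card_pos hN (z ∘ e.symm) (W ∘ e.symm)
    (psd_congr (hW.submatrix (Prod.map e.symm id)) fun i j => rfl)
  exact ⟨Φ, psd_of_contr hk hl h1, fun i => by simpa using h2 (e i)⟩

theorem CP_of_CPpos {k l : X → X → ℂ} (h : CPpos k l) : IsCPPair k l := by
  intro n N hn hN z W hW
  have : Nonempty (ULift.{u} (Fin n)) := ⟨⟨⟨0, hn⟩⟩⟩
  obtain ⟨Φ, h1, h2⟩ := h (ULift.{u} (Fin n)) N hN (z ∘ ULift.down) (W ∘ ULift.down)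
    (psd_congr (hW.submatrix (Prod.map ULift.down id)) fun i j => rfl)
  exact ⟨Φ, contr_of_psd h1, fun i => h2 ⟨i⟩⟩

end Pool.Agent.H7.Pick
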