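import Mathlib

namespace Pool.Agent.H7.Pick

open scoped ComplexOrder Matrix

universe u

variable {X : Type u}

/-- A kernel on `X`: a positive semidefinite function `X × X → ℂ`. -/
def IsKernel (k : X → X → ℂ) : Prop := (Matrix.of k).PosSemidef

/-- The kernel `k^z`. -/
noncomputable def schur (k : X → X → ℂ) (z : X) : X → X → ℂ :=
  fun x y => if k z z = 0 then k x y else k x y - k x z * k z y / k z z

/-- The Pick block matrix `[l(z_i,z_j) I - k(z_i,z_j) W_i W_j^*]`. -/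
def pickMat (k l : X → X → ℂ) {I : Type*} {N : ℕ} (z : I → X)
    (W : I → Matrix (Fin N) (Fin N) ℂ) : Matrix (I × Fin N) (I × Fin N) ℂ :=
  Matrix.of fun p q => l (z p.1) (z q.1) * (1 : Matrix (Fin N) (Fin N) ℂ) p.2 q.2
    - k (z p.1) (z q.1) * (W p.1 * (W q.1)ᴴ) p.2 q.2

/-- The space `ℂ^N`. -/
abbrev CN (N : ℕ) : Type := EuclideanSpace ℂ (Fin N)

/-- The `ℂ^N`-valued reproducing kernel Hilbert space `H` has kernel `k(x,y) I`, that is,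
`H = H_k ⊗ ℂ^N`. -/
def HasKer (k : X → X → ℂ) (N : ℕ) (H : Type u) [NormedAddCommGroup H] [InnerProductSpace ℂ H]
    [CompleteSpace H] [RKHS ℂ H X (CN N)] : Prop :=
  ∀ x y, ∀ v : CN N, RKHS.kernel H x y v = k x y • v

/-- `f ↦ Φ f` maps `H₁` into `H₂` with norm at most one. -/
def MapsContr {N : ℕ} (Φ : X → Matrix (Fin N) (Fin N) ℂ)
    (H₁ : Type u) [NormedAddCommGroup H₁] [InnerProductSpace ℂ H₁] [RKHS ℂ H₁ X (CN N)]
    (H₂ : Type u) [NormedAddCommGroup H₂] [InnerProductSpace ℂ H₂] [RKHS ℂ H₂ X (CN N)] : Prop :=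
  ∀ f : H₁, ∃ g : H₂, ‖g‖ ≤ ‖f‖ ∧ ∀ x, (g x).ofLp = Φ x *ᵥ (f x).ofLp

/-- `Φ` is a multiplier of norm at most one from `H_k ⊗ ℂ^N` to `H_l ⊗ ℂ^N`. -/
def IsContrMult (k l : X → X → ℂ) {N : ℕ} (Φ : X → Matrix (Fin N) (Fin N) ℂ) : Prop :=
  ∀ (H₁ : Type u) [NormedAddCommGroup H₁] [InnerProductSpace ℂ H₁] [CompleteSpace H₁]
    [RKHS ℂ H₁ X (CN N)] (H₂ : Type u) [NormedAddCommGroup H₂] [InnerProductSpace ℂ H₂]
    [CompleteSpace H₂] [RKHS ℂ H₂ X (CN N)], HasKer k N H₁ → HasKer l N H₂ → MapsContr Φ H₁ H₂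

/-- Complete Pick pairs. -/
def IsCPPair (k l : X → X → ℂ) : Prop :=
  ∀ (n N : ℕ), 1 ≤ n → 1 ≤ N → ∀ (z : Fin n → X) (W : Fin n → Matrix (Fin N) (Fin N) ℂ),
    (pickMat k l z W).PosSemidef →
      ∃ Φ : X → Matrix (Fin N) (Fin N) ℂ, IsContrMult k l Φ ∧ ∀ i, Φ (z i) = W i

/-- Shimorin certificates. -/
def IsCert (k l : X → X → ℂ) (p : X → X → X → ℂ) : Prop :=
  ∀ z, IsKernel (p z) ∧ IsKernel (fun x y => schur l z x y - p z x y * l x y) ∧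
    IsKernel (fun x y => p z x y * k x y - schur k z x y)

end Pool.Agent.H7.Pick
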