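import Mathlib

set_option autoImplicit false

namespace Pool.Agent.H7.Pretty

open Set Filter Topology

/-- A family of sets closed under countable unions and finite intersections and containing the
countable sets. -/
structure Fam (S : Type) where
  A : Set (Set S)
  cnt : ∀ C : Set S, C.Countable → C ∈ A
  inter : ∀ a ∈ A, ∀ b ∈ A, a ∩ b ∈ A
  union : ∀ C : Set (Set S), C.Countable → C ⊆ A → ⋃₀ C ∈ A

variable {S : Type} (𝒜 : Fam S)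

/-- Maximal filters of the family. -/
structure X where
  F : Filter S
  neBot : F.NeBot
  based : ∀ T ∈ F, ∃ a ∈ 𝒜.A, a ∈ F ∧ a ⊆ T
  dec : ∀ a ∈ 𝒜.A, a ∈ F ∨ aᶜ ∈ F

def br (A : Set S) : Set (X 𝒜) := {x | A ∈ x.F}

instance : TopologicalSpace (X 𝒜) := TopologicalSpace.generateFrom (range (br 𝒜))

lemma br_inter (A B : Set S) : br 𝒜 (A ∩ B) = br 𝒜 A ∩ br 𝒜 B := by
  ext x
  simp [br]

lemma basis0 : TopologicalSpace.IsTopologicalBasis (range (br 𝒜)) := by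
  refine ⟨?_, ?_, rfl⟩
  · rintro _ ⟨A, rfl⟩ _ ⟨B, rfl⟩ x hx
    exact ⟨br 𝒜 (A ∩ B), ⟨_, rfl⟩, by rwa [br_inter], by rw [br_inter]⟩
  · exact eq_univ_of_forall fun x => ⟨br 𝒜 univ, ⟨_, rfl⟩, univ_mem⟩

lemma br_open (A : Set S) : IsOpen (br 𝒜 A) := (basis0 𝒜).isOpen ⟨A, rfl⟩

variable {𝒜}

lemma mem_nhds' {x : X 𝒜} {O : Set (X 𝒜)} : O ∈ 𝓝 x ↔ ∃ A ∈ x.F, br 𝒜 A ⊆ O := by
  rw [(basis0 𝒜).mem_nhds_iff]
  constructor
  · rintro ⟨_, ⟨A, rfl⟩, h1, h2⟩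
    exact ⟨A, h1, h2⟩
  · rintro ⟨A, h1, h2⟩
    exact ⟨_, ⟨A, rfl⟩, h1, h2⟩

variable (𝒜)

def pt (s : S) : X 𝒜 where
  F := pure s
  neBot := inferInstance
  based := fun T hT => ⟨{s}, 𝒜.cnt _ (countable_singleton _), by simp, by simpa using hT⟩
  dec := fun a _ => by simpa using em (s ∈ a)

lemma pt_mem (s : S) (A : Set S) : pt 𝒜 s ∈ br 𝒜 A ↔ s ∈ A := by
  simp [pt, br]

lemma tendsto_pt (x : X 𝒜) : Tendsto (pt 𝒜) x.F (𝓝 x) := by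
  intro O hO
  obtain ⟨A, h1, h2⟩ := mem_nhds'.mp hO
  exact mem_map.mpr (mem_of_superset h1 fun s hs => h2 ((pt_mem 𝒜 s A).mpr hs))

lemma br_compl {A : Set S} (h : A ∈ 𝒜.A) : (br 𝒜 A)ᶜ = br 𝒜 Aᶜ := by
  ext x
  constructor
  · exact fun hx => (x.dec A h).resolve_left hx
  · intro hx hx'
    have h2 := inter_mem hx' hx
    rw [inter_compl_self] at h2
    exact x.neBot.ne (empty_mem_iff_bot.mp h2)

lemma br_clopen {A : Set S} (h : A ∈ 𝒜.A) : IsClopen (br 𝒜 A) :=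
  ⟨⟨by rw [br_compl 𝒜 h]; exact br_open _ _⟩, br_open 𝒜 A⟩

def BB : Set (Set (X 𝒜)) := {b | ∃ A ∈ 𝒜.A, b = br 𝒜 A}

lemma BB_clopen : ∀ b ∈ BB 𝒜, IsClopen b := by
  rintro _ ⟨A, hA, rfl⟩
  exact br_clopen 𝒜 hA

lemma basis : TopologicalSpace.IsTopologicalBasis (BB 𝒜) := by
  apply TopologicalSpace.isTopologicalBasis_of_isOpen_of_nhds
  · exact fun b hb => (BB_clopen 𝒜 b hb).isOpen
  · intro x O hx hO
    obtain ⟨A, h1, h2⟩ := mem_nhds'.mp (hO.mem_nhds hx)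
    obtain ⟨a, ha, h3, h4⟩ := x.based A h1
    exact ⟨br 𝒜 a, ⟨a, ha, rfl⟩, h3, fun v hv => h2 (mem_of_superset hv h4)⟩

instance : T0Space (X 𝒜) := by
  refine ⟨fun x y h => ?_⟩
  have : x.F = y.F := Filter.ext fun A => h.mem_open_iff (br_open 𝒜 A)
  cases x; cases y; cases this; rfl

instance : CompletelyRegularSpace (X 𝒜) := by
  apply CompletelyRegularSpace.of_isTopologicalBasis_clopens
  apply TopologicalSpace.isTopologicalBasis_of_isOpen_of_nhds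
  · exact fun U hU => hU.isOpen
  · intro x O hx hO
    obtain ⟨b, hb, h1, h2⟩ := (basis 𝒜).exists_subset_of_mem_open hx hO
    exact ⟨b, BB_clopen 𝒜 b hb, h1, h2⟩

instance : T35Space (X 𝒜) := {}

lemma pretty (C D : Set (Set (X 𝒜))) (hC : C ⊆ BB 𝒜) (hD : D ⊆ BB 𝒜) (hc : C.Countable)
    (h : ∀ c ∈ C, ∀ d ∈ D, Disjoint c d) :
    ∃ b ∈ BB 𝒜, (∀ c ∈ C, c ⊆ b) ∧ (∀ d ∈ D, Disjoint b d) := by
  have hC' : ∀ c ∈ C, ∃ A ∈ 𝒜.A, c = br 𝒜 A := hC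
  choose! A hA1 hA2 using hC'
  refine ⟨br 𝒜 (⋃₀ (A '' C)), ⟨_, 𝒜.union _ (hc.image A) ?_, rfl⟩, fun c hc' => ?_,
    fun d hd => ?_⟩
  · rintro _ ⟨c, hc', rfl⟩
    exact hA1 c hc'
  · intro u hu
    rw [hA2 c hc'] at hu
    exact mem_of_superset hu (subset_sUnion_of_mem ⟨c, hc', rfl⟩)
  · obtain ⟨A', -, rfl⟩ := hD hd
    rw [Set.disjoint_left]
    intro u h1 h2
    have := u.neBot
    obtain ⟨s, ⟨_, ⟨c, hc', rfl⟩, hs⟩, hs2⟩ := Filter.nonempty_of_mem (inter_mem h1 h2)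
    exact Set.disjoint_left.mp (h c hc' _ hd) (by rw [hA2 c hc', pt_mem]; exact hs)
      ((pt_mem 𝒜 s A').mpr hs2)

lemma exists_max (G : Set (Set S)) (h1 : G ⊆ 𝒜.A) (h2 : G.Nonempty)
    (h3 : ∀ a ∈ G, ∀ b ∈ G, a ∩ b ∈ G) (h4 : ∅ ∉ G) : ∃ x : X 𝒜, ∀ a ∈ G, a ∈ x.F := by
  obtain ⟨m, hGm, hm⟩ := zorn_subset_nonempty
    {H : Set (Set S) | H ⊆ 𝒜.A ∧ (∀ a ∈ H, ∀ b ∈ H, a ∩ b ∈ H) ∧ ∅ ∉ H} (by
      intro c hc hch _
      refine ⟨⋃₀ c, ⟨sUnion_subset fun H hH => (hc hH).1, ?_, ?_⟩,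
        fun _ hH => subset_sUnion_of_mem hH⟩
      · rintro a ⟨H, hH, ha⟩ b ⟨K, hK, hb⟩
        rcases hch.total hH hK with h | h
        · exact ⟨K, hK, (hc hK).2.1 a (h ha) b hb⟩
        · exact ⟨H, hH, (hc hH).2.1 a ha b (h hb)⟩
      · rintro ⟨H, hH, h⟩
        exact (hc hH).2.2 h) G ⟨h1, h3, h4⟩
  obtain ⟨m1, m2, m3⟩ := hm.prop
  obtain ⟨a0, ha0⟩ := h2
  let F : Filter S :=
    { sets := {T | ∃ a ∈ m, a ⊆ T}
      univ_sets := ⟨a0, hGm ha0, subset_univ _⟩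
      sets_of_superset := fun ⟨a, ha, h⟩ h' => ⟨a, ha, h.trans h'⟩
      inter_sets := fun ⟨a, ha, h⟩ ⟨b, hb, h'⟩ =>
        ⟨a ∩ b, m2 a ha b hb, inter_subset_inter h h'⟩ }
  have hF : ∀ T, T ∈ F ↔ ∃ a ∈ m, a ⊆ T := fun T => Iff.rfl
  refine ⟨⟨F, ⟨fun h => ?_⟩, fun T hT => ?_, fun a ha => ?_⟩,
    fun a ha => ⟨a, hGm ha, Subset.rfl⟩⟩
  · obtain ⟨a, ha, h'⟩ := (hF ∅).mp (empty_mem_iff_bot.mpr h)
    exact m3 (subset_empty_iff.mp h' ▸ ha)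
  · obtain ⟨a, ha, h'⟩ := (hF T).mp hT
    exact ⟨a, m1 ha, ⟨a, ha, Subset.rfl⟩, h'⟩
  · by_cases h : aᶜ ∈ F
    · exact Or.inr h
    · left
      have : m ∪ {T | ∃ d ∈ m, T = a ∩ d} ⊆ m := by
        refine hm.le_of_ge ⟨?_, ?_, ?_⟩ subset_union_left
        · rintro T (hT | ⟨d, hd, rfl⟩)
          · exact m1 hT
          · exact 𝒜.inter a ha d (m1 hd)
        · rintro T (hT | ⟨d, hd, rfl⟩) T' (hT' | ⟨d', hd', rfl⟩)
          · exact Or.inl (m2 _ hT _ hT')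
          · exact Or.inr ⟨T ∩ d', m2 _ hT _ hd', by rw [inter_left_comm]⟩
          · exact Or.inr ⟨d ∩ T', m2 _ hd _ hT', by rw [inter_assoc]⟩
          · exact Or.inr ⟨d ∩ d', m2 _ hd _ hd', (inter_inter_distrib_left a d d').symm⟩
        · rintro (hT | ⟨d, hd, he⟩)
          · exact m3 hT
          · exact h ⟨d, hd, fun s hs hs' => (he ▸ (⟨hs', hs⟩ : s ∈ a ∩ d) : s ∈ (∅ : Set S))⟩
      exact ⟨a ∩ a0, this (Or.inr ⟨a0, hGm ha0, rfl⟩), inter_subset_left⟩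

lemma cocompact : @IsCompact (X 𝒜)
    (TopologicalSpace.generateFrom {U : Set (X 𝒜) | ∃ b ∈ BB 𝒜, U = (closure b)ᶜ}) Set.univ := by
  have key : ∀ F : Ultrafilter (X 𝒜), ∃ x : X 𝒜, ∀ A ∈ 𝒜.A, br 𝒜 A ∈ F → x ∈ br 𝒜 A := by
    intro F
    by_cases h : ∃ A ∈ 𝒜.A, br 𝒜 A ∈ F
    · obtain ⟨x, hx⟩ := exists_max 𝒜 {A | A ∈ 𝒜.A ∧ br 𝒜 A ∈ F} (fun _ h => h.1) h
        (fun a ha b hb => ⟨𝒜.inter a ha.1 b hb.1, by rw [br_inter]; exact inter_mem ha.2 hb.2⟩)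
        (fun h => by
          obtain ⟨x, hx⟩ := Ultrafilter.nonempty_of_mem h.2
          exact x.neBot.ne (empty_mem_iff_bot.mp hx))
      exact ⟨x, fun A h1 h2 => hx A ⟨h1, h2⟩⟩
    · obtain ⟨x, -⟩ := Ultrafilter.nonempty_of_mem (univ_mem : univ ∈ F)
      exact ⟨x, fun A h1 h2 => absurd ⟨A, h1, h2⟩ h⟩
  rw [@isCompact_iff_ultrafilter_le_nhds (X 𝒜)
    (TopologicalSpace.generateFrom {U : Set (X 𝒜) | ∃ b ∈ BB 𝒜, U = (closure b)ᶜ})]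
  intro F _
  obtain ⟨x, hx⟩ := key F
  refine ⟨x, mem_univ _, ?_⟩
  rw [TopologicalSpace.nhds_generateFrom]
  refine le_iInf₂ ?_
  rintro _ ⟨h1, _, ⟨A, hA, rfl⟩, rfl⟩
  have hcl : closure (br 𝒜 A) = br 𝒜 A := (br_clopen 𝒜 hA).isClosed.closure_eq
  rw [hcl] at h1 ⊢
  exact le_principal_iff.mpr (Ultrafilter.compl_mem_iff_notMem.mpr fun h => h1 (hx A hA h))

lemma extend (h0 : S → ℝ) (h1 : ∀ x : X 𝒜, ∃ b, Tendsto h0 x.F (𝓝 b)) :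
    ∃ h : X 𝒜 → ℝ, Continuous h ∧ ∀ x, Tendsto h0 x.F (𝓝 (h x)) := by
  choose h hh using h1
  refine ⟨h, ?_, hh⟩
  rw [continuous_iff_continuousAt]
  intro x
  refine (closed_nhds_basis (h x)).tendsto_right_iff.mpr fun V hV => ?_
  refine mem_nhds'.mpr ⟨h0 ⁻¹' V, hh x hV.1, fun y hy => ?_⟩
  have := y.neBot
  exact hV.2.mem_of_tendsto (hh y) hy

end Pool.Agent.H7.Pretty
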