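import Mathlib

set_option autoImplicit false

namespace Pool.Agent.H7.Unstack

open Finset

variable {W : Type} [DecidableEq W]

def Down (K : Set (Finset W)) : Prop := ∀ F ∈ K, ∀ G, G ⊆ F → G ∈ K

def lk (K : Set (Finset W)) (v : W) : Set (Finset W) := {G | v ∉ G ∧ insert v G ∈ K}

def dl (K : Set (Finset W)) (v : W) : Set (Finset W) := {G | v ∉ G ∧ G ∈ K}

def pw (F : Finset W) : Set (Finset W) := {G | G ⊆ F}

/-- Vertex decomposability with the facet size recorded. -/
inductive VDd : ℕ → Set (Finset W) → Prop
  | simplex (F : Finset W) : VDd F.card (pw F)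
  | step (K : Set (Finset W)) (v : W) (d : ℕ) : Down K → {v} ∈ K → VDd d (lk K v) →
      VDd (d + 1) (dl K v) → VDd (d + 1) K

lemma VDd.simplex' {F : Finset W} {d : ℕ} {K : Set (Finset W)} (h : F.card = d) (hK : K = pw F) :
    VDd d K := by
  subst h hK
  exact VDd.simplex F

lemma VDd.down {d : ℕ} {K : Set (Finset W)} (h : VDd d K) : Down K := by
  cases h with
  | simplex F => exact fun G hG H hH => hH.trans hG
  | step K v d h _ _ _ => exact h

lemma VDd.empty_mem {d : ℕ} {K : Set (Finset W)} (h : VDd d K) : ∅ ∈ K := by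
  cases h with
  | simplex F => exact empty_subset F
  | step K v d h h1 _ _ => exact h _ h1 _ (empty_subset _)

lemma VDd.ext {d : ℕ} {K : Set (Finset W)} (h : VDd d K) :
    ∀ G ∈ K, ∃ F ∈ K, G ⊆ F ∧ F.card = d := by
  induction h with
  | simplex F => exact fun G hG => ⟨F, Subset.refl F, hG, rfl⟩
  | step K v d _ _ _ _ ih1 ih2 =>
    intro G hG
    by_cases hv : v ∈ G
    · obtain ⟨F, hF, h1, h2⟩ := ih1 (G.erase v) ⟨notMem_erase v G, by rwa [insert_erase hv]⟩
      refine ⟨insert v F, hF.2, ?_, by rw [card_insert_of_notMem hF.1, h2]⟩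
      rw [← insert_erase hv]
      exact insert_subset_insert _ h1
    · obtain ⟨F, hF, h1, h2⟩ := ih2 G ⟨hv, hG⟩
      exact ⟨F, hF.2, h1, h2⟩

lemma VDd.card_le {d : ℕ} {K : Set (Finset W)} (h : VDd d K) (G : Finset W) (hG : G ∈ K) :
    G.card ≤ d := by
  obtain ⟨F, -, h1, h2⟩ := h.ext G hG
  exact h2 ▸ card_le_card h1

omit [DecidableEq W] in
lemma down_insert {K : Set (Finset W)} {G : Finset W} (hK : Down K) (hG : ∀ H, H ⊂ G → H ∈ K) :
    Down (insert G K) := by
  rintro F (rfl | hF) H hH
  · rcases hH.eq_or_ssubset with h | h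
    · exact Or.inl h
    · exact Or.inr (hG H h)
  · exact Or.inr (hK F hF H hH)

omit [DecidableEq W] in
lemma down_dl {K : Set (Finset W)} (hK : Down K) (v : W) : Down (dl K v) :=
  fun F hF H hH => ⟨fun h => hF.1 (hH h), hK F hF.2 H hH⟩

lemma ssub_erase {G H : Finset W} {y : W} (hy : y ∈ G) (hH : y ∉ H) :
    insert y H ⊂ G ↔ H ⊂ G.erase y := by
  simp only [Finset.ssubset_iff_subset_ne]
  constructor
  · rintro ⟨h1, h2⟩
    refine ⟨fun a ha => mem_erase.mpr ⟨fun e => hH (e ▸ ha), h1 (mem_insert_of_mem ha)⟩, ?_⟩
    rintro rfl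
    exact h2 (insert_erase hy)
  · rintro ⟨h1, h2⟩
    refine ⟨insert_subset hy (h1.trans (erase_subset _ _)), ?_⟩
    rintro rfl
    exact h2 (erase_insert hH).symm

omit [DecidableEq W] in
lemma sub_of_two {G F : Finset W} (h2 : 2 ≤ G.card) (h : ∀ H, H ⊂ G → H ⊆ F) : G ⊆ F := by
  intro v hv
  refine h {v} (Finset.ssubset_iff_subset_ne.mpr ⟨singleton_subset_iff.mpr hv, ?_⟩) (mem_singleton_self v)
  rintro rfl
  simp at h2

lemma sub_of_erase {H R : Finset W} {x y : W} (hx : x ∉ H) (h : H.erase y ⊆ insert x R) :
    H ⊆ insert y R := by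
  intro a ha
  by_cases e : a = y
  · exact e ▸ mem_insert_self _ _
  · rcases mem_insert.mp (h (mem_erase.mpr ⟨e, ha⟩)) with e' | e'
    · exact absurd (e' ▸ ha) hx
    · exact mem_insert_of_mem e'

/-- Filling in a missing facet keeps vertex decomposability. -/
lemma fill {d : ℕ} {K : Set (Finset W)} (h : VDd d K) :
    ∀ G : Finset W, G ∉ K → (∀ H, H ⊂ G → H ∈ K) → G.card = d → VDd d (insert G K) := by
  induction h with
  | simplex F =>
    intro G h1 h2 h3
    have h4 : G.card = 1 := by
      by_contra hc
      rcases Nat.eq_zero_or_pos G.card with h0 | h0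
      · rw [card_eq_zero] at h0
        exact h1 (h0 ▸ empty_subset F)
      · exact h1 (sub_of_two (by omega) h2)
    obtain ⟨g, rfl⟩ := card_eq_one.mp h4
    have hg : g ∉ F := fun h => h1 (singleton_subset_iff.mpr h)
    rw [← h3, h4]
    refine VDd.step _ g 0 (down_insert (VDd.simplex F).down h2) (Or.inl rfl)
      (VDd.simplex' (F := ∅) rfl ?_) (VDd.simplex' (F := F) (by omega) ?_)
    · ext H
      simp only [lk, pw, Set.mem_insert_iff, Set.mem_ofPred_eq, subset_empty]
      constructor
      · rintro ⟨a1, a2 | a2⟩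
        · rw [← erase_insert a1, a2, erase_singleton]
        · exact absurd (a2 (mem_insert_self _ _)) hg
      · rintro rfl
        simp
    · ext H
      simp only [dl, pw, Set.mem_insert_iff, Set.mem_ofPred_eq]
      clear * - hg
      grind
  | step K y d hK hy hl hd ih1 ih2 =>
    intro G h1 h2 h3
    by_cases hyG : y ∈ G
    · refine VDd.step _ y d (down_insert hK h2) (Or.inr hy) ?_ ?_
      · have := ih1 (G.erase y) (fun h => h1 (by simpa [insert_erase hyG] using h.2))
          (fun H hH => by
            have hyH : y ∉ H := fun h => notMem_erase y G (hH.subset h)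
            exact ⟨hyH, h2 _ ((ssub_erase hyG hyH).mpr hH)⟩)
          (by rw [card_erase_of_mem hyG]; omega)
        convert this using 1
        ext H
        simp only [lk, Set.mem_insert_iff, Set.mem_ofPred_eq]
        clear * - hyG
        grind
      · convert hd using 1
        ext H
        simp only [dl, Set.mem_insert_iff, Set.mem_ofPred_eq]
        clear * - hyG
        grind
    · refine VDd.step _ y d (down_insert hK h2) (Or.inr hy) ?_ ?_
      · convert hl using 1
        ext H
        simp only [lk, Set.mem_insert_iff, Set.mem_ofPred_eq]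
        clear * - hyG
        grind
      · have := ih2 G (fun h => h1 h.2) (fun H hH => ⟨fun h => hyG (hH.subset h), h2 H hH⟩) h3
        convert this using 1
        ext H
        simp only [dl, Set.mem_insert_iff, Set.mem_ofPred_eq]
        clear * - hyG
        grind

/-- Removing a vertex lying in a single facet keeps vertex decomposability. -/
lemma ear {d : ℕ} {K : Set (Finset W)} (h : VDd d K) (x : W) (R : Finset W) (hx : x ∉ R) :
    insert x R ∈ K → (∀ H ∈ K, x ∈ H → H ⊆ insert x R) →
      K = pw (insert x R) ∨ VDd d (dl K x) := by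
  induction h with
  | simplex F =>
    intro h1 h2
    left
    have := Subset.antisymm (h2 F (Subset.refl F) (h1 (mem_insert_self _ _))) h1
    rw [← this]
  | step K y d hK hy hl hd _ ih2 =>
    intro h1 h2
    right
    by_cases hyx : y = x
    · rwa [← hyx]
    have hc : R.card = d := by
      obtain ⟨F, hF, h3, h4⟩ := (VDd.step K y d hK hy hl hd).ext _ h1
      have := Subset.antisymm (h2 F hF (h3 (mem_insert_self _ _))) h3
      rw [this, card_insert_of_notMem hx] at h4
      omega
    have hyR : y ∉ R := by
      intro hyR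
      obtain ⟨F, hF, h3, h4⟩ := hd.ext ((insert x R).erase y)
        ⟨notMem_erase _ _, hK _ h1 _ (erase_subset _ _)⟩
      have h5 : F ⊆ (insert x R).erase y := fun a ha => mem_erase.mpr
        ⟨fun e => hF.1 (e ▸ ha), h2 F hF.2 (h3 (by simp [Ne.symm hyx])) ha⟩
      have := card_le_card h5
      rw [card_erase_of_mem (mem_insert_of_mem hyR), card_insert_of_notMem hx] at this
      omega
    have hy' : y ∉ insert x R := by simp [hyx, hyR]
    have hlx : ∀ H ∈ lk K y, x ∉ H := fun H hH hxH =>
      hy' (h2 _ hH.2 (mem_insert_of_mem hxH) (mem_insert_self _ _))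
    rcases ih2 ⟨hy', h1⟩ (fun H hH => h2 H hH.2) with h3 | h3
    · obtain ⟨F, hF, -, h4⟩ := hl.ext ∅ hl.empty_mem
      have h5 : F ∈ dl K y := ⟨hF.1, hK _ hF.2 _ (subset_insert _ _)⟩
      rw [h3] at h5
      have h6 : F = R :=
        eq_of_subset_of_card_le ((subset_insert_iff_of_notMem (hlx F hF)).mp h5) (by omega)
      refine VDd.simplex' (F := insert y R) (by rw [card_insert_of_notMem hyR, hc]) ?_
      ext H
      constructor
      · rintro ⟨h7, h8⟩
        have h9 : H.erase y ∈ dl K y := ⟨notMem_erase _ _, hK _ h8 _ (erase_subset _ _)⟩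
        rw [h3] at h9
        exact sub_of_erase h7 h9
      · intro h7
        refine ⟨fun h8 => ?_, hK _ (h6 ▸ hF.2) _ h7⟩
        rcases mem_insert.mp (h7 h8) with e | e
        · exact hyx e.symm
        · exact hx e
    · refine VDd.step _ y d (down_dl hK x) ⟨by simp [Ne.symm hyx], hy⟩ ?_ ?_
      · convert hl using 1
        ext H
        have := hlx H
        simp only [lk, dl, Set.mem_ofPred_eq] at this ⊢
        clear * - this hyx
        grind
      · convert h3 using 1
        ext H
        simp only [dl, Set.mem_ofPred_eq]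
        tauto

lemma card_of_cone {d : ℕ} {K : Set (Finset W)} (h : VDd d K) {x : W} {G : Finset W} (hx : x ∉ G)
    (hG : G.Nonempty) (h2 : ∀ H, x ∉ H → (insert x H ∈ K ↔ H ⊂ G)) : G.card = d := by
  obtain ⟨g, hg⟩ := hG
  have h3 : x ∉ G.erase g := fun h => hx (mem_of_mem_erase h)
  obtain ⟨F, hF, h4, h5⟩ := h.ext _ ((h2 _ h3).mpr (erase_ssubset hg))
  have hxF : x ∈ F := h4 (mem_insert_self _ _)
  have h6 := card_lt_card ((h2 (F.erase x) (notMem_erase _ _)).mp (by rwa [insert_erase hxF]))
  have h7 := card_le_card h4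
  rw [card_erase_of_mem hxF] at h6
  rw [card_insert_of_notMem h3, card_erase_of_mem hg] at h7
  have := card_pos.mpr ⟨g, hg⟩
  omega

/-- Undoing the stellar subdivision of a facet keeps vertex decomposability. -/
lemma unstack {d : ℕ} {K : Set (Finset W)} (h : VDd d K) (x : W) :
    ∀ G : Finset W, x ∉ G → G ∉ K → G.Nonempty → (∀ H, x ∉ H → (insert x H ∈ K ↔ H ⊂ G)) →
      VDd d (insert G (dl K x)) := by
  induction h with
  | simplex F =>
    intro G hx h1 hG h2
    have hc := card_of_cone (VDd.simplex F) hx hG h2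
    have h4 : G.card = 1 := by
      by_contra hc'
      have := card_pos.mpr hG
      exact h1 (sub_of_two (by omega) fun H hH =>
        (subset_insert _ _).trans ((h2 H fun h => hx (hH.subset h)).mpr hH))
    obtain ⟨g, rfl⟩ := card_eq_one.mp h4
    obtain ⟨f, rfl⟩ := card_eq_one.mp (hc.symm.trans h4)
    have h5 : (insert x ∅ : Finset W) ⊆ {f} := (h2 ∅ (by simp)).mpr (by simp)
    have h6 : x = f := by simpa using h5
    refine VDd.simplex' (F := {g}) rfl ?_
    ext H
    simp only [dl, pw, Set.mem_insert_iff, Set.mem_ofPred_eq, subset_singleton_iff]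
    clear * - h6
    grind
  | step K y d hK hy hl hd ih1 ih2 =>
    intro G hx h1 hG h2
    have hc := card_of_cone (VDd.step K y d hK hy hl hd) hx hG h2
    have h3 : ∀ H, H ⊂ G → H ∈ dl K x := fun H hH =>
      ⟨fun h => hx (hH.subset h),
        hK _ ((h2 H fun h => hx (hH.subset h)).mpr hH) _ (subset_insert _ _)⟩
    have h4 : ∀ H ∈ K, x ∈ H → H.erase x ⊂ G := fun H hH hxH =>
      (h2 _ (notMem_erase _ _)).mp (by rwa [insert_erase hxH])
    by_cases hyx : y = x
    · subst hyx
      exact fill hd G (fun h => h1 h.2) h3 hc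
    have hD : Down (insert G (dl K x)) := down_insert (down_dl hK x) h3
    have hy' : {y} ∈ insert G (dl K x) := Or.inr ⟨by simp [Ne.symm hyx], hy⟩
    by_cases hyG : y ∈ G
    · have hx' : x ∉ G.erase y := fun h => hx (mem_of_mem_erase h)
      rcases ear hd x (G.erase y) hx' ⟨by simp [hyx], (h2 _ hx').mpr (erase_ssubset hyG)⟩
        (fun H hH hxH => by
          have h5 := (h4 H hH.2 hxH).subset
          have h6 := hH.1
          clear * - h5 h6
          grind) with h5 | h5
      · refine VDd.simplex' hc ?_
        ext H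
        constructor
        · rintro (rfl | ⟨h6, h7⟩)
          · exact Subset.refl _
          · have h9 : H.erase y ∈ dl K y := ⟨notMem_erase _ _, hK _ h7 _ (erase_subset _ _)⟩
            rw [h5] at h9
            have := sub_of_erase h6 h9
            rwa [insert_erase hyG] at this
        · intro h6
          exact hD G (Or.inl rfl) H h6
      · refine VDd.step _ y d hD hy' ?_ ?_
        · have := ih1 (G.erase y) hx' (fun h => h1 (by simpa [insert_erase hyG] using h.2))
            (by
              rw [nonempty_iff_ne_empty]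
              intro e
              have : G = {y} := by rw [← insert_erase hyG, e]; rfl
              exact h1 (this ▸ hy))
            (fun H hH => by
              constructor
              · rintro ⟨h6, h7⟩
                have h8 : y ∉ H := fun h => h6 (mem_insert_of_mem h)
                rw [← ssub_erase hyG h8, ← h2 _ (by simp [Ne.symm hyx, hH]), Finset.insert_comm]
                exact h7
              · intro h6
                have h8 : y ∉ H := fun h => notMem_erase y G (h6.subset h)
                refine ⟨by simp [hyx, h8], ?_⟩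
                rw [Finset.insert_comm, h2 _ (by simp [Ne.symm hyx, hH]), ssub_erase hyG h8]
                exact h6)
          convert this using 1
          ext H
          simp only [lk, dl, Set.mem_insert_iff, Set.mem_ofPred_eq]
          clear * - hyG hyx
          grind
        · convert h5 using 1
          ext H
          simp only [dl, Set.mem_insert_iff, Set.mem_ofPred_eq]
          clear * - hyG
          grind
    · refine VDd.step _ y d hD hy' ?_ ?_
      · convert hl using 1
        ext H
        have h5 : insert y H ∈ K → x ∉ H := fun h6 h7 =>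
          hyG ((h4 _ h6 (mem_insert_of_mem h7)).subset (by simp [hyx]))
        simp only [lk, dl, Set.mem_insert_iff, Set.mem_ofPred_eq]
        clear * - h5 hyG hyx
        grind
      · have := ih2 G hx (fun h => h1 h.2) hG (fun H hH => by
          rw [← h2 H hH]
          refine ⟨fun h => h.2, fun h => ⟨?_, h⟩⟩
          have := ((h2 H hH).mp h).subset
          clear * - this hyG hyx
          grind)
        convert this using 1
        ext H
        simp only [dl, Set.mem_insert_iff, Set.mem_ofPred_eq]
        clear * - hyG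
        grind

/-- A vertex decomposable complex has a shelling order. -/
lemma shell {d : ℕ} {K : Set (Finset W)} (h : VDd d K) :
    ∃ (m : ℕ) (F : ℕ → Finset W), (∀ i < m, ∀ j < m, F i = F j → i = j) ∧
      (∀ G, (G ∈ K ∧ G.card = d) ↔ ∃ i < m, F i = G) ∧
      ∀ j < m, ∀ i < j, ∃ v ∈ F j, v ∉ F i ∧ ∃ k < j, (F j).erase v ⊆ F k := by
  induction h with
  | simplex F =>
    refine ⟨1, fun _ => F, by omega, fun G => ⟨fun h => ⟨0, by omega, ?_⟩, ?_⟩, by omega⟩
    · exact (eq_of_subset_of_card_le h.1 h.2.ge).symm
    · rintro ⟨_, -, rfl⟩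
      exact ⟨Subset.refl _, rfl⟩
  | step K y d hK hy hl hd ih1 ih2 =>
    obtain ⟨m2, F2, a1, a2, a3⟩ := ih1
    obtain ⟨m1, F1, b1, b2, b3⟩ := ih2
    have c1 : ∀ i < m1, y ∉ F1 i := fun i hi => ((b2 _).mpr ⟨i, hi, rfl⟩).1.1
    have c2 : ∀ i < m2, y ∉ F2 i := fun i hi => ((a2 _).mpr ⟨i, hi, rfl⟩).1.1
    refine ⟨m1 + m2, fun j => if j < m1 then F1 j else insert y (F2 (j - m1)), ?_, ?_, ?_⟩
    · intro i hi j hj e
      by_cases h1 : i < m1 <;> by_cases h2 : j < m1 <;> simp only [h1, h2, if_true, if_false] at e
      · exact b1 i h1 j h2 e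
      · exact absurd (e ▸ mem_insert_self _ _) (c1 i h1)
      · exact absurd (e ▸ mem_insert_self _ _) (c1 j h2)
      · have e' := congrArg (fun s => s.erase y) e
        simp only [erase_insert (c2 (i - m1) (by omega)), erase_insert (c2 (j - m1) (by omega))]
          at e'
        have := a1 _ (by omega) _ (by omega) e'
        omega
    · intro G
      constructor
      · rintro ⟨h1, h2⟩
        by_cases hyG : y ∈ G
        · obtain ⟨i, hi, e⟩ := (a2 (G.erase y)).mp ⟨⟨notMem_erase _ _, by rwa [insert_erase hyG]⟩,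
            by rw [card_erase_of_mem hyG]; omega⟩
          refine ⟨m1 + i, by omega, ?_⟩
          simp only [show ¬ (m1 + i < m1) by omega, if_false, Nat.add_sub_cancel_left, e,
            insert_erase hyG]
        · obtain ⟨i, hi, e⟩ := (b2 G).mp ⟨⟨hyG, h1⟩, h2⟩
          exact ⟨i, by omega, by simp only [hi, if_true, e]⟩
      · rintro ⟨i, hi, rfl⟩
        by_cases h1 : i < m1 <;> simp only [h1, if_true, if_false]
        · have := (b2 _).mpr ⟨i, h1, rfl⟩
          exact ⟨this.1.2, this.2⟩
        · have := (a2 _).mpr ⟨i - m1, by omega, rfl⟩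
          exact ⟨this.1.2, by rw [card_insert_of_notMem this.1.1, this.2]⟩
    · intro j hj i hi
      by_cases h2 : j < m1
      · obtain ⟨v, v1, v2, k, k1, k2⟩ := b3 j h2 i hi
        refine ⟨v, ?_, ?_, k, k1, ?_⟩ <;>
          simp only [h2, show i < m1 by omega, show k < m1 by omega, if_true] <;> assumption
      · by_cases h1 : i < m1
        · have h3 := (a2 _).mpr ⟨j - m1, by omega, rfl⟩
          obtain ⟨F, hF, h4, h5⟩ := hd.ext (F2 (j - m1))
            ⟨h3.1.1, hK _ h3.1.2 _ (subset_insert _ _)⟩
          obtain ⟨k, k1, rfl⟩ := (b2 F).mp ⟨hF, h5⟩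
          refine ⟨y, ?_, ?_, k, by omega, ?_⟩ <;> simp only [h1, h2, k1, if_true, if_false]
          · exact mem_insert_self _ _
          · exact c1 i h1
          · rwa [erase_insert h3.1.1]
        · obtain ⟨v, v1, v2, k, k1, k2⟩ := a3 (j - m1) (by omega) (i - m1) (by omega)
          have hvy : v ≠ y := fun e => c2 (j - m1) (by omega) (e ▸ v1)
          refine ⟨v, ?_, ?_, m1 + k, by omega, ?_⟩ <;>
            simp only [h1, h2, show ¬ (m1 + k < m1) by omega, if_false, Nat.add_sub_cancel_left]
          · exact mem_insert_of_mem v1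
          · simp [hvy, v2]
          · clear * - k2
            grind

/-- Pulling back along an injection whose image contains all vertices. -/
lemma pull {V : Type} [DecidableEq V] (f : V ↪ W) {d : ℕ} {K : Set (Finset W)} (h : VDd d K) :
    (∀ G ∈ K, ∃ G0 : Finset V, G0.map f = G) → VDd d {G : Finset V | G.map f ∈ K} := by
  induction h with
  | simplex F =>
    intro h
    obtain ⟨F0, rfl⟩ := h F (Subset.refl F)
    refine VDd.simplex' (F := F0) (card_map f).symm ?_
    ext H
    simp [pw]
  | step K y d hK hy hl hd ih1 ih2 =>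
    intro h
    obtain ⟨Y, hY⟩ := h _ hy
    have : y ∈ Y.map f := hY ▸ mem_singleton_self y
    obtain ⟨v, -, rfl⟩ := mem_map.mp this
    refine VDd.step _ v d (fun F hF G hG => hK _ hF _ (map_subset_map.mpr hG))
      (by simpa using hy) ?_ ?_
    · convert ih1 (fun G hG => h G (hK _ hG.2 _ (subset_insert _ _))) using 1
      ext H
      simp [lk]
    · convert ih2 (fun G hG => h G hG.2) using 1
      ext H
      simp [dl]

end Pool.Agent.H7.Unstack
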