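import Mathlib

set_option autoImplicit false

namespace Pool.Agent.H7

open Module

variable {α V : Type} [AddCommGroup V]

/-- The matroid of a finite family of vectors. -/
noncomputable def vecMatroid [Fintype α] (F : Type) [Field F] [Module F V] (v : α → V) :
    Matroid α :=
  (IndepMatroid.ofFinite (E := Set.univ) Set.finite_univ (fun I => LinearIndepOn F v I)
    (by simp) (fun _ _ hJ hIJ => hJ.mono hIJ)
    (by
      classical
      intro I J hI hJ hlt
      by_contra hcon
      push Not at hcon
      have h1 : Submodule.span F (v '' J) ≤ Submodule.span F (v '' I) := by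
        rw [Submodule.span_le]
        rintro _ ⟨e, he, rfl⟩
        by_cases heI : e ∈ I
        · exact Submodule.subset_span ⟨e, heI, rfl⟩
        · by_contra hn
          exact hcon e he heI ((linearIndepOn_insert heI).2 ⟨hI, hn⟩)
      have h2 : finrank F (Submodule.span F (v '' I)) = Fintype.card I := by
        have := finrank_span_eq_card (R := F) (b := fun x : I => v x) hI
        rwa [← Set.image_eq_range] at this
      have h3 : finrank F (Submodule.span F (v '' J)) = Fintype.card J := by
        have := finrank_span_eq_card (R := F) (b := fun x : J => v x) hJ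
        rwa [← Set.image_eq_range] at this
      have : Module.Finite F (Submodule.span F (v '' I)) :=
        Module.Finite.span_of_finite F ((Set.toFinite I).image v)
      have h4 := Submodule.finrank_mono h1
      rw [h2, h3, ← Nat.card_eq_fintype_card, ← Nat.card_eq_fintype_card,
        Nat.card_coe_set_eq, Nat.card_coe_set_eq] at h4
      omega)
    (fun _ _ => Set.subset_univ _)).matroid

variable {F : Type} [Field F] [Module F V]

theorem vecMatroid_E [Fintype α] (v : α → V) : (vecMatroid F v).E = Set.univ := rfl

theorem vecMatroid_indep [Fintype α] (v : α → V) (I : Set α) :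
    (vecMatroid F v).Indep I ↔ LinearIndepOn F v I := Iff.rfl

/-- An independent set of size `finrank` is a base. -/
theorem vecMatroid_isBase [Fintype α] [Module.Finite F V] (v : α → V) (I : Set α)
    (hI : LinearIndepOn F v I) (hc : I.ncard = finrank F V) : (vecMatroid F v).IsBase I := by
  classical
  have hind : (vecMatroid F v).Indep I := hI
  obtain ⟨B, hB, hIB⟩ := hind.exists_isBase_superset
  have hBl : LinearIndepOn F v B := hB.indep
  have h1 : Fintype.card B ≤ finrank F V := LinearIndependent.fintype_card_le_finrank hBl
  rw [← Nat.card_eq_fintype_card, Nat.card_coe_set_eq] at h1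
  have : I = B := Set.eq_of_subset_of_ncard_le hIB (by omega) (Set.toFinite B)
  rw [this]; exact hB

theorem vecMatroid_isBase_range [Fintype α] [Module.Finite F V] (v : α → V) {n : ℕ}
    (a : Fin n → α) (ha : Function.Injective a) (hn : finrank F V = n) :
    (vecMatroid F v).IsBase (Set.range a) ↔ LinearIndependent F (fun i => v (a i)) := by
  have key : LinearIndepOn F v (Set.range a) ↔ LinearIndependent F (fun i => v (a i)) :=
    linearIndepOn_range_iff ha v
  constructor
  · intro h
    exact key.1 h.indep
  · intro h
    refine vecMatroid_isBase v _ (key.2 h) ?_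
    rw [hn, ← Set.image_univ, Set.ncard_image_of_injective _ ha, Set.ncard_univ]
    simp

end Pool.Agent.H7
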