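import Pool.Agent.H7.WijsDefs

set_option autoImplicit false

namespace Pool.Agent.H7.Wijs

open Set Filter Topology Metric

variable {X : Type} [MetricSpace X]

lemma cont (x : X) : Continuous fun A : Hyp X => infDist x A.1 :=
  continuous_iInf_dom (i := x) continuous_induced_dom

instance : RegularSpace (Hyp X) := regularSpace_iInf fun _ => regularSpace_induced _

lemma basic {A : Hyp X} {U : Set (Hyp X)} (hU : U ∈ 𝓝 A) :
    ∃ (F : Finset X) (ε : ℝ), F.Nonempty ∧ 0 < ε ∧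
      ∀ B : Hyp X, (∀ x ∈ F, |infDist x B.1 - infDist x A.1| < ε) → B ∈ U := by
  classical
  have key : ∃ (F : Finset X) (ε : ℝ), 0 < ε ∧
      ∀ B : Hyp X, (∀ x ∈ F, |infDist x B.1 - infDist x A.1| < ε) → B ∈ U := by
    rw [nhds_iInf] at hU
    refine Filter.iInf_sets_induct hU ⟨∅, 1, one_pos, fun _ _ => mem_univ _⟩ ?_
    rintro x s t hs ⟨F, ε, hε, h⟩
    rw [nhds_induced, mem_comap] at hs
    obtain ⟨v, hv, hs⟩ := hs
    obtain ⟨δ, hδ, hv'⟩ := Metric.mem_nhds_iff.mp hv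
    refine ⟨insert x F, min ε δ, lt_min hε hδ, fun B hB => ⟨hs (hv' ?_), h B fun y hy => ?_⟩⟩
    · exact (hB x (Finset.mem_insert_self _ _)).trans_le (min_le_right _ _)
    · exact (hB y (Finset.mem_insert_of_mem hy)).trans_le (min_le_left _ _)
  obtain ⟨F, ε, hε, h⟩ := key
  obtain ⟨a, -⟩ := A.2.2
  exact ⟨insert a F, ε, Finset.insert_nonempty _ _, hε,
    fun B hB => h B fun x hx => hB x (Finset.mem_insert_of_mem hx)⟩

def hit (O : Set X) : Set (Hyp X) := {B | (B.1 ∩ O).Nonempty}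

lemma hit_open {O : Set X} (hO : IsOpen O) : IsOpen (hit O) := by
  rw [isOpen_iff_mem_nhds]
  rintro B ⟨p, hp, hpO⟩
  obtain ⟨δ, hδ, h⟩ := Metric.isOpen_iff.mp hO p hpO
  have h1 : {B' : Hyp X | infDist p B'.1 < δ} ∈ 𝓝 B :=
    (isOpen_lt (cont p) continuous_const).mem_nhds (by
      rw [mem_ofPred_eq, infDist_zero_of_mem hp]; exact hδ)
  refine mem_of_superset h1 fun B' hB' => ?_
  obtain ⟨q, hq, h2⟩ := (infDist_lt_iff B'.2.2).mp hB'
  exact ⟨q, hq, h (mem_ball'.mpr h2)⟩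

structure Rep (X : Type) [MetricSpace X] where
  F : Finset X
  l : X → ℝ
  O : Set (Set X)
  fin : O.Finite
  ne : O.Nonempty
  op : ∀ o ∈ O, IsOpen o
  nonempty : ∀ o ∈ O, o.Nonempty
  rob : ∀ o ∈ O, ∀ q ∈ o, ∀ x ∈ F, l x < dist x q

def Rep.L (R : Rep X) : Set X := {q | ∀ x ∈ R.F, R.l x < dist x q}

def Rep.V (R : Rep X) : Set (Hyp X) :=
  {B | (∀ x ∈ R.F, R.l x < infDist x B.1) ∧ ∀ o ∈ R.O, B ∈ hit o}

lemma Rep.V_open (R : Rep X) : IsOpen R.V := by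
  have : R.V = (⋂ x ∈ R.F, {B : Hyp X | R.l x < infDist x B.1}) ∩ ⋂ o ∈ R.O, hit o := by
    ext B
    simp [Rep.V]
  rw [this]
  exact (isOpen_biInter_finset fun x _ => isOpen_lt continuous_const (cont x)).inter
    (R.fin.isOpen_biInter fun o ho => hit_open (R.op o ho))

def fset {E : Set X} (h1 : E.Finite) (h2 : E.Nonempty) : Hyp X := ⟨E, h1.isClosed, h2⟩

lemma Rep.sel (R : Rep X) {E : Set X} (h1 : E.Finite) (h2 : E.Nonempty) (h3 : E ⊆ R.L)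
    (h4 : ∀ o ∈ R.O, (E ∩ o).Nonempty) : fset h1 h2 ∈ R.V := by
  refine ⟨fun x hx => ?_, h4⟩
  obtain ⟨y, hy, h⟩ := h1.isCompact.exists_infDist_eq_dist h2 x
  change R.l x < infDist x E
  rw [h]
  exact h3 hy x hx

lemma Rep.clos (R : Rep X) (B : Hyp X) (h1 : B.1 ⊆ closure R.L)
    (h2 : ∀ o ∈ R.O, (B.1 ∩ closure (o ∩ R.L)).Nonempty) : B ∈ closure R.V := by
  rw [mem_closure_iff_nhds]
  intro U hU
  obtain ⟨F, ε, hF, hε, h⟩ := basic hU
  have h3 : ∀ x : X, ∃ q ∈ R.L, dist x q < infDist x B.1 + ε ∧ ∃ p ∈ B.1, dist p q < ε / 2 := by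
    intro x
    obtain ⟨p, hp, h4⟩ := (infDist_lt_iff B.2.2).mp (show infDist x B.1 < infDist x B.1 + ε / 2 by
      linarith)
    obtain ⟨q, hq, h5⟩ := Metric.mem_closure_iff.mp (h1 hp) (ε / 2) (by linarith)
    exact ⟨q, hq, by linarith [dist_triangle x p q], p, hp, h5⟩
  have h4 : ∀ o ∈ R.O, ∃ q ∈ o ∩ R.L, ∃ p ∈ B.1, dist p q < ε / 2 := by
    intro o ho
    obtain ⟨p, hp, h4⟩ := h2 o ho
    obtain ⟨q, hq, h5⟩ := Metric.mem_closure_iff.mp h4 (ε / 2) (by linarith)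
    exact ⟨q, hq, p, hp, h5⟩
  obtain ⟨x0, hx0⟩ := hF
  have : Nonempty X := ⟨x0⟩
  choose a ha1 ha2 ha3 using h3
  choose! b hb1 hb2 using h4
  have e1 : (a '' F ∪ b '' R.O).Finite := (F.finite_toSet.image a).union (R.fin.image b)
  have e2 : (a '' F ∪ b '' R.O).Nonempty := ⟨a x0, Or.inl ⟨x0, hx0, rfl⟩⟩
  refine ⟨fset e1 e2, h _ fun x hx => abs_lt.mpr ⟨?_, ?_⟩, R.sel e1 e2 ?_ fun o ho =>
    ⟨b o, Or.inr ⟨o, ho, rfl⟩, (hb1 o ho).1⟩⟩
  · have h5 : infDist x B.1 - ε / 2 ≤ infDist x (fset e1 e2).1 := by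
      refine (le_infDist e2).mpr fun q hq => ?_
      have h6 : ∃ p ∈ B.1, dist p q < ε / 2 := by
        rcases hq with ⟨y, -, rfl⟩ | ⟨o, ho, rfl⟩
        · exact ha3 y
        · exact hb2 o ho
      obtain ⟨p, hp, h7⟩ := h6
      linarith [infDist_le_dist_of_mem (x := x) hp, dist_triangle x q p, dist_comm p q]
    linarith
  · have h5 : infDist x (fset e1 e2).1 ≤ dist x (a x) :=
      infDist_le_dist_of_mem (Or.inl ⟨x, hx, rfl⟩)
    linarith [ha2 x]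
  · rintro _ (⟨y, -, rfl⟩ | ⟨o, ho, rfl⟩)
    · exact ha1 y
    · exact (hb1 o ho).2

lemma Rep.sub_L (R : Rep X) {o : Set X} (ho : o ∈ R.O) : o ⊆ R.L := fun q hq => R.rob o ho q hq

lemma Rep.clos' (R : Rep X) (B : Hyp X) (h1 : B.1 ⊆ closure R.L)
    (h2 : ∀ o ∈ R.O, B ∈ hit o) : B ∈ closure R.V := by
  refine R.clos B h1 fun o ho => ?_
  obtain ⟨p, hp, h⟩ := h2 o ho
  exact ⟨p, hp, (R.op o ho).inter_closure ⟨h, h1 hp⟩⟩

lemma Rep.step (R : Rep X) {O : Set X} (h : closure R.V ⊆ hit O) : ∃ o ∈ R.O, closure o ⊆ O := by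
  by_contra hc
  push Not at hc
  simp only [not_subset] at hc
  obtain ⟨o0, ho0⟩ := R.ne
  have : Nonempty X := ⟨(R.nonempty o0 ho0).some⟩
  choose! b hb1 hb2 using hc
  have e1 : (b '' R.O).Finite := R.fin.image b
  have e2 : (b '' R.O).Nonempty := ⟨b o0, o0, ho0, rfl⟩
  obtain ⟨_, ⟨o, ho, rfl⟩, h1⟩ := h (R.clos (fset e1 e2) (by
    rintro _ ⟨o, ho, rfl⟩
    exact closure_mono (R.sub_L ho) (hb1 o ho)) fun o ho => ⟨b o, ⟨o, ho, rfl⟩, by
      rw [inter_eq_left.mpr (R.sub_L ho)]; exact hb1 o ho⟩)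
  exact hb2 o ho h1

lemma Rep.step0 (R : Rep X) {O : Set X} (h : R.V ⊆ hit O) : ∃ o ∈ R.O, o ⊆ O := by
  by_contra hc
  push Not at hc
  simp only [not_subset] at hc
  obtain ⟨o0, ho0⟩ := R.ne
  have : Nonempty X := ⟨(R.nonempty o0 ho0).some⟩
  choose! b hb1 hb2 using hc
  have e1 : (b '' R.O).Finite := R.fin.image b
  have e2 : (b '' R.O).Nonempty := ⟨b o0, o0, ho0, rfl⟩
  obtain ⟨_, ⟨o, ho, rfl⟩, h1⟩ := h (R.sel e1 e2 (by
    rintro _ ⟨o, ho, rfl⟩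
    exact R.sub_L ho (hb1 o ho)) fun o ho => ⟨b o, ⟨o, ho, rfl⟩, hb1 o ho⟩)
  exact hb2 o ho h1

lemma Rep.exists_mem (R : Rep X) {o : Set X} (ho : o ∈ R.O) {q : X} (hq : q ∈ o) :
    ∃ B ∈ R.V, q ∈ B.1 := by
  have : Nonempty X := ⟨q⟩
  have h := R.nonempty
  choose! b hb using h
  have e1 : (insert q (b '' R.O)).Finite := (R.fin.image b).insert q
  refine ⟨fset e1 (insert_nonempty _ _), R.sel e1 _ ?_ fun o' ho' =>
    ⟨b o', Or.inr ⟨o', ho', rfl⟩, hb o' ho'⟩, Or.inl rfl⟩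
  rintro _ (rfl | ⟨o', ho', rfl⟩)
  · exact R.sub_L ho hq
  · exact R.sub_L ho' (hb o' ho')

lemma Rep.V_nonempty (R : Rep X) : R.V.Nonempty := by
  obtain ⟨o, ho⟩ := R.ne
  obtain ⟨q, hq⟩ := R.nonempty o ho
  obtain ⟨B, hB, -⟩ := R.exists_mem ho hq
  exact ⟨B, hB⟩

lemma Rep.lower {R R' : Rep X} (h : R.V ⊆ R'.V) {o : Set X} (ho : o ∈ R.O) : o ⊆ R'.L := by
  intro q hq x hx
  obtain ⟨B, hB, h1⟩ := R.exists_mem ho hq
  exact ((h hB).1 x hx).trans_le (infDist_le_dist_of_mem h1)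

lemma mk_rep {A : Hyp X} {U : Set (Hyp X)} (hU : U ∈ 𝓝 A) :
    ∃ (ε : ℝ) (a : X → X), 0 < ε ∧ (∀ x, a x ∈ A.1) ∧ ∀ O : X → Set X,
      (∀ x, IsOpen (O x) ∧ (O x).Nonempty ∧ O x ⊆ ball (a x) ε) →
      ∃ R : Rep X, R.O ⊆ range O ∧ R.V ⊆ U ∧ ((∀ x, a x ∈ O x) → A ∈ R.V) := by
  obtain ⟨F, ε, hF, hε, h⟩ := basic hU
  have h4 : ∀ x, ∃ a ∈ A.1, dist x a < infDist x A.1 + ε / 2 := fun x =>
    (infDist_lt_iff A.2.2).mp (by linarith)
  choose a ha1 ha2 using h4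
  refine ⟨ε / 2, a, by linarith, ha1, fun O hO => ⟨⟨F, fun x => infDist x A.1 - ε / 2, O '' F,
    F.finite_toSet.image O, hF.to_set.image O, ?_, ?_, ?_⟩, image_subset_range _ _, ?_, ?_⟩⟩
  · rintro _ ⟨x, -, rfl⟩
    exact (hO x).1
  · rintro _ ⟨x, -, rfl⟩
    exact (hO x).2.1
  · rintro _ ⟨y, -, rfl⟩ q hq x -
    have h1 := mem_ball.mp ((hO y).2.2 hq)
    linarith [infDist_le_dist_of_mem (x := x) (ha1 y), dist_triangle x q (a y)]
  · rintro B ⟨h1, h2⟩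
    refine h B fun x hx => abs_lt.mpr ⟨by linarith [h1 x hx], ?_⟩
    obtain ⟨q, hq, h3⟩ := h2 _ ⟨x, hx, rfl⟩
    have h4 := mem_ball'.mp ((hO x).2.2 h3)
    linarith [infDist_le_dist_of_mem (x := x) hq, dist_triangle x (a x) q, ha2 x]
  · intro h1
    refine ⟨fun x _ => by linarith, ?_⟩
    rintro _ ⟨x, -, rfl⟩
    exact ⟨a x, ha1 x, h1 x⟩

theorem pseudo (h : Pseudocomplete X) : Pseudocomplete (Hyp X) := by
  obtain ⟨hq, P, hP, hc⟩ := h
  let P' : ℕ → Set (Set X) := fun n =>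
    Nat.rec (P 0) (fun n Q => {p ∈ P (n + 1) | ∃ q ∈ Q, closure p ⊆ q}) n
  have h1 : ∀ n, P' n ⊆ P n := by
    intro n
    cases n with
    | zero => exact Subset.rfl
    | succ n => exact fun _ h => h.1
  have h2 : ∀ n, ∀ U : Set X, IsOpen U → U.Nonempty → ∃ V ∈ P' n, V ⊆ U := by
    intro n
    induction n with
    | zero => exact (hP 0).2
    | succ n ih =>
      intro U hU hU'
      obtain ⟨V, hV, h3⟩ := ih U hU hU'
      obtain ⟨W, hW, hW', h4⟩ := hq V ((hP n).1 V (h1 n hV)).1 ((hP n).1 V (h1 n hV)).2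
      obtain ⟨Z, hZ, h5⟩ := (hP (n + 1)).2 W hW hW'
      exact ⟨Z, ⟨hZ, V, hV, (closure_mono h5).trans h4⟩,
        h5.trans (subset_closure.trans (h4.trans h3))⟩
  have h3 : ∀ m, ∀ O : ℕ → Set X, O 0 ∈ P' m → (∀ k, O k ∈ P (m + k)) →
      (∀ k, closure (O (k + 1)) ⊆ O k) → (⋂ k, O k).Nonempty := by
    intro m
    induction m with
    | zero => exact fun O _ h4 h5 => hc O (by simpa using h4) h5
    | succ m ih =>
      rintro O ⟨-, q, hq, h4⟩ h5 h6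
      obtain ⟨p, hp⟩ := ih (fun k => Nat.rec q (fun k _ => O k) k) hq (by
        intro k
        cases k with
        | zero => exact h1 m hq
        | succ k => exact (by omega : m + 1 + k = m + (k + 1)) ▸ h5 k) (by
        intro k
        cases k with
        | zero => exact h4
        | succ k => exact h6 k)
      exact ⟨p, mem_iInter.mpr fun k => mem_iInter.mp hp (k + 1)⟩
  refine ⟨fun U hU ⟨A, hA⟩ => ?_, fun n => {V | ∃ R : Rep X, R.O ⊆ P' n ∧ V = R.V},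
    fun n => ⟨?_, fun U hU ⟨A, hA⟩ => ?_⟩, fun V hV hn => ?_⟩
  · obtain ⟨t, ht, h4, h5⟩ := exists_mem_nhds_isClosed_subset (hU.mem_nhds hA)
    exact ⟨interior t, isOpen_interior, ⟨A, mem_interior_iff_mem_nhds.mpr ht⟩,
      (closure_minimal interior_subset h4).trans h5⟩
  · rintro _ ⟨R, -, rfl⟩
    exact ⟨R.V_open, R.V_nonempty⟩
  · obtain ⟨ε, a, hε, -, h4⟩ := mk_rep (hU.mem_nhds hA)
    choose O hO1 hO2 using fun x => h2 n (ball (a x) ε) isOpen_ball ⟨a x, mem_ball_self hε⟩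
    obtain ⟨R, h5, h6, -⟩ := h4 O fun x =>
      ⟨((hP n).1 _ (h1 n (hO1 x))).1, ((hP n).1 _ (h1 n (hO1 x))).2, hO2 x⟩
    exact ⟨R.V, ⟨R, h5.trans (range_subset_iff.mpr hO1), rfl⟩, h6⟩
  · choose R hR1 hR2 using hV
    have h4 : ∀ k (o : (R k).O), ∃ o' : (R (k + 1)).O, closure o'.1 ⊆ o.1 := by
      intro k o
      obtain ⟨o', h5, h6⟩ := (R (k + 1)).step (O := o.1) (by
        rw [← hR2]
        exact (hn k).trans (by rw [hR2]; exact fun B hB => hB.2 _ o.2))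
      exact ⟨⟨o', h5⟩, h6⟩
    choose nx hnx using h4
    have hanti : Antitone V := antitone_nat_of_succ_le fun k => subset_closure.trans (hn k)
    have h5 : ∀ n, ∀ o ∈ (R n).O, ∃ p ∈ o, ∀ m, p ∈ (R m).L := by
      intro n o ho
      let z : ∀ k, (R (n + k)).O := fun k => Nat.rec ⟨o, ho⟩ (fun k w => nx (n + k) w) k
      obtain ⟨p, hp⟩ := h3 n (fun k => (z k).1) (hR1 n ho) (fun k => h1 _ (hR1 _ (z k).2))
        fun k => hnx (n + k) (z k)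
      refine ⟨p, mem_iInter.mp hp 0, fun m => Rep.lower (R := R (n + m)) ?_ (z m).2
        (mem_iInter.mp hp m)⟩
      rw [← hR2, ← hR2]
      exact hanti (by omega)
    obtain ⟨o0, ho0⟩ := (R 0).ne
    obtain ⟨p0, -, hp0⟩ := h5 0 o0 ho0
    let B : Hyp X := ⟨⋂ m, closure (R m).L, isClosed_iInter fun _ => isClosed_closure,
      p0, mem_iInter.mpr fun m => subset_closure (hp0 m)⟩
    refine ⟨B, mem_iInter.mpr fun n => hn n ?_⟩
    rw [hR2]
    refine (R (n + 1)).clos' B (iInter_subset _ _) fun o ho => ?_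
    obtain ⟨p, h6, h7⟩ := h5 _ o ho
    exact ⟨p, mem_iInter.mpr fun m => subset_closure (h7 m), h6⟩

end Pool.Agent.H7.Wijs
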