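import Pool.Agent.H7.Wijs1

set_option autoImplicit false

namespace Pool.Agent.H7.Wijs

open Set Filter Topology Metric

variable {X : Type} [MetricSpace X]

structure Lev (𝔅 : Set (Set X)) (r : ℝ) where
  v : X → Set X
  B : X → Set X
  op : ∀ a, IsOpen (v a)
  mem : ∀ a, B a ∈ 𝔅
  cl : ∀ a, closure (v a) ⊆ B a
  small : ∀ a, B a ⊆ ball a r
  cov : ⋃ a, v a = univ
  lf : LocallyFinite v

lemma lev_step {𝔅 : Set (Set X)} (h𝔅 : TopologicalSpace.IsTopologicalBasis 𝔅)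
    (v B : X → Set X) (hB : ∀ a, IsOpen (B a)) (hcl : ∀ a, closure (v a) ⊆ B a)
    (hlf : LocallyFinite v) {r : ℝ} (hr : 0 < r) :
    ∃ L : Lev 𝔅 r, ∀ a a', (L.B a' ∩ v a).Nonempty → closure (L.B a') ⊆ B a := by
  have key : ∀ x, ∃ b ∈ 𝔅, x ∈ b ∧ b ⊆ ball x r ∧ ∀ a, (b ∩ v a).Nonempty → closure b ⊆ B a := by
    intro x
    obtain ⟨N, hN, hfin⟩ := hlf x
    have h1 : (⋂ a ∈ {a | (v a ∩ N).Nonempty}, {y | (x ∉ closure (v a) → y ∉ closure (v a)) ∧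
        (x ∈ closure (v a) → y ∈ B a)}) ∈ 𝓝 x := by
      refine (biInter_mem hfin).mpr fun a _ => ?_
      by_cases h : x ∈ closure (v a)
      · exact mem_of_superset ((hB a).mem_nhds (hcl a h)) fun y hy => ⟨fun h' => absurd h h',
          fun _ => hy⟩
      · exact mem_of_superset (isClosed_closure.isOpen_compl.mem_nhds h) fun y hy =>
          ⟨fun _ => hy, fun h' => absurd h' h⟩
    obtain ⟨t, ht, h2, h3⟩ := exists_mem_nhds_isClosed_subset (inter_mem hN h1)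
    obtain ⟨b, hb, h4, h5⟩ := h𝔅.mem_nhds_iff.mp (inter_mem ht (ball_mem_nhds x hr))
    refine ⟨b, hb, h4, h5.trans inter_subset_right, fun a ⟨y, hy1, hy2⟩ z hz => ?_⟩
    have h6 := h3 (h5 hy1).1
    have ha : a ∈ {a | (v a ∩ N).Nonempty} := ⟨y, hy2, h6.1⟩
    have h7 : x ∈ closure (v a) := by
      by_contra h
      exact (mem_iInter₂.mp h6.2 a ha).1 h (subset_closure hy2)
    exact (mem_iInter₂.mp (h3 (closure_minimal (h5.trans inter_subset_left) h2 hz)).2 a ha).2 h7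
  choose b hb1 hb2 hb3 hb4 using key
  choose t ht1 ht2 ht3 using fun x =>
    exists_mem_nhds_isClosed_subset ((h𝔅.isOpen (hb1 x)).mem_nhds (hb2 x))
  obtain ⟨w, hw1, hw2, hw3, hw4⟩ := precise_refinement (fun x => interior (t x))
    (fun _ => isOpen_interior) (eq_univ_of_forall fun x =>
      mem_iUnion.mpr ⟨x, mem_interior_iff_mem_nhds.mpr (ht1 x)⟩)
  exact ⟨⟨w, b, hw1, hb1, fun a =>
    (closure_minimal ((hw4 a).trans interior_subset) (ht2 a)).trans (ht3 a), hb3, hw2, hw3⟩,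
    fun a a' => hb4 a' a⟩

lemma good_base (h : Subcompact X) : ∃ 𝔅 : Set (Set X),
    (∀ o ∈ 𝔅, IsOpen o ∧ o.Nonempty) ∧ (∀ x ε, 0 < ε → ∃ o ∈ 𝔅, x ∈ o ∧ o ⊆ ball x ε) ∧
    ∀ O : ℕ → Set X, (∀ k, O k ∈ 𝔅) → StrictAnti O → ∃ p, ∀ ε, 0 < ε → ∃ k, O k ⊆ ball p ε := by
  obtain ⟨-, 𝔅, h𝔅, hc⟩ := h
  have hr : ∀ n : ℕ, (0 : ℝ) < 1 / (n + 1) := fun n => by positivity
  choose nx hnx using fun (n : ℕ) (L : Lev 𝔅 (1 / (n + 1))) =>
    lev_step h𝔅 L.v L.B (fun a => h𝔅.isOpen (L.mem a)) L.cl L.lf (hr (n + 1))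
  obtain ⟨L0, -⟩ := lev_step h𝔅 (fun _ => ∅) (fun _ => ∅) (fun _ => isOpen_empty)
    (fun _ => by simp) (fun x => ⟨univ, univ_mem, by simp⟩) (hr 0)
  let L : ∀ n : ℕ, Lev 𝔅 (1 / (n + 1)) := fun n => Nat.rec L0 (fun n w => nx n w) n
  have hL : ∀ n a a', ((L (n + 1)).B a' ∩ (L n).v a).Nonempty →
      closure ((L (n + 1)).B a') ⊆ (L n).B a := fun n => hnx n (L n)
  have hvB : ∀ n a, (L n).v a ⊆ (L n).B a := fun n a => subset_closure.trans ((L n).cl a)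
  have hL2 : ∀ d m a a' x, x ∈ (L m).v a → x ∈ (L (m + d + 1)).v a' →
      closure ((L (m + d + 1)).B a') ⊆ (L m).B a := by
    intro d
    induction d with
    | zero => exact fun m a a' x h1 h2 => hL m a a' ⟨x, hvB (m + 1) a' h2, h1⟩
    | succ d ih =>
      intro m a a' x h1 h2
      obtain ⟨c, hc⟩ := mem_iUnion.mp ((L (m + d + 1)).cov ▸ mem_univ x)
      exact (hL (m + d + 1) c a' ⟨x, hvB (m + d + 1 + 1) a' h2, hc⟩).trans (subset_closure.trans (ih m a c x h1 hc))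
  have hsm : ∀ ε : ℝ, 0 < ε → ∃ N : ℕ, ∀ n ≥ N, ∀ a x, x ∈ (L n).B a → (L n).B a ⊆ ball x ε := by
    intro ε hε
    obtain ⟨N, hN⟩ := exists_nat_one_div_lt (show 0 < ε / 2 by linarith)
    refine ⟨N, fun n hn a x hx y hy => ?_⟩
    have h1 := mem_ball.mp ((L n).small a hx)
    have h2 := mem_ball.mp ((L n).small a hy)
    have h3 : (1 : ℝ) / (n + 1) ≤ 1 / (N + 1) := Nat.one_div_le_one_div hn
    rw [mem_ball]
    linarith [dist_triangle_right y x a]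
  refine ⟨{o | o.Nonempty ∧ ∃ n a, o = (L n).v a ∧ ∀ b, o ⊆ (L n).v b → (L n).v b ⊆ o}, ?_,
    fun x ε hε => ?_, fun O hO hanti => ?_⟩
  · rintro _ ⟨h1, n, a, rfl, -⟩
    exact ⟨(L n).op a, h1⟩
  · obtain ⟨n, hn⟩ := hsm ε hε
    obtain ⟨c, hc⟩ := mem_iUnion.mp ((L n).cov ▸ mem_univ x)
    obtain ⟨a, ha1, ha2⟩ := Set.Finite.exists_maximalFor (L n).v _ ((L n).lf.point_finite x)
      ⟨c, hc⟩
    exact ⟨(L n).v a, ⟨⟨x, ha1⟩, n, a, rfl, fun b hb => ha2 (hb ha1) hb⟩, ha1,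
      (hvB n a).trans (hn n le_rfl a x (hvB n a ha1))⟩
  · choose hne n a h1 h2 using hO
    have hinj : Function.Injective n := by
      have key : ∀ i j, i < j → n i ≠ n j := by
        intro i j hij he
        have h3 : O i = (L (n j)).v (a i) := he ▸ h1 i
        exact (hanti hij).not_ge (h3 ▸ h2 j (a i) (h3 ▸ (hanti hij).le))
      intro i j he
      rcases lt_trichotomy i j with h | h | h
      · exact absurd he (key i j h)
      · exact h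
      · exact absurd he.symm (key j i h)
    have ht : Tendsto n atTop atTop := hinj.nat_tendsto_atTop
    have h3 : ∀ i, ∀ᶠ j in atTop, closure ((L (n j)).B (a j)) ⊆ (L (n i)).B (a i) := by
      intro i
      filter_upwards [ht.eventually_gt_atTop (n i), eventually_ge_atTop i] with j h4 h5
      obtain ⟨x, hx⟩ := hne j
      obtain ⟨d, hd⟩ := Nat.exists_eq_add_of_lt h4
      have h6 := hL2 d (n i) (a i) (a j) x (h1 i ▸ hanti.antitone h5 hx)
      rw [← hd] at h6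
      exact h6 (h1 j ▸ hx)
    obtain ⟨p, hp⟩ := hc (range fun k => (L (n k)).B (a k))
      (range_subset_iff.mpr fun k => (L _).mem _) (range_nonempty _) (by
        rintro _ ⟨k, rfl⟩
        exact (hne k).mono (h1 k ▸ hvB _ _)) (by
        rintro _ ⟨i, rfl⟩ _ ⟨j, rfl⟩
        obtain ⟨k, h4, h5⟩ := ((h3 i).and (h3 j)).exists
        exact ⟨_, ⟨k, rfl⟩, subset_inter (subset_closure.trans h4) (subset_closure.trans h5)⟩) (by
        rintro _ ⟨i, rfl⟩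
        obtain ⟨k, h4⟩ := (h3 i).exists
        exact ⟨_, ⟨k, rfl⟩, h4⟩)
    refine ⟨p, fun ε hε => ?_⟩
    obtain ⟨N, hN⟩ := hsm ε hε
    obtain ⟨k, hk⟩ := (ht.eventually_ge_atTop N).exists
    exact ⟨k, (h1 k ▸ hvB _ _).trans (hN _ hk _ p (hp _ ⟨k, rfl⟩))⟩

theorem subc (h : Subcompact X) : Subcompact (Hyp X) := by
  obtain ⟨𝔅, h1, h2, h3⟩ := good_base h
  refine ⟨inferInstance, {V | ∃ R : Rep X, R.O ⊆ 𝔅 ∧ V = R.V}, ?_, fun F hF hne _ hdir hreg => ?_⟩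
  · apply TopologicalSpace.isTopologicalBasis_of_isOpen_of_nhds
    · rintro _ ⟨R, -, rfl⟩
      exact R.V_open
    · intro A U hA hU
      obtain ⟨ε, a, hε, -, h4⟩ := mk_rep (hU.mem_nhds hA)
      choose O hO1 hO2 hO3 using fun x => h2 (a x) ε hε
      obtain ⟨R, h5, h6, h7⟩ := h4 O fun x => ⟨(h1 _ (hO1 x)).1, (h1 _ (hO1 x)).2, hO3 x⟩
      exact ⟨R.V, ⟨R, h5.trans (range_subset_iff.mpr hO1), rfl⟩, h7 hO2, h6⟩
  · have hF' : ∀ V : F, ∃ R : Rep X, R.O ⊆ 𝔅 ∧ V.1 = R.V := fun V => hF V.2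
    choose R hR1 hR2 using hF'
    have hstep : ∀ (W W' : F), ∀ o ∈ (R W).O, ∃ W'' : F, ∃ o' ∈ (R W'').O,
        o' ⊆ o ∧ o' ⊆ (R W').L := by
      intro W W' o ho
      obtain ⟨Z, hZ, h4⟩ := hdir _ W.2 _ W'.2
      obtain ⟨o', h5, h6⟩ := (R ⟨Z, hZ⟩).step0 (O := o) (by
        rw [← hR2]
        exact (h4.trans inter_subset_left).trans (by rw [hR2]; exact fun B hB => hB.2 _ ho))
      refine ⟨⟨Z, hZ⟩, o', h5, h6, Rep.lower ?_ h5⟩
      rw [← hR2, ← hR2]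
      exact h4.trans inter_subset_right
    have h5 : ∀ V : F, ∀ o ∈ (R V).O, ∃ p ∈ o, ∀ W : F, p ∈ closure (R W).L := by
      intro V o ho
      obtain ⟨Z, hZ, h4⟩ := hreg _ V.2
      obtain ⟨o1, h5, h6⟩ := (R ⟨Z, hZ⟩).step (O := o) (by
        rw [← hR2]
        exact h4.trans (by rw [hR2]; exact fun B hB => hB.2 _ ho))
      let D : Set (Set X) := {o' | o' ⊆ o1 ∧ ∃ W : F, o' ∈ (R W).O}
      by_cases hm : ∃ m ∈ D, ∀ o' ∈ D, ¬ o' ⊂ m
      · obtain ⟨m, ⟨hm1, W, hW⟩, hm2⟩ := hm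
        obtain ⟨p, hp⟩ := (R W).nonempty m hW
        refine ⟨p, h6 (subset_closure (hm1 hp)), fun W' => subset_closure ?_⟩
        obtain ⟨W'', o', h7, h8, h9⟩ := hstep W W' m hW
        have : o' = m := by
          by_contra hne
          exact hm2 o' ⟨h8.trans hm1, W'', h7⟩ (ssubset_of_subset_of_ne h8 hne)
        exact h9 (this ▸ hp)
      · push Not at hm
        choose nx hnx1 hnx2 using fun m : D => hm m.1 m.2
        let z : ℕ → D := fun k => Nat.rec ⟨o1, Subset.rfl, _, h5⟩ (fun _ w => ⟨nx w, hnx1 w⟩) k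
        obtain ⟨p, hp⟩ := h3 (fun k => (z k).1) (fun k => by
          obtain ⟨-, W, hW⟩ := (z k).2
          exact hR1 W hW) (strictAnti_nat_of_succ_lt fun k => hnx2 (z k))
        have key : ∀ W : F, ∀ ε, 0 < ε → ∃ q ∈ o1 ∩ (R W).L, dist p q < ε := by
          intro W ε hε
          obtain ⟨k, hk⟩ := hp ε hε
          obtain ⟨h7, W', hW'⟩ := (z k).2
          obtain ⟨W'', o', h8, h9, h10⟩ := hstep W' W _ hW'
          obtain ⟨q, hq⟩ := (R W'').nonempty o' h8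
          exact ⟨q, ⟨h7 (h9 hq), h10 hq⟩, mem_ball'.mp (hk (h9 hq))⟩
        exact ⟨p, h6 (closure_mono inter_subset_left (Metric.mem_closure_iff.mpr (key V))),
          fun W => closure_mono inter_subset_right (Metric.mem_closure_iff.mpr (key W))⟩
    obtain ⟨V0, hV0⟩ := hne
    obtain ⟨o0, ho0⟩ := (R ⟨V0, hV0⟩).ne
    obtain ⟨p0, -, hp0⟩ := h5 _ o0 ho0
    let B : Hyp X := ⟨⋂ W : F, closure (R W).L, isClosed_iInter fun _ => isClosed_closure,
      p0, mem_iInter.mpr hp0⟩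
    refine ⟨B, fun V hV => ?_⟩
    obtain ⟨Z, hZ, h4⟩ := hreg V hV
    refine h4 ?_
    have h6 := hR2 ⟨Z, hZ⟩
    change Z = _ at h6
    rw [h6]
    refine (R ⟨Z, hZ⟩).clos' B (iInter_subset _ _) fun o ho => ?_
    obtain ⟨p, h6, h7⟩ := h5 _ o ho
    exact ⟨p, mem_iInter.mpr h7, h6⟩

end Pool.Agent.H7.Wijs
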