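import Pool.Agent.H7.Wijs1

set_option autoImplicit false

namespace Pool.Agent.H7.Wijs

open Set Filter Topology Metric

lemma free_nat (Φ : ℕ → ℝ → ℕ → Set ℝ) (hΦ : ∀ i a j, (Φ i a j).Finite) :
    ∃ s : ℕ → ℝ, ∀ i j, i ≠ j → s j ∉ Φ i (s i) j := by
  let P : ℕ → (ℕ → ℝ) → Prop := fun k s => (∀ i < k, ∀ j < k, i ≠ j → s j ∉ Φ i (s i) j) ∧
    ∀ j ≥ k, ¬ {a | ∀ i < k, s i ∉ Φ j a i}.Countable
  have step : ∀ k s, P k s → ∃ b, P (k + 1) (Function.update s k b) := by
    rintro k s ⟨h1, h2⟩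
    have hbad : ∀ j ≥ k, {b | {a | (∀ i < k, s i ∉ Φ j a i) ∧ b ∉ Φ j a k}.Countable}.Finite := by
      intro j hj
      by_contra hinf
      let e := Set.Infinite.natEmbedding _ hinf
      refine h2 j hj ((countable_iUnion fun n => (e n).2).mono fun a ha => ?_)
      by_contra h3
      simp only [mem_iUnion, mem_ofPred_eq, not_exists, not_and, not_not] at h3
      exact Set.infinite_of_injective_forall_mem (Subtype.val_injective.comp e.injective)
        (fun n => h3 n ha) (hΦ j a k)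
    have h3 : ((⋃ i, Φ i (s i) k) ∪ ⋃ j ∈ Ici k,
        {b | {a | (∀ i < k, s i ∉ Φ j a i) ∧ b ∉ Φ j a k}.Countable}).Countable :=
      (countable_iUnion fun i => (hΦ _ _ _).countable).union
        ((to_countable _).biUnion fun j hj => (hbad j hj).countable)
    obtain ⟨b, hb1, hb2⟩ := not_subset.mp fun h => h2 k le_rfl (h3.mono h)
    simp only [mem_union, mem_iUnion, not_or, not_exists] at hb2
    refine ⟨b, fun i hi j hj hij => ?_, fun j hj hc => hb2.2 j (show k ≤ j by omega)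
      (hc.mono ?_)⟩
    · rcases Nat.lt_succ_iff_lt_or_eq.mp hi with hi | rfl
      · rcases Nat.lt_succ_iff_lt_or_eq.mp hj with hj | rfl
        · rw [Function.update_of_ne hi.ne, Function.update_of_ne hj.ne]
          exact h1 i hi j hj hij
        · rw [Function.update_of_ne hi.ne, Function.update_self]
          exact hb2.1 i
      · have hj' : j < i := by omega
        rw [Function.update_of_ne hj'.ne, Function.update_self]
        exact hb1 j hj'
    · intro a ha i hi
      rcases Nat.lt_succ_iff_lt_or_eq.mp hi with hi | rfl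
      · rw [Function.update_of_ne hi.ne]
        exact ha.1 i hi
      · rw [Function.update_self]
        exact ha.2
  choose nx hnx using step
  have h0 : P 0 fun _ => 0 := ⟨fun i hi => absurd hi (by omega), fun j _ => by
    simpa using Cardinal.not_countable_real⟩
  let S : ∀ k, {s // P k s} := fun k => Nat.rec ⟨_, h0⟩ (fun k w => ⟨_, hnx k w.1 w.2⟩) k
  have hS : ∀ n i, i < n → (S n).1 i = (S (i + 1)).1 i := by
    intro n i hi
    induction n with
    | zero => omega
    | succ n ih =>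
      rcases Nat.lt_succ_iff_lt_or_eq.mp hi with hi | rfl
      · rw [← ih hi]
        exact Function.update_of_ne hi.ne _ _
      · rfl
  refine ⟨fun i => (S (i + 1)).1 i, fun i j hij => ?_⟩
  have h1 := (S (max i j + 1)).2.1 i (by omega) j (by omega) hij
  rwa [hS _ i (by omega), hS _ j (by omega)] at h1

lemma free_list (Φ : List ℕ → ℝ → List ℕ → Set ℝ) (hΦ : ∀ i a j, (Φ i a j).Finite) :
    ∃ s : List ℕ → ℝ, ∀ i j, i ≠ j → s j ∉ Φ i (s i) j := by
  let e := Denumerable.eqv (List ℕ)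
  obtain ⟨s, hs⟩ := free_nat (fun i a j => Φ (e.symm i) a (e.symm j)) fun _ _ _ => hΦ _ _ _
  exact ⟨fun v => s (e v), fun i j hij => by simpa using hs (e i) (e j) (e.injective.ne hij)⟩

attribute [local instance] PiNat.dist

abbrev Pt : Type := (List ℕ → ℝ) × (ℕ → ℕ)

open Classical in
noncomputable def ρ (x y : Pt) : ℝ := if x.1 = y.1 then dist x.2 y.2 else 2

open Classical in
noncomputable def g (c : List ℕ × ℝ) (x : Pt) : ℝ :=
  if x.1 c.1 = c.2 ∧ PiNat.res x.2 c.1.length = c.1 then 0 else (1 / 2) ^ c.1.length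

lemma ρ_nonneg (x y : Pt) : 0 ≤ ρ x y := by
  unfold ρ
  split_ifs
  · exact PiNat.dist_nonneg _ _
  · norm_num

lemma ρ_le (x y : Pt) : ρ x y ≤ 2 := by
  unfold ρ
  split_ifs
  · linarith [PiNat.dist_le_one x.2 y.2]
  · norm_num

lemma ρ_comm (x y : Pt) : ρ x y = ρ y x := by
  by_cases h : x.1 = y.1
  · rw [ρ, ρ, if_pos h, if_pos h.symm, PiNat.dist_comm]
  · rw [ρ, ρ, if_neg h, if_neg (Ne.symm h)]

lemma ρ_tri (x y z : Pt) : ρ x z ≤ ρ x y + ρ y z := by
  by_cases h1 : x.1 = y.1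
  · by_cases h2 : y.1 = z.1
    · simp only [ρ, if_pos h1, if_pos h2, if_pos (h1.trans h2)]
      exact PiNat.dist_triangle _ _ _
    · have : ρ y z = 2 := if_neg h2
      linarith [ρ_le x z, ρ_nonneg x y]
  · have : ρ x y = 2 := if_neg h1
    linarith [ρ_le x z, ρ_nonneg y z]

lemma hpow (n : ℕ) : (0 : ℝ) < (1 / 2) ^ n ∧ (1 / 2 : ℝ) ^ n ≤ 1 :=
  ⟨by positivity, pow_le_one₀ (by norm_num) (by norm_num)⟩

lemma g_nonneg (c : List ℕ × ℝ) (x : Pt) : 0 ≤ g c x := by
  unfold g
  split_ifs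
  · exact le_rfl
  · exact (hpow _).1.le

lemma g_le (c : List ℕ × ℝ) (x : Pt) : g c x ≤ (1 / 2) ^ c.1.length := by
  unfold g
  split_ifs
  · exact (hpow _).1.le
  · exact le_rfl

lemma g_lip (c : List ℕ × ℝ) (x y : Pt) : g c x ≤ ρ x y + g c y := by
  by_cases h1 : x.1 = y.1
  · by_cases h2 : dist x.2 y.2 < (1 / 2) ^ c.1.length
    · have h3 : PiNat.res x.2 c.1.length = PiNat.res y.2 c.1.length :=
        PiNat.res_eq_res.mpr fun m hm => PiNat.apply_eq_of_dist_lt h2 hm.le
      have : g c x = g c y := by simp only [g, h1, h3]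
      linarith [ρ_nonneg x y]
    · have : ρ x y = dist x.2 y.2 := if_pos h1
      linarith [g_le c x, g_nonneg c y, not_lt.mp h2]
  · have : ρ x y = 2 := if_neg h1
    linarith [g_le c x, g_nonneg c y, (hpow c.1.length).2]

inductive Z : Type
  | pt : Pt → Z
  | ce : List ℕ × ℝ → Z

open Classical in
noncomputable def dZ : Z → Z → ℝ
  | .pt x, .pt y => ρ x y
  | .pt x, .ce c => 2 + g c x
  | .ce c, .pt x => 2 + g c x
  | .ce c, .ce c' => if c = c' then 0 else 3

noncomputable instance : MetricSpace Z where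
  dist := dZ
  dist_self := by
    rintro (x | c)
    · simp [dZ, ρ, PiNat.dist_self]
    · simp [dZ]
  dist_comm := by
    rintro (x | c) (y | c')
    · exact ρ_comm x y
    · rfl
    · rfl
    · simp only [dZ, eq_comm]
  dist_triangle := by
    rintro (x | c) (y | c') (z | c'') <;> simp only [dZ]
    · exact ρ_tri x y z
    · linarith [g_lip c'' x y]
    · linarith [ρ_le x z, g_nonneg c' x, g_nonneg c' z]
    · split_ifs with h
      · rw [h, add_zero]
      · linarith [g_le c'' x, (hpow c''.1.length).2, g_nonneg c' x]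
    · linarith [g_lip c z y, ρ_comm y z]
    · split_ifs <;> linarith [g_nonneg c y, g_nonneg c'' y]
    · split_ifs with h
      · rw [h, zero_add]
      · linarith [g_le c z, (hpow c.1.length).2, g_nonneg c' z]
    · split_ifs with h1 h2 h3 h4 h5 h6 h7 <;> first | linarith | exact absurd (h5.trans h6) h1
  eq_of_dist_eq_zero := by
    rintro (x | c) (y | c') h <;> simp only [dZ] at h
    · by_cases h1 : x.1 = y.1
      · rw [ρ, if_pos h1] at h
        rw [Prod.ext h1 (PiNat.eq_of_dist_eq_zero _ _ h)]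
      · rw [ρ, if_neg h1] at h
        norm_num at h
    · linarith [g_nonneg c' x]
    · linarith [g_nonneg c y]
    · split_ifs at h with h1
      · rw [h1]
      · norm_num at h

lemma d_pp (x y : Pt) : dist (Z.pt x) (Z.pt y) = ρ x y := rfl
lemma d_pc (x : Pt) (c : List ℕ × ℝ) : dist (Z.pt x) (Z.ce c) = 2 + g c x := rfl
lemma d_cp (x : Pt) (c : List ℕ × ℝ) : dist (Z.ce c) (Z.pt x) = 2 + g c x := rfl
lemma d_cc {c c' : List ℕ × ℝ} (h : c ≠ c') : dist (Z.ce c) (Z.ce c') = 3 := if_neg h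

lemma near_pt {x : Pt} {z : Z} (h : dist (Z.pt x) z < 2) :
    ∃ y, z = Z.pt (x.1, y) ∧ dist (Z.pt x) z = dist x.2 y := by
  rcases z with y | c
  · rw [d_pp] at h ⊢
    by_cases h1 : x.1 = y.1
    · exact ⟨y.2, by rw [h1], if_pos h1⟩
    · rw [ρ, if_neg h1] at h
      exact absurd h (lt_irrefl _)
  · rw [d_pc] at h
    linarith [g_nonneg c x]

lemma near_ce {c : List ℕ × ℝ} {z : Z} (h : dist (Z.ce c) z < 2) : z = Z.ce c := by
  rcases z with y | c'
  · rw [d_cp] at h
    linarith [g_nonneg c y]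
  · by_contra h1
    rw [d_cc fun h2 => h1 (by rw [h2])] at h
    linarith

theorem baseZ : BaseCompact Z := by
  classical
  refine ⟨inferInstance, {U | ∃ z n, U = ball z ((1 / 2 : ℝ) ^ (n : ℕ))}, ?_, fun C hC hne hc => ?_⟩
  · apply TopologicalSpace.isTopologicalBasis_of_isOpen_of_nhds
    · rintro _ ⟨z, n, rfl⟩
      exact isOpen_ball
    · intro z U hz hU
      obtain ⟨ε, hε, h⟩ := Metric.isOpen_iff.mp hU z hz
      obtain ⟨n, hn⟩ := exists_pow_lt_of_lt_one hε (show (1 / 2 : ℝ) < 1 by norm_num)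
      exact ⟨_, ⟨z, n, rfl⟩, mem_ball_self (hpow n).1, (ball_subset_ball hn.le).trans h⟩
  · have hC' : ∀ U : C, ∃ z n, U.1 = ball z ((1 / 2 : ℝ) ^ (n : ℕ)) := fun U => hC U.2
    choose z n hzn using hC'
    have h2 : ∀ U V : C, ∃ w, dist (z U) w < (1 / 2) ^ n U ∧ dist (z V) w < (1 / 2) ^ n V := by
      intro U V
      obtain ⟨w, hw⟩ := hc {U.1, V.1} (by
        rintro _ (rfl | rfl)
        exacts [U.2, V.2]) (toFinite _)
      exact ⟨w, mem_ball'.mp (hzn U ▸ hw _ (Or.inl rfl)),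
        mem_ball'.mp (hzn V ▸ hw _ (Or.inr rfl))⟩
    have key : ∃ w, ∀ U : C, dist (z U) w < (1 / 2) ^ n U := by
      by_cases h : ∃ U c, z U = Z.ce c
      · obtain ⟨U, c, h⟩ := h
        refine ⟨Z.ce c, fun V => ?_⟩
        obtain ⟨w, h3, h4⟩ := h2 U V
        rw [h] at h3
        rwa [near_ce (h3.trans_le ((hpow _).2.trans one_le_two))] at h4
      · have h3 : ∀ U, ∃ x, z U = Z.pt x := by
          intro U
          rcases hz : z U with x | c
          · exact ⟨x, rfl⟩
          · exact absurd ⟨U, c, hz⟩ h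
        choose x hx using h3
        have h4 : ∀ U V : C, (x U).1 = (x V).1 ∧ ∀ i ≤ n U, i ≤ n V → (x U).2 i = (x V).2 i := by
          intro U V
          obtain ⟨w, h3, h4⟩ := h2 U V
          rw [hx] at h3 h4
          obtain ⟨y, h5, h6⟩ := near_pt (h3.trans_le ((hpow _).2.trans one_le_two))
          obtain ⟨y', h7, h8⟩ := near_pt (h4.trans_le ((hpow _).2.trans one_le_two))
          obtain ⟨h9, rfl⟩ := Prod.mk.inj (Z.pt.inj (h5.symm.trans h7))
          rw [h6] at h3
          rw [h8] at h4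
          exact ⟨h9, fun i hi hi' =>
            (PiNat.apply_eq_of_dist_lt h3 hi).trans (PiNat.apply_eq_of_dist_lt h4 hi').symm⟩
        obtain ⟨U0, hU0⟩ := hne
        let y : ℕ → ℕ := fun i => if h : ∃ V : C, i ≤ n V then (x h.choose).2 i else 0
        refine ⟨Z.pt ((x ⟨U0, hU0⟩).1, y), fun U => ?_⟩
        rw [hx, d_pp, ρ, if_pos (h4 _ _).1]
        have h5 : (x U).2 ∈ PiNat.cylinder y (n U + 1) := by
          intro i hi
          have h6 : ∃ V : C, i ≤ n V := ⟨U, by omega⟩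
          simp only [y, dif_pos h6]
          exact (h4 _ _).2 i (by omega) h6.choose_spec
        refine (PiNat.mem_cylinder_iff_dist_le.mp h5).trans_lt ?_
        rw [pow_succ]
        linarith [(hpow (n U)).1]
    obtain ⟨w, hw⟩ := key
    exact ⟨w, mem_iInter₂.mpr fun U hU => subset_closure
      ((hzn ⟨U, hU⟩).symm ▸ mem_ball'.mpr (hw ⟨U, hU⟩) : w ∈ (⟨U, hU⟩ : C).1)⟩

lemma commit {X : Type} [MetricSpace X] {A : Hyp X} {U : Set (Hyp X)} (hU : U ∈ 𝓝 A) :
    ∃ (E : Set X) (ε : ℝ), E.Finite ∧ E ⊆ A.1 ∧ 0 < ε ∧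
      ∀ B : Hyp X, B.1 ⊆ A.1 → (∀ a ∈ E, ∃ b ∈ B.1, dist a b < ε) → B ∈ U := by
  obtain ⟨F, ε, hF, hε, h⟩ := basic hU
  have h4 : ∀ x, ∃ a ∈ A.1, dist x a < infDist x A.1 + ε / 2 := fun x =>
    (infDist_lt_iff A.2.2).mp (by linarith)
  choose a ha1 ha2 using h4
  refine ⟨a '' F, ε / 2, F.finite_toSet.image a, ?_, by linarith, fun B h1 h2 => h B fun x hx =>
    abs_lt.mpr ⟨by linarith [infDist_le_infDist_of_subset (x := x) h1 B.2.2], ?_⟩⟩
  · rintro _ ⟨x, -, rfl⟩
    exact ha1 x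
  · obtain ⟨b, hb, h3⟩ := h2 _ ⟨x, hx, rfl⟩
    linarith [infDist_le_dist_of_mem (x := x) hb, dist_triangle x (a x) b, ha2 x]

lemma ce_far {c c' : List ℕ × ℝ} (h : c ≠ c') :
    2 + (1 / 2 : ℝ) ^ c.1.length ≤ dist (Z.ce c) (Z.ce c') := by
  rw [d_cc h]
  linarith [(hpow c.1.length).2]

noncomputable def AA (c : List ℕ × ℝ) : Hyp Z :=
  ⟨{z | 2 + (1 / 2 : ℝ) ^ c.1.length ≤ dist (Z.ce c) z},
    isClosed_le continuous_const (continuous_const.dist continuous_id),
    Z.ce (c.1, c.2 + 1), ce_far fun h => by simpa using congrArg Prod.snd h⟩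

def val : Z → List ℕ → ℝ
  | .pt x, v => x.1 v
  | .ce c, _ => c.2

def len : Z → ℕ
  | .pt _ => 0
  | .ce c => c.1.length

theorem not_base : ¬ BaseCompact (Hyp Z) := by
  rintro ⟨-, Q, hQ, hc⟩
  have h1 : ∀ c : List ℕ × ℝ, ∃ W ∈ Q, AA c ∈ W ∧
      W ⊆ {B | 2 + (1 / 2 : ℝ) ^ c.1.length / 2 < infDist (Z.ce c) B.1} := fun c =>
    hQ.exists_subset_of_mem_open (by
      have := (le_infDist (AA c).2.2).mpr fun _ h => h
      rw [mem_ofPred_eq]
      linarith [(hpow c.1.length).1]) (isOpen_lt continuous_const (cont _))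
  choose W hW1 hW2 hW3 using h1
  choose E η hE1 hE2 hη hE3 using fun c => commit ((hQ.isOpen (hW1 c)).mem_nhds (hW2 c))
  obtain ⟨s, hs⟩ := free_list (fun v a v' => (fun z => val z v') '' E (v, a))
    fun _ _ _ => (hE1 _).image _
  let T : Hyp Z := ⟨univ, isClosed_univ, Z.ce ([], 0), trivial⟩
  obtain ⟨V, hV1, hV2, hV3⟩ := hQ.exists_subset_of_mem_open (a := T)
    (u := {B | infDist (Z.pt (s, 0)) B.1 < 3 / 2}) (by
      rw [mem_ofPred_eq, infDist_zero_of_mem (mem_univ _)]
      norm_num) (isOpen_lt (cont _) continuous_const)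
  obtain ⟨E', ε, hE'1, -, hε, hE'⟩ := commit ((hQ.isOpen hV1).mem_nhds hV2)
  obtain ⟨N1, hN1⟩ := exists_pow_lt_of_lt_one hε (show (1 / 2 : ℝ) < 1 by norm_num)
  obtain ⟨N2, hN2⟩ := (hE'1.image len).bddAbove
  let N := max N1 N2
  obtain ⟨B, hB⟩ := hc (insert V ((fun v => W (v, s v)) '' {v | v.length = N + 1})) (by
    rintro _ (rfl | ⟨v, -, rfl⟩)
    exacts [hV1, hW1 _]) (insert_nonempty _ _) (by
    intro D hD hfin
    obtain ⟨I, hI1, hI2, hI3⟩ := Set.Finite.exists_subset_finite_image_eq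
      (f := fun v => W (v, s v)) (s := {v : List ℕ | v.length = N + 1}) (hfin.sdiff (t := {V}))
      fun U hU => (hD hU.1).resolve_left hU.2
    let B : Hyp Z := ⟨⋂ v ∈ I, (AA (v, s v)).1, isClosed_biInter fun v _ => (AA _).2.1,
      Z.ce ([], 0), mem_iInter₂.mpr fun v hv => ce_far fun h => by
        have h2 : v.length = N + 1 := hI1 hv
        rw [(Prod.mk.inj h).1] at h2
        simp at h2⟩
    refine ⟨B, fun U hU => ?_⟩
    by_cases hUV : U = V
    · rw [hUV]
      refine hE' B (subset_univ _) ?_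
      rintro (x | c) ha
      · obtain ⟨m, hm⟩ := (hI2.image List.headI).exists_notMem
        refine ⟨Z.pt (x.1, Function.update x.2 N m), mem_iInter₂.mpr fun v hv => ?_, ?_⟩
        · have h2 : v.length = N + 1 := hI1 hv
          change _ ≤ 2 + g _ _
          rw [g, if_neg]
          rintro ⟨-, h3⟩
          refine hm ⟨v, hv, ?_⟩
          change PiNat.res (Function.update x.2 N m) v.length = v at h3
          rw [h2] at h3
          rw [← h3]
          simp
        · rw [d_pp, ρ, if_pos rfl, PiNat.dist_comm]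
          refine (PiNat.mem_cylinder_iff_dist_le.mp (PiNat.update_mem_cylinder _ _ _)).trans_lt ?_
          exact (pow_le_pow_of_le_one (by norm_num) (by norm_num) (le_max_left _ _)).trans_lt hN1
      · refine ⟨Z.ce c, mem_iInter₂.mpr fun v hv => ce_far fun h => ?_, by simpa using hε⟩
        have h2 : v.length = N + 1 := hI1 hv
        have h3 : c.1.length ≤ N2 := hN2 ⟨_, ha, rfl⟩
        rw [← h] at h3
        have : N2 ≤ N := le_max_right _ _
        simp only at h3
        omega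
    · obtain ⟨v, hv, rfl⟩ := hI3.symm.subset ⟨hU, hUV⟩
      refine hE3 _ B (biInter_subset_of_mem hv) fun a ha => ⟨a, mem_iInter₂.mpr fun v' hv' => ?_,
        by simpa using hη _⟩
      by_cases h : v = v'
      · exact h ▸ hE2 _ ha
      · have h2 : val a v' ≠ s v' := fun h' => hs v v' h ⟨a, ha, h'⟩
        rcases a with x | c
        · change _ ≤ 2 + g _ _
          rw [g, if_neg fun h' => h2 h'.1]
        · exact ce_far fun h' => h2 (congrArg Prod.snd h').symm)
  have h2 : infDist (Z.pt (s, 0)) B.1 ≤ 3 / 2 :=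
    closure_minimal (hV3.trans fun _ h => le_of_lt h) (isClosed_le (cont _) continuous_const)
      (mem_iInter₂.mp hB V (Or.inl rfl))
  obtain ⟨z, hz, h3⟩ := (infDist_lt_iff B.2.2).mp (show infDist (Z.pt (s, 0)) B.1 < 2 by linarith)
  obtain ⟨y, rfl, -⟩ := near_pt h3
  let v := PiNat.res y (N + 1)
  have h4 : 2 + (1 / 2 : ℝ) ^ v.length / 2 ≤ infDist (Z.ce (v, s v)) B.1 :=
    closure_minimal ((hW3 (v, s v)).trans fun _ h => le_of_lt h)
      (isClosed_le continuous_const (cont _))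
      (mem_iInter₂.mp hB _ (Or.inr ⟨v, PiNat.res_length _ _, rfl⟩))
  have h5 := infDist_le_dist_of_mem (x := Z.ce (v, s v)) hz
  rw [d_cp, g, if_pos ⟨rfl, by simp only [v, PiNat.res_length]⟩] at h5
  linarith [(hpow v.length).1]

end Pool.Agent.H7.Wijs
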