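import Mathlib

set_option autoImplicit false

namespace Pool.Agent.H7.Wijs

open Set Metric

/-- Nonempty closed subsets. -/
def Hyp (X : Type) [MetricSpace X] : Type := {A : Set X // IsClosed A ∧ A.Nonempty}

/-- The Wijsman topology: the weakest topology making every `A ↦ d(x, A)` continuous. -/
noncomputable instance wijsman (X : Type) [MetricSpace X] : TopologicalSpace (Hyp X) :=
  ⨅ x : X, TopologicalSpace.induced (fun A : Hyp X => infDist x A.1) inferInstance

/-- A family of nonempty open sets such that every nonempty open set contains a member. -/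
def IsPiBase {Y : Type} [TopologicalSpace Y] (P : Set (Set Y)) : Prop :=
  (∀ V ∈ P, IsOpen V ∧ V.Nonempty) ∧ ∀ U : Set Y, IsOpen U → U.Nonempty → ∃ V ∈ P, V ⊆ U

/-- Pseudocomplete: quasi-regular, with a complete sequence of open pi-bases. -/
def Pseudocomplete (Y : Type) [TopologicalSpace Y] : Prop :=
  (∀ U : Set Y, IsOpen U → U.Nonempty → ∃ V : Set Y, IsOpen V ∧ V.Nonempty ∧ closure V ⊆ U) ∧
    ∃ P : ℕ → Set (Set Y), (∀ n, IsPiBase (P n)) ∧
      ∀ V : ℕ → Set Y, (∀ n, V n ∈ P n) → (∀ n, closure (V (n + 1)) ⊆ V n) → (⋂ n, V n).Nonempty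

/-- Subcompact: regular, with a base all of whose regular filter bases have a common point. -/
def Subcompact (Y : Type) [TopologicalSpace Y] : Prop :=
  RegularSpace Y ∧ ∃ B : Set (Set Y), TopologicalSpace.IsTopologicalBasis B ∧
    ∀ F : Set (Set Y), F ⊆ B → F.Nonempty → (∀ U ∈ F, U.Nonempty) →
      (∀ U ∈ F, ∀ V ∈ F, ∃ W ∈ F, W ⊆ U ∩ V) → (∀ U ∈ F, ∃ V ∈ F, closure V ⊆ U) →
      (⋂₀ F).Nonempty

/-- Base-compact: regular, with a base in which the closures of the members of any centered
subfamily have a common point. -/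
def BaseCompact (Y : Type) [TopologicalSpace Y] : Prop :=
  RegularSpace Y ∧ ∃ B : Set (Set Y), TopologicalSpace.IsTopologicalBasis B ∧
    ∀ C : Set (Set Y), C ⊆ B → C.Nonempty →
      (∀ D : Set (Set Y), D ⊆ C → D.Finite → (⋂₀ D).Nonempty) → (⋂ U ∈ C, closure U).Nonempty

end Pool.Agent.H7.Wijs
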